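import Pool.Agent.Lib.MP_9708fd_lc.FForce

/-!
# The axioms of ZFC, forced

Each axiom is stated semantically for names.  `DB S p` (densely below `p`, `S`) is the forced
version of a disjunction or an existential quantifier.
-/

namespace MP9708F

universe u

variable {P : Type u} [Preorder P]

/-- Densely below `p`, `S` holds. -/
def DB (S : P → Prop) (p : P) : Prop := ∀ q ≤ p, ∃ r ≤ q, S r

theorem DB.reg' (S : P → Prop) : Reg (DB S) := Reg.dense

theorem DB.of {S : P → Prop} (hS : ∀ {p q : P}, q ≤ p → S p → S q) {p : P} (h : S p) : DB S p :=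
  fun q hq => ⟨q, le_rfl, hS hq h⟩

theorem DB.mono {S : P → Prop} {p q : P} (hq : q ≤ p) (h : DB S p) : DB S q :=
  (DB.reg' S).mono hq h

theorem DB.imp {S T : P → Prop} {p : P} (h : ∀ q ≤ p, S q → T q) (hS : DB S p) : DB T p := by
  intro q hq
  obtain ⟨r, hr, h'⟩ := hS q hq
  exact ⟨r, hr, h r (hr.trans hq) h'⟩

/-- An extensional predicate on names. -/
def Ext' (S : Nam P → P → Prop) : Prop := ∀ x y p, feq x y p → S x p → S y p

/-! ### Pairing -/

/-- The pair name `{x, y}`. -/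
def Nam.pair (x y : Nam P) : Nam P := ⟨ULift Bool, fun _ => ⊤, fun b => if b.down then x else y⟩

theorem fmem_pair {x y w : Nam P} {p : P} :
    fmem w (Nam.pair x y) p ↔ DB (fun q => feq w x q ∨ feq w y q) p := by
  constructor
  · intro h q hq
    obtain ⟨r, hr, ⟨j⟩, -, h2⟩ := h q hq
    refine ⟨r, hr, ?_⟩
    cases j
    · exact Or.inr h2
    · exact Or.inl h2
  · intro h q hq
    obtain ⟨r, hr, h2 | h2⟩ := h q hq
    · exact ⟨r, hr, ⟨true⟩, trivial, h2⟩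
    · exact ⟨r, hr, ⟨false⟩, trivial, h2⟩

/-! ### Union -/

/-- The union name. -/
def Nam.sUnion (x : Nam P) : Nam P :=
  ⟨Σ i : x.idx, (x.el i).idx, fun s => x.wt s.1 ⊓ (x.el s.1).wt s.2, fun s => (x.el s.1).el s.2⟩

theorem fmem_sUnion {x z : Nam P} {p : P} :
    fmem z (Nam.sUnion x) p ↔ DB (fun q => ∃ w, fmem w x q ∧ fmem z w q) p := by
  constructor
  · intro h q hq
    obtain ⟨r, hr, ⟨i, k⟩, ⟨h1, h2⟩, h3⟩ := h q hq
    exact ⟨r, hr, x.el i, fmem_of_wt h1, fmem_congr_left (feq_symm h3) (fmem_of_wt h2)⟩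
  · intro h q hq
    obtain ⟨r, hr, w, h1, h2⟩ := h q hq
    obtain ⟨s, hs, i, h3, h4⟩ := h1 r le_rfl
    obtain ⟨t, ht, k, h5, h6⟩ := fmem_congr_right h4 (fmem_mono hs h2) s le_rfl
    exact ⟨t, (ht.trans hs).trans hr, ⟨i, k⟩, ⟨(x.wt i).lower ht h3, h5⟩, h6⟩

/-! ### Power set -/

/-- The power set name. -/
def Nam.power (x : Nam P) : Nam P :=
  ⟨x.idx → LowerSet P, fun _ => ⊤, fun χ => ⟨x.idx, fun i => χ i ⊓ x.wt i, x.el⟩⟩

theorem fmem_power {x z : Nam P} {p : P} :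
    fmem z (Nam.power x) p ↔ ∀ w, ∀ q ≤ p, fmem w z q → fmem w x q := by
  constructor
  · intro h w q hq hw
    refine (fmemReg w x).reg fun r hr => ?_
    obtain ⟨s, hs, χ, -, h2⟩ := h r (hr.trans hq)
    obtain ⟨t, ht, i, h3, h4⟩ := fmem_congr_right h2 (fmem_mono (hs.trans hr) hw) s le_rfl
    exact ⟨t, ht.trans hs, fmem_congr_left (feq_symm h4) (fmem_of_wt h3.2)⟩
  · intro h q hq
    refine ⟨q, le_rfl, fun i => ⟨{r | fmem (x.el i) z r}, fun _ _ hba hb => fmem_mono hba hb⟩,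
      trivial, ?_⟩
    apply feq_of_fmem
    intro w r hr
    constructor
    · intro hw s hs
      obtain ⟨t, ht, i, h1, h2⟩ := h w r (hr.trans hq) hw s hs
      exact ⟨t, ht, i, ⟨fmem_congr_left h2 (fmem_mono (ht.trans hs) hw), h1⟩, h2⟩
    · intro hw
      refine (fmemReg w z).reg fun s hs => ?_
      obtain ⟨t, ht, i, ⟨h1, -⟩, h2⟩ := hw s hs
      exact ⟨t, ht, fmem_congr_left (feq_symm h2) h1⟩

/-! ### Separation -/

/-- The name `{z ∈ x | S z}`. -/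
def Nam.sep (x : Nam P) (S : Nam P → P → Prop) (hS : ∀ z, Reg (S z)) : Nam P :=
  ⟨x.idx, fun i => x.wt i ⊓ ⟨{p | S (x.el i) p}, fun _ _ h h' => (hS _).mono h h'⟩, x.el⟩

theorem fmem_sep {x : Nam P} {S : Nam P → P → Prop} {hS : ∀ z, Reg (S z)} (hext : Ext' S)
    {z : Nam P} {p : P} : fmem z (Nam.sep x S hS) p ↔ fmem z x p ∧ S z p := by
  constructor
  · intro h
    constructor
    · intro q hq
      obtain ⟨r, hr, i, ⟨h1, h2⟩, h3⟩ := h q hq
      exact ⟨r, hr, i, h1, h3⟩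
    · refine (hS z).reg fun q hq => ?_
      obtain ⟨r, hr, i, ⟨h1, h2⟩, h3⟩ := h q hq
      exact ⟨r, hr, hext _ _ _ (feq_symm h3) h2⟩
  · rintro ⟨h1, h2⟩ q hq
    obtain ⟨r, hr, i, h3, h4⟩ := h1 q hq
    exact ⟨r, hr, i, ⟨h3, hext _ _ _ h4 ((hS z).mono (hr.trans hq) h2)⟩, h4⟩

/-! ### Collection -/

theorem exists_collection (x : Nam P) (S : Nam P → Nam P → P → Prop) (hS : ∀ y z, Reg (S y z))
    (hext1 : ∀ z, Ext' (fun y => S y z)) (hext2 : ∀ y, Ext' (S y)) :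
    ∃ t, ∀ p y, fmem y x p → DB (fun q => ∃ z, S y z q) p →
      DB (fun q => ∃ z, fmem z t q ∧ S y z q) p := by
  have h : ∀ i : x.idx, ∃ z, ∀ p, (∀ q ≤ p, ∃ r ≤ q, ∃ z, S (x.el i) z r) → S (x.el i) z p :=
    fun i => fullness' (S (x.el i)) (hS _) (hext2 _)
  choose g hg using h
  refine ⟨⟨x.idx, fun _ => ⊤, g⟩, fun p y hy hz q hq => ?_⟩
  obtain ⟨r, hr, i, h1, h2⟩ := hy q hq
  refine ⟨r, hr, g i, ?_, ?_⟩
  · exact fmem_of_wt (y := (⟨x.idx, fun _ => ⊤, g⟩ : Nam P)) (j := i) trivial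
  · refine hext1 (g i) _ _ _ (feq_symm h2) (hg i r ?_)
    intro s hs
    obtain ⟨t, ht, z, h3⟩ := hz s ((hs.trans hr).trans hq)
    exact ⟨t, ht, z, hext1 z _ _ _ (feq_mono (ht.trans hs) h2) h3⟩

/-! ### Foundation -/

theorem foundation_forced (x : Nam P) (p : P) (h : DB (fun q => ∃ y, fmem y x q) p) :
    DB (fun q => ∃ y, fmem y x q ∧ ∀ z, ∀ r ≤ q, fmem z y r → ¬ fmem z x r) p := by
  intro q hq
  by_contra hcon
  push Not at hcon
  have key : ∀ y : Nam P, ∀ r ≤ q, ¬ fmem y x r := by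
    intro y
    induction y with
    | mk ι w e ih =>
      intro r hr hy
      obtain ⟨z, s, hs, h1, h2⟩ := hcon r hr _ hy
      obtain ⟨t, ht, j, -, h4⟩ := h1 s le_rfl
      exact ih j t ((ht.trans hs).trans hr) (fmem_congr_left h4 (fmem_mono ht h2))
  obtain ⟨r, hr, y, hy⟩ := h q hq
  exact key y r hr hy

/-! ### Infinity -/

/-- The name `y ∪ {y}`. -/
def Nam.succ (y : Nam P) : Nam P :=
  ⟨Option y.idx, fun o => o.elim ⊤ y.wt, fun o => o.elim y y.el⟩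

theorem fmem_succ {y w : Nam P} {p : P} :
    fmem w (Nam.succ y) p ↔ DB (fun q => fmem w y q ∨ feq w y q) p := by
  constructor
  · intro h q hq
    obtain ⟨r, hr, o, h1, h2⟩ := h q hq
    refine ⟨r, hr, ?_⟩
    cases o with
    | none => exact Or.inr h2
    | some j => exact Or.inl (fmem_congr_left (feq_symm h2) (fmem_of_wt h1))
  · intro h q hq
    obtain ⟨r, hr, h1 | h1⟩ := h q hq
    · obtain ⟨s, hs, j, h2, h3⟩ := h1 r le_rfl
      exact ⟨s, hs.trans hr, some j, h2, h3⟩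
    · exact ⟨r, hr, none, trivial, h1⟩

theorem feq_succ {y y' : Nam P} {p : P} (h : feq y y' p) :
    feq (Nam.succ y) (Nam.succ y') p := by
  apply feq_of_fmem
  intro z q hq
  rw [fmem_succ, fmem_succ]
  constructor
  · refine DB.imp fun r hr h' => ?_
    rcases h' with h' | h'
    · exact Or.inl (fmem_congr_right (feq_mono (hr.trans hq) h) h')
    · exact Or.inr (feq_trans h' (feq_mono (hr.trans hq) h))
  · refine DB.imp fun r hr h' => ?_
    rcases h' with h' | h'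
    · exact Or.inl (fmem_congr_right (feq_symm (feq_mono (hr.trans hq) h)) h')
    · exact Or.inr (feq_trans h' (feq_symm (feq_mono (hr.trans hq) h)))

/-- The finite ordinals. -/
def Nam.fin : ℕ → Nam P
  | 0 => Nam.empty
  | n + 1 => Nam.succ (Nam.fin n)

/-- The name `ω`. -/
def Nam.omega : Nam P := ⟨ULift ℕ, fun _ => ⊤, fun n => Nam.fin n.down⟩

theorem not_fmem_empty (z : Nam P) (p : P) : ¬ fmem z Nam.empty p := by
  intro h
  obtain ⟨r, hr, j, -⟩ := h p le_rfl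
  exact j.elim

theorem fmem_omega_fin (n : ℕ) (p : P) : fmem (Nam.fin n) Nam.omega p :=
  fmem_of_wt (y := Nam.omega) (j := ⟨n⟩) trivial

theorem infinity_forced : (∀ p : P, fmem Nam.empty Nam.omega p) ∧
    ∀ (y : Nam P) (p : P), fmem y Nam.omega p → fmem (Nam.succ y) Nam.omega p := by
  refine ⟨fun p => fmem_omega_fin 0 p, fun y p h => ?_⟩
  refine (fmemReg _ _).reg fun q hq => ?_
  obtain ⟨r, hr, ⟨n⟩, -, h2⟩ := h q hq
  exact ⟨r, hr, fmem_congr_left (feq_symm (feq_succ h2)) (fmem_omega_fin (n + 1) r)⟩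

/-! ### Choice -/

theorem choice_forced (x : Nam P) : ∃ c : Nam P, ∀ p : P,
    (∀ y, ∀ q ≤ p, fmem y x q → DB (fun r => ∃ z, fmem z y r) q) →
    (∀ y z w, ∀ q ≤ p, fmem y x q → fmem z x q → fmem w y q → fmem w z q → feq y z q) →
    ∀ y, ∀ q ≤ p, fmem y x q → DB (fun r => ∃ z, (fmem z c r ∧ fmem z y r) ∧
      ∀ z', ∀ s ≤ r, fmem z' c s → fmem z' y s → feq z' z s) q := by
  classical
  set I : Type u := Σ i : x.idx, (x.el i).idx with hI
  set e : I → Nam P := fun s => (x.el s.1).el s.2 with he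
  let lt : I → I → Prop := WellOrderingRel
  have hwf : WellFounded lt := WellOrderingRel.isWellOrder.wf
  -- `s` is the least index of an element of `y`
  set L : Nam P → I → P → Prop := fun y s p =>
    fmem (e s) y p ∧ ∀ s', lt s' s → ∀ q ≤ p, ¬ fmem (e s') y q with hL
  have hLmono : ∀ y s {p q}, q ≤ p → L y s p → L y s q := fun y s p q hqp h =>
    ⟨fmem_mono hqp h.1, fun s' hs' r hr => h.2 s' hs' r (hr.trans hqp)⟩
  have hLcongr : ∀ y y' s p, feq y y' p → L y s p → L y' s p := fun y y' s p h h' =>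
    ⟨fmem_congr_right h h'.1, fun s' hs' r hr hm =>
      h'.2 s' hs' r hr (fmem_congr_right (feq_symm (feq_mono hr h)) hm)⟩
  have hLuniq : ∀ y s s' p, L y s p → L y s' p → s = s' := by
    intro y s s' p h h'
    have htri : lt s s' ∨ s = s' ∨ lt s' s := trichotomous_of WellOrderingRel s s'
    rcases htri with h1 | h1 | h1
    · exact absurd h.1 (h'.2 s h1 p le_rfl)
    · exact h1
    · exact absurd h'.1 (h.2 s' h1 p le_rfl)
  set c : Nam P := ⟨I, fun s => ⟨{p | ∃ y, fmem y x p ∧ L y s p}, by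
    rintro p q hqp ⟨y, h1, h2⟩
    exact ⟨y, fmem_mono hqp h1, hLmono y s hqp h2⟩⟩, e⟩ with hc
  refine ⟨c, fun p hne hdis y q hq hy q₀ hq₀ => ?_⟩
  -- find an index of an element of `y`
  have hex : ∃ s : I, ∃ r ≤ q₀, fmem (e s) y r := by
    obtain ⟨r, hr, z, hz⟩ := hne y q₀ (hq₀.trans hq) (fmem_mono hq₀ hy) q₀ le_rfl
    obtain ⟨s, hs, i, h1, h2⟩ := hy r (hr.trans hq₀)
    obtain ⟨t, ht, k, h3, h4⟩ := fmem_congr_right h2 (fmem_mono hs hz) s le_rfl
    exact ⟨⟨i, k⟩, t, (ht.trans hs).trans hr,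
      fmem_congr_left h4 (fmem_mono (ht.trans hs) hz)⟩
  obtain ⟨s, ⟨r, hr, hsr⟩, hmin⟩ := hwf.has_min {s : I | ∃ r ≤ q₀, fmem (e s) y r} hex
  have hLs : L y s r := ⟨hsr, fun s' hs' t ht hm => hmin s' ⟨t, ht.trans hr, hm⟩ hs'⟩
  have hyr : fmem y x r := fmem_mono (hr.trans hq₀) hy
  refine ⟨r, hr, e s, ⟨fmem_of_wt (y := c) (j := s) ⟨y, hyr, hLs⟩, hsr⟩, ?_⟩
  intro z' t ht hz' hz'y
  refine (feqReg _ _).reg fun t₁ ht₁ => ?_
  obtain ⟨t₂, ht₂, s', ⟨y', h1, h2⟩, h3⟩ := hz' t₁ ht₁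
  have ht₂' : t₂ ≤ r := (ht₂.trans ht₁).trans ht
  have h4 : feq y y' t₂ := by
    refine hdis y y' z' t₂ (((ht₂'.trans hr).trans hq₀).trans hq) (fmem_mono ht₂' hyr) h1
      (fmem_mono (ht₂.trans ht₁) hz'y) (fmem_congr_left (feq_symm h3) h2.1)
  have h5 : s' = s := hLuniq y' s' s t₂ h2 (hLcongr _ _ _ _ h4 (hLmono _ _ ht₂' hLs))
  subst h5
  exact ⟨t₂, ht₂, h3⟩

end MP9708F
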