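import Pool.Agent.Lib.MP_9708fd_lc.FLos

/-!
# A model of ZFC from a notion of forcing

For every nonempty preorder `P` there are a model `(M, E)` of ZFC and a surjection `i` from the
`P`-names onto `M` such that every formula forced by all conditions holds in `(M, E)`.
-/

namespace MP9708F

universe u

variable {P : Type u} [Preorder P]

/-- Implication. -/
def SetFormula.imp (φ ψ : SetFormula) : SetFormula := .neg (.and φ (.neg ψ))

theorem forces_imp {φ ψ : SetFormula} {v : ℕ → Nam P} {p : P} :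
    (φ.imp ψ).Forces v p ↔ ∀ q ≤ p, φ.Forces v q → ψ.Forces v q := by
  constructor
  · intro h q hq hφ
    refine Forces_reg fun r hr => ?_
    by_contra hc
    push Not at hc
    exact h r (hr.trans hq) ⟨Forces_mono hr hφ, hc⟩
  · rintro h q hq ⟨hφ, hψ⟩
    exact hψ q le_rfl (h q hq hφ)

theorem holds_imp {M : Type*} {E : M → M → Prop} {φ ψ : SetFormula} {v : ℕ → M} :
    (φ.imp ψ).Holds E v ↔ (φ.Holds E v → ψ.Holds E v) := by
  have h : (φ.imp ψ).Holds E v ↔ ¬ (φ.Holds E v ∧ ¬ ψ.Holds E v) := Iff.rfl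
  rw [h]
  tauto

/-- Extensionality for names. -/
theorem feq_of_sub {x y : Nam P} {p : P} (h : ∀ z, ∀ q ≤ p, fmem z x q → fmem z y q)
    (h' : ∀ z, ∀ q ≤ p, fmem z y q → fmem z x q) : feq x y p :=
  feq_of_fmem fun z q hq => ⟨h z q hq, h' z q hq⟩

variable [Nonempty P]

theorem ME_wt {x y : Nam P} : ME (cls x) (cls y) ↔
    ∀ᶠ p in (genU P : Filter P), ∃ j, p ∈ y.wt j ∧ feq x (y.el j) p := by
  rw [ME_cls]
  exact gen_reg fun p ⟨j, hj, h⟩ q hq => ⟨j, (y.wt j).lower hq hj, feq_mono hq h⟩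

/-- Universal statements with a premise. -/
theorem los_imp (φ ψ : SetFormula) (v : ℕ → Nam P) :
    (∀ x : Mod P, φ.Holds ME (push x fun n => cls (v n)) →
      ψ.Holds ME (push x fun n => cls (v n))) ↔
      ∀ᶠ p in (genU P : Filter P), ∀ x, ∀ q ≤ p, φ.Forces (push x v) q →
        ψ.Forces (push x v) q := by
  have h := los (.all (φ.imp ψ)) v
  have h1 : (SetFormula.all (φ.imp ψ)).Holds ME (fun n => cls (v n)) ↔
      ∀ x : Mod P, φ.Holds ME (push x fun n => cls (v n)) →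
        ψ.Holds ME (push x fun n => cls (v n)) := forall_congr' fun x => holds_imp
  rw [← h1, h]
  refine Filter.eventually_congr (Filter.Eventually.of_forall fun p => ?_)
  exact forall_congr' fun x => forces_imp

/-- Inclusion. -/
theorem los_sub {x y : Nam P} : (∀ z, ME z (cls x) → ME z (cls y)) ↔
    ∀ᶠ p in (genU P : Filter P), ∀ z, ∀ q ≤ p, fmem z x q → fmem z y q :=
  los_imp (.mem 0 1) (.mem 0 2) (push x fun _ => y)

theorem ax_ext (x y : Mod P) (h : ∀ z, ME z x ↔ ME z y) : x = y := by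
  obtain ⟨x, rfl⟩ := cls_surj x
  obtain ⟨y, rfl⟩ := cls_surj y
  rw [cls_eq]
  have h1 := los_sub.1 fun z => (h z).1
  have h2 := los_sub.1 fun z => (h z).2
  filter_upwards [h1, h2] with p hp hp' using feq_of_sub hp hp'

theorem ax_found (x : Mod P) (hx : ∃ y, ME y x) : ∃ y, ME y x ∧ ∀ z, ME z y → ¬ ME z x := by
  obtain ⟨x, rfl⟩ := cls_surj x
  by_contra hc
  push Not at hc
  have h1 : ∀ᶠ p in (genU P : Filter P), ∀ y, ∀ q ≤ p, fmem y x q →
      ∀ r ≤ q, ¬ ∀ z, ∀ s ≤ r, ¬ (fmem z y s ∧ fmem z x s) := by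
    refine (los_imp (.mem 0 1) (.neg (.all (.neg (.and (.mem 0 1) (.mem 0 2)))))
      (fun _ => x)).1 fun y hy => ?_
    obtain ⟨z, hz, hz'⟩ := hc y hy
    exact fun h => h z ⟨hz, hz'⟩
  obtain ⟨y, hy⟩ := hx
  obtain ⟨y, rfl⟩ := cls_surj y
  have h2 : ∀ᶠ p in (genU P : Filter P), False := by
    filter_upwards [h1, ME_cls.1 hy] with p hp hp'
    have h3 : ∀ y : Nam P, ∀ q ≤ p, ¬ fmem y x q := by
      intro y
      induction y with
      | mk ι w a ih =>
        intro q hq hyq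
        have h4 := hp _ q hq hyq q le_rfl
        push Not at h4
        obtain ⟨z, s, hs, hz, hz'⟩ := h4
        obtain ⟨r, hr, j, hj, hj'⟩ := hz s le_rfl
        exact ih j r (hr.trans (hs.trans hq)) (fmem_congr hj' (feq_refl x r) (fmem_mono hr hz'))
    exact h3 y p le_rfl hp'
  rw [Filter.eventually_false_iff_eq_bot] at h2
  exact (genU P).neBot.ne h2

theorem ax_pair (x y : Mod P) : ∃ z, ∀ w, ME w z ↔ w = x ∨ w = y := by
  obtain ⟨x, rfl⟩ := cls_surj x
  obtain ⟨y, rfl⟩ := cls_surj y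
  refine ⟨cls ⟨ULift Bool, fun _ => ⊤, fun b => if b.down then x else y⟩, fun w => ?_⟩
  obtain ⟨w, rfl⟩ := cls_surj w
  rw [ME_wt, cls_eq, cls_eq, ← Ultrafilter.eventually_or]
  refine Filter.eventually_congr (Filter.Eventually.of_forall fun p => ?_)
  constructor
  · rintro ⟨⟨b⟩, -, h⟩
    cases b
    · exact Or.inr h
    · exact Or.inl h
  · rintro (h | h)
    · exact ⟨⟨true⟩, trivial, h⟩
    · exact ⟨⟨false⟩, trivial, h⟩

theorem ax_union (x : Mod P) : ∃ y, ∀ z, ME z y ↔ ∃ w, ME w x ∧ ME z w := by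
  obtain ⟨x, rfl⟩ := cls_surj x
  refine ⟨cls ⟨Σ i : x.idx, (x.el i).idx, fun k => x.wt k.1 ⊓ (x.el k.1).wt k.2,
    fun k => (x.el k.1).el k.2⟩, fun z => ?_⟩
  obtain ⟨z, rfl⟩ := cls_surj z
  have h1 : (∃ w, ME w (cls x) ∧ ME (cls z) w) ↔
      ∀ᶠ p in (genU P : Filter P), ∃ w, fmem w x p ∧ fmem z w p :=
    los_ex (.and (.mem 0 1) (.mem 2 0)) (push x fun _ => z)
  rw [h1, ME_wt]
  constructor
  · intro h
    filter_upwards [h] with p
    rintro ⟨⟨i, j⟩, ⟨hi, hj⟩, hz⟩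
    exact ⟨x.el i, fmem_of_wt hi, fmem_congr (feq_symm hz) (feq_refl _ p) (fmem_of_wt hj)⟩
  · intro h
    refine (gen_reg fun p ⟨k, hk, h⟩ q hq => ⟨k, ⟨(x.wt k.1).lower hq hk.1,
      ((x.el k.1).wt k.2).lower hq hk.2⟩, feq_mono hq h⟩).1 ?_
    filter_upwards [h] with p
    rintro ⟨w, hw, hz⟩ q hq
    obtain ⟨r, hr, i, hi, hi'⟩ := hw q hq
    obtain ⟨s, hs, j, hj, hj'⟩ := fmem_congr (feq_refl z r) hi' (fmem_mono (hr.trans hq) hz) r
      le_rfl
    exact ⟨s, hs.trans hr, ⟨i, j⟩, ⟨(x.wt i).lower hs hi, hj⟩, hj'⟩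

theorem ax_pow (x : Mod P) : ∃ y, ∀ z, ME z y ↔ ∀ w, ME w z → ME w x := by
  obtain ⟨x, rfl⟩ := cls_surj x
  refine ⟨cls ⟨x.idx → LowerSet P, fun _ => ⊤, fun A => ⟨x.idx, fun i => A i ⊓ x.wt i, x.el⟩⟩,
    fun z => ?_⟩
  obtain ⟨z, rfl⟩ := cls_surj z
  rw [ME_wt, los_sub]
  refine Filter.eventually_congr (Filter.Eventually.of_forall fun p => ?_)
  constructor
  · rintro ⟨A, -, hA⟩ w q hq hw
    intro r hr
    obtain ⟨s, hs, j, hj, hj'⟩ := fmem_congr (feq_refl w q) (feq_mono hq hA) hw r hr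
    exact ⟨s, hs, j, hj.2, hj'⟩
  · intro h
    refine ⟨fun i => ⟨{q | fmem (x.el i) z q}, fun a b hba ha => fmem_mono hba ha⟩, trivial, ?_⟩
    refine feq_of_sub (fun w q hq hw => ?_) fun w q hq hw => ?_
    · intro r hr
      obtain ⟨s, hs, j, hj, hj'⟩ := h w q hq hw r hr
      exact ⟨s, hs, j, ⟨fmem_congr hj' (feq_refl z s) (fmem_mono (hs.trans hr) hw), hj⟩, hj'⟩
    · refine fmem_reg fun r hr => ?_
      obtain ⟨s, hs, j, hj, hj'⟩ := hw r hr
      exact ⟨s, hs, fmem_congr (feq_symm hj') (feq_refl z s) hj.1⟩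

/-- The name for `x ∪ {x}`. -/
def succN (x : Nam P) : Nam P :=
  ⟨Option x.idx, fun i => i.elim ⊤ x.wt, fun i => i.elim x x.el⟩

omit [Nonempty P] in
theorem fmem_succN {w x : Nam P} {p : P} :
    fmem w (succN x) p ↔ ∀ q ≤ p, ∃ r ≤ q, fmem w x r ∨ feq w x r := by
  constructor
  · intro h q hq
    obtain ⟨r, hr, j, hj, hj'⟩ := h q hq
    refine ⟨r, hr, ?_⟩
    rcases j with _ | j
    · exact Or.inr hj'
    · exact Or.inl (fmem_congr (feq_symm hj') (feq_refl x r) (fmem_of_wt hj))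
  · intro h q hq
    obtain ⟨r, hr, h1 | h1⟩ := h q hq
    · obtain ⟨s, hs, j, hj, hj'⟩ := h1 r le_rfl
      exact ⟨s, hs.trans hr, some j, hj, hj'⟩
    · exact ⟨r, hr, none, trivial, h1⟩

omit [Nonempty P] in
theorem succN_congr {x y : Nam P} {p : P} (h : feq x y p) : feq (succN x) (succN y) p := by
  refine feq_of_sub (fun z q hq hz => ?_) fun z q hq hz => ?_
  · rw [fmem_succN] at hz ⊢
    intro r hr
    obtain ⟨s, hs, h1 | h1⟩ := hz r hr
    · exact ⟨s, hs, Or.inl (fmem_congr (feq_refl z s) (feq_mono (hs.trans (hr.trans hq)) h) h1)⟩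
    · exact ⟨s, hs, Or.inr (feq_trans h1 (feq_mono (hs.trans (hr.trans hq)) h))⟩
  · rw [fmem_succN] at hz ⊢
    intro r hr
    have h' := feq_symm h
    obtain ⟨s, hs, h1 | h1⟩ := hz r hr
    · exact ⟨s, hs, Or.inl (fmem_congr (feq_refl z s) (feq_mono (hs.trans (hr.trans hq)) h') h1)⟩
    · exact ⟨s, hs, Or.inr (feq_trans h1 (feq_mono (hs.trans (hr.trans hq)) h'))⟩

theorem ME_succN {w : Mod P} {x : Nam P} :
    ME w (cls (succN x)) ↔ ME w (cls x) ∨ w = cls x := by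
  obtain ⟨w, rfl⟩ := cls_surj w
  rw [ME_cls, ME_cls, cls_eq, ← Ultrafilter.eventually_or]
  have h1 : (∀ᶠ p in (genU P : Filter P), fmem w (succN x) p) ↔
      ∀ᶠ p in (genU P : Filter P), ∀ q ≤ p, ∃ r ≤ q, fmem w x r ∨ feq w x r :=
    Filter.eventually_congr (Filter.Eventually.of_forall fun p => fmem_succN)
  rw [h1]
  exact gen_reg fun p hp q hq => hp.imp (fmem_mono hq) (feq_mono hq)

/-- The name of the natural number `n`. -/
def natN : ℕ → Nam P
  | 0 => ⟨PEmpty, fun i => i.elim, fun i => i.elim⟩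
  | n + 1 => succN (natN n)

theorem ax_inf : ∃ x : Mod P, (∃ y, ME y x ∧ ∀ z, ¬ ME z y) ∧
    ∀ y, ME y x → ∃ z, ME z x ∧ ∀ w, ME w z ↔ ME w y ∨ w = y := by
  refine ⟨cls ⟨ULift ℕ, fun _ => ⊤, fun n => natN n.down⟩, ⟨cls (natN 0), ?_, ?_⟩, ?_⟩
  · rw [ME_wt]
    exact Filter.Eventually.of_forall fun p => ⟨⟨0⟩, trivial, feq_refl _ p⟩
  · intro z hz
    obtain ⟨z, rfl⟩ := cls_surj z
    rw [ME_wt] at hz
    obtain ⟨p, ⟨j⟩, -⟩ := hz.exists
  · intro y hy
    obtain ⟨y, rfl⟩ := cls_surj y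
    refine ⟨cls (succN y), ?_, fun w => ME_succN⟩
    rw [ME_wt] at hy ⊢
    filter_upwards [hy] with p
    rintro ⟨⟨n⟩, -, hn⟩
    exact ⟨⟨n + 1⟩, trivial, succN_congr hn⟩

theorem ax_sep (φ : SetFormula) (v : ℕ → Mod P) (x : Mod P) : ∃ y, ∀ z, ME z y ↔
    ME z x ∧ φ.Holds ME (push z v) := by
  obtain ⟨x, rfl⟩ := cls_surj x
  choose f hf using (cls_surj : Function.Surjective (cls : Nam P → Mod P))
  obtain ⟨v, rfl⟩ : ∃ v' : ℕ → Nam P, v = fun n => cls (v' n) :=
    ⟨fun n => f (v n), funext fun n => (hf (v n)).symm⟩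
  refine ⟨cls ⟨x.idx, fun i => x.wt i ⊓ ⟨{q | φ.Forces (push (x.el i) v) q},
    fun a b hba ha => Forces_mono hba ha⟩, x.el⟩, fun z => ?_⟩
  obtain ⟨z, rfl⟩ := cls_surj z
  have hpush : ∀ {a b : Nam P} {p : P}, feq a b p → φ.Forces (push a v) p →
      φ.Forces (push b v) p := by
    intro a b p hab h
    refine Forces_congr (fun n => ?_) h
    cases n
    · exact hab
    · exact feq_refl _ p
  rw [push_cls, los, ME_wt, ME_wt, ← Filter.eventually_and]
  refine Filter.eventually_congr (Filter.Eventually.of_forall fun p => ?_)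
  constructor
  · rintro ⟨i, ⟨hi, hi'⟩, h⟩
    exact ⟨⟨i, hi, h⟩, hpush (feq_symm h) hi'⟩
  · rintro ⟨⟨i, hi, h⟩, h'⟩
    exact ⟨i, ⟨hi, hpush h h'⟩, h⟩

theorem ax_repl (φ : SetFormula) (v : ℕ → Mod P) (x : Mod P)
    (h : ∀ y, ME y x → ∃! z, φ.Holds ME (push z (push y v))) :
    ∃ t, ∀ z, ME z t ↔ ∃ y, ME y x ∧ φ.Holds ME (push z (push y v)) := by
  obtain ⟨x, rfl⟩ := cls_surj x
  choose f0 hf0 using (cls_surj : Function.Surjective (cls : Nam P → Mod P))
  obtain ⟨v, rfl⟩ : ∃ v' : ℕ → Nam P, v = fun n => cls (v' n) :=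
    ⟨fun n => f0 (v n), funext fun n => (hf0 (v n)).symm⟩
  choose t ht using fun i : x.idx => fullness φ (push (x.el i) v)
  have hcongr : ∀ {a b c d : Nam P} {p : P}, feq a b p → feq c d p →
      φ.Forces (push a (push c v)) p → φ.Forces (push b (push d v)) p := by
    intro a b c d p hab hcd h
    refine Forces_congr (fun n => ?_) h
    match n with
    | 0 => exact hab
    | 1 => exact hcd
    | n + 2 => exact feq_refl _ p
  -- uniqueness
  have huniq : ∀ᶠ p in (genU P : Filter P), ∀ y z z', ∀ q ≤ p, fmem y x q →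
      φ.Forces (push z (push y v)) q → φ.Forces (push z' (push y v)) q → feq z z' q := by
    let f : ℕ → ℕ := fun n => match n with | 0 => 1 | 1 => 2 | n + 2 => n + 4
    let f' : ℕ → ℕ := fun n => match n with | 0 => 0 | 1 => 2 | n + 2 => n + 4
    have hf : ∀ {M : Type (u + 1)} (v : ℕ → M) (x y z z' : M),
        (fun n => push z' (push z (push y (push x v))) (f n)) = push z (push y v) := by
      intro M v x y z z'
      funext n
      match n with
      | 0 => rfl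
      | 1 => rfl
      | n + 2 => rfl
    have hf' : ∀ {M : Type (u + 1)} (v : ℕ → M) (x y z z' : M),
        (fun n => push z' (push z (push y (push x v))) (f' n)) = push z' (push y v) := by
      intro M v x y z z'
      funext n
      match n with
      | 0 => rfl
      | 1 => rfl
      | n + 2 => rfl
    have h1 := (los (.all (.all (.all (SetFormula.imp (.and (.mem 2 3) (.and (φ.rename f)
      (φ.rename f'))) (.eq 1 0))))) (push x v)).1 (by
        intro y z z'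
        rw [holds_imp, ← push_cls]
        rintro ⟨hy, hz, hz'⟩
        rw [holds_rename, hf] at hz
        rw [holds_rename, hf'] at hz'
        exact (h y hy).unique hz hz')
    filter_upwards [h1] with p hp y z z' q hq hy hz hz'
    refine forces_imp.1 (hp y z z') q hq ⟨hy, ?_, ?_⟩
    · rw [forces_rename, hf]
      exact hz
    · rw [forces_rename, hf']
      exact hz'
  refine ⟨cls ⟨x.idx, fun i => x.wt i ⊓ ⟨{q | φ.Forces (push (t i) (push (x.el i) v)) q},
    fun a b hba ha => Forces_mono hba ha⟩, t⟩, fun z => ?_⟩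
  obtain ⟨z, rfl⟩ := cls_surj z
  have h1 : (∃ y, ME y (cls x) ∧ φ.Holds ME (push (cls z) (push y fun n => cls (v n)))) ↔
      ∀ᶠ p in (genU P : Filter P), ∃ y, fmem y x p ∧ φ.Forces (push z (push y v)) p := by
    let g : ℕ → ℕ := fun n => match n with | 0 => 1 | 1 => 0 | n + 2 => n + 3
    have hg : ∀ {M : Type (u + 1)} (v : ℕ → M) (x y z : M),
        (fun n => push y (push z (push x v)) (g n)) = push z (push y v) := by
      intro M v x y z
      funext n
      match n with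
      | 0 => rfl
      | 1 => rfl
      | n + 2 => rfl
    have h2 := los_ex (.and (.mem 0 2) (φ.rename g)) (push z (push x v))
    have h3 : (∃ y, ME y (cls x) ∧ φ.Holds ME (push (cls z) (push y fun n => cls (v n)))) ↔
        ∃ y : Mod P, (SetFormula.and (.mem 0 2) (φ.rename g)).Holds ME
          (push y fun n => cls (push z (push x v) n)) := by
      refine exists_congr fun y => and_congr Iff.rfl ?_
      rw [holds_rename, ← push_cls, ← push_cls, hg]
    rw [h3, h2]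
    refine Filter.eventually_congr (Filter.Eventually.of_forall fun p => ?_)
    refine exists_congr fun y => and_congr Iff.rfl ?_
    rw [forces_rename, hg]
  rw [h1, ME_wt]
  constructor
  · intro h
    filter_upwards [h] with p
    rintro ⟨i, ⟨hi, hi'⟩, hz⟩
    exact ⟨x.el i, fmem_of_wt hi, hcongr (feq_symm hz) (feq_refl _ p) hi'⟩
  · intro h
    refine (gen_reg fun p ⟨k, hk, h⟩ q hq => ⟨k, LowerSet.lower _ hq hk, feq_mono hq h⟩).1 ?_
    filter_upwards [h, huniq] with p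
    rintro ⟨y, hy, hz⟩ hu q hq
    obtain ⟨r, hr, i, hi, hi'⟩ := hy q hq
    have hz1 : φ.Forces (push z (push (x.el i) v)) r :=
      hcongr (feq_refl z r) hi' (Forces_mono (hr.trans hq) hz)
    have hz2 : φ.Forces (push (t i) (push (x.el i) v)) r :=
      ht i r fun s hs hs' => hs' z s le_rfl (Forces_mono hs hz1)
    exact ⟨r, hr, i, ⟨hi, hz2⟩, hu (x.el i) z (t i) r (hr.trans hq) (fmem_of_wt hi) hz1 hz2⟩

theorem ax_choice (x : Mod P) (h1 : ∀ y, ME y x → ∃ z, ME z y)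
    (h2 : ∀ y z, ME y x → ME z x → (∃ w, ME w y ∧ ME w z) → y = z) :
    ∃ c, ∀ y, ME y x → ∃! z, ME z c ∧ ME z y := by
  obtain ⟨x, rfl⟩ := cls_surj x
  -- the two hypotheses, forced
  have H1 : ∀ᶠ p in (genU P : Filter P), ∀ y, ∀ q ≤ p, fmem y x q →
      ∀ r ≤ q, ¬ ∀ z, ∀ s ≤ r, ¬ fmem z y s := by
    refine (los_imp (.mem 0 1) (.neg (.all (.neg (.mem 0 1)))) (fun _ => x)).1 fun y hy => ?_
    obtain ⟨z, hz⟩ := h1 y hy
    exact fun h => h z hz
  have H2 : ∀ᶠ p in (genU P : Filter P), ∀ y z w, ∀ q ≤ p, fmem y x q → fmem z x q →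
      fmem w y q → fmem w z q → feq y z q := by
    have h3 := (los (.all (.all (.all (SetFormula.imp (.and (.mem 2 3) (.and (.mem 1 3)
      (.and (.mem 0 2) (.mem 0 1)))) (.eq 2 1))))) (fun _ => x)).1 (by
        intro y z w
        rw [holds_imp]
        rintro ⟨hy, hz, hw, hw'⟩
        exact h2 y z hy hz ⟨w, hw, hw'⟩)
    filter_upwards [h3] with p hp y z w q hq hy hz hw hw'
    exact forces_imp.1 (hp y z w) q hq ⟨hy, hz, hw, hw'⟩
  -- well-order the index type of the union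
  let K : Type u := Σ i : x.idx, (x.el i).idx
  let e : K → Nam P := fun k => (x.el k.1).el k.2
  obtain ⟨lo, wf⟩ := exists_wellFoundedLT K
  let c : Nam P := ⟨x.idx × K, fun k => x.wt k.1 ⊓
    ⟨{q | fmem (e k.2) (x.el k.1) q ∧ ∀ k' < k.2, ∀ r ≤ q, ¬ fmem (e k') (x.el k.1) r},
      fun a b hba ha => ⟨fmem_mono hba ha.1, fun k' hk' r hr => ha.2 k' hk' r (hr.trans hba)⟩⟩,
    fun k => e k.2⟩
  have hex : ∀ y : Nam P, ME (cls y) (cls x) → ∃ z, ME z (cls c) ∧ ME z (cls y) := by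
    intro y hy
    refine (los_ex (.and (.mem 0 1) (.mem 0 2)) (push c fun _ => y)).2 ?_
    refine (gen_reg fun p ⟨z, hz⟩ q hq => ⟨z, Forces_mono hq hz⟩).1 ?_
    filter_upwards [H1, ME_cls.1 hy] with p hp hyp q hq
    obtain ⟨r, hr, i, hi, hi'⟩ := hyp q hq
    have h3 := hp y r (hr.trans hq) (fmem_mono (hr.trans hq) hyp) r le_rfl
    push Not at h3
    obtain ⟨z, s, hs, hz⟩ := h3
    obtain ⟨s', hs', j, hj, hj'⟩ := fmem_congr (feq_refl z s) (feq_mono hs hi') hz s le_rfl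
    have hne : ({k : K | ∃ s ≤ r, fmem (e k) (x.el i) s}).Nonempty :=
      ⟨⟨i, j⟩, s', hs'.trans hs, fmem_of_wt hj⟩
    obtain ⟨k, ⟨s1, hs1, hk⟩, hkmin⟩ := wf.wf.has_min _ hne
    have hkc : s1 ∈ c.wt (i, k) :=
      ⟨(x.wt i).lower hs1 hi, hk, fun k' hk' r' hr' hm => hkmin k' ⟨r', hr'.trans hs1, hm⟩ hk'⟩
    refine ⟨s1, hs1.trans hr, e k, ?_⟩
    exact ⟨fmem_of_wt (y := c) hkc, fmem_congr (feq_refl _ _) (feq_symm (feq_mono hs1 hi')) hk⟩
  refine ⟨cls c, fun y hy => ?_⟩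
  obtain ⟨y, rfl⟩ := cls_surj y
  obtain ⟨z, hz, hz'⟩ := hex y hy
  refine ⟨z, ⟨hz, hz'⟩, ?_⟩
  rintro z' ⟨hzc, hzy⟩
  obtain ⟨z, rfl⟩ := cls_surj z
  obtain ⟨z', rfl⟩ := cls_surj z'
  rw [cls_eq]
  rw [ME_cls] at hz hz' hzc hzy hy
  filter_upwards [H2, hz, hz', hzc, hzy, hy] with p hp h3 h4 h5 h6 h7
  refine feq_reg fun q hq => ?_
  obtain ⟨r, hr, ⟨i, k⟩, ⟨hi, hik, hik'⟩, hzk⟩ := h3 q hq
  obtain ⟨s, hs, ⟨i', k'⟩, ⟨hi', hjk, hjk'⟩, hzk'⟩ := h5 r (hr.trans hq)
  have hsp : s ≤ p := hs.trans (hr.trans hq)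
  have hy' : fmem y x s := fmem_mono hsp h7
  have hxi : fmem (x.el i) x s := fmem_mono hs (fmem_of_wt hi)
  have hxi' : fmem (x.el i') x s := fmem_of_wt hi'
  have e1 : feq (x.el i) y s := hp (x.el i) y (e k) s hsp hxi hy' (fmem_mono hs hik)
    (fmem_congr (feq_mono hs hzk) (feq_refl y s) (fmem_mono hsp h4))
  have e2 : feq (x.el i') y s := hp (x.el i') y (e k') s hsp hxi' hy' hjk
    (fmem_congr hzk' (feq_refl y s) (fmem_mono hsp h6))
  have e3 : feq (x.el i) (x.el i') s := feq_trans e1 (feq_symm e2)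
  rcases lt_trichotomy k k' with hlt | rfl | hlt
  · exact absurd (fmem_congr (feq_refl _ s) e3 (fmem_mono hs hik)) (hjk' k hlt s le_rfl)
  · exact ⟨s, hs.trans hr, feq_trans hzk' (feq_symm (feq_mono hs hzk))⟩
  · exact absurd (fmem_congr (feq_refl _ s) (feq_symm e3) hjk) (hik' k' hlt s hs)

theorem models_zfc : ModelsZFC (ME : Mod P → Mod P → Prop) where
  extensionality := ax_ext
  foundation := ax_found
  pairing := ax_pair
  union := ax_union
  powerset := ax_pow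
  infinity := ax_inf
  separation := ax_sep
  replacement := ax_repl
  choice := ax_choice

/-- **Existence of the model.** -/
theorem exists_model (P : Type u) [Preorder P] [Nonempty P] :
    ∃ (M : Type (u + 1)) (E : M → M → Prop) (i : Nam P → M), Function.Surjective i ∧
      ModelsZFC E ∧ ∀ (φ : SetFormula) (v : ℕ → Nam P), (∀ p, φ.Forces v p) →
        φ.Holds E (fun n => i (v n)) :=
  ⟨Mod P, ME, cls, cls_surj, models_zfc, fun φ v h =>
    (los φ v).2 (Filter.Eventually.of_forall h)⟩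

end MP9708F
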