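import Mathlib

/-!
# Models of set theory, and the statement of Q1 inside them

`M` is a type with a binary relation `E` (read `E x y` as `x ∈ y`).  Everything below is first
order over `(M, E)`.
-/

namespace MP9708F

universe u

/-- Formulas of the language of set theory; variables are de Bruijn indices. -/
inductive SetFormula : Type
  | mem (i j : ℕ)
  | eq (i j : ℕ)
  | neg (φ : SetFormula)
  | and (φ ψ : SetFormula)
  | all (φ : SetFormula)

/-- The assignment `v` with `x` pushed in front. -/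
def push {M : Type u} (x : M) (v : ℕ → M) : ℕ → M
  | 0 => x
  | n + 1 => v n

section

variable {M : Type u} (E : M → M → Prop)

/-- Satisfaction of a formula in `(M, E)` under an assignment. -/
def SetFormula.Holds : SetFormula → (ℕ → M) → Prop
  | .mem i j, v => E (v i) (v j)
  | .eq i j, v => v i = v j
  | .neg φ, v => ¬ φ.Holds v
  | .and φ ψ, v => φ.Holds v ∧ ψ.Holds v
  | .all φ, v => ∀ x, φ.Holds (push x v)

/-- `(M, E)` is a model of ZFC. -/
structure ModelsZFC : Prop where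
  extensionality : ∀ x y, (∀ z, E z x ↔ E z y) → x = y
  foundation : ∀ x, (∃ y, E y x) → ∃ y, E y x ∧ ∀ z, E z y → ¬ E z x
  pairing : ∀ x y, ∃ z, ∀ w, E w z ↔ w = x ∨ w = y
  union : ∀ x, ∃ y, ∀ z, E z y ↔ ∃ w, E w x ∧ E z w
  powerset : ∀ x, ∃ y, ∀ z, E z y ↔ ∀ w, E w z → E w x
  infinity : ∃ x, (∃ y, E y x ∧ ∀ z, ¬ E z y) ∧
    ∀ y, E y x → ∃ z, E z x ∧ ∀ w, E w z ↔ E w y ∨ w = y
  separation : ∀ (φ : SetFormula) (v : ℕ → M) (x : M), ∃ y, ∀ z, E z y ↔
    E z x ∧ φ.Holds E (push z v)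
  replacement : ∀ (φ : SetFormula) (v : ℕ → M) (x : M),
    (∀ y, E y x → ∃! z, φ.Holds E (push z (push y v))) →
      ∃ t, ∀ z, E z t ↔ ∃ y, E y x ∧ φ.Holds E (push z (push y v))
  choice : ∀ x, (∀ y, E y x → ∃ z, E z y) →
    (∀ y z, E y x → E z x → (∃ w, E w y ∧ E w z) → y = z) →
      ∃ c, ∀ y, E y x → ∃! z, E z c ∧ E z y

end

end MP9708F
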