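import Pool.Agent.Lib.MP_9708fd_lc.CPoset

/-!
# Chains of length `ω₁`
-/

open Cardinal Set

set_option linter.unusedSectionVars false

namespace MP9708F

universe u

variable {L : Type u} [LinearOrder L] [InaccOrder L]

theorem PP.exists_direct {q p : PP L} (h : q ≤ p) : ∃ q' : PP L, Ext q'.1 p.1 ∧ q' ≤ q ∧
    q'.1.ht = q.1.ht := by
  obtain ⟨t', h1, h2, h3⟩ := (PP.le_def.1 h).exists_ext q.ok
  exact ⟨⟨_, W.withT q.2 h1 h2.fix⟩, h3, (Le.refl q.ok).of_withT h1, rfl⟩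

/-- Transfinite sequences in the forcing. -/
theorem PP.iter {Θ : Type u} [LinearOrder Θ] [WellFoundedLT Θ] (hΘ : #Θ < #L) (p₀ : PP L)
    (Q : Θ → PP L → PP L → Prop)
    (hstep : ∀ i q, q ≤ p₀ → ∃ q' : PP L, Ext q'.1 q.1 ∧ Q i q q') :
    ∃ (g f : Θ → PP L) (u : PP L), (∀ i, g i ≤ p₀ ∧ Ext (f i).1 (g i).1 ∧ Q i (g i) (f i)) ∧
      (∀ i j, i < j → Ext (g j).1 (f i).1) ∧ (∀ i, Ext u.1 (f i).1) ∧
      IsUnion (insert p₀.1 (range fun i => (f i).1)) u.1 := by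
  obtain ⟨g, f, u, h1, h2⟩ := MP9708F.iter hΘ p₀.1 p₀.ok
    (fun _ q => ∃ h : q ∈ W nu Set.univ, @LE.le (PP L) _ ⟨q, h⟩ p₀)
    (fun i q q' => ∃ (h : q ∈ W nu Set.univ) (h' : q' ∈ W nu Set.univ), Q i ⟨q, h⟩ ⟨q', h'⟩) (by
      rintro i q _ ⟨h, hq⟩
      obtain ⟨q', h1, h2⟩ := hstep i ⟨q, h⟩ hq
      exact ⟨q'.1, q'.ok, h1, h, q'.2, h2⟩) (by
      intro i f g u h hu
      have h3 : u ∈ W nu Set.univ := by
        apply hu.mem_W
        rintro q (rfl | ⟨j, hj, rfl⟩)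
        · exact p₀.2
        · obtain ⟨_, _, _, _, h4, _⟩ := h j hj
          exact h4
      exact ⟨h3, (hu.ext _ (mem_insert _ _)).le hu.ok⟩)
  have hg : ∀ i, g i ∈ W nu Set.univ := fun i => (h1 i).2.1.1
  have hf : ∀ i, f i ∈ W nu Set.univ := fun i => by
    obtain ⟨_, _, _, _, _, h4, _⟩ := h1 i
    exact h4
  have hu : u ∈ W nu Set.univ := by
    apply h2.mem_W
    rintro q (rfl | ⟨j, rfl⟩)
    · exact p₀.2
    · exact hf j
  refine ⟨fun i => ⟨g i, hg i⟩, fun i => ⟨f i, hf i⟩, ⟨u, hu⟩, fun i => ?_, fun i j hij => ?_,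
    fun i => ?_, h2⟩
  · obtain ⟨_, h3, _, h4, _, _, h5⟩ := h1 i
    exact ⟨h3.2, h4, h5⟩
  · exact (h1 j).1.ext _ (mem_insert_of_mem _ ⟨i, hij, rfl⟩)
  · exact h2.ext _ (mem_insert_of_mem _ ⟨i, rfl⟩)

/-- The index type `ω₁`. -/
abbrev Om1 : Type u := (ℵ₁ : Cardinal.{u}).ord.ToType

theorem mk_Om1 : #Om1.{u} = ℵ₁ := mk_ord_toType _

theorem countable_Iio (i : Om1.{u}) : (Iio i).Countable := by
  have h := mk_Iio_toType_ord_lt i
  rw [← le_aleph0_iff_set_countable, ← Order.lt_succ_iff, succ_aleph0]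
  exact h

theorem exists_gt_Om1 (i : Om1.{u}) : ∃ j, i < j := by
  by_contra hcon
  push Not at hcon
  have h1 : (Set.univ : Set Om1.{u}) ⊆ Iio i ∪ {i} := fun j _ => by
    rcases (hcon j).lt_or_eq with h | h
    · exact Or.inl h
    · exact Or.inr h
  have h2 : (Set.univ : Set Om1.{u}).Countable :=
    ((countable_Iio i).union (countable_singleton i)).mono h1
  rw [← le_aleph0_iff_set_countable, mk_univ, mk_Om1] at h2
  exact absurd aleph0_lt_aleph_one (not_lt.2 h2)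

theorem not_countable_range {α : Type u} {f : Om1.{u} → α} (hf : Function.Injective f) :
    ¬ (range f).Countable := by
  intro h
  rw [← le_aleph0_iff_set_countable, mk_range_eq f hf, mk_Om1] at h
  exact absurd aleph0_lt_aleph_one (not_lt.2 h)

theorem card_Om1_lt : #Om1.{u} < #L := by
  rw [mk_Om1]
  exact aleph_one_lt

/-- If below `p₀` one can always decide a new element above the height, then some extension
decides uncountably many elements. -/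
theorem PP.exists_uncountable {D : L → Set (PP L)} (hD : ∀ x, ∀ p ∈ D x, ∀ q ≤ p, q ∈ D x)
    (p₀ : PP L) (h : ∀ q ≤ p₀, ∃ r ≤ q, ∃ x, q.1.ht ≤ x ∧ r ∈ D x) :
    ∃ q ≤ p₀, ¬ {x | x < q.1.ht ∧ q ∈ D x}.Countable := by
  obtain ⟨g, f, u, h1, h2, h3, h4⟩ := PP.iter (L := L) card_Om1_lt p₀
    (fun _ q q' => ∃ x, q.1.ht ≤ x ∧ x < q'.1.ht ∧ q' ∈ D x) (by
      intro i q hq
      obtain ⟨r, hr, x, hx, hrx⟩ := h q hq
      obtain ⟨r', hr', hxr⟩ := r.exists_ht x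
      obtain ⟨q', h1, h2, h3⟩ := PP.exists_direct (hr'.trans hr)
      exact ⟨q', h1, x, hx, h3 ▸ hxr, hD x r hrx q' (h2.trans hr')⟩)
  choose h5 h6 x hx1 hx2 hx3 using h1
  have hlt : ∀ i j, i < j → x i < x j := fun i j hij =>
    (hx2 i).trans_le ((h2 i j hij).ht.trans (hx1 j))
  have hinj : Function.Injective x := by
    intro i j hij
    by_contra hne
    rcases lt_or_gt_of_ne hne with h7 | h7
    · exact (hlt i j h7).ne hij
    · exact (hlt j i h7).ne hij.symm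
  refine ⟨u, (h4.ext _ (mem_insert _ _)).le' , fun hc => not_countable_range hinj (hc.mono ?_)⟩
  rintro _ ⟨i, rfl⟩
  exact ⟨(hx2 i).trans_le (h3 i).ht, hD _ _ (hx3 i) _ (h3 i).le'⟩

end MP9708F
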