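import Pool.Agent.Lib.MP_9708fd_lc.CHeight

/-!
# The closure lemma (chain condition)
-/

open Cardinal Set

set_option linter.unusedSectionVars false

namespace MP9708F

universe u

variable {L I : Type u} [LinearOrder L]

theorem cond_ext {p q : Cond L I} (h1 : p.ht = q.ht) (h2 : p.t = q.t) (h3 : p.s = q.s)
    (h4 : p.b = q.b) (h5 : p.m = q.m) : p = q := by
  cases p
  cases q
  simp only at h1 h2 h3 h4 h5
  subst h1 h2 h3 h4 h5
  rfl

open Classical in
/-- The trace of a condition on a set of indices. -/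
noncomputable def trc (V : Set I) (a : Cond L I) : Cond L I :=
  { ht := a.ht
    t := a.t
    s := a.s ∩ V
    b := fun η => if η ∈ a.s ∩ V then a.b η else ∅
    m := fun η => if η ∈ a.s ∩ V then a.m η else fun _ => ∅ }

theorem trc_b {V : Set I} {a : Cond L I} {η : I} (h : η ∈ a.s ∩ V) : (trc V a).b η = a.b η := by
  classical
  exact if_pos h

theorem trc_m {V : Set I} {a : Cond L I} {η : I} (h : η ∈ a.s ∩ V) : (trc V a).m η = a.m η := by
  classical
  exact if_pos h

/-- Codes for traces. -/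
def code (V : Set I) (β : L) (τ : Cond L I) :
    Set (Iio β ⊕ (Iio β × Iio β) ⊕ V ⊕ (V × Iio β) ⊕ (V × Bool × Iio β)) :=
  fun z => match z with
  | .inl x => x.1 < τ.ht
  | .inr (.inl (x, y)) => τ.t x.1 = y.1
  | .inr (.inr (.inl η)) => η.1 ∈ τ.s
  | .inr (.inr (.inr (.inl (η, x)))) => x.1 ∈ τ.b η.1
  | .inr (.inr (.inr (.inr (η, ε, x)))) => x.1 ∈ τ.m η.1 ε

theorem code_inj (V : Set I) (β : L) {a a' : Cond L I} (ha : Ok a) (ha' : Ok a')
    (hβ : a.ht < β) (hβ' : a'.ht < β) (h : code V β (trc V a) = code V β (trc V a')) :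
    trc V a = trc V a' := by
  classical
  have h' : ∀ z, code V β (trc V a) z ↔ code V β (trc V a') z := fun z => by rw [h]
  have hht : a.ht = a'.ht := by
    by_contra hne
    rcases lt_or_gt_of_ne hne with h1 | h1
    · have h2 := h' (.inl ⟨a.ht, hβ⟩)
      exact lt_irrefl _ (h2.2 h1)
    · have h2 := h' (.inl ⟨a'.ht, hβ'⟩)
      exact lt_irrefl _ (h2.1 h1)
  have ht : a.t = a'.t := by
    ext x
    rcases lt_or_ge x a.ht with hx | hx
    · have h1 : a.t x < a.ht := pv_lt ha.fix false hx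
      have h2 := h' (.inr (.inl (⟨x, hx.trans hβ⟩, ⟨a.t x, h1.trans hβ⟩)))
      exact (h2.1 rfl).symm
    · rw [ha.fix x hx, ha'.fix x (hht ▸ hx)]
  have hs : a.s ∩ V = a'.s ∩ V := by
    ext η
    constructor
    · intro hη
      exact (h' (.inr (.inr (.inl ⟨η, hη.2⟩)))).1 hη
    · intro hη
      exact (h' (.inr (.inr (.inl ⟨η, hη.2⟩)))).2 hη
  refine cond_ext hht ht hs ?_ ?_
  · funext η
    by_cases hη : η ∈ a.s ∩ V
    · have hη' := hη
      rw [hs] at hη'
      ext x
      constructor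
      · intro hx
        have h1 : x ∈ a.b η := by rwa [trc_b hη] at hx
        have h2 := ha.sub_b η hη.1 x h1
        exact (h' (.inr (.inr (.inr (.inl (⟨η, hη.2⟩, ⟨x, h2.trans hβ⟩)))))).1 hx
      · intro hx
        have h1 : x ∈ a'.b η := by rwa [trc_b hη'] at hx
        have h2 := ha'.sub_b η hη'.1 x h1
        exact (h' (.inr (.inr (.inr (.inl (⟨η, hη.2⟩, ⟨x, h2.trans hβ'⟩)))))).2 hx
    · have hη' := hη
      rw [hs] at hη'
      exact (if_neg hη).trans (if_neg hη').symm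
  · funext η
    by_cases hη : η ∈ a.s ∩ V
    · have hη' := hη
      rw [hs] at hη'
      funext ε
      ext x
      constructor
      · intro hx
        have h1 : x ∈ a.m η ε := by rwa [trc_m hη] at hx
        have h2 := ha.sub_m η hη.1 ε x h1
        exact (h' (.inr (.inr (.inr (.inr (⟨η, hη.2⟩, ε, ⟨x, h2.trans hβ⟩)))))).1 hx
      · intro hx
        have h1 : x ∈ a'.m η ε := by rwa [trc_m hη'] at hx
        have h2 := ha'.sub_m η hη'.1 ε x h1
        exact (h' (.inr (.inr (.inr (.inr (⟨η, hη.2⟩, ε, ⟨x, h2.trans hβ'⟩)))))).2 hx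
    · have hη' := hη
      rw [hs] at hη'
      exact (if_neg hη).trans (if_neg hη').symm

variable [InaccOrder L]

theorem card_traces (V : Set I) (hV : #V < #L) (β : L) {S : Set (Cond L I)}
    (hS : ∀ a ∈ S, Ok a ∧ a.ht < β) : #(trc V '' S) < #L := by
  have h1 : #(trc V '' S) ≤ #(Set (Iio β ⊕ (Iio β × Iio β) ⊕ V ⊕ (V × Iio β) ⊕
      (V × Bool × Iio β))) := by
    refine mk_le_of_injective (f := fun τ : trc V '' S => code V β τ.1) ?_
    rintro ⟨_, a, ha, rfl⟩ ⟨_, a', ha', rfl⟩ h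
    simp only at h
    exact Subtype.ext (code_inj V β (hS a ha).1 (hS a' ha').1 (hS a ha).2 (hS a' ha').2 h)
  refine h1.trans_lt ?_
  rw [mk_set]
  apply two_power_lt
  have hβ := card_Iio_lt β
  have h0 : ℵ₀ ≤ #L := aleph0_lt.le
  have hB : #(ULift.{u} Bool) < #L := (lt_aleph0_of_finite _).trans aleph0_lt
  have hB' : lift.{u} #Bool < #L := by simpa using hB
  have h2 : #(Bool × Iio β) < #L := by
    rw [mk_prod, lift_id']
    exact mul_lt_of_lt h0 hB' hβ
  have h3 : #(V × Bool × Iio β) < #L := by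
    rw [mk_prod, lift_id, lift_id]
    exact mul_lt_of_lt h0 hV h2
  have h4 : #(V × Iio β) < #L := by
    rw [mk_prod, lift_id, lift_id]
    exact mul_lt_of_lt h0 hV hβ
  have h5 : #(Iio β × Iio β) < #L := by
    rw [mk_prod, lift_id]
    exact mul_lt_of_lt h0 hβ hβ
  rw [mk_sum, lift_id, lift_id]
  refine add_lt_of_lt h0 hβ ?_
  rw [mk_sum, lift_id, lift_id]
  refine add_lt_of_lt h0 h5 ?_
  rw [mk_sum, lift_id, lift_id]
  refine add_lt_of_lt h0 hV ?_
  rw [mk_sum, lift_id, lift_id]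
  exact add_lt_of_lt h0 h4 h3

variable [LinearOrder I] [WellFoundedLT I] {ν : I → L → Set (Cond L I)} {A : Set I}

/-- Conditions with the same height and permutation, which agree on the common indices, are
compatible. -/
theorem amalg {p a : Cond L I} (hp : p ∈ W ν Set.univ) (ha : a ∈ W ν Set.univ)
    (hht : p.ht = a.ht) (ht : p.t = a.t)
    (h : ∀ η ∈ p.s, η ∈ a.s → p.b η = a.b η ∧ p.m η = a.m η) :
    ∃ q ∈ W ν Set.univ, Ext q p ∧ Ext q a := by
  classical
  have hpok := W.ok hp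
  have haok := W.ok ha
  let q : Cond L I :=
    { ht := p.ht
      t := p.t
      s := p.s ∪ a.s
      b := fun η => if η ∈ p.s then p.b η else a.b η
      m := fun η => if η ∈ p.s then p.m η else a.m η }
  have hb : ∀ η ∈ p.s, q.b η = p.b η := fun η hη => if_pos hη
  have hm : ∀ η ∈ p.s, q.m η = p.m η := fun η hη => if_pos hη
  have hb' : ∀ η ∈ a.s, q.b η = a.b η := by
    intro η hη
    by_cases h1 : η ∈ p.s
    · rw [hb η h1, (h η h1 hη).1]
    · exact if_neg h1
  have hm' : ∀ η ∈ a.s, q.m η = a.m η := by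
    intro η hη
    by_cases h1 : η ∈ p.s
    · rw [hm η h1, (h η h1 hη).2]
    · exact if_neg h1
  have hext : Ext q p := by
    refine ⟨le_rfl, fun _ _ => rfl, subset_union_left, fun η hη => ?_⟩
    have h1 := At.refl hpok hη
    refine ⟨fun x hx => by rw [hb η hη], fun ε x hx => by rw [hm η hη], fun ε y hy => ?_⟩
    rw [hb η hη, hm η hη]
    exact h1.ex ε y hy
  have hext' : Ext q a := by
    refine ⟨hht.ge, fun x _ => by rw [← ht], subset_union_right, fun η hη => ?_⟩
    have h1 := At.refl haok hη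
    refine ⟨fun x hx => by rw [hb' η hη], fun ε x hx => by rw [hm' η hη], fun ε y hy => ?_⟩
    rw [hb' η hη, hm' η hη]
    show _ ↔ pv p.t ε y ∈ a.b η
    rw [ht]
    exact h1.ex ε y hy
  have hok : Ok q := by
    refine ⟨hpok.fix, ?_, ?_, ?_, ?_⟩
    · exact (mk_union_le _ _).trans_lt (add_lt_of_lt aleph0_lt.le hpok.card haok.card)
    · rintro η (hη | hη) x hx
      · rw [hb η hη] at hx
        exact hpok.sub_b η hη x hx
      · rw [hb' η hη] at hx
        exact (haok.sub_b η hη x hx).trans_eq hht.symm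
    · rintro η (hη | hη) ε x hx
      · rw [hm η hη] at hx
        exact hpok.sub_m η hη ε x hx
      · rw [hm' η hη] at hx
        exact (haok.sub_m η hη ε x hx).trans_eq hht.symm
    · rintro η (hη | hη) ε
      · rw [hb η hη, hm η hη]
        exact hpok.mate η hη ε
      · rw [hb' η hη, hm' η hη]
        show {y | ¬ (y ∈ a.m η ε ↔ pv p.t ε y ∈ a.b η)}.Countable
        rw [ht]
        exact haok.mate η hη ε
  refine ⟨q, ⟨hok, subset_univ _, ?_⟩, hext, hext'⟩
  rintro η (hη | hη)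
  · exact VAt_of hok fun x hx => ⟨p, W.val hp hη, hx, by rw [hb η hη], (hext.res _).le (hok.res _)⟩
  · exact VAt_of hok fun x hx => ⟨a, W.val ha hη, hx.trans_eq hht, by rw [hb' η hη],
      (hext'.res _).le (hok.res _)⟩

/-- The closure lemma: small predense subfamilies. -/
theorem closure_lemma (O : L → Set (Cond L I)) (hO : ∀ x, O x ⊆ W ν Set.univ) :
    ∃ N : L → Set (Cond L I), (∀ x, N x ⊆ O x) ∧ (∀ x, #(N x) ≤ #L) ∧
      ∀ x, ∀ p ∈ O x, ∃ a ∈ N x, ∃ q ∈ W ν Set.univ, Ext q p ∧ Ext q a := by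
  classical
  by_cases hemp : ∀ x, O x = ∅
  · refine ⟨fun _ => ∅, fun _ => empty_subset _, fun _ => by simp, fun x p hp => ?_⟩
    rw [hemp x] at hp
    exact hp.elim
  push Not at hemp
  obtain ⟨x₀, p₀, hp₀⟩ := hemp
  let rep : Set I → L → Cond L I → Cond L I := fun V x τ =>
    if h : ∃ a ∈ O x, trc V a = τ then h.choose else p₀
  have hrep : ∀ V x, ∀ a ∈ O x, rep V x (trc V a) ∈ O x ∧ trc V (rep V x (trc V a)) = trc V a := by
    intro V x a ha
    have h : ∃ a' ∈ O x, trc V a' = trc V a := ⟨a, ha, rfl⟩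
    simp only [rep, dif_pos h]
    exact h.choose_spec
  -- representatives at stage `β`
  let R : L → Set I → L → Set (Cond L I) := fun β V x =>
    rep V x '' (trc V '' {a | a ∈ O x ∧ a.ht < β})
  have hRO : ∀ β V x, R β V x ⊆ O x := by
    rintro β V x _ ⟨_, ⟨a, ha, rfl⟩, rfl⟩
    exact (hrep V x a ha.1).1
  have hRc : ∀ (β : L) (V : Set I) (x : L), #V < #L → #(R β V x) < #L := by
    intro β V x hV
    refine mk_image_le.trans_lt ?_
    exact card_traces V hV β fun a ha => ⟨W.ok (hO x ha.1), ha.2⟩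
  let F : (β : L) → ((γ : L) → γ < β → Set I) → Set I := fun β ih =>
    (⋃ γ : Iio β, ih γ.1 γ.2) ∪ ⋃ x : Iio β, ⋃ a ∈ R β (⋃ γ : Iio β, ih γ.1 γ.2) x.1, a.s
  let V : L → Set I := WellFounded.fix (C := fun _ => Set I) (wellFounded_lt (α := L)) F
  have hV : ∀ β, V β = (⋃ γ : Iio β, V γ.1) ∪
      ⋃ x : Iio β, ⋃ a ∈ R β (⋃ γ : Iio β, V γ.1) x.1, a.s := by
    intro β
    show WellFounded.fix _ _ _ = _
    rw [WellFounded.fix_eq]
  have hVc : ∀ β, #(V β) < #L := by
    intro β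
    induction β using WellFoundedLT.induction with
    | ind β ih =>
      rw [hV]
      have h1 : #(⋃ γ : Iio β, V γ.1) < #L :=
        card_iUnion_lt (L := L) (ι := Iio β) (card_Iio_lt β) _ fun γ => ih γ.1 γ.2
      refine (mk_union_le _ _).trans_lt (add_lt_of_lt aleph0_lt.le h1 ?_)
      refine card_iUnion_lt (L := L) (ι := Iio β) (card_Iio_lt β) _ fun x => ?_
      exact card_biUnion_lt (hRc β _ x.1 h1) _ fun a ha => (W.ok (hO _ (hRO _ _ _ ha))).card
  have hVlt : ∀ β, #(⋃ γ : Iio β, V γ.1) < #L := fun β =>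
    card_iUnion_lt (L := L) (ι := Iio β) (card_Iio_lt β) _ fun γ => hVc γ.1
  refine ⟨fun x => ⋃ β, R β (⋃ γ : Iio β, V γ.1) x, ?_, ?_, ?_⟩
  · intro x
    exact iUnion_subset fun β => hRO β _ x
  · intro x
    refine (mk_iUnion_le_sum_mk).trans ?_
    have h1 : Cardinal.sum (fun β : L => #(R β (⋃ γ : Iio β, V γ.1) x)) ≤
        Cardinal.sum (fun _ : L => #L) := sum_le_sum _ _ fun β => (hRc β _ x (hVlt β)).le
    refine h1.trans ?_
    rw [sum_const, lift_id, mul_eq_self aleph0_lt.le]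
  · intro x p hp
    have hpok := W.ok (hO x hp)
    -- choose a stage
    have h1 : ∀ η : I, ∃ β, η ∈ p.s → (∃ β, η ∈ V β) → η ∈ V β := by
      intro η
      by_cases h : ∃ β, η ∈ V β
      · obtain ⟨β, hβ⟩ := h
        exact ⟨β, fun _ _ => hβ⟩
      · exact ⟨x, fun _ h' => absurd h' h⟩
    choose s hs using h1
    obtain ⟨β₀, hβ₀⟩ := bdd_of_card (L := L) (A := s '' p.s) (mk_image_le.trans_lt hpok.card)
    obtain ⟨β, hβ⟩ := exists_gt' (max β₀ (max p.ht x))
    have hβ1 : β₀ < β := (le_max_left _ _).trans_lt hβ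
    have hβ2 : p.ht < β := ((le_max_left _ _).trans (le_max_right _ _)).trans_lt hβ
    have hβ3 : x < β := ((le_max_right _ _).trans (le_max_right _ _)).trans_lt hβ
    set U : Set I := ⋃ γ : Iio β, V γ.1 with hU
    obtain ⟨h2, h3⟩ := hrep U x p hp
    set a := rep U x (trc U p) with ha
    have haR : a ∈ R β U x := ⟨_, ⟨p, ⟨hp, hβ2⟩, rfl⟩, rfl⟩
    have has : a.s ⊆ V β := by
      rw [hV]
      refine subset_union_of_subset_right ?_ _
      intro η hη
      exact mem_iUnion.2 ⟨⟨x, hβ3⟩, mem_biUnion haR hη⟩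
    have hht : (trc U a).ht = (trc U p).ht := by rw [h3]
    have hht : p.ht = a.ht := hht.symm
    have ht : (trc U a).t = (trc U p).t := by rw [h3]
    have ht : p.t = a.t := ht.symm
    have hsU : a.s ∩ U = p.s ∩ U := congrArg Cond.s h3
    obtain ⟨q, hq, hqp, hqa⟩ := amalg (hO x hp) (hO x h2) hht ht (by
      intro η hηp hηa
      have hηU : η ∈ U := by
        have h4 : η ∈ V (s η) := hs η hηp ⟨β, has hηa⟩
        exact mem_iUnion.2 ⟨⟨s η, (hβ₀ _ ⟨η, hηp, rfl⟩).trans hβ1⟩, h4⟩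
      have h5 : (trc U a).b η = (trc U p).b η := by rw [h3]
      have h6 : (trc U a).m η = (trc U p).m η := by rw [h3]
      rw [trc_b ⟨hηa, hηU⟩, trc_b ⟨hηp, hηU⟩] at h5
      rw [trc_m ⟨hηa, hηU⟩, trc_m ⟨hηp, hηU⟩] at h6
      exact ⟨h5.symm, h6.symm⟩)
    exact ⟨a, mem_iUnion.2 ⟨β, haR⟩, q, hq, hqp, hqa⟩

end MP9708F
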