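import Pool.Agent.Lib.MP_9708fd_lc.CIter

/-!
# Adding an index, and compatibility of `p` with extensions of its restrictions
-/

open Cardinal Set

set_option linter.unusedSectionVars false

namespace MP9708F

universe u

variable {L I : Type u} [LinearOrder L] [LinearOrder I] [WellFoundedLT I]
  {ν : I → L → Set (Cond L I)} {A : Set I}

variable (ν) in
/-- `q` decides, below its height, the set named by `j`. -/
def Dec (j : I) (q : Cond L I) (x : L) : Prop :=
  FcS (W ν (Iio j)) (q.res (Iio j)) (ν j x) ∨ FnS (W ν (Iio j)) (q.res (Iio j)) (ν j x)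

variable (ν) in
/-- The part below the height of `q` of the set named by `j`. -/
def Nmd (j : I) (q : Cond L I) : Set L :=
  {x | x < q.ht ∧ FcS (W ν (Iio j)) (q.res (Iio j)) (ν j x)}

/-- `q` with a new index `j`. -/
noncomputable def addIdx (q : Cond L I) (j : I) (B : Set L) (Mt : Bool → Set L) : Cond L I :=
  { q with
    s := insert j q.s
    b := Function.update q.b j B
    m := Function.update q.m j Mt }

theorem FnS.not_FcS {Q N : Set (Cond L I)} {q : Cond L I} (h : FnS Q q N)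
    (hq : q ∈ Q) (hok : Ok q) : ¬ FcS Q q N := by
  intro h1
  obtain ⟨r, hr, hrq, a, ha, hra⟩ := h1 q hq (Le.refl hok)
  exact h r hr hrq a ha hra

theorem dichotomy {Q N : Set (Cond L I)} (hQ : ∀ q ∈ Q, Ok q) {q : Cond L I} :
    FnS Q q N ∨ ∃ r ∈ Q, Le r q ∧ (∃ a ∈ N, Le r a) ∧ FcS Q r N := by
  by_cases h : FnS Q q N
  · exact Or.inl h
  · right
    unfold FnS at h
    push Not at h
    obtain ⟨r, hr, hrq, a, ha, hra⟩ := h
    refine ⟨r, hr, hrq, ⟨a, ha, hra⟩, fun r' hr' hrr' => ⟨r', hr', Le.refl (hQ r' hr'), a, ha,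
      hrr'.trans (hQ r hr) hra⟩⟩

variable [InaccOrder L]

theorem addIdx_ext {q : Cond L I} (hq : Ok q) {j : I} (hj : j ∉ q.s) (B : Set L)
    (Mt : Bool → Set L) : Ext (addIdx q j B Mt) q where
  ht := le_rfl
  t _ _ := rfl
  s := subset_insert _ _
  at_ η hη := by
    have hne : η ≠ j := by
      rintro rfl
      exact hj hη
    have h := At.refl hq hη
    refine ⟨fun x hx => ?_, fun ε x hx => ?_, fun ε y hy => ?_⟩
    · show x ∈ Function.update q.b j B η ↔ _
      rw [Function.update_of_ne hne]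
    · show x ∈ Function.update q.m j Mt η ε ↔ _
      rw [Function.update_of_ne hne]
    · show y ∈ Function.update q.m j Mt η ε ↔ pv q.t ε y ∈ Function.update q.b j B η
      rw [Function.update_of_ne hne, Function.update_of_ne hne]
      exact h.ex ε y hy

theorem add_index {q : Cond L I} (hq : q ∈ W ν A) {j : I} (hj : j ∉ q.s)
    (hdec : ∀ x < q.ht, Dec ν j q x) (Mt : Bool → Set L) (hMt : ∀ ε, ∀ x ∈ Mt ε, x < q.ht)
    (hmate : ∀ ε, {y | y < q.ht ∧ ¬ (y ∈ Mt ε ↔ pv q.t ε y ∈ Nmd ν j q)}.Countable) :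
    addIdx q j (Nmd ν j q) Mt ∈ W ν (insert j A) := by
  have hok := W.ok hq
  have hext : Ext (addIdx q j (Nmd ν j q) Mt) q := addIdx_ext hok hj _ _
  have hok' : Ok (addIdx q j (Nmd ν j q) Mt) := by
    refine ⟨hok.fix, ?_, ?_, ?_, ?_⟩
    · refine (mk_insert_le).trans_lt ?_
      exact add_lt_of_lt aleph0_lt.le hok.card (one_lt_aleph0.trans aleph0_lt)
    · intro η hη x hx
      change x ∈ Function.update q.b j (Nmd ν j q) η at hx
      by_cases hne : η = j
      · subst hne
        rw [Function.update_self] at hx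
        exact hx.1
      · rw [Function.update_of_ne hne] at hx
        exact hok.sub_b η (hη.resolve_left hne) x hx
    · intro η hη ε x hx
      change x ∈ Function.update q.m j Mt η ε at hx
      by_cases hne : η = j
      · subst hne
        rw [Function.update_self] at hx
        exact hMt ε x hx
      · rw [Function.update_of_ne hne] at hx
        exact hok.sub_m η (hη.resolve_left hne) ε x hx
    · intro η hη ε
      show {y | ¬ (y ∈ Function.update q.m j Mt η ε ↔
        pv q.t ε y ∈ Function.update q.b j (Nmd ν j q) η)}.Countable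
      by_cases hne : η = j
      · subst hne
        rw [Function.update_self, Function.update_self]
        refine (hmate ε).mono ?_
        intro y hy
        refine ⟨?_, hy⟩
        by_contra hcon
        apply hy
        push Not at hcon
        rw [pv_eq_self hok.fix ε hcon]
        constructor
        · intro h
          exact absurd (hMt ε y h) (not_lt.2 hcon)
        · intro h
          exact absurd h.1 (not_lt.2 hcon)
      · rw [Function.update_of_ne hne, Function.update_of_ne hne]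
        exact hok.mate η (hη.resolve_left hne) ε
  refine ⟨hok', insert_subset_insert (W.sub hq), ?_⟩
  intro η hη
  by_cases hne : η = j
  · subst hne
    rw [VAt_iff]
    intro x hx
    have hle : Le ((addIdx q η (Nmd ν η q) Mt).res (Iio η)) (q.res (Iio η)) :=
      (hext.res _).le (hok'.res _)
    have hb : (addIdx q η (Nmd ν η q) Mt).b η = Nmd ν η q := Function.update_self _ _ _
    rw [hb]
    refine ⟨fun h => h.2.mono (fun _ => hle) (hok'.res _), fun h => ?_⟩
    rcases hdec x hx with h1 | h1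
    · exact absurd ⟨hx, h1⟩ h
    · exact h1.mono (fun _ => hle) (hok'.res _)
  · have hη' : η ∈ q.s := hη.resolve_left hne
    refine VAt_of hok' fun x hx => ⟨q, W.val hq hη', hx, (hext.at_ η hη').b x hx, ?_⟩
    exact (hext.res _).le (hok'.res _)

theorem dec_openDense_self (j : I) (x : L) : OpenDense ν (Iio j)
    {q | FcS (W ν (Iio j)) q (ν j x) ∨ FnS (W ν (Iio j)) q (ν j x)} where
  open_ := by
    intro p hp q hq hqp
    rcases hp with h | h
    · exact Or.inl (h.mono (fun _ => hqp) (W.ok hq))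
    · exact Or.inr (h.mono (fun _ => hqp) (W.ok hq))
  dense := by
    intro p hp
    rcases dichotomy (Q := W ν (Iio j)) (N := ν j x) (q := p) (fun q hq => W.ok hq) with
      h | ⟨r, hr, hrp, _, h⟩
    · exact ⟨p, hp, Le.refl (W.ok hp), Or.inr h⟩
    · exact ⟨r, hr, hrp, Or.inl h⟩

theorem res_eq_self {q : Cond L I} {B : Set I} (h : q.s ⊆ B) : q.res B = q := by
  unfold Cond.res
  rw [inter_eq_left.2 h]

theorem compat_ext {p r : Cond L I} {ζ : I} (hp : p ∈ W ν Set.univ) (hr : r ∈ W ν (Iio ζ))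
    (h : Ext r (p.res (Iio ζ))) : ∃ q ∈ W ν Set.univ, Ext q p ∧ Ext q r := by
  have hpok := W.ok hp
  have hrok := W.ok hr
  let Θ : Type u := {j : I // j ∈ p.s ∧ ζ ≤ j}
  have hΘ : #Θ < #L := by
    refine lt_of_le_of_lt ?_ hpok.card
    exact mk_subtype_mono fun j hj => hj.1
  have key : ∀ (J : Set Θ) (f : Θ → Cond L I) (u : Cond L I),
      (∀ j ∈ J, Ok (f j) ∧ j.1 ∈ (f j).s ∧ At j.1 (f j) p ∧ p.ht ≤ (f j).ht) →
      IsUnion (insert r (f '' J)) u → ∀ B : Set I, (∀ η ∈ p.s, η ∈ B → η < ζ ∨ ∃ j ∈ J, j.1 = η) →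
      Ext u (p.res B) := by
    intro J f u hf hu B hB
    have hur := hu.ext r (mem_insert _ _)
    refine ⟨h.ht.trans hur.ht, fun x hx => ?_, fun η hη => ?_, fun η hη => ?_⟩
    · rw [hur.t x (lt_of_lt_of_le hx h.ht)]
      exact h.t x hx
    · rcases hB η hη.1 hη.2 with h1 | ⟨j, hj, rfl⟩
      · exact hur.s (h.s ⟨hη.1, h1⟩)
      · exact (hu.ext _ (mem_insert_of_mem _ ⟨j, hj, rfl⟩)).s (hf j hj).2.1
    · rcases hB η hη.1 hη.2 with h1 | ⟨j, hj, rfl⟩
      · have h2 : η ∈ (p.res (Iio ζ)).s := ⟨hη.1, h1⟩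
        have h3 := At.trans hrok.fix h.ht hur.t (hur.at_ η (h.s h2)) (h.at_ η h2)
        exact ⟨h3.b, h3.m, h3.ex⟩
      · have hfj := hu.ext _ (mem_insert_of_mem _ ⟨j, hj, rfl⟩)
        obtain ⟨h2, h3, h4, h5⟩ := hf j hj
        have h6 := At.trans h2.fix h5 hfj.t (hfj.at_ _ h3) h4
        exact ⟨h6.b, h6.m, h6.ex⟩
  obtain ⟨g, f, u, h1, h2⟩ := iter hΘ r hrok
    (fun j q => q ∈ W ν (Iio j.1) ∧ Ext q (p.res (Iio j.1)))
    (fun j _ q' => q' ∈ W ν (insert j.1 (Iio j.1)) ∧ j.1 ∈ q'.s ∧ At j.1 q' p ∧ p.ht ≤ q'.ht) (by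
      rintro ⟨j, hjs, hζj⟩ q _ ⟨hq, hqp⟩
      dsimp only at hq hqp ⊢
      obtain ⟨q₁, hq₁, h3, h4⟩ := decide_all (fun x => dec_openDense_self (ν := ν) j x) hq
      have hq₁s : q₁.s ⊆ Iio j := W.sub hq₁
      have hj : j ∉ q₁.s := fun hj => lt_irrefl j (hq₁s hj)
      have hdec : ∀ x < q₁.ht, Dec ν j q₁ x := by
        intro x hx
        unfold Dec
        rw [res_eq_self hq₁s]
        exact h4 x hx
      have hq₁ok := W.ok hq₁
      have hq₁p : Ext q₁ (p.res (Iio j)) := Ext.trans (W.ok hq).fix h3 hqp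
      have hpval := (VAt_iff ν).1 (W.val hp hjs)
      -- the named set agrees with `p.b j` below `p.ht`
      have hB : ∀ x < p.ht, (x ∈ Nmd ν j q₁ ↔ x ∈ p.b j) := by
        intro x hx
        have hle : Le q₁ (p.res (Iio j)) := hq₁p.le hq₁ok
        constructor
        · intro h5
          by_contra h6
          have h7 := ((hpval x hx).2 h6).mono (fun _ => hle) hq₁ok
          have h8 := h5.2
          rw [res_eq_self hq₁s] at h8
          exact h7.not_FcS hq₁ hq₁ok h8
        · intro h5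
          refine ⟨hx.trans_le hq₁p.ht, ?_⟩
          rw [res_eq_self hq₁s]
          exact ((hpval x hx).1 h5).mono (fun _ => hle) hq₁ok
      let Mt : Bool → Set L := fun ε => {y | y < q₁.ht ∧
        ((y < p.ht ∧ y ∈ p.m j ε) ∨ (p.ht ≤ y ∧ pv q₁.t ε y ∈ Nmd ν j q₁))}
      have hMt : ∀ ε, ∀ x ∈ Mt ε, x < q₁.ht := fun ε x hx => hx.1
      have hMt1 : ∀ ε, ∀ y < p.ht, (y ∈ Mt ε ↔ y ∈ p.m j ε) := by
        intro ε y hy
        constructor
        · rintro ⟨_, h6 | h6⟩
          · exact h6.2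
          · exact absurd hy (not_lt.2 h6.1)
        · intro h5
          exact ⟨hy.trans_le hq₁p.ht, Or.inl ⟨hy, h5⟩⟩
      have hMt2 : ∀ ε, ∀ y, p.ht ≤ y → (y ∈ Mt ε ↔ pv q₁.t ε y ∈ Nmd ν j q₁) := by
        intro ε y hy
        constructor
        · rintro ⟨_, h6 | h6⟩
          · exact absurd h6.1 (not_lt.2 hy)
          · exact h6.2
        · intro h5
          refine ⟨?_, Or.inr ⟨hy, h5⟩⟩
          by_contra hcon
          push Not at hcon
          rw [pv_eq_self hq₁ok.fix ε hcon] at h5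
          exact absurd h5.1 (not_lt.2 hcon)
      have hmate : ∀ ε, {y | y < q₁.ht ∧ ¬ (y ∈ Mt ε ↔ pv q₁.t ε y ∈ Nmd ν j q₁)}.Countable := by
        intro ε
        refine (hpok.mate j hjs ε).mono ?_
        rintro y ⟨_, hy⟩ h5
        apply hy
        rcases lt_or_ge y p.ht with hyp | hyp
        · rw [hMt1 ε y hyp, pv_agree hpok.fix hq₁p.t ε hyp, hB _ (pv_lt hpok.fix ε hyp)]
          exact h5
        · exact hMt2 ε y hyp
      have h5 := add_index hq₁ hj hdec Mt hMt hmate
      have h6 : Ext (addIdx q₁ j (Nmd ν j q₁) Mt) q₁ := addIdx_ext hq₁ok hj _ _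
      refine ⟨_, W.ok h5, Ext.trans hq₁ok.fix h6 h3, h5, mem_insert _ _, ?_, hq₁p.ht⟩
      have hb : (addIdx q₁ j (Nmd ν j q₁) Mt).b j = Nmd ν j q₁ := Function.update_self _ _ _
      have hm : (addIdx q₁ j (Nmd ν j q₁) Mt).m j = Mt := Function.update_self _ _ _
      refine ⟨fun x hx => ?_, fun ε x hx => ?_, fun ε y hy => ?_⟩
      · rw [hb]
        exact hB x hx
      · rw [hm]
        exact hMt1 ε x hx
      · rw [hb, hm]
        exact hMt2 ε y hy) (by
      intro i f g u h3 hu
      refine ⟨?_, ?_⟩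
      · apply hu.mem_W
        rintro q (rfl | ⟨j, hj, rfl⟩)
        · exact W.mono (Iio_subset_Iio i.2.2) hr
        · refine W.mono ?_ (h3 j hj).2.2.2.1
          have hj' : j.1 < i.1 := hj
          exact insert_subset hj' (Iio_subset_Iio hj'.le)
      · refine key (Iio i) f u (fun j hj => ?_) hu (Iio i.1) (fun η hη hηi => ?_)
        · obtain ⟨h4, h5, h6, h7, h8, h9, h10⟩ := h3 j hj
          exact ⟨h5, h8, h9, h10⟩
        · rcases lt_or_ge η ζ with h4 | h4
          · exact Or.inl h4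
          · exact Or.inr ⟨⟨η, hη, h4⟩, hηi, rfl⟩)
  have hu : u ∈ W ν Set.univ := by
    apply h2.mem_W
    rintro q (rfl | ⟨j, rfl⟩)
    · exact W.mono (subset_univ _) hr
    · exact W.mono (subset_univ _) (h1 j).2.2.2.2.1
  have h3 : Ext u (p.res Set.univ) := by
    refine key Set.univ f u (fun j _ => ?_) (by rwa [image_univ]) Set.univ (fun η hη _ => ?_)
    · obtain ⟨h4, h5, h6, h7, h8, h9, h10, h11⟩ := h1 j
      exact ⟨h6, h9, h10, h11⟩
    · rcases lt_or_ge η ζ with h4 | h4
      · exact Or.inl h4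
      · exact Or.inr ⟨⟨η, hη, h4⟩, mem_univ _, rfl⟩
  rw [res_eq_self (subset_univ _)] at h3
  exact ⟨u, hu, h3, h2.ext r (mem_insert _ _)⟩

/-- Extensions of restrictions of `p` are compatible with `p`. -/
theorem compat {p r : Cond L I} {ζ : I} (hp : p ∈ W ν Set.univ) (hr : r ∈ W ν (Iio ζ))
    (h : Le r (p.res (Iio ζ))) : ∃ q ∈ W ν Set.univ, Le q p ∧ Le q r := by
  obtain ⟨t', h1, h2, h3⟩ := h.exists_ext (W.ok hr)
  have hr' : r.withT t' ∈ W ν (Iio ζ) := W.withT hr h1 h2.fix
  obtain ⟨q, hq, hqp, hqr⟩ := compat_ext hp hr' h3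
  refine ⟨q, hq, hqp.le (W.ok hq), ?_⟩
  exact (hqr.le (W.ok hq)).trans h2 ((Le.refl (W.ok hr)).of_withT h1)

theorem dec_openDense (j : I) (x : L) : OpenDense ν Set.univ {q | Dec ν j q x} where
  open_ := by
    intro p hp q hq hqp
    have hle : Le (q.res (Iio j)) (p.res (Iio j)) := hqp.res _
    rcases hp with h | h
    · exact Or.inl (h.mono (fun _ => hle) ((W.ok hq).res _))
    · exact Or.inr (h.mono (fun _ => hle) ((W.ok hq).res _))
  dense := by
    intro p hp
    have hpj := W.res hp j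
    rcases dichotomy (Q := W ν (Iio j)) (N := ν j x) (q := p.res (Iio j))
      (fun q hq => W.ok hq) with h | ⟨r, hr, hrp, _, h⟩
    · exact ⟨p, hp, Le.refl (W.ok hp), Or.inr h⟩
    · obtain ⟨q, hq, hqp, hqr⟩ := compat hp hr hrp
      refine ⟨q, hq, hqp, Or.inl ?_⟩
      exact h.mono (fun _ => hqr.res_left (W.sub hr)) ((W.ok hq).res _)

end MP9708F
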