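import Pool.Agent.Lib.MP_9708fd_lc.COrd

/-!
# Raw conditions

A raw condition consists of a height `ht`, a permutation `t` of `L` (moving only points below `ht`),
a set `s` of fewer than `#L` indices and, for `η ∈ s`, a set `b η` below `ht` together with its mates
`m η ε`, which agree modulo a countable set with the images of `b η` under `t` and its inverse.
-/

open Cardinal Set

set_option linter.unusedSectionVars false

namespace MP9708F

universe u

/-- Raw conditions. -/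
structure Cond (L I : Type u) where
  ht : L
  t : Equiv.Perm L
  s : Set I
  b : I → Set L
  m : I → Bool → Set L

variable {L I : Type u}

/-- The preimage of `y` under `t` (`ε = true`) or under `t⁻¹` (`ε = false`). -/
def pv (t : Equiv.Perm L) (ε : Bool) (y : L) : L := cond ε (t.symm y) (t y)

namespace Cond

/-- Change the permutation. -/
def withT (p : Cond L I) (t : Equiv.Perm L) : Cond L I := { p with t := t }

/-- Restrict the set of indices. -/
def res (p : Cond L I) (A : Set I) : Cond L I := { p with s := p.s ∩ A }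

end Cond

variable [LinearOrder L]

section pv

variable {t t' : Equiv.Perm L} {g : L}

theorem pv_lt (h : ∀ x, g ≤ x → t x = x) (ε : Bool) {y : L} (hy : y < g) : pv t ε y < g := by
  by_contra hcon
  push Not at hcon
  have h1 := h _ hcon
  cases ε
  · have h2 : t y = y := t.injective h1
    have h3 : pv t false y = t y := rfl
    rw [h3, h2] at hcon
    exact absurd hy (not_lt.2 hcon)
  · have h3 : pv t true y = t.symm y := rfl
    rw [h3, Equiv.apply_symm_apply] at h1
    rw [h3, ← h1] at hcon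
    exact absurd hy (not_lt.2 hcon)

theorem pv_eq_self (h : ∀ x, g ≤ x → t x = x) (ε : Bool) {y : L} (hy : g ≤ y) : pv t ε y = y := by
  cases ε
  · exact h y hy
  · show t.symm y = y
    rw [Equiv.symm_apply_eq, h y hy]

theorem pv_agree (h : ∀ x, g ≤ x → t x = x) (h' : ∀ x < g, t' x = t x) (ε : Bool) {y : L}
    (hy : y < g) : pv t' ε y = pv t ε y := by
  cases ε
  · exact h' y hy
  · have h1 : t.symm y < g := pv_lt h true hy
    show t'.symm y = t.symm y
    rw [Equiv.symm_apply_eq, h' _ h1, Equiv.apply_symm_apply]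

theorem pv_inj (ε : Bool) {x y : L} (h : pv t ε x = pv t ε y) : x = y := by
  cases ε
  · exact t.injective h
  · exact t.symm.injective h

theorem pv_surj (t : Equiv.Perm L) (ε : Bool) (y : L) : ∃ x, pv t ε x = y := by
  cases ε
  · exact ⟨t.symm y, t.apply_symm_apply y⟩
  · exact ⟨t y, t.symm_apply_apply y⟩

theorem pv_ge (h : ∀ x, g ≤ x → t x = x) (h' : ∀ x < g, t' x = t x) (ε : Bool) {y : L}
    (hy : g ≤ y) : g ≤ pv t' ε y := by
  by_contra hcon
  push Not at hcon
  -- `pv t' ε y < g` is the value of some point below `g`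
  obtain ⟨z, hz⟩ := pv_surj t ε (pv t' ε y)
  have hzg : z < g := by
    by_contra hz2
    push Not at hz2
    rw [pv_eq_self h ε hz2] at hz
    rw [← hz] at hcon
    exact absurd hcon (not_lt.2 hz2)
  have h1 : pv t' ε z = pv t' ε y := by rw [pv_agree h h' ε hzg, hz]
  have h2 := pv_inj ε h1
  rw [h2] at hzg
  exact absurd hzg (not_lt.2 hy)

omit [LinearOrder L] in
theorem pv_countable (h : {x | t' x ≠ t x}.Countable) (ε : Bool) :
    {y | pv t' ε y ≠ pv t ε y}.Countable := by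
  cases ε
  · exact h
  · refine (h.image t).mono ?_
    intro y hy
    refine ⟨t.symm y, ?_, t.apply_symm_apply y⟩
    intro h1
    apply hy
    show t'.symm y = t.symm y
    rw [Equiv.symm_apply_eq, h1, Equiv.apply_symm_apply]

end pv

/-- Well-formed raw conditions. -/
structure Ok (p : Cond L I) : Prop where
  fix : ∀ x, p.ht ≤ x → p.t x = x
  card : #p.s < #L
  sub_b : ∀ η ∈ p.s, ∀ x ∈ p.b η, x < p.ht
  sub_m : ∀ η ∈ p.s, ∀ ε, ∀ x ∈ p.m η ε, x < p.ht
  mate : ∀ η ∈ p.s, ∀ ε, {y | ¬ (y ∈ p.m η ε ↔ pv p.t ε y ∈ p.b η)}.Countable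

/-- `q` extends `p` at the index `η`, exactly above the height of `p`. -/
structure At (η : I) (q p : Cond L I) : Prop where
  b : ∀ x < p.ht, (x ∈ q.b η ↔ x ∈ p.b η)
  m : ∀ ε, ∀ x < p.ht, (x ∈ q.m η ε ↔ x ∈ p.m η ε)
  ex : ∀ ε y, p.ht ≤ y → (y ∈ q.m η ε ↔ pv q.t ε y ∈ q.b η)

/-- `q` extends `p` directly. -/
structure Ext (q p : Cond L I) : Prop where
  ht : p.ht ≤ q.ht
  t : ∀ x < p.ht, q.t x = p.t x
  s : p.s ⊆ q.s
  at_ : ∀ η ∈ p.s, At η q p

/-- `q` extends `p`: after changing the permutation of `q` on a countable set it extends `p`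
directly. -/
def Le (q p : Cond L I) : Prop :=
  ∃ t' : Equiv.Perm L, {x | t' x ≠ q.t x}.Countable ∧ (∀ x, q.ht ≤ x → t' x = x) ∧
    Ext (q.withT t') p

theorem At.refl {η : I} {p : Cond L I} (hp : Ok p) (hη : η ∈ p.s) : At η p p where
  b _ _ := Iff.rfl
  m _ _ _ := Iff.rfl
  ex ε y hy := by
    rw [pv_eq_self hp.fix ε hy]
    constructor
    · intro h
      exact absurd (hp.sub_m η hη ε y h) (not_lt.2 hy)
    · intro h
      exact absurd (hp.sub_b η hη y h) (not_lt.2 hy)

theorem Ext.refl {p : Cond L I} (hp : Ok p) : Ext p p where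
  ht := le_rfl
  t _ _ := rfl
  s := Subset.rfl
  at_ _ hη := At.refl hp hη

theorem At.trans {η : I} {r q p : Cond L I} (hq : ∀ x, q.ht ≤ x → q.t x = x)
    (hht : p.ht ≤ q.ht) (ht : ∀ x < q.ht, r.t x = q.t x) (h1 : At η r q) (h2 : At η q p) :
    At η r p where
  b x hx := (h1.b x (hx.trans_le hht)).trans (h2.b x hx)
  m ε x hx := (h1.m ε x (hx.trans_le hht)).trans (h2.m ε x hx)
  ex ε y hy := by
    rcases lt_or_ge y q.ht with hyq | hyq
    · rw [h1.m ε y hyq, h2.ex ε y hy, pv_agree hq ht ε hyq, h1.b _ (pv_lt hq ε hyq)]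
    · exact h1.ex ε y hyq

theorem Ext.trans {r q p : Cond L I} (hq : ∀ x, q.ht ≤ x → q.t x = x) (h1 : Ext r q)
    (h2 : Ext q p) : Ext r p where
  ht := h2.ht.trans h1.ht
  t x hx := (h1.t x (hx.trans_le h2.ht)).trans (h2.t x hx)
  s := h2.s.trans h1.s
  at_ η hη := At.trans hq h2.ht h1.t (h1.at_ η (h2.s hη)) (h2.at_ η hη)

theorem Ok.withT {p : Cond L I} (hp : Ok p) {t' : Equiv.Perm L}
    (h : {x | t' x ≠ p.t x}.Countable) (h' : ∀ x, p.ht ≤ x → t' x = x) : Ok (p.withT t') where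
  fix := h'
  card := hp.card
  sub_b := hp.sub_b
  sub_m := hp.sub_m
  mate η hη ε := by
    refine ((hp.mate η hη ε).union (pv_countable h ε)).mono ?_
    intro y hy
    by_cases h1 : pv t' ε y = pv p.t ε y
    · left
      intro h2
      apply hy
      show y ∈ p.m η ε ↔ pv t' ε y ∈ p.b η
      rw [h1]
      exact h2
    · exact Or.inr h1

theorem Ext.le {q p : Cond L I} (hq : Ok q) (h : Ext q p) : Le q p :=
  ⟨q.t, by simp, hq.fix, h⟩

theorem Le.refl {p : Cond L I} (hp : Ok p) : Le p p := (Ext.refl hp).le hp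

/-- Changing the permutation on a countable set gives an equivalent condition. -/
theorem Le.of_withT {q p : Cond L I} {t' : Equiv.Perm L} (h : Le q p)
    (ht : {x | t' x ≠ q.t x}.Countable) : Le (q.withT t') p := by
  obtain ⟨t'', h1, h2, h3⟩ := h
  refine ⟨t'', ?_, h2, h3⟩
  refine (h1.union ht).mono ?_
  intro x hx
  by_cases h4 : t'' x = q.t x
  · right
    intro h5
    apply hx
    show t'' x = t' x
    rw [h4, h5]
  · exact Or.inl h4

theorem Le.of_withT' {q p : Cond L I} {t' : Equiv.Perm L} (h : Le (q.withT t') p)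
    (ht : {x | t' x ≠ q.t x}.Countable) : Le q p := by
  obtain ⟨t'', h1, h2, h3⟩ := h
  refine ⟨t'', ?_, h2, h3⟩
  refine (h1.union ht).mono ?_
  intro x hx
  by_cases h4 : t'' x = t' x
  · right
    intro h5
    apply hx
    rw [h4, h5]
  · exact Or.inl h4

/-- Gluing permutations. -/
theorem exists_glue {t t' : Equiv.Perm L} {g : L} (h : ∀ x < g, t x < g)
    (hs : ∀ x < g, t.symm x < g) (h' : ∀ x, g ≤ x → g ≤ t' x) (hs' : ∀ x, g ≤ x → g ≤ t'.symm x) :
    ∃ t'' : Equiv.Perm L, (∀ x < g, t'' x = t x) ∧ ∀ x, g ≤ x → t'' x = t' x := by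
  classical
  refine ⟨⟨fun x => if x < g then t x else t' x, fun x => if x < g then t.symm x else t'.symm x,
    ?_, ?_⟩, ?_, ?_⟩
  · intro x
    by_cases hx : x < g
    · simp [hx, h x hx]
    · have := h' x (not_lt.1 hx)
      simp [hx, not_lt.2 this]
  · intro x
    by_cases hx : x < g
    · simp [hx, hs x hx]
    · have := hs' x (not_lt.1 hx)
      simp [hx, not_lt.2 this]
  · intro x hx
    simp [hx]
  · intro x hx
    simp [not_lt.2 hx]

theorem Le.trans {r q p : Cond L I} (hq : Ok q) (h1 : Le r q) (h2 : Le q p) :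
    Le r p := by
  obtain ⟨t1, ht1, hf1, h1⟩ := h1
  obtain ⟨t2, ht2, hf2, h2⟩ := h2
  have hr : q.ht ≤ r.ht := h1.ht
  -- `t1` maps the points `≥ q.ht` to points `≥ q.ht`
  have hge : ∀ ε y, q.ht ≤ y → q.ht ≤ pv t1 ε y := fun ε y hy => pv_ge hq.fix h1.t ε hy
  obtain ⟨t3, h3, h3'⟩ := exists_glue (t := t2) (t' := t1) (g := q.ht)
    (fun x hx => pv_lt hf2 false hx) (fun x hx => pv_lt hf2 true hx) (fun x hx => hge false x hx)
    (fun x hx => hge true x hx)
  have hc : {x | t3 x ≠ r.t x}.Countable := by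
    refine (ht1.union ht2).mono ?_
    intro x hx
    rcases lt_or_ge x q.ht with hxq | hxq
    · by_cases h4 : t2 x = q.t x
      · left
        intro h5
        apply hx
        have h6 : t1 x = q.t x := h1.t x hxq
        rw [h3 x hxq, h4, ← h6, h5]
      · exact Or.inr h4
    · left
      intro h5
      apply hx
      rw [h3' x hxq, h5]
  have hf3 : ∀ x, r.ht ≤ x → t3 x = x := fun x hx => by
    rw [h3' x (hr.trans hx), hf1 x hx]
  refine ⟨t3, hc, hf3, ?_⟩
  refine ⟨h2.ht.trans hr, ?_, h2.s.trans h1.s, ?_⟩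
  · intro x hx
    show t3 x = p.t x
    rw [h3 x (hx.trans_le h2.ht)]
    exact h2.t x hx
  · intro η hη
    have a2 := h2.at_ η hη
    have a1 := h1.at_ η (h2.s hη)
    refine ⟨fun x hx => (a1.b x (hx.trans_le h2.ht)).trans (a2.b x hx),
      fun ε x hx => (a1.m ε x (hx.trans_le h2.ht)).trans (a2.m ε x hx), ?_⟩
    intro ε y hy
    show y ∈ r.m η ε ↔ pv t3 ε y ∈ r.b η
    rcases lt_or_ge y q.ht with hyq | hyq
    · have e1 : y ∈ r.m η ε ↔ y ∈ q.m η ε := a1.m ε y hyq
      have e2 : y ∈ q.m η ε ↔ pv t2 ε y ∈ q.b η := a2.ex ε y hy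
      have e3 : pv t3 ε y = pv t2 ε y := pv_agree hf2 h3 ε hyq
      have e4 : pv t2 ε y ∈ r.b η ↔ pv t2 ε y ∈ q.b η := a1.b _ (pv_lt hf2 ε hyq)
      rw [e1, e2, e3, e4]
    · have e1 : y ∈ r.m η ε ↔ pv t1 ε y ∈ r.b η := a1.ex ε y hyq
      have e3 : pv t3 ε y = pv t1 ε y := by
        have h4 := hge ε y hyq
        cases ε
        · exact h3' y hyq
        · show t3.symm y = t1.symm y
          have h5 : q.ht ≤ t1.symm y := h4
          rw [Equiv.symm_apply_eq, h3' _ h5, Equiv.apply_symm_apply]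
      rw [e1, e3]

/-- Every extension is equivalent to a direct extension. -/
theorem Le.exists_ext {q p : Cond L I} (hq : Ok q) (h : Le q p) :
    ∃ t' : Equiv.Perm L, {x | t' x ≠ q.t x}.Countable ∧ Ok (q.withT t') ∧ Ext (q.withT t') p := by
  obtain ⟨t', h1, h2, h3⟩ := h
  exact ⟨t', h1, hq.withT h1 h2, h3⟩

theorem Ok.res {p : Cond L I} (hp : Ok p) (A : Set I) : Ok (p.res A) where
  fix := hp.fix
  card := (mk_le_mk_of_subset inter_subset_left).trans_lt hp.card
  sub_b η hη := hp.sub_b η hη.1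
  sub_m η hη := hp.sub_m η hη.1
  mate η hη := hp.mate η hη.1

theorem Ext.res {q p : Cond L I} (h : Ext q p) (A : Set I) : Ext (q.res A) (p.res A) where
  ht := h.ht
  t := h.t
  s := inter_subset_inter_left A h.s
  at_ η hη := ⟨(h.at_ η hη.1).b, (h.at_ η hη.1).m, (h.at_ η hη.1).ex⟩

theorem Ext.res_right {q p : Cond L I} (h : Ext q p) (A : Set I) : Ext q (p.res A) where
  ht := h.ht
  t := h.t
  s := inter_subset_left.trans h.s
  at_ η hη := ⟨(h.at_ η hη.1).b, (h.at_ η hη.1).m, (h.at_ η hη.1).ex⟩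

theorem Ext.res_left {q p : Cond L I} (h : Ext q p) {A : Set I} (hA : p.s ⊆ A) :
    Ext (q.res A) p where
  ht := h.ht
  t := h.t
  s := subset_inter h.s hA
  at_ η hη := ⟨(h.at_ η hη).b, (h.at_ η hη).m, (h.at_ η hη).ex⟩

theorem Le.res {q p : Cond L I} (h : Le q p) (A : Set I) : Le (q.res A) (p.res A) := by
  obtain ⟨t', h1, h2, h3⟩ := h
  exact ⟨t', h1, h2, h3.res A⟩

theorem Le.res_right {q p : Cond L I} (h : Le q p) (A : Set I) : Le q (p.res A) := by
  obtain ⟨t', h1, h2, h3⟩ := h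
  exact ⟨t', h1, h2, h3.res_right A⟩

theorem Le.res_left {q p : Cond L I} (h : Le q p) {A : Set I} (hA : p.s ⊆ A) : Le (q.res A) p := by
  obtain ⟨t', h1, h2, h3⟩ := h
  exact ⟨t', h1, h2, h3.res_left hA⟩

theorem Le.of_res_left {q p : Cond L I} {A : Set I} (h : Le (q.res A) p) : Le q p := by
  obtain ⟨t', h1, h2, h3⟩ := h
  exact ⟨t', h1, h2, ⟨h3.ht, h3.t, h3.s.trans inter_subset_left, fun η hη =>
    ⟨(h3.at_ η hη).b, (h3.at_ η hη).m, (h3.at_ η hη).ex⟩⟩⟩

theorem Le.ht {q p : Cond L I} (h : Le q p) : p.ht ≤ q.ht := by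
  obtain ⟨t', h1, h2, h3⟩ := h
  exact h3.ht

theorem Le.s {q p : Cond L I} (h : Le q p) : p.s ⊆ q.s := by
  obtain ⟨t', h1, h2, h3⟩ := h
  exact h3.s

theorem Le.b {q p : Cond L I} (h : Le q p) {η : I} (hη : η ∈ p.s) {x : L} (hx : x < p.ht) :
    x ∈ q.b η ↔ x ∈ p.b η := by
  obtain ⟨t', h1, h2, h3⟩ := h
  exact (h3.at_ η hη).b x hx

theorem Le.m {q p : Cond L I} (h : Le q p) {η : I} (hη : η ∈ p.s) (ε : Bool) {x : L}
    (hx : x < p.ht) : x ∈ q.m η ε ↔ x ∈ p.m η ε := by
  obtain ⟨t', h1, h2, h3⟩ := h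
  exact (h3.at_ η hη).m ε x hx

theorem res_res (p : Cond L I) {A B : Set I} (h : A ⊆ B) : (p.res B).res A = p.res A := by
  unfold Cond.res
  congr 1
  ext η
  simp only [mem_inter_iff]
  constructor
  · rintro ⟨⟨h1, _⟩, h2⟩
    exact ⟨h1, h2⟩
  · rintro ⟨h1, h2⟩
    exact ⟨⟨h1, h h2⟩, h2⟩

end MP9708F
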