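import Pool.Agent.Lib.MP_9708fd_lc.CCompat

/-!
# Extensions of arbitrary height
-/

open Cardinal Set

set_option linter.unusedSectionVars false

namespace MP9708F

universe u

variable {L I : Type u} [LinearOrder L] [LinearOrder I] [WellFoundedLT I]
  {ν : I → L → Set (Cond L I)} {A : Set I} [InaccOrder L]

/-- Raise the height of a condition which decides everything below `δ`. -/
theorem raise {u : Cond L I} (hu : u ∈ W ν Set.univ) {δ : L} (hδ : u.ht ≤ δ)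
    (hdec : ∀ η ∈ u.s, ∀ x < δ, Dec ν η u x) :
    ∃ q ∈ W ν Set.univ, Ext q u ∧ q.ht = δ ∧ q.t = u.t ∧ q.s = u.s := by
  have hok := W.ok hu
  let q : Cond L I :=
    { ht := δ
      t := u.t
      s := u.s
      b := fun η => {x | x < δ ∧ FcS (W ν (Iio η)) (u.res (Iio η)) (ν η x)}
      m := fun η ε => {y | y < δ ∧ ((y < u.ht ∧ y ∈ u.m η ε) ∨
        (u.ht ≤ y ∧ FcS (W ν (Iio η)) (u.res (Iio η)) (ν η y)))} }
  have hb : ∀ η ∈ u.s, ∀ x < u.ht, (x ∈ q.b η ↔ x ∈ u.b η) := by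
    intro η hη x hx
    have hval := (VAt_iff ν).1 (W.val hu hη) x hx
    constructor
    · intro h
      by_contra h1
      exact (hval.2 h1).not_FcS (W.res hu η) (hok.res _) h.2
    · intro h
      exact ⟨hx.trans_le hδ, hval.1 h⟩
  have hm : ∀ η, ∀ ε, ∀ y < u.ht, (y ∈ q.m η ε ↔ y ∈ u.m η ε) := by
    intro η ε y hy
    constructor
    · rintro ⟨_, h | h⟩
      · exact h.2
      · exact absurd hy (not_lt.2 h.1)
    · intro h
      exact ⟨hy.trans_le hδ, Or.inl ⟨hy, h⟩⟩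
  have hex : ∀ η, ∀ ε, ∀ y, u.ht ≤ y → (y ∈ q.m η ε ↔ pv q.t ε y ∈ q.b η) := by
    intro η ε y hy
    have h1 : pv q.t ε y = y := pv_eq_self hok.fix ε hy
    rw [h1]
    constructor
    · rintro ⟨h2, h | h⟩
      · exact absurd h.1 (not_lt.2 hy)
      · exact ⟨h2, h.2⟩
    · rintro ⟨h2, h⟩
      exact ⟨h2, Or.inr ⟨hy, h⟩⟩
  have hext : Ext q u := ⟨hδ, fun _ _ => rfl, Subset.rfl, fun η hη => ⟨hb η hη, hm η, hex η⟩⟩
  have hqok : Ok q := by
    refine ⟨fun x hx => hok.fix x (hδ.trans hx), hok.card, fun η _ x hx => hx.1,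
      fun η _ ε x hx => hx.1, fun η hη ε => ?_⟩
    refine (hok.mate η hη ε).mono ?_
    intro y hy h1
    apply hy
    rcases lt_or_ge y u.ht with hyu | hyu
    · rw [hm η ε y hyu]
      show _ ↔ pv u.t ε y ∈ q.b η
      rw [hb η hη _ (pv_lt hok.fix ε hyu)]
      exact h1
    · exact hex η ε y hyu
  refine ⟨q, ⟨hqok, subset_univ _, fun η hη => ?_⟩, hext, rfl, rfl, rfl⟩
  rw [VAt_iff]
  intro x hx
  have hle : Le (q.res (Iio η)) (u.res (Iio η)) := (hext.res _).le (hqok.res _)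
  refine ⟨fun h => h.2.mono (fun _ => hle) (hqok.res _), fun h => ?_⟩
  rcases hdec η hη x hx with h1 | h1
  · exact absurd ⟨hx, h1⟩ h
  · exact h1.mono (fun _ => hle) (hqok.res _)

theorem height {p : Cond L I} (hp : p ∈ W ν Set.univ) (δ : L) :
    ∃ q ∈ W ν Set.univ, Ext q p ∧ δ ≤ q.ht := by
  obtain ⟨f, u, h0, h1, h2, h3, h4⟩ := iter_nat hp
    (fun q q' => ∀ η ∈ q.s, ∀ x < δ, Dec ν η q' x) (by
    intro q hq
    have hcard : #(q.s × Iio δ) < #L := by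
      rw [mk_prod, lift_id, lift_id]
      exact mul_lt_of_lt aleph0_lt.le (W.ok hq).card (card_Iio_lt δ)
    obtain ⟨q', hq', h1, h2⟩ := distrib (Θ := q.s × Iio δ) hcard
      (D := fun x => {q' | Dec ν x.1.1 q' x.2.1}) (fun x => dec_openDense x.1.1 x.2.1) hq
    exact ⟨q', hq', h1, fun η hη x hx => h2 ⟨⟨η, hη⟩, ⟨x, hx⟩⟩⟩)
  have hup : Ext u p := by
    have := h3 0
    rwa [h0] at this
  rcases le_total δ u.ht with hδ | hδ
  · exact ⟨u, h2, hup, hδ⟩
  · obtain ⟨q, hq, hqu, hqδ, _, _⟩ := raise h2 hδ (by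
      intro η hη x hx
      obtain ⟨_, ⟨n, rfl⟩, hn⟩ := h4.s η hη
      exact (dec_openDense η x).open_ _ ((h1 n).2.2 η hn x hx) u h2
        ((h3 (n + 1)).le (W.ok h2)))
    exact ⟨q, hq, Ext.trans (W.ok h2).fix hqu hup, hqδ.ge⟩

end MP9708F
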