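import Pool.Agent.Lib.MP_9708fd_lc.CVal

/-!
# Transfinite descending sequences of direct extensions, distributivity
-/

open Cardinal Set

set_option linter.unusedSectionVars false

namespace MP9708F

universe u

variable {L I : Type u} [LinearOrder L] [InaccOrder L]

theorem iter {Θ : Type u} [LinearOrder Θ] [WellFoundedLT Θ] (hΘ : #Θ < #L) (p₀ : Cond L I)
    (hp₀ : Ok p₀) (Inv : Θ → Cond L I → Prop) (Q : Θ → Cond L I → Cond L I → Prop)
    (hstep : ∀ i q, Ok q → Inv i q → ∃ q', Ok q' ∧ Ext q' q ∧ Q i q q')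
    (hinv : ∀ (i : Θ) (f g : Θ → Cond L I) (u : Cond L I),
      (∀ j < i, Inv j (g j) ∧ Ok (f j) ∧ Ext (f j) (g j) ∧ Q j (g j) (f j)) →
        IsUnion (insert p₀ (f '' Iio i)) u → Inv i u) :
    ∃ (g f : Θ → Cond L I) (u : Cond L I),
      (∀ i, IsUnion (insert p₀ (f '' Iio i)) (g i) ∧ Inv i (g i) ∧ Ok (f i) ∧ Ext (f i) (g i) ∧
        Q i (g i) (f i)) ∧ IsUnion (insert p₀ (range f)) u := by
  classical
  let un : Set (Cond L I) → Cond L I := fun F => if h : ∃ u, IsUnion F u then h.choose else p₀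
  have hun : ∀ F, (∃ u, IsUnion F u) → IsUnion F (un F) := by
    intro F h
    simp only [un, dif_pos h]
    exact h.choose_spec
  let stp : Θ → Cond L I → Cond L I := fun i q =>
    if h : ∃ q', Ok q' ∧ Ext q' q ∧ Q i q q' then h.choose else q
  have hstp : ∀ i q, (∃ q', Ok q' ∧ Ext q' q ∧ Q i q q') →
      Ok (stp i q) ∧ Ext (stp i q) q ∧ Q i q (stp i q) := by
    intro i q h
    simp only [stp, dif_pos h]
    exact h.choose_spec
  let F : (i : Θ) → ((j : Θ) → j < i → Cond L I) → Cond L I := fun i ih =>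
    stp i (un (insert p₀ {q | ∃ j, ∃ h : j < i, ih j h = q}))
  let f : Θ → Cond L I := WellFounded.fix (C := fun _ => Cond L I) (wellFounded_lt (α := Θ)) F
  let g : Θ → Cond L I := fun i => un (insert p₀ (f '' Iio i))
  have hf : ∀ i, f i = stp i (g i) := by
    intro i
    have h1 : f i = F i fun j _ => f j := by
      show WellFounded.fix _ _ _ = _
      rw [WellFounded.fix_eq]
    rw [h1]
    show stp i (un _) = stp i (un _)
    congr 2
    ext q
    simp [mem_image]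
  -- the chain property
  have hchain : ∀ J : Set Θ, (∀ i ∈ J, IsUnion (insert p₀ (f '' Iio i)) (g i) ∧ Ok (f i) ∧
      Ext (f i) (g i)) → (∀ p ∈ insert p₀ (f '' J), ∀ q ∈ insert p₀ (f '' J),
        Ext p q ∨ Ext q p) := by
    intro J hJ
    have h0 : ∀ i ∈ J, Ext (f i) p₀ := by
      intro i hi
      obtain ⟨h1, h2, h3⟩ := hJ i hi
      exact Ext.trans h1.ok.fix h3 (h1.ext p₀ (mem_insert _ _))
    have h1 : ∀ i ∈ J, ∀ j ∈ J, i < j → Ext (f j) (f i) := by
      intro i hi j hj hij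
      obtain ⟨h1, h2, h3⟩ := hJ j hj
      exact Ext.trans h1.ok.fix h3 (h1.ext _ (mem_insert_of_mem _ ⟨i, hij, rfl⟩))
    rintro p (rfl | ⟨i, hi, rfl⟩) q (rfl | ⟨j, hj, rfl⟩)
    · exact Or.inl (Ext.refl hp₀)
    · exact Or.inr (h0 j hj)
    · exact Or.inl (h0 i hi)
    · rcases lt_trichotomy i j with h | h | h
      · exact Or.inr (h1 i hi j hj h)
      · subst h
        exact Or.inl (Ext.refl (hJ i hi).2.1)
      · exact Or.inl (h1 j hj i hi h)
  have hcard : ∀ J : Set Θ, #(insert p₀ (f '' J) : Set (Cond L I)) < #L := by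
    intro J
    refine (mk_insert_le).trans_lt ?_
    refine add_lt_of_lt aleph0_lt.le ?_ (one_lt_aleph0.trans aleph0_lt)
    exact (mk_image_le.trans (mk_set_le _)).trans_lt hΘ
  have main : ∀ i, IsUnion (insert p₀ (f '' Iio i)) (g i) ∧ Inv i (g i) ∧ Ok (f i) ∧
      Ext (f i) (g i) ∧ Q i (g i) (f i) := by
    intro i
    induction i using WellFoundedLT.induction with
    | ind i ih =>
      have h1 : IsUnion (insert p₀ (f '' Iio i)) (g i) := by
        apply hun
        apply exists_union (hcard _)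
        · rintro p (rfl | ⟨j, hj, rfl⟩)
          · exact hp₀
          · exact (ih j hj).2.2.1
        · exact hchain _ fun j hj => ⟨(ih j hj).1, (ih j hj).2.2.1, (ih j hj).2.2.2.1⟩
      have h2 : Inv i (g i) := hinv i f g (g i)
        (fun j hj => (ih j hj).2) h1
      have h3 := hstp i (g i) (hstep i (g i) h1.ok h2)
      rw [← hf i] at h3
      exact ⟨h1, h2, h3⟩
  have hu : ∃ u, IsUnion (insert p₀ (range f)) u := by
    rw [← image_univ]
    apply exists_union (hcard _)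
    · rintro p (rfl | ⟨j, hj, rfl⟩)
      · exact hp₀
      · exact (main j).2.2.1
    · exact hchain _ fun j hj => ⟨(main j).1, (main j).2.2.1, (main j).2.2.2.1⟩
  obtain ⟨u, hu⟩ := hu
  exact ⟨g, f, u, main, hu⟩

variable [LinearOrder I] [WellFoundedLT I] {ν : I → L → Set (Cond L I)} {A : Set I}

/-- `D` is open and dense in `W ν A`. -/
structure OpenDense (ν : I → L → Set (Cond L I)) (A : Set I) (D : Set (Cond L I)) : Prop where
  open_ : ∀ p ∈ D, ∀ q ∈ W ν A, Le q p → q ∈ D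
  dense : ∀ p ∈ W ν A, ∃ q ∈ W ν A, Le q p ∧ q ∈ D

omit [InaccOrder L] in
theorem OpenDense.exists_ext {D : Set (Cond L I)} (h : OpenDense ν A D) {p : Cond L I}
    (hp : p ∈ W ν A) : ∃ q ∈ W ν A, Ext q p ∧ q ∈ D := by
  obtain ⟨q, hq, hqp, hqD⟩ := h.dense p hp
  obtain ⟨t', h1, h2, h3⟩ := hqp.exists_ext (W.ok hq)
  have h4 : q.withT t' ∈ W ν A := W.withT hq h1 h2.fix
  exact ⟨_, h4, h3, h.open_ q hqD _ h4 ((Le.refl (W.ok hq)).of_withT h1)⟩

theorem distrib {Θ : Type u} (hΘ : #Θ < #L) {D : Θ → Set (Cond L I)}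
    (hD : ∀ i, OpenDense ν A (D i)) {p : Cond L I} (hp : p ∈ W ν A) :
    ∃ q ∈ W ν A, Ext q p ∧ ∀ i, q ∈ D i := by
  obtain ⟨_, _⟩ := exists_wellFoundedLT Θ
  obtain ⟨g, f, u, h1, h2⟩ := iter hΘ p (W.ok hp) (fun _ q => q ∈ W ν A)
    (fun i _ q' => q' ∈ W ν A ∧ q' ∈ D i) (by
      intro i q _ hq
      obtain ⟨q', h1, h2, h3⟩ := (hD i).exists_ext hq
      exact ⟨q', W.ok h1, h2, h1, h3⟩) (by
      intro i f g u h hu
      apply hu.mem_W
      rintro q (rfl | ⟨j, hj, rfl⟩)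
      · exact hp
      · exact (h j hj).2.2.2.1)
  have hu : u ∈ W ν A := by
    apply h2.mem_W
    rintro q (rfl | ⟨j, rfl⟩)
    · exact hp
    · exact (h1 j).2.2.2.2.1
  exact ⟨u, hu, h2.ext p (mem_insert _ _), fun i => (hD i).open_ _ (h1 i).2.2.2.2.2 u hu
    ((h2.ext _ (mem_insert_of_mem _ ⟨i, rfl⟩)).le h2.ok)⟩

/-- Iterating `ω` times. -/
theorem iter_nat {p : Cond L I} (hp : p ∈ W ν A) (R : Cond L I → Cond L I → Prop)
    (hR : ∀ q ∈ W ν A, ∃ q' ∈ W ν A, Ext q' q ∧ R q q') :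
    ∃ (f : ℕ → Cond L I) (u : Cond L I), f 0 = p ∧ (∀ n, f n ∈ W ν A ∧ Ext (f (n + 1)) (f n) ∧
      R (f n) (f (n + 1))) ∧ u ∈ W ν A ∧ (∀ n, Ext u (f n)) ∧ IsUnion (range f) u := by
  classical
  choose! F hF using hR
  let f : ℕ → Cond L I := fun n => F^[n] p
  have hs : ∀ n, f (n + 1) = F (f n) := fun n => Function.iterate_succ_apply' F n p
  have hW : ∀ n, f n ∈ W ν A := by
    intro n
    induction n with
    | zero => exact hp
    | succ n ih =>
      rw [hs]
      exact (hF _ ih).1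
  have hE : ∀ n, Ext (f (n + 1)) (f n) := fun n => by
    rw [hs]
    exact (hF _ (hW n)).2.1
  have hE' : ∀ m n, m ≤ n → Ext (f n) (f m) := by
    intro m n hmn
    induction n, hmn using Nat.le_induction with
    | base => exact Ext.refl (W.ok (hW m))
    | succ n _ ih => exact Ext.trans (W.ok (hW n)).fix (hE n) ih
  obtain ⟨u, hu⟩ := exists_union (L := L) (F := range f)
    (card_lt_of_countable (countable_range f)) (by
      rintro _ ⟨n, rfl⟩
      exact W.ok (hW n)) (by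
      rintro _ ⟨m, rfl⟩ _ ⟨n, rfl⟩
      rcases le_total m n with h | h
      · exact Or.inr (hE' m n h)
      · exact Or.inl (hE' n m h))
  refine ⟨f, u, rfl, fun n => ⟨hW n, hE n, ?_⟩, ?_, fun n => hu.ext _ ⟨n, rfl⟩, hu⟩
  · rw [hs]
    exact (hF _ (hW n)).2.2
  · apply hu.mem_W
    rintro _ ⟨n, rfl⟩
    exact hW n

/-- Deciding everything below the height. -/
theorem decide_all {D : L → Set (Cond L I)} (hD : ∀ x, OpenDense ν A (D x)) {p : Cond L I}
    (hp : p ∈ W ν A) : ∃ q ∈ W ν A, Ext q p ∧ ∀ x < q.ht, q ∈ D x := by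
  obtain ⟨f, u, h0, h1, h2, h3, h4⟩ := iter_nat hp (fun q q' => ∀ x < q.ht, q' ∈ D x) (by
    intro q hq
    obtain ⟨q', hq', h1, h2⟩ := distrib (Θ := Iio q.ht) (card_Iio_lt _)
      (D := fun x => D x.1) (fun x => hD x.1) hq
    exact ⟨q', hq', h1, fun x hx => h2 ⟨x, hx⟩⟩)
  refine ⟨u, h2, ?_, fun x hx => ?_⟩
  · have := h3 0
    rwa [h0] at this
  · obtain ⟨_, ⟨n, rfl⟩, hn⟩ := h4.ht x hx
    exact (hD x).open_ _ ((h1 n).2.2 x hn) u h2 ((h3 (n + 1)).le (W.ok h2))

end MP9708F
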