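import Pool.Agent.Lib.MP_9708fd_lc.CClos

/-!
# The inductive type of indices

An index `ζ : Nm L` codes, for each `x : L`, a family `nu ζ x` of at most `#L` conditions all of whose
indices are smaller than `ζ`.
-/

open Cardinal Set

set_option linter.unusedSectionVars false

namespace MP9708F

universe u

/-- The non-recursive part of an index. -/
structure Shape (L : Type u) : Type u where
  hd : L → L → Option (L × Equiv.Perm L)
  tl : L → L → L → Option (Set L × (Bool → Set L))

/-- Indices. -/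
inductive Nm (L : Type u) : Type u
  | mk (sh : Shape L)
      (c : {k : L × L × L // (sh.tl k.1 k.2.1 k.2.2).isSome = true} → Nm L) : Nm L

variable {L : Type u}

/-- `η` occurs in `ζ`. -/
def Nm.child (η : Nm L) : Nm L → Prop
  | .mk _ c => ∃ k, c k = η

theorem Nm.child_wf : WellFounded (Nm.child (L := L)) := by
  refine ⟨fun ζ => ?_⟩
  induction ζ with
  | mk sh c ih =>
    refine ⟨_, ?_⟩
    rintro η ⟨k, rfl⟩
    exact ih k

instance : IsWellFounded (Nm L) Nm.child := ⟨Nm.child_wf⟩

noncomputable instance : LinearOrder (Nm L) := IsWellFounded.wellOrderExtension Nm.child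

instance : WellFoundedLT (Nm L) := IsWellFounded.wellOrderExtension.isWellFounded_lt Nm.child

theorem Nm.lt_of_child {η ζ : Nm L} (h : Nm.child η ζ) : η < ζ :=
  Prod.Lex.left _ _ (IsWellFounded.rank_lt_of_rel h)

/-- The families of conditions coded by an index. -/
def nu : Nm L → L → Set (Cond L (Nm L))
  | .mk sh c, x => {p | ∃ i, sh.hd x i = some (p.ht, p.t) ∧
      (∀ η, η ∈ p.s ↔ ∃ j, ∃ h, c ⟨(x, i, j), h⟩ = η) ∧
      ∀ j h, p.b (c ⟨(x, i, j), h⟩) = ((sh.tl x i j).get h).1 ∧
        p.m (c ⟨(x, i, j), h⟩) = ((sh.tl x i j).get h).2}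

theorem nu_lt {ζ : Nm L} {x : L} {a : Cond L (Nm L)} (ha : a ∈ nu ζ x) {η : Nm L} (hη : η ∈ a.s) :
    η < ζ := by
  cases ζ with
  | mk sh c =>
    obtain ⟨i, _, h, _⟩ := ha
    obtain ⟨j, hj, h1⟩ := (h η).1 hη
    exact Nm.lt_of_child ⟨_, h1⟩

theorem get_eq {α : Type*} {o : Option α} {a : α} (ho : o = some a) (h : o.isSome = true) :
    o.get h = a := by
  subst ho
  rfl

theorem exists_enum {α : Type u} {S : Set α} (hS : #S ≤ #L) :
    ∃ e : L → Option α, ∀ a, (∃ i, e i = some a) ↔ a ∈ S := by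
  classical
  obtain ⟨f⟩ := hS
  refine ⟨fun i => if h : ∃ a : S, f a = i then some h.choose.1 else none, fun a => ?_⟩
  constructor
  · rintro ⟨i, hi⟩
    by_cases h : ∃ a : S, f a = i
    · simp only [dif_pos h, Option.some.injEq] at hi
      rw [← hi]
      exact h.choose.2
    · simp only [dif_neg h] at hi
      exact absurd hi (by simp)
  · intro ha
    refine ⟨f ⟨a, ha⟩, ?_⟩
    have h : ∃ b : S, f b = f ⟨a, ha⟩ := ⟨_, rfl⟩
    simp only [dif_pos h, Option.some.injEq]
    have := f.injective h.choose_spec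
    rw [this]

variable [LinearOrder L]

/-- Conditions which agree on the relevant data. -/
structure Same {I : Type u} (p a : Cond L I) : Prop where
  ht : p.ht = a.ht
  t : p.t = a.t
  s : p.s = a.s
  b : ∀ η ∈ a.s, p.b η = a.b η
  m : ∀ η ∈ a.s, p.m η = a.m η

theorem Same.ok {I : Type u} {p a : Cond L I} (h : Same p a) (ha : Ok a) : Ok p := by
  obtain ⟨h1, h2, h3, h4, h5⟩ := h
  refine ⟨fun x hx => ?_, ?_, fun η hη x hx => ?_, fun η hη ε x hx => ?_, fun η hη ε => ?_⟩
  · rw [h2]
    exact ha.fix x (h1 ▸ hx)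
  · rw [h3]
    exact ha.card
  · rw [h3] at hη
    rw [h4 η hη] at hx
    rw [h1]
    exact ha.sub_b η hη x hx
  · rw [h3] at hη
    rw [h5 η hη] at hx
    rw [h1]
    exact ha.sub_m η hη ε x hx
  · rw [h3] at hη
    rw [h4 η hη, h5 η hη, h2]
    exact ha.mate η hη ε

theorem Same.ext {I : Type u} {p a : Cond L I} (h : Same p a) (ha : Ok a) : Ext p a := by
  obtain ⟨h1, h2, h3, h4, h5⟩ := h
  refine ⟨h1.ge, fun x _ => by rw [h2], h3.ge, fun η hη => ?_⟩
  have h6 := At.refl ha hη
  refine ⟨fun x hx => by rw [h4 η hη], fun ε x hx => by rw [h5 η hη], fun ε y hy => ?_⟩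
  rw [h4 η hη, h5 η hη, h2]
  exact h6.ex ε y hy

theorem Same.mem_W {I : Type u} [LinearOrder I] [WellFoundedLT I] {ν : I → L → Set (Cond L I)}
    {A : Set I} {p a : Cond L I} (h : Same p a) (ha : a ∈ W ν A) : p ∈ W ν A := by
  have h1 := h.ext (W.ok ha)
  have h2 := h.ok (W.ok ha)
  refine ⟨h2, ?_, fun η hη => ?_⟩
  · rw [h.s]
    exact W.sub ha
  · rw [h.s] at hη
    refine VAt_of h2 fun x hx => ⟨a, W.val ha hη, ?_, ?_, (h1.res _).le (h2.res _)⟩
    · rw [← h.ht]
      exact hx
    · rw [h.b η hη]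

variable [InaccOrder L]

/-- Every open family of sets of conditions is captured by an index. -/
theorem capture (O : L → Set (Cond L (Nm L))) (hO : ∀ x, O x ⊆ W nu Set.univ)
    (hopen : ∀ x, ∀ p ∈ O x, ∀ q ∈ W nu Set.univ, Le q p → q ∈ O x) :
    ∃ ζ : Nm L, (∀ x, nu ζ x ⊆ O x) ∧
      ∀ x, ∀ p ∈ O x, ∃ a ∈ nu ζ x, ∃ q ∈ W nu Set.univ, Ext q p ∧ Ext q a := by
  classical
  obtain ⟨N, hN1, hN2, hN3⟩ := closure_lemma O hO
  choose E hE using fun x => exists_enum (hN2 x)
  have h0 : ∀ a : Cond L (Nm L), ∃ e : L → Option (Nm L), #a.s ≤ #L →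
      ∀ η, (∃ i, e i = some η) ↔ η ∈ a.s := by
    intro a
    by_cases h : #a.s ≤ #L
    · obtain ⟨e, he⟩ := exists_enum h
      exact ⟨e, fun _ => he⟩
    · exact ⟨fun _ => none, fun h' => absurd h' h⟩
  choose Es hEs using h0
  let sh : Shape L :=
    { hd := fun x i => (E x i).map fun a => (a.ht, a.t)
      tl := fun x i j => (E x i).bind fun a => (Es a j).map fun η => (a.b η, a.m η) }
  have hsome : ∀ x i j, (sh.tl x i j).isSome = true → ((E x i).bind fun a => Es a j).isSome = true := by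
    intro x i j h
    change ((E x i).bind fun a => (Es a j).map fun η => (a.b η, a.m η)).isSome = true at h
    cases h1 : E x i with
    | none =>
      rw [h1] at h
      exact h
    | some a =>
      rw [h1] at h
      change ((Es a j).map fun η => (a.b η, a.m η)).isSome = true at h
      show (Es a j).isSome = true
      rwa [Option.isSome_map] at h
  let c : {k : L × L × L // (sh.tl k.1 k.2.1 k.2.2).isSome = true} → Nm L := fun k =>
    ((E k.1.1 k.1.2.1).bind fun a => Es a k.1.2.2).get (hsome _ _ _ k.2)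
  have hc : ∀ x i j h a η, E x i = some a → Es a j = some η → c ⟨(x, i, j), h⟩ = η := by
    intro x i j h a η h1 h2
    refine get_eq ?_ _
    show ((E x i).bind fun a => Es a j) = some η
    rw [h1]
    exact h2
  have htl : ∀ x i j a η, E x i = some a → Es a j = some η → sh.tl x i j = some (a.b η, a.m η) := by
    intro x i j a η h1 h2
    show ((E x i).bind fun a => (Es a j).map fun η => (a.b η, a.m η)) = _
    rw [h1]
    show (Es a j).map _ = _
    rw [h2]
    rfl
  have htl' : ∀ x i j a, E x i = some a → (sh.tl x i j).isSome = true → ∃ η, Es a j = some η := by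
    intro x i j a h1 h2
    have h3 := hsome x i j h2
    rw [h1] at h3
    exact Option.isSome_iff_exists.1 h3
  have hmem : ∀ x a, a ∈ N x → a ∈ nu (Nm.mk sh c) x := by
    intro x a ha
    obtain ⟨i, hi⟩ := (hE x a).2 ha
    have hcard : #a.s ≤ #L := (W.ok (hO x (hN1 x ha))).card.le
    refine ⟨i, ?_, fun η => ?_, fun j h => ?_⟩
    · show (E x i).map _ = _
      rw [hi]
      rfl
    · rw [← hEs a hcard η]
      constructor
      · rintro ⟨j, hj⟩
        have h1 : (sh.tl x i j).isSome = true := by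
          rw [htl x i j a η hi hj]
          rfl
        exact ⟨j, h1, hc x i j h1 a η hi hj⟩
      · rintro ⟨j, h, hj⟩
        obtain ⟨η', hη'⟩ := htl' x i j a hi h
        rw [hc x i j h a η' hi hη'] at hj
        exact ⟨j, hj ▸ hη'⟩
    · obtain ⟨η, hη⟩ := htl' x i j a hi h
      have h1 := hc x i j h a η hi hη
      have h2 : (sh.tl x i j).get h = (a.b η, a.m η) := get_eq (htl x i j a η hi hη) _
      rw [h1, h2]
      exact ⟨rfl, rfl⟩
  have hsame : ∀ x p, p ∈ nu (Nm.mk sh c) x → ∃ a ∈ N x, Same p a := by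
    rintro x p ⟨i, h1, h2, h3⟩
    change (E x i).map _ = _ at h1
    obtain ⟨a, ha, ha'⟩ := Option.map_eq_some_iff.1 h1
    have haN : a ∈ N x := (hE x a).1 ⟨i, ha⟩
    have hcard : #a.s ≤ #L := (W.ok (hO x (hN1 x haN))).card.le
    have hs : p.s = a.s := by
      ext η
      rw [h2 η, ← hEs a hcard η]
      constructor
      · rintro ⟨j, h, hj⟩
        obtain ⟨η', hη'⟩ := htl' x i j a ha h
        rw [hc x i j h a η' ha hη'] at hj
        exact ⟨j, hj ▸ hη'⟩
      · rintro ⟨j, hj⟩
        have h4 : (sh.tl x i j).isSome = true := by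
          rw [htl x i j a η ha hj]
          rfl
        exact ⟨j, h4, hc x i j h4 a η ha hj⟩
    have hdata : ∀ η ∈ a.s, p.b η = a.b η ∧ p.m η = a.m η := by
      intro η hη
      obtain ⟨j, hj⟩ := (hEs a hcard η).2 hη
      have h4 : (sh.tl x i j).isSome = true := by
        rw [htl x i j a η ha hj]
        rfl
      have h5 := h3 j h4
      have h6 : (sh.tl x i j).get h4 = (a.b η, a.m η) := get_eq (htl x i j a η ha hj) _
      rw [hc x i j h4 a η ha hj, h6] at h5
      exact h5
    refine ⟨a, haN, (congrArg Prod.fst ha').symm, (congrArg Prod.snd ha').symm, hs,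
      fun η hη => (hdata η hη).1, fun η hη => (hdata η hη).2⟩
  refine ⟨Nm.mk sh c, fun x p hp => ?_, fun x p hp => ?_⟩
  · obtain ⟨a, ha, hpa⟩ := hsame x p hp
    have haO := hN1 x ha
    have haW := hO x haO
    have hpW := hpa.mem_W haW
    exact hopen x a haO p hpW ((hpa.ext (W.ok haW)).le (W.ok hpW))
  · obtain ⟨a, ha, q, hq, h1, h2⟩ := hN3 x p hp
    exact ⟨a, hmem x a ha, q, hq, h1, h2⟩

end MP9708F
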