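import Pool.Agent.Lib.MP_9708fd_lc.CChain

/-!
# The generic permutation modulo countable sets is not uniformised
-/

open Cardinal Set

set_option linter.unusedSectionVars false

namespace MP9708F

universe u

variable {L : Type u} [LinearOrder L]

/-- Simultaneous transpositions in disjoint intervals. -/
theorem exists_swap {Θ : Type u} [LinearOrder Θ] {x y lo hi : Θ → L}
    (hx : ∀ i, lo i ≤ x i ∧ x i < hi i) (hy : ∀ i, lo i ≤ y i ∧ y i < hi i)
    (hlh : ∀ i j, i < j → hi i ≤ lo j) (J : Set Θ) :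
    ∃ σ : Equiv.Perm L, (∀ z, σ (σ z) = z) ∧
      (∀ z, (∀ i ∈ J, z ≠ x i ∧ z ≠ y i) → σ z = z) ∧ (∀ i ∈ J, σ (x i) = y i) ∧
      ∀ i ∈ J, σ (y i) = x i := by
  classical
  have hxy : ∀ z i, (z = x i ∨ z = y i) → lo i ≤ z ∧ z < hi i := by
    rintro z i (rfl | rfl)
    · exact hx i
    · exact hy i
  have huniq : ∀ z i j, (z = x i ∨ z = y i) → (z = x j ∨ z = y j) → i = j := by
    intro z i j h1 h2
    have h3 := hxy z i h1
    have h4 := hxy z j h2
    by_contra hne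
    rcases lt_or_gt_of_ne hne with h | h
    · exact absurd (h3.2.trans_le ((hlh i j h).trans h4.1)) (lt_irrefl _)
    · exact absurd (h4.2.trans_le ((hlh j i h).trans h3.1)) (lt_irrefl _)
  let σ : L → L := fun z => if h : ∃ i ∈ J, z = x i ∨ z = y i then
    (if z = x h.choose then y h.choose else x h.choose) else z
  have hσ : ∀ z i, i ∈ J → (z = x i ∨ z = y i) → σ z = if z = x i then y i else x i := by
    intro z i hi hz
    have h : ∃ i ∈ J, z = x i ∨ z = y i := ⟨i, hi, hz⟩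
    have h1 : h.choose = i := huniq z _ _ h.choose_spec.2 hz
    simp only [σ, dif_pos h, h1]
  have h1 : ∀ i ∈ J, σ (x i) = y i := by
    intro i hi
    rw [hσ (x i) i hi (Or.inl rfl), if_pos rfl]
  have h2 : ∀ i ∈ J, σ (y i) = x i := by
    intro i hi
    rw [hσ (y i) i hi (Or.inr rfl)]
    split_ifs with h
    · exact h
    · rfl
  have h3 : ∀ z, (∀ i ∈ J, z ≠ x i ∧ z ≠ y i) → σ z = z := by
    intro z hz
    have h : ¬ ∃ i ∈ J, z = x i ∨ z = y i := by
      rintro ⟨i, hi, h | h⟩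
      · exact (hz i hi).1 h
      · exact (hz i hi).2 h
    simp only [σ, dif_neg h]
  have h4 : Function.Involutive σ := by
    intro z
    by_cases h : ∃ i ∈ J, z = x i ∨ z = y i
    · obtain ⟨i, hi, rfl | rfl⟩ := h
      · rw [h1 i hi, h2 i hi]
      · rw [h2 i hi, h1 i hi]
    · have h5 : σ z = z := by
        apply h3
        intro i hi
        refine ⟨fun h6 => h ⟨i, hi, Or.inl h6⟩, fun h6 => h ⟨i, hi, Or.inr h6⟩⟩
      rw [h5, h5]
  exact ⟨h4.toPerm, h4, h3, h1, h2⟩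

variable [InaccOrder L]

theorem pigeonhole {c : Cardinal.{u}} {α : Type u} {A : Set L} (hc : #(Set α) ≤ c)
    (hA : c < #A) (f : L → Set α) : ∃ x ∈ A, ∃ y ∈ A, x ≠ y ∧ f x = f y := by
  by_contra hcon
  push Not at hcon
  have h : Function.Injective fun x : A => f x.1 := by
    intro x y hxy
    by_contra hne
    exact hcon x.1 x.2 y.1 y.2 (fun h => hne (Subtype.ext h)) hxy
  exact absurd (mk_le_of_injective h) (not_le.2 (hc.trans_lt hA))

theorem PP.nontriv (E : L → L → Set (PP L)) (hE : ∀ x y, ∀ p ∈ E x y, ∀ q ≤ p, q ∈ E x y)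
    (p₀ : PP L) (hE1 : ∀ x, ∀ q ≤ p₀, ∃ r ≤ q, ∃ y, r ∈ E x y)
    (hE2 : ∀ q ≤ p₀, ∀ h : L → L, (∀ x < q.1.ht, q ∈ E x (h x)) →
      {x | x < q.1.ht ∧ h x ≠ q.1.t x}.Countable) : False := by
  classical
  obtain ⟨g, f, u, h1, h2, h3, h4⟩ := PP.iter (L := L) card_Om1_lt p₀
    (fun _ q q' => (∀ x < q.1.ht, ∃ y, q' ∈ E x y) ∧ ∃ x y, x ≠ y ∧ (q.1.ht ≤ x ∧ x < q'.1.ht) ∧
      (q.1.ht ≤ y ∧ y < q'.1.ht) ∧ ∀ η ∈ q.1.s, (x ∈ q'.1.b η ↔ y ∈ q'.1.b η) ∧
        (x ∈ q'.1.m η false ↔ y ∈ q'.1.m η false)) (by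
      intro i q hq
      -- decide everything below the height
      have hstep : ∃ q₁ ≤ q, ∀ x : Iio q.1.ht, ∃ y, q₁ ∈ E x.1 y := by
        have hd := PP.distrib (L := L) (Θ := Iio q.1.ht) (card_Iio_lt _)
          (D := fun x => {r | (∃ y, r ∈ E x.1 y) ∨ ¬ ∃ r' ≤ p₀, r' ≤ r}) (by
            rintro x r (⟨y, hy⟩ | h5) r' hr'
            · exact Or.inl ⟨y, hE _ _ _ hy _ hr'⟩
            · refine Or.inr ?_
              rintro ⟨r'', h6, h7⟩
              exact h5 ⟨r'', h6, h7.trans hr'⟩) (by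
            intro x r
            by_cases h5 : ∃ r' ≤ p₀, r' ≤ r
            · obtain ⟨r', h6, h7⟩ := h5
              obtain ⟨r'', h8, y, h9⟩ := hE1 x.1 r' h6
              exact ⟨r'', h8.trans h7, Or.inl ⟨y, h9⟩⟩
            · exact ⟨r, le_rfl, Or.inr h5⟩) q
        obtain ⟨q₁, h5, h6⟩ := hd
        refine ⟨q₁, h5, fun x => ?_⟩
        rcases h6 x with h7 | h7
        · exact h7
        · exact absurd ⟨q₁, h5.trans hq, le_rfl⟩ h7
      obtain ⟨q₁, hq₁, hq₁E⟩ := hstep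
      have hcard : #(Set (q.1.s × Bool)) < #L := by
        rw [mk_set]
        apply two_power_lt
        rw [mk_prod, lift_id']
        refine mul_lt_of_lt aleph0_lt.le ?_ ?_
        · exact q.ok.card
        · have hB : #(ULift.{u} Bool) < #L := (lt_aleph0_of_finite _).trans aleph0_lt
          simpa using hB
      obtain ⟨d, hd, hdc⟩ := exists_large hcard q.1.ht
      obtain ⟨q₂, hq₂, hq₂d⟩ := q₁.exists_ht d
      obtain ⟨q₃, h5, h6, h7⟩ := PP.exists_direct (hq₂.trans hq₁)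
      obtain ⟨x, hx, y, hy, hxy, hf⟩ := pigeonhole (α := q.1.s × Bool) le_rfl hdc
        (fun z => {k | if k.2 = true then z ∈ q₃.1.b k.1.1 else z ∈ q₃.1.m k.1.1 false})
      have hdq₃ : d < q₃.1.ht := h7 ▸ hq₂d
      refine ⟨q₃, h5, fun z hz => ?_, x, y, hxy, ⟨hx.1, hx.2.trans hdq₃⟩,
        ⟨hy.1, hy.2.trans hdq₃⟩, fun η hη => ⟨?_, ?_⟩⟩
      · obtain ⟨w, hw⟩ := hq₁E ⟨z, hz⟩
        exact ⟨w, hE _ _ _ hw _ (h6.trans hq₂)⟩
      · have h8 : ((⟨⟨η, hη⟩, true⟩ : q.1.s × Bool) ∈ {k : q.1.s × Bool | if k.2 = true then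
            x ∈ q₃.1.b k.1.1 else x ∈ q₃.1.m k.1.1 false}) ↔ ((⟨⟨η, hη⟩, true⟩ : q.1.s × Bool) ∈
            {k : q.1.s × Bool | if k.2 = true then
            y ∈ q₃.1.b k.1.1 else y ∈ q₃.1.m k.1.1 false}) := by
          exact Set.ext_iff.1 hf _
        simpa using h8
      · have h8 : ((⟨⟨η, hη⟩, false⟩ : q.1.s × Bool) ∈ {k : q.1.s × Bool | if k.2 = true then
            x ∈ q₃.1.b k.1.1 else x ∈ q₃.1.m k.1.1 false}) ↔ ((⟨⟨η, hη⟩, false⟩ : q.1.s × Bool) ∈
            {k : q.1.s × Bool | if k.2 = true then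
            y ∈ q₃.1.b k.1.1 else y ∈ q₃.1.m k.1.1 false}) := by
          exact Set.ext_iff.1 hf _
        simpa using h8)
  have hgp : ∀ i, g i ≤ p₀ := fun i => (h1 i).1
  have hfg : ∀ i, Ext (f i).1 (g i).1 := fun i => (h1 i).2.1
  have hEf : ∀ i, ∀ x < (g i).1.ht, ∃ y, f i ∈ E x y := fun i => (h1 i).2.2.1
  choose x y hxy hx hy hpat using fun i => (h1 i).2.2.2
  have hlh : ∀ i j, i < j → (f i).1.ht ≤ (g j).1.ht := fun i j hij => (h2 i j hij).ht
  have hsg : ∀ i j, i < j → (f i).1.s ⊆ (g j).1.s := fun i j hij => (h2 i j hij).s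
  -- facts about `u`
  have hu0 : ∀ z < u.1.ht, ∃ i, z < (g i).1.ht := by
    intro z hz
    obtain ⟨p, hp, hzp⟩ := h4.ht z hz
    obtain ⟨i₀⟩ : Nonempty Om1.{u} := by
      rw [← mk_ne_zero_iff, mk_Om1]
      exact (aleph0_pos.trans aleph0_lt_aleph_one).ne'
    rcases hp with rfl | ⟨i, rfl⟩
    · exact ⟨i₀, hzp.trans_le (PP.le_def.1 (hgp i₀)).ht⟩
    · obtain ⟨j, hij⟩ := exists_gt_Om1 i
      exact ⟨j, lt_of_lt_of_le hzp (hlh i j hij)⟩
  have hus : ∀ η ∈ u.1.s, ∃ i, η ∈ (g i).1.s := by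
    intro η hη
    obtain ⟨p, hp, hηp⟩ := h4.s η hη
    obtain ⟨i₀⟩ : Nonempty Om1.{u} := by
      rw [← mk_ne_zero_iff, mk_Om1]
      exact (aleph0_pos.trans aleph0_lt_aleph_one).ne'
    rcases hp with rfl | ⟨i, rfl⟩
    · exact ⟨i₀, (PP.le_def.1 (hgp i₀)).s hηp⟩
    · obtain ⟨j, hij⟩ := exists_gt_Om1 i
      exact ⟨j, hsg i j hij hηp⟩
  choose σ hσ1 hσ2 hσ3 hσ4 using exists_swap hx hy hlh
  have hpvσ : ∀ J ε z, pv (u.1.t * σ J) ε z = if ε = true then σ J (u.1.t.symm z) else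
      u.1.t (σ J z) := by
    intro J ε z
    cases ε
    · rfl
    · show (u.1.t * σ J).symm z = _
      rw [if_pos rfl, Equiv.symm_apply_eq, Equiv.Perm.mul_apply, hσ1, Equiv.apply_symm_apply]
  -- countable differences
  have hcount : ∀ j, {z | σ (Ioi j) z ≠ σ Set.univ z}.Countable := by
    intro j
    have hIic : (Iic j).Countable := by
      have : (Iic j : Set Om1.{u}) = Iio j ∪ {j} := by
        ext i
        simp [le_iff_lt_or_eq]
      rw [this]
      exact (countable_Iio j).union (countable_singleton j)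
    refine ((hIic.image x).union (hIic.image y)).mono ?_
    intro z hz
    by_contra hcon
    simp only [mem_union, mem_image, mem_Iic, not_or, not_exists, not_and] at hcon
    apply hz
    by_cases h : ∃ i, z = x i ∨ z = y i
    · obtain ⟨i, hi⟩ := h
      have hij : j < i := by
        by_contra hij
        push Not at hij
        rcases hi with hi | hi
        · exact hcon.1 i hij hi.symm
        · exact hcon.2 i hij hi.symm
      rcases hi with rfl | rfl
      · rw [hσ3 (Ioi j) i hij, hσ3 _ i (mem_univ _)]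
      · rw [hσ4 (Ioi j) i hij, hσ4 _ i (mem_univ _)]
    · push Not at h
      rw [hσ2 _ z fun i _ => h i, hσ2 _ z fun i _ => h i]
  have hcount2 : ∀ j, {z | (u.1.t * σ (Ioi j)) z ≠ (u.1.t * σ Set.univ) z}.Countable := by
    intro j
    refine (hcount j).mono ?_
    intro z hz h5
    apply hz
    rw [Equiv.Perm.mul_apply, Equiv.Perm.mul_apply, h5]
  have hxu : ∀ i, x i < u.1.ht := fun i => (hx i).2.trans_le (h3 i).ht
  have hyu : ∀ i, y i < u.1.ht := fun i => (hy i).2.trans_le (h3 i).ht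
  have hfixσ : ∀ J z, u.1.ht ≤ z → σ J z = z := by
    intro J z hz
    apply hσ2
    intro i _
    exact ⟨fun h => absurd (h ▸ hxu i) (not_lt.2 hz), fun h => absurd (h ▸ hyu i) (not_lt.2 hz)⟩
  have hfix : ∀ J z, u.1.ht ≤ z → (u.1.t * σ J) z = z := by
    intro J z hz
    rw [Equiv.Perm.mul_apply, hfixσ J z hz, u.ok.fix z hz]
  -- patterns
  have hpatb : ∀ j, ∀ η ∈ (f j).1.s, ∀ i, j < i → (x i ∈ u.1.b η ↔ y i ∈ u.1.b η) := by
    intro j η hη i hij
    have h5 : η ∈ (g i).1.s := hsg j i hij hη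
    have h6 := (h3 i).at_ η ((hfg i).s h5)
    rw [h6.b _ (hx i).2, h6.b _ (hy i).2]
    exact (hpat i η h5).1
  have hpatm : ∀ j, ∀ η ∈ (f j).1.s, ∀ i, j < i →
      (x i ∈ u.1.m η false ↔ y i ∈ u.1.m η false) := by
    intro j η hη i hij
    have h5 : η ∈ (g i).1.s := hsg j i hij hη
    have h6 := (h3 i).at_ η ((hfg i).s h5)
    rw [h6.m _ _ (hx i).2, h6.m _ _ (hy i).2]
    exact (hpat i η h5).2
  have hge : ∀ j i, j < i → (f j).1.ht ≤ x i ∧ (f j).1.ht ≤ y i := fun j i hij =>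
    ⟨(hlh j i hij).trans (hx i).1, (hlh j i hij).trans (hy i).1⟩
  have hσb : ∀ j, ∀ η ∈ (f j).1.s, ∀ z, (σ (Ioi j) z ∈ u.1.b η ↔ z ∈ u.1.b η) := by
    intro j η hη z
    by_cases h : ∃ i ∈ Ioi j, z = x i ∨ z = y i
    · obtain ⟨i, hi, rfl | rfl⟩ := h
      · rw [hσ3 _ i hi]
        exact (hpatb j η hη i hi).symm
      · rw [hσ4 _ i hi]
        exact hpatb j η hη i hi
    · push Not at h
      rw [hσ2 _ z h]
  -- exactness of the modified permutation above `(f j).ht`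
  have hex : ∀ j, ∀ η ∈ (f j).1.s, ∀ ε z, (f j).1.ht ≤ z →
      (z ∈ u.1.m η ε ↔ pv (u.1.t * σ (Ioi j)) ε z ∈ u.1.b η) := by
    intro j η hη ε z hz
    have h5 := (h3 j).at_ η hη
    cases ε
    · rw [hpvσ, if_neg (by simp)]
      by_cases h : ∃ i ∈ Ioi j, z = x i ∨ z = y i
      · obtain ⟨i, hi, rfl | rfl⟩ := h
        · rw [hσ3 _ i hi, hpatm j η hη i hi]
          exact h5.ex false _ (hge j i hi).2
        · rw [hσ4 _ i hi, ← hpatm j η hη i hi]
          exact h5.ex false _ (hge j i hi).1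
      · push Not at h
        rw [hσ2 _ z h]
        exact h5.ex false z hz
    · rw [hpvσ, if_pos rfl, hσb j η hη]
      exact h5.ex true z hz
  -- agreement below `(f j).ht`
  have hagr : ∀ j, ∀ z < (f j).1.ht, (u.1.t * σ (Ioi j)) z = (f j).1.t z := by
    intro j z hz
    have h5 : σ (Ioi j) z = z := by
      apply hσ2
      intro i hi
      refine ⟨fun h => ?_, fun h => ?_⟩
      · exact absurd (h ▸ (hge j i hi).1) (not_le.2 hz)
      · exact absurd (h ▸ (hge j i hi).2) (not_le.2 hz)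
    rw [Equiv.Perm.mul_apply, h5]
    exact (h3 j).t z hz
  have hextj : ∀ j, Ext (u.1.withT (u.1.t * σ (Ioi j))) (f j).1 := fun j =>
    ⟨(h3 j).ht, hagr j, (h3 j).s, fun η hη => ⟨((h3 j).at_ η hη).b, ((h3 j).at_ η hη).m,
      hex j η hη⟩⟩
  let u' : Cond L (Nm L) := u.1.withT (u.1.t * σ Set.univ)
  have hle : ∀ j, Le u' (f j).1 := fun j => ⟨_, hcount2 j, hfix _, hextj j⟩
  have hok' : Ok u' := by
    refine ⟨hfix _, u.ok.card, u.ok.sub_b, u.ok.sub_m, fun η hη ε => ?_⟩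
    obtain ⟨j, hj⟩ := hus η hη
    have hj' : η ∈ (f j).1.s := (hfg j).s hj
    refine (((f j).ok.mate η hj' ε).union (pv_countable (hcount2 j) ε)).mono ?_
    intro z hz
    by_cases h5 : pv (u.1.t * σ (Ioi j)) ε z = pv (u.1.t * σ Set.univ) ε z
    · left
      intro h6
      apply hz
      show z ∈ u.1.m η ε ↔ pv (u.1.t * σ Set.univ) ε z ∈ u.1.b η
      rw [← h5]
      rcases lt_or_ge z (f j).1.ht with h7 | h7
      · rw [((h3 j).at_ η hj').m ε z h7, pv_agree (f j).ok.fix (hagr j) ε h7,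
          ((h3 j).at_ η hj').b _ (pv_lt (f j).ok.fix ε h7)]
        exact h6
      · exact hex j η hj' ε z h7
    · exact Or.inr h5
  have hW' : u' ∈ W nu Set.univ := by
    refine ⟨hok', subset_univ _, fun η hη => ?_⟩
    refine VAt_of hok' fun z hz => ?_
    obtain ⟨i, hi⟩ := hu0 z hz
    obtain ⟨j, hj⟩ := hus η hη
    have h5 : ∀ k, i ≤ k → z < (f k).1.ht := by
      intro k hik
      rcases hik.lt_or_eq with h | h
      · exact hi.trans_le ((hfg i).ht.trans ((hlh i k h).trans (hfg k).ht))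
      · subst h
        exact hi.trans_le (hfg i).ht
    have h6 : ∀ k, j ≤ k → η ∈ (f k).1.s := by
      intro k hjk
      rcases hjk.lt_or_eq with h | h
      · exact (hfg k).s (hsg j k h ((hfg j).s hj))
      · subst h
        exact (hfg j).s hj
    refine ⟨(f (max i j)).1, W.val (f (max i j)).2 (h6 _ (le_max_right _ _)),
      h5 _ (le_max_left _ _), ?_, (hle _).res _⟩
    exact ((h3 _).at_ η (h6 _ (le_max_right _ _))).b z (h5 _ (le_max_left _ _))
  let U' : PP L := ⟨u', hW'⟩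
  have hU'f : ∀ j, U' ≤ f j := hle
  have huf : ∀ j, u ≤ f j := fun j => (h3 j).le'
  have hup : u ≤ p₀ := (h4.ext _ (mem_insert _ _)).le'
  obtain ⟨i₀⟩ : Nonempty Om1.{u} := by
    rw [← mk_ne_zero_iff, mk_Om1]
    exact (aleph0_pos.trans aleph0_lt_aleph_one).ne'
  have hU'p : U' ≤ p₀ := (hU'f i₀).trans ((hfg i₀).le'.trans (hgp i₀))
  -- the decided values
  have hdec : ∀ z, ∃ w, z < u.1.ht → ∃ j, f j ∈ E z w := by
    intro z
    by_cases hz : z < u.1.ht
    · obtain ⟨j, hj⟩ := hu0 z hz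
      obtain ⟨w, hw⟩ := hEf j z hj
      exact ⟨w, fun _ => ⟨j, hw⟩⟩
    · exact ⟨z, fun h => absurd h hz⟩
  choose h hh using hdec
  have c1 := hE2 u hup h fun z hz => by
    obtain ⟨j, hj⟩ := hh z hz
    exact hE _ _ _ hj _ (huf j)
  have c2 := hE2 U' hU'p h fun z hz => by
    obtain ⟨j, hj⟩ := hh z hz
    exact hE _ _ _ hj _ (hU'f j)
  have hxinj : Function.Injective x := by
    intro i j hij
    by_contra hne
    rcases lt_or_gt_of_ne hne with h7 | h7
    · have := (hx i).2.trans_le ((hlh i j h7).trans (hx j).1)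
      exact this.ne hij
    · have := (hx j).2.trans_le ((hlh j i h7).trans (hx i).1)
      exact this.ne hij.symm
  refine not_countable_range hxinj ((c1.union c2).mono ?_)
  rintro _ ⟨i, rfl⟩
  by_cases h5 : h (x i) = u.1.t (x i)
  · right
    refine ⟨hxu i, ?_⟩
    rw [h5]
    show u.1.t (x i) ≠ (u.1.t * σ Set.univ) (x i)
    rw [Equiv.Perm.mul_apply, hσ3 _ i (mem_univ _)]
    exact fun h6 => hxy i (u.1.t.injective h6)
  · exact Or.inl ⟨hxu i, h5⟩

end MP9708F
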