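import Mathlib

/-!
# Well-orders of inaccessible type
-/

open Cardinal Set

namespace MP9708F

universe u

/-- `L` is a well-order of type a strongly inaccessible cardinal. -/
class InaccOrder (L : Type u) [LinearOrder L] : Prop where
  wf : WellFoundedLT L
  inacc : (#L).IsInaccessible
  lt' : ∀ x : L, #(Iio x) < #L

variable {L : Type u} [LinearOrder L] [hL : InaccOrder L]

instance (priority := 100) : WellFoundedLT L := hL.wf

theorem aleph0_lt : ℵ₀ < #L := hL.inacc.aleph0_lt

theorem card_Iio_lt (x : L) : #(Iio x) < #L := hL.lt' x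

theorem isReg : (#L).IsRegular := hL.inacc.isRegular

theorem two_power_lt {c : Cardinal.{u}} (h : c < #L) : 2 ^ c < #L := hL.inacc.isStrongLimit.isStrongPrelimit h

theorem card_Iic_lt (x : L) : #(Iic x) < #L := by
  have h : Iic x = Iio x ∪ {x} := by
    ext y
    simp [le_iff_lt_or_eq]
  rw [h]
  refine (mk_union_le _ _).trans_lt ?_
  refine add_lt_of_lt aleph0_lt.le (card_Iio_lt x) ?_
  rw [mk_singleton]
  exact one_lt_aleph0.trans aleph0_lt

theorem card_iUnion_lt {ι : Type u} {α : Type u} (hι : #ι < #L) (f : ι → Set α)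
    (h : ∀ i, #(f i) < #L) : #(⋃ i, f i) < #L := by
  refine (mk_iUnion_le_sum_mk).trans_lt ?_
  refine sum_lt_of_isRegular isReg hι h

theorem card_biUnion_lt {ι : Type u} {α : Type u} {A : Set ι} (hA : #A < #L) (f : ι → Set α)
    (h : ∀ i ∈ A, #(f i) < #L) : #(⋃ i ∈ A, f i : Set α) < #L := by
  rw [biUnion_eq_iUnion]
  exact card_iUnion_lt hA _ fun i => h i.1 i.2

theorem bdd_of_card {A : Set L} (h : #A < #L) : ∃ y, ∀ x ∈ A, x < y := by
  by_contra hcon
  push Not at hcon
  have h1 : (⋃ x ∈ A, Iic x) = (Set.univ : Set L) := by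
    ext y
    simp only [mem_iUnion, mem_Iic, mem_univ, iff_true]
    obtain ⟨x, hx, hxy⟩ := hcon y
    exact ⟨x, hx, hxy⟩
  have h2 := card_biUnion_lt (L := L) h (fun x : L => Iic x) fun x _ => card_Iic_lt x
  rw [h1, mk_univ] at h2
  exact h2.false

theorem exists_gt' (x : L) : ∃ y, x < y := by
  obtain ⟨y, hy⟩ := bdd_of_card (L := L) (A := {x}) (by
    rw [mk_singleton]
    exact one_lt_aleph0.trans aleph0_lt)
  exact ⟨y, hy x rfl⟩

instance (priority := 100) : NoMaxOrder L := ⟨exists_gt'⟩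

instance (priority := 100) : Nonempty L := by
  have h : #L ≠ 0 := fun h => by
    have := aleph0_lt (L := L)
    rw [h] at this
    exact (Cardinal.aleph0_pos.trans this).false.elim
  exact mk_ne_zero_iff.1 h

/-- Sets of size `< #L` have least upper bounds. -/
theorem exists_sup {A : Set L} (h : #A < #L) :
    ∃ g, (∀ x ∈ A, x ≤ g) ∧ ∀ x < g, ∃ y ∈ A, x < y := by
  obtain ⟨y, hy⟩ := bdd_of_card h
  have hne : {g | ∀ x ∈ A, x ≤ g}.Nonempty := ⟨y, fun x hx => (hy x hx).le⟩
  refine ⟨WellFounded.min hL.wf.wf _ hne, WellFounded.min_mem hL.wf.wf _ hne, fun x hx => ?_⟩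
  by_contra hcon
  push Not at hcon
  exact WellFounded.not_lt_min hL.wf.wf _ (show x ∈ {g | ∀ x ∈ A, x ≤ g} from hcon) hx

theorem card_lt_of_countable {α : Type u} {A : Set α} (h : A.Countable) : #A < #L :=
  h.le_aleph0.trans_lt aleph0_lt

theorem aleph_one_lt : ℵ₁ < #L := by
  have h : (ℵ₁ : Cardinal.{u}) ≤ 2 ^ ℵ₀ := by
    rw [← succ_aleph0]
    exact Order.succ_le_of_lt (cantor _)
  exact h.trans_lt (two_power_lt aleph0_lt)

theorem exists_large {c : Cardinal.{u}} (h : c < #L) (g : L) :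
    ∃ d, g < d ∧ c < #(Ico g d) := by
  -- a subset of size `succ c`
  have h1 : Order.succ c < #L := (Order.succ_le_of_lt (cantor c)).trans_lt (two_power_lt h)
  have h2 : max (Order.succ c) ℵ₀ < #L := max_lt h1 aleph0_lt
  have h3 : #(Ici g) = #L := by
    have h4 : #L = #(Iio g ∪ Ici g : Set L) := by
      have : (Iio g ∪ Ici g : Set L) = Set.univ := by
        ext x
        simp
      rw [this, mk_univ]
    by_contra hne
    have h5 : #(Ici g) < #L := lt_of_le_of_ne (mk_set_le _) hne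
    have h6 := (mk_union_le (Iio g) (Ici g)).trans_lt (add_lt_of_lt aleph0_lt.le (card_Iio_lt g) h5)
    rw [← h4] at h6
    exact h6.false
  obtain ⟨A, hA, hAc⟩ := le_mk_iff_exists_subset.1 (h1.le.trans h3.ge)
  obtain ⟨y, hy⟩ := bdd_of_card (L := L) (A := A) (by rw [hAc]; exact h1)
  have hne : A.Nonempty := by
    rw [← nonempty_coe_sort, ← mk_ne_zero_iff, hAc]
    exact (Order.bot_lt_succ c).ne'
  obtain ⟨a, ha⟩ := hne
  refine ⟨y, (hA ha : g ≤ a).trans_lt (hy a ha), ?_⟩
  have h4 : A ⊆ Ico g y := fun x hx => ⟨hA hx, hy x hx⟩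
  exact (Order.lt_succ c).trans_le (hAc.ge.trans (mk_le_mk_of_subset h4))

end MP9708F
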