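import Pool.Agent.Lib.MP_9708fd_lc.CName

/-!
# The notion of forcing
-/

open Cardinal Set

set_option linter.unusedSectionVars false

namespace MP9708F

universe u

/-- The notion of forcing. -/
def PP (L : Type u) [LinearOrder L] : Type u := {p : Cond L (Nm L) // p ∈ W nu Set.univ}

variable {L : Type u} [LinearOrder L]

instance : Preorder (PP L) where
  le p q := Le p.1 q.1
  le_refl p := Le.refl (W.ok p.2)
  le_trans _ q _ h1 h2 := Le.trans (W.ok q.2) h1 h2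

theorem PP.le_def {p q : PP L} : p ≤ q ↔ Le p.1 q.1 := Iff.rfl

theorem PP.ok (p : PP L) : Ok p.1 := W.ok p.2

theorem Ext.le' {p q : PP L} (h : Ext p.1 q.1) : p ≤ q := h.le p.ok

variable [InaccOrder L]

instance : Nonempty (PP L) := by
  obtain ⟨x⟩ := (inferInstance : Nonempty L)
  refine ⟨⟨⟨x, 1, ∅, fun _ => ∅, fun _ _ => ∅⟩, ⟨fun _ _ => rfl, ?_, ?_, ?_, ?_⟩, ?_, ?_⟩⟩
  · simp only [mk_eq_zero]
    exact (aleph0_pos).trans aleph0_lt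
  · intro η hη
    exact hη.elim
  · intro η hη
    exact hη.elim
  · intro η hη
    exact hη.elim
  · exact empty_subset _
  · intro η hη
    exact hη.elim

theorem PP.exists_ht (p : PP L) (δ : L) : ∃ q : PP L, q ≤ p ∧ δ < q.1.ht := by
  obtain ⟨δ', hδ'⟩ := exists_gt' δ
  obtain ⟨q, hq, h1, h2⟩ := height p.2 δ'
  exact ⟨⟨q, hq⟩, h1.le (W.ok hq), hδ'.trans_le h2⟩

theorem openDense_of {D : Set (PP L)} (h1 : ∀ p ∈ D, ∀ q ≤ p, q ∈ D)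
    (h2 : ∀ p, ∃ q ≤ p, q ∈ D) : OpenDense nu Set.univ {p : Cond L (Nm L) | ∃ h, (⟨p, h⟩ : PP L) ∈ D} where
  open_ := by
    rintro p ⟨hp, hpD⟩ q hq hqp
    exact ⟨hq, h1 ⟨p, hp⟩ hpD ⟨q, hq⟩ hqp⟩
  dense := by
    intro p hp
    obtain ⟨q, hq, hqD⟩ := h2 ⟨p, hp⟩
    exact ⟨q.1, q.2, hq, q.2, hqD⟩

theorem PP.distrib {Θ : Type u} (hΘ : #Θ < #L) {D : Θ → Set (PP L)}
    (h1 : ∀ i, ∀ p ∈ D i, ∀ q ≤ p, q ∈ D i) (h2 : ∀ i p, ∃ q ≤ p, q ∈ D i) (p : PP L) :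
    ∃ q ≤ p, ∀ i, q ∈ D i := by
  obtain ⟨q, hq, h3, h4⟩ := MP9708F.distrib hΘ (fun i => openDense_of (h1 i) (h2 i)) p.2
  exact ⟨⟨q, hq⟩, h3.le (W.ok hq), fun i => (h4 i).2⟩

theorem PP.decide_all {D : L → Set (PP L)}
    (h1 : ∀ i, ∀ p ∈ D i, ∀ q ≤ p, q ∈ D i) (h2 : ∀ i p, ∃ q ≤ p, q ∈ D i) (p : PP L) :
    ∃ q ≤ p, ∀ x < q.1.ht, q ∈ D x := by
  obtain ⟨q, hq, h3, h4⟩ := MP9708F.decide_all (fun i => openDense_of (h1 i) (h2 i)) p.2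
  exact ⟨⟨q, hq⟩, h3.le (W.ok hq), fun i hi => (h4 i hi).2⟩

/-- Every index can be added to a condition. -/
theorem PP.exists_index (ζ : Nm L) (p : PP L) : ∃ q ≤ p, ζ ∈ q.1.s := by
  obtain ⟨q, hq, h3, h4⟩ := MP9708F.decide_all (fun x => dec_openDense (ν := nu) ζ x) p.2
  by_cases hζ : ζ ∈ q.s
  · exact ⟨⟨q, hq⟩, h3.le (W.ok hq), hζ⟩
  · have hqok := W.ok hq
    have h5 := add_index hq hζ h4 (fun ε => {y | y < q.ht ∧ pv q.t ε y ∈ Nmd nu ζ q})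
      (fun ε x hx => hx.1) (fun ε => by
        have : {y | y < q.ht ∧ ¬ (y ∈ {y | y < q.ht ∧ pv q.t ε y ∈ Nmd nu ζ q} ↔
            pv q.t ε y ∈ Nmd nu ζ q)} = ∅ := by
          ext y
          simp only [mem_ofPred_eq, mem_empty_iff_false, iff_false, not_and, not_not]
          intro hy
          exact ⟨fun h => h.2, fun h => ⟨hy, h⟩⟩
        rw [this]
        exact countable_empty)
    have h6 : Ext (addIdx q ζ (Nmd nu ζ q) fun ε => {y | y < q.ht ∧ pv q.t ε y ∈ Nmd nu ζ q}) q :=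
      addIdx_ext hqok hζ _ _
    have h7 := W.mono (subset_univ _) h5
    exact ⟨⟨_, h7⟩, (Ext.trans hqok.fix h6 h3).le (W.ok h7), mem_insert _ _⟩

/-- Every family of open sets is named by an index. -/
theorem PP.exists_name (O : L → LowerSet (PP L)) :
    ∃ ζ : Nm L, ∀ p : PP L, ζ ∈ p.1.s → ∀ x < p.1.ht,
      (x ∈ p.1.b ζ → ∀ q ≤ p, ∃ r ≤ q, r ∈ O x) ∧ (x ∉ p.1.b ζ → ∀ q ≤ p, q ∉ O x) := by
  obtain ⟨ζ, h1, h2⟩ := capture (fun x => {p : Cond L (Nm L) | ∃ h, (⟨p, h⟩ : PP L) ∈ O x})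
    (by
      rintro x p ⟨h, _⟩
      exact h) (by
      rintro x p ⟨hp, hpO⟩ q hq hqp
      exact ⟨hq, (O x).lower (show @LE.le (PP L) _ ⟨q, hq⟩ ⟨p, hp⟩ from hqp) hpO⟩)
  refine ⟨ζ, fun p hp x hx => ?_⟩
  have hval := (VAt_iff nu).1 (W.val p.2 hp) x hx
  constructor
  · intro hxb q hqp
    have hqp : Le q.1 p.1 := hqp
    obtain ⟨r, hr, hrq, a, ha, hra⟩ := hval.1 hxb (q.1.res (Iio ζ)) (W.res q.2 ζ) (hqp.res _)
    obtain ⟨q', hq', h3, h4⟩ := compat q.2 hr hrq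
    obtain ⟨haW, haO⟩ := h1 x ha
    refine ⟨⟨q', hq'⟩, h3, ?_⟩
    exact (O x).lower (show @LE.le (PP L) _ ⟨q', hq'⟩ ⟨a, haW⟩ from h4.trans (W.ok hr) hra) haO
  · intro hxb q hqp hqO
    have hqp : Le q.1 p.1 := hqp
    obtain ⟨a, ha, q', hq', h3, h4⟩ := h2 x q.1 ⟨q.2, hqO⟩
    have h5 : Le q' p.1 := (h3.le (W.ok hq')).trans (W.ok q.2) hqp
    refine hval.2 hxb (q'.res (Iio ζ)) (W.res hq' ζ) (h5.res _) a ha ?_
    exact (h4.le (W.ok hq')).res_left fun η hη => nu_lt ha hη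

theorem PP.t_agree {q p : PP L} (h : q ≤ p) (ε : Bool) :
    {y | y < p.1.ht ∧ pv q.1.t ε y ≠ pv p.1.t ε y}.Countable := by
  obtain ⟨t', h1, h2, h3⟩ := PP.le_def.1 h
  refine (pv_countable h1 ε).mono ?_
  rintro y ⟨hy, hy'⟩ h4
  apply hy'
  rw [← h4]
  exact pv_agree p.ok.fix h3.t ε hy

theorem PP.im_agree {q p : PP L} (h : q ≤ p) (ε : Bool) (a : Set L) :
    {y | y < p.1.ht ∧ ¬ (pv q.1.t ε y ∈ a ↔ pv p.1.t ε y ∈ a)}.Countable := by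
  refine (PP.t_agree h ε).mono ?_
  rintro y ⟨hy, hy'⟩
  refine ⟨hy, fun h4 => hy' ?_⟩
  rw [h4]

/-- Images of sets below the height of `p`. -/
theorem PP.im_agree' {q p : PP L} (h : q ≤ p) (ε : Bool) {a : Set L} (ha : ∀ x ∈ a, x < p.1.ht) :
    {y | ¬ (pv q.1.t ε y ∈ a ↔ pv p.1.t ε y ∈ a)}.Countable := by
  obtain ⟨t', h1, h2, h3⟩ := PP.le_def.1 h
  refine (pv_countable h1 ε).mono ?_
  intro y hy h4
  apply hy
  rw [← h4]
  show pv t' ε y ∈ a ↔ _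
  rcases lt_or_ge y p.1.ht with h5 | h5
  · have : pv t' ε y = pv p.1.t ε y := pv_agree p.ok.fix h3.t ε h5
    rw [this]
  · constructor
    · intro h6
      exact absurd (ha _ h6) (not_lt.2 (pv_ge p.ok.fix h3.t ε h5))
    · intro h6
      rw [pv_eq_self p.ok.fix ε h5] at h6
      exact absurd (ha _ h6) (not_lt.2 h5)

theorem PP.mate (p : PP L) {ζ : Nm L} (hζ : ζ ∈ p.1.s) (ε : Bool) :
    {y | ¬ (y ∈ p.1.m ζ ε ↔ pv p.1.t ε y ∈ p.1.b ζ)}.Countable := p.ok.mate ζ hζ ε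

end MP9708F
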