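import Pool.Agent.Lib.MP_9708fd_lc.CCond

/-!
# Valid conditions and unions of chains
-/

open Cardinal Set

set_option linter.unusedSectionVars false

namespace MP9708F

universe u

variable {L I : Type u} [LinearOrder L]

/-- Below `p` the generic filter on `Q` contains a condition extending a member of `A`. -/
def FcS (Q : Set (Cond L I)) (p : Cond L I) (A : Set (Cond L I)) : Prop :=
  ∀ q ∈ Q, Le q p → ∃ r ∈ Q, Le r q ∧ ∃ a ∈ A, Le r a

/-- Below `p` the generic filter on `Q` contains no condition extending a member of `A`. -/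
def FnS (Q : Set (Cond L I)) (p : Cond L I) (A : Set (Cond L I)) : Prop :=
  ∀ q ∈ Q, Le q p → ∀ a ∈ A, ¬ Le q a

theorem FcS.mono {Q A : Set (Cond L I)} {p q : Cond L I} (hq : Ok q → Le q p) (h : FcS Q p A)
    (hok : Ok q) : FcS Q q A := fun r hr hrq => h r hr (hrq.trans hok (hq hok))

theorem FnS.mono {Q A : Set (Cond L I)} {p q : Cond L I} (hq : Ok q → Le q p) (h : FnS Q p A)
    (hok : Ok q) : FnS Q q A := fun r hr hrq => h r hr (hrq.trans hok (hq hok))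

variable [LinearOrder I] [WellFoundedLT I] (ν : I → L → Set (Cond L I))

/-- The restriction of `p` to the indices below `η` decides, as prescribed by `p.b η`, which points
below the height of `p` belong to the set named by `η`. -/
def VA (η : I) (Q : Set (Cond L I)) (p : Cond L I) : Prop :=
  ∀ x < p.ht, (x ∈ p.b η → FcS Q (p.res (Iio η)) (ν η x)) ∧
    (x ∉ p.b η → FnS Q (p.res (Iio η)) (ν η x))

/-- The recursion step for `VAt`. -/
def VAtF (η : I) (ih : (ζ : I) → ζ < η → Cond L I → Prop) (p : Cond L I) : Prop :=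
  VA ν η {q | Ok q ∧ ∀ ζ ∈ q.s, ∃ h : ζ < η, ih ζ h q} p

/-- `VA` for the set of valid conditions with indices below `η`. -/
noncomputable def VAt : I → Cond L I → Prop :=
  WellFounded.fix (C := fun _ => Cond L I → Prop) (wellFounded_lt (α := I)) (VAtF ν)

/-- The valid conditions with indices in `A`. -/
def W (A : Set I) : Set (Cond L I) := {q | Ok q ∧ q.s ⊆ A ∧ ∀ ζ ∈ q.s, VAt ν ζ q}

theorem VAt_iff {η : I} {p : Cond L I} : VAt ν η p ↔ VA ν η (W ν (Iio η)) p := by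
  have h0 : VAt ν η = VAtF ν η fun ζ _ => VAt ν ζ := by
    unfold VAt
    rw [WellFounded.fix_eq]
  rw [h0]
  unfold VAtF
  have h : {q : Cond L I | Ok q ∧ ∀ ζ ∈ q.s, ∃ _ : ζ < η, VAt ν ζ q} = W ν (Iio η) := by
    ext q
    constructor
    · rintro ⟨h1, h2⟩
      refine ⟨h1, fun ζ hζ => (h2 ζ hζ).1, fun ζ hζ => ?_⟩
      obtain ⟨_, h3⟩ := h2 ζ hζ
      exact h3
    · rintro ⟨h1, h2, h3⟩
      exact ⟨h1, fun ζ hζ => ⟨h2 hζ, h3 ζ hζ⟩⟩
  rw [h]

variable {ν}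

theorem W.ok {A : Set I} {p : Cond L I} (h : p ∈ W ν A) : Ok p := h.1

theorem W.sub {A : Set I} {p : Cond L I} (h : p ∈ W ν A) : p.s ⊆ A := h.2.1

theorem W.val {A : Set I} {p : Cond L I} (h : p ∈ W ν A) {ζ : I} (hζ : ζ ∈ p.s) : VAt ν ζ p :=
  h.2.2 ζ hζ

theorem W.mono {A B : Set I} (hAB : A ⊆ B) : W ν A ⊆ W ν B :=
  fun _ h => ⟨h.1, h.2.1.trans hAB, h.2.2⟩

theorem W.of_sub {A B : Set I} {p : Cond L I} (h : p ∈ W ν A) (hB : p.s ⊆ B) : p ∈ W ν B :=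
  ⟨h.1, hB, h.2.2⟩

/-- Transfer of validity at an index. -/
theorem VAt_of {η : I} {q : Cond L I} (hq : Ok q)
    (h : ∀ x < q.ht, ∃ p, VAt ν η p ∧ x < p.ht ∧ (x ∈ q.b η ↔ x ∈ p.b η) ∧
      Le (q.res (Iio η)) (p.res (Iio η))) : VAt ν η q := by
  rw [VAt_iff]
  intro x hx
  obtain ⟨p, h1, h2, h3, h4⟩ := h x hx
  rw [VAt_iff] at h1
  obtain ⟨h5, h6⟩ := h1 x h2
  exact ⟨fun hxq => (h5 (h3.1 hxq)).mono (fun _ => h4) (hq.res _),
    fun hxq => (h6 fun h7 => hxq (h3.2 h7)).mono (fun _ => h4) (hq.res _)⟩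

theorem W.res {A : Set I} {p : Cond L I} (h : p ∈ W ν A) (η : I) :
    p.res (Iio η) ∈ W ν (Iio η) := by
  refine ⟨h.1.res _, inter_subset_right, fun ζ hζ => ?_⟩
  refine VAt_of (h.1.res _) fun x hx => ⟨p, h.2.2 ζ hζ.1, hx, Iff.rfl, ?_⟩
  rw [res_res p (Iio_subset_Iio (le_of_lt hζ.2))]
  exact Le.refl (h.1.res _)

theorem W.withT {A : Set I} {p : Cond L I} (h : p ∈ W ν A) {t' : Equiv.Perm L}
    (h1 : {x | t' x ≠ p.t x}.Countable) (h2 : ∀ x, p.ht ≤ x → t' x = x) : p.withT t' ∈ W ν A := by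
  have hok := h.1.withT h1 h2
  refine ⟨hok, h.2.1, fun ζ hζ => ?_⟩
  refine VAt_of hok fun x hx => ⟨p, h.2.2 ζ hζ, hx, Iff.rfl, ?_⟩
  exact Le.of_withT (Le.refl (h.1.res _)) h1

/-- `u` is the union of the chain `F`. -/
structure IsUnion (F : Set (Cond L I)) (u : Cond L I) : Prop where
  chain : ∀ p ∈ F, ∀ q ∈ F, Ext p q ∨ Ext q p
  ok : Ok u
  ext : ∀ p ∈ F, Ext u p
  ht : ∀ x < u.ht, ∃ p ∈ F, x < p.ht
  s : ∀ η ∈ u.s, ∃ p ∈ F, η ∈ p.s

theorem IsUnion.exists_both {F : Set (Cond L I)} {u : Cond L I} (hu : IsUnion F u) {x : L}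
    (hx : x < u.ht) {η : I} (hη : η ∈ u.s) : ∃ p ∈ F, x < p.ht ∧ η ∈ p.s := by
  obtain ⟨p, hp, hxp⟩ := hu.ht x hx
  obtain ⟨q, hq, hηq⟩ := hu.s η hη
  rcases hu.chain p hp q hq with h | h
  · exact ⟨p, hp, hxp, h.s hηq⟩
  · exact ⟨q, hq, hxp.trans_le h.ht, hηq⟩

theorem IsUnion.mem_W {F : Set (Cond L I)} {u : Cond L I} (hu : IsUnion F u) {A : Set I}
    (hF : ∀ p ∈ F, p ∈ W ν A) : u ∈ W ν A := by
  refine ⟨hu.ok, fun η hη => ?_, fun ζ hζ => ?_⟩
  · obtain ⟨p, hp, hηp⟩ := hu.s η hη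
    exact (hF p hp).2.1 hηp
  · refine VAt_of hu.ok fun x hx => ?_
    obtain ⟨p, hp, hxp, hζp⟩ := hu.exists_both hx hζ
    exact ⟨p, (hF p hp).2.2 ζ hζp, hxp, ((hu.ext p hp).at_ ζ hζp).b x hxp,
      ((hu.ext p hp).res _).le (hu.ok.res _)⟩

omit [LinearOrder I] [WellFoundedLT I] in
theorem exists_union [InaccOrder L] {F : Set (Cond L I)} (hF : #F < #L)
    (hok : ∀ p ∈ F, Ok p) (hch : ∀ p ∈ F, ∀ q ∈ F, Ext p q ∨ Ext q p) : ∃ u, IsUnion F u := by
  classical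
  obtain ⟨g, hg, hg'⟩ := exists_sup (L := L) (A := Cond.ht '' F) (mk_image_le.trans_lt hF)
  have hg : ∀ p ∈ F, p.ht ≤ g := fun p hp => hg _ ⟨p, hp, rfl⟩
  have hg' : ∀ x < g, ∃ p ∈ F, x < p.ht := fun x hx => by
    obtain ⟨_, ⟨p, hp, rfl⟩, h⟩ := hg' x hx
    exact ⟨p, hp, h⟩
  -- agreement of the permutations
  have hag : ∀ p ∈ F, ∀ q ∈ F, ∀ ε, ∀ x, x < p.ht → x < q.ht → pv p.t ε x = pv q.t ε x := by
    intro p hp q hq ε x hxp hxq
    rcases hch p hp q hq with h | h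
    · exact pv_agree (hok q hq).fix h.t ε hxq
    · exact (pv_agree (hok p hp).fix h.t ε hxp).symm
  let T : Bool → L → L := fun ε x => if h : ∃ p ∈ F, x < p.ht then pv h.choose.t ε x else x
  have hT : ∀ p ∈ F, ∀ ε x, x < p.ht → T ε x = pv p.t ε x := by
    intro p hp ε x hx
    have h : ∃ p ∈ F, x < p.ht := ⟨p, hp, hx⟩
    simp only [T, dif_pos h]
    exact hag _ h.choose_spec.1 p hp ε x h.choose_spec.2 hx
  have hT' : ∀ ε x, (¬ ∃ p ∈ F, x < p.ht) → T ε x = x := by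
    intro ε x hx
    simp only [T, dif_neg hx]
  have hinv : ∀ ε x, T (!ε) (T ε x) = x := by
    intro ε x
    by_cases h : ∃ p ∈ F, x < p.ht
    · obtain ⟨p, hp, hx⟩ := h
      rw [hT p hp ε x hx, hT p hp (!ε) _ (pv_lt (hok p hp).fix ε hx)]
      cases ε
      · exact p.t.symm_apply_apply x
      · exact p.t.apply_symm_apply x
    · rw [hT' ε x h, hT' _ x h]
  let t : Equiv.Perm L := ⟨T false, T true, hinv false, hinv true⟩
  have hpv : ∀ ε x, pv t ε x = T ε x := by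
    intro ε x
    cases ε <;> rfl
  let u : Cond L I :=
    { ht := g
      t := t
      s := ⋃ p ∈ F, p.s
      b := fun η => {x | ∃ p ∈ F, η ∈ p.s ∧ x ∈ p.b η}
      m := fun η ε => {x | ∃ p ∈ F, η ∈ p.s ∧ x ∈ p.m η ε} }
  have hb : ∀ p ∈ F, ∀ η ∈ p.s, ∀ x < p.ht, (x ∈ u.b η ↔ x ∈ p.b η) := by
    intro p hp η hη x hx
    constructor
    · rintro ⟨q, hq, hηq, hxq⟩
      rcases hch p hp q hq with h | h
      · exact ((h.at_ η hηq).b x ((hok q hq).sub_b η hηq x hxq)).2 hxq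
      · exact ((h.at_ η hη).b x hx).1 hxq
    · intro h
      exact ⟨p, hp, hη, h⟩
  have hm : ∀ p ∈ F, ∀ η ∈ p.s, ∀ ε, ∀ x < p.ht, (x ∈ u.m η ε ↔ x ∈ p.m η ε) := by
    intro p hp η hη ε x hx
    constructor
    · rintro ⟨q, hq, hηq, hxq⟩
      rcases hch p hp q hq with h | h
      · exact ((h.at_ η hηq).m ε x ((hok q hq).sub_m η hηq ε x hxq)).2 hxq
      · exact ((h.at_ η hη).m ε x hx).1 hxq
    · intro h
      exact ⟨p, hp, hη, h⟩
  have hfix : ∀ x, g ≤ x → t x = x := by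
    intro x hx
    refine hT' false x ?_
    rintro ⟨p, hp, hxp⟩
    exact absurd (hxp.trans_le (hg p hp)) (not_lt.2 hx)
  have hubt : ∀ η, ∀ x ∈ u.b η, x < g := by
    rintro η x ⟨p, hp, hη, hx⟩
    exact ((hok p hp).sub_b η hη x hx).trans_le (hg p hp)
  have humt : ∀ η ε, ∀ x ∈ u.m η ε, x < g := by
    rintro η ε x ⟨p, hp, hη, hx⟩
    exact ((hok p hp).sub_m η hη ε x hx).trans_le (hg p hp)
  have hex : ∀ p ∈ F, ∀ η ∈ p.s, ∀ ε y, p.ht ≤ y → (y ∈ u.m η ε ↔ pv u.t ε y ∈ u.b η) := by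
    intro p hp η hη ε y hy
    rcases lt_or_ge y g with hyg | hyg
    · obtain ⟨q, hq, hyq⟩ := hg' y hyg
      have hqp : Ext q p := by
        rcases hch q hq p hp with h | h
        · exact h
        · exact absurd (hyq.trans_le (h.ht.trans hy)) (lt_irrefl _)
      have hηq := hqp.s hη
      rw [hm q hq η hηq ε y hyq, (hqp.at_ η hη).ex ε y hy]
      have e1 : pv u.t ε y = pv q.t ε y := by
        show pv t ε y = _
        rw [hpv, hT q hq ε y hyq]
      rw [e1, hb q hq η hηq _ (pv_lt (hok q hq).fix ε hyq)]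
    · have e1 : pv u.t ε y = y := pv_eq_self hfix ε hyg
      rw [e1]
      constructor
      · intro h
        exact absurd (humt η ε y h) (not_lt.2 hyg)
      · intro h
        exact absurd (hubt η y h) (not_lt.2 hyg)
  have hext : ∀ p ∈ F, Ext u p := fun p hp =>
    ⟨hg p hp, fun x hx => hT p hp false x hx, fun η hη => mem_biUnion hp hη, fun η hη =>
      ⟨hb p hp η hη, hm p hp η hη, hex p hp η hη⟩⟩
  refine ⟨u, hch, ⟨hfix, ?_, ?_, ?_, ?_⟩, hext, hg', ?_⟩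
  · exact card_biUnion_lt hF _ fun p hp => (hok p hp).card
  · intro η _
    exact hubt η
  · intro η _
    exact humt η
  · intro η hη ε
    obtain ⟨p, hp, hηp⟩ := mem_iUnion₂.1 hη
    refine ((hok p hp).mate η hηp ε).mono ?_
    intro y hy h1
    apply hy
    rcases lt_or_ge y p.ht with hyp | hyp
    · rw [hm p hp η hηp ε y hyp]
      have e1 : pv u.t ε y = pv p.t ε y := by
        show pv t ε y = _
        rw [hpv, hT p hp ε y hyp]
      rw [e1, hb p hp η hηp _ (pv_lt (hok p hp).fix ε hyp)]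
      exact h1
    · exact hex p hp η hηp ε y hyp
  · intro η hη
    obtain ⟨p, hp, hηp⟩ := mem_iUnion₂.1 hη
    exact ⟨p, hp, hηp⟩

end MP9708F
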