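import Mathlib

open Cardinal Set Order

universe u

namespace Pool.Agent.MP9708fd

variable {κ : Cardinal.{u}} {X Y : Type u}

/-- `A ⊆ B` up to at most `κ` points: `|A \ B| ≤ κ`. -/
def SubMod (κ : Cardinal.{u}) {X : Type u} (A B : Set X) : Prop := #(A \ B : Set X) ≤ κ

theorem mk_mono {A B : Set X} (h : A ⊆ B) : #A ≤ #B := mk_le_mk_of_subset h

theorem SubMod.of_subset {A B : Set X} (h : A ⊆ B) : SubMod κ A B := by
  unfold SubMod
  rw [sdiff_eq_empty.2 h]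
  simp

theorem SubMod.refl (A : Set X) : SubMod κ A A := SubMod.of_subset (Subset.refl A)

theorem union_le (hκ : ℵ₀ ≤ κ) {A B : Set X} (hA : #A ≤ κ) (hB : #B ≤ κ) :
    #(A ∪ B : Set X) ≤ κ :=
  (mk_union_le A B).trans (add_le_of_le hκ hA hB)

theorem SubMod.trans (hκ : ℵ₀ ≤ κ) {A B C : Set X} (h : SubMod κ A B) (h' : SubMod κ B C) :
    SubMod κ A C := by
  refine (mk_mono ?_).trans (union_le hκ h h')
  intro x hx
  by_cases hb : x ∈ B
  · exact Or.inr ⟨hb, hx.2⟩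
  · exact Or.inl ⟨hx.1, hb⟩

theorem SubMod.union (hκ : ℵ₀ ≤ κ) {A B C : Set X} (h : SubMod κ A C) (h' : SubMod κ B C) :
    SubMod κ (A ∪ B) C := by
  refine (mk_mono ?_).trans (union_le hκ h h')
  rintro x ⟨hx | hx, hx'⟩
  · exact Or.inl ⟨hx, hx'⟩
  · exact Or.inr ⟨hx, hx'⟩

theorem SubMod.inter (hκ : ℵ₀ ≤ κ) {A B C : Set X} (h : SubMod κ A B) (h' : SubMod κ A C) :
    SubMod κ A (B ∩ C) := by
  refine (mk_mono ?_).trans (union_le hκ h h')
  intro x hx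
  by_cases hb : x ∈ B
  · exact Or.inr ⟨hx.1, fun hc => hx.2 ⟨hb, hc⟩⟩
  · exact Or.inl ⟨hx.1, hb⟩

theorem small_of_subMod (hκ : ℵ₀ ≤ κ) {A B : Set X} (h : SubMod κ A B) (hB : #B ≤ κ) : #A ≤ κ := by
  refine (mk_mono ?_).trans (union_le hκ h hB)
  intro x hx
  by_cases hb : x ∈ B
  · exact Or.inr hb
  · exact Or.inl ⟨hx, hb⟩

theorem subMod_of_small {A B : Set X} (h : #A ≤ κ) : SubMod κ A B :=
  (mk_mono sdiff_subset).trans h

/-- If `A ⊆* B` and `A` is disjoint from `B` then `A` is small. -/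
theorem small_of_subMod_disjoint {A B : Set X} (h : SubMod κ A B) (hd : Disjoint A B) :
    #A ≤ κ := by
  have : A \ B = A := by
    rw [sdiff_eq_left]; exact hd
  unfold SubMod at h
  rwa [this] at h

/-- A pair of mutually inverse maps (modulo sets of size `≤ κ`) inducing an isomorphism
`P(X)/[X]^{≤κ} ≅ P(Y)/[Y]^{≤κ}`. -/
structure ModIso (κ : Cardinal.{u}) (X Y : Type u) where
  f : Set X → Set Y
  g : Set Y → Set X
  f_mono : ∀ {A B : Set X}, SubMod κ A B → SubMod κ (f A) (f B)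
  g_mono : ∀ {A B : Set Y}, SubMod κ A B → SubMod κ (g A) (g B)
  gf_le : ∀ A, SubMod κ (g (f A)) A
  le_gf : ∀ A, SubMod κ A (g (f A))
  fg_le : ∀ A, SubMod κ (f (g A)) A
  le_fg : ∀ A, SubMod κ A (f (g A))

variable (φ : ModIso κ X Y)

theorem ModIso.f_small (hκ : ℵ₀ ≤ κ) {A : Set X} (hA : #A ≤ κ) : #(φ.f A) ≤ κ := by
  have h0 : SubMod κ (φ.f A) (∅ : Set Y) := by
    have h1 : SubMod κ A (φ.g ∅) := subMod_of_small hA
    exact (φ.f_mono h1).trans hκ (φ.fg_le ∅)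
  exact small_of_subMod hκ h0 (by simp)

theorem ModIso.g_small (hκ : ℵ₀ ≤ κ) {A : Set Y} (hA : #A ≤ κ) : #(φ.g A) ≤ κ := by
  have h0 : SubMod κ (φ.g A) (∅ : Set X) := by
    have h1 : SubMod κ A (φ.f ∅) := subMod_of_small hA
    exact (φ.g_mono h1).trans hκ (φ.gf_le ∅)
  exact small_of_subMod hκ h0 (by simp)

theorem ModIso.small_of_f (hκ : ℵ₀ ≤ κ) {A : Set X} (hA : #(φ.f A) ≤ κ) : #A ≤ κ :=
  small_of_subMod hκ (φ.le_gf A) (φ.g_small hκ hA)

theorem ModIso.small_of_g (hκ : ℵ₀ ≤ κ) {A : Set Y} (hA : #(φ.g A) ≤ κ) : #A ≤ κ :=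
  small_of_subMod hκ (φ.le_fg A) (φ.f_small hκ hA)

theorem ModIso.f_union (hκ : ℵ₀ ≤ κ) (A B : Set X) : SubMod κ (φ.f (A ∪ B)) (φ.f A ∪ φ.f B) := by
  have h : SubMod κ (A ∪ B) (φ.g (φ.f A ∪ φ.f B)) :=
    SubMod.union hκ ((φ.le_gf A).trans hκ (φ.g_mono (.of_subset subset_union_left)))
      ((φ.le_gf B).trans hκ (φ.g_mono (.of_subset subset_union_right)))
  exact (φ.f_mono h).trans hκ (φ.fg_le _)

/-- `φ` is trivial on `Z` via `e`: `φ([A]) = [e '' A]` for all `A ⊆ Z`. -/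
def Triv (φ : ModIso κ X Y) (Z : Set X) (e : X → Y) : Prop :=
  ∀ A ⊆ Z, SubMod κ (φ.f A) (e '' A) ∧ SubMod κ (e '' A) (φ.f A)

variable {φ}

theorem Triv.mono {Z Z' : Set X} {e : X → Y} (h : Triv φ Z e) (hZ : Z' ⊆ Z) : Triv φ Z' e :=
  fun A hA => h A (hA.trans hZ)

theorem sep_aux {D : Set X} {Z : Type u} (hκ : ℵ₀ ≤ κ) (hD : κ < #D) (s t : X → Z)
    (hne : ∀ x ∈ D, s x ≠ t x) (hs : ∀ y, #({x ∈ D | s x = y} : Set X) ≤ κ)
    (ht : ∀ y, #({x ∈ D | t x = y} : Set X) ≤ κ) :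
    ∃ Q ⊆ D, κ < #Q ∧ Disjoint (s '' Q) (t '' Q) := by
  obtain ⟨Q, hQ⟩ : ∃ Q, Maximal (fun Q : Set X => Q ⊆ D ∧ Disjoint (s '' Q) (t '' Q)) Q := by
    apply zorn_subset
    intro c hc hchain
    refine ⟨⋃₀ c, ⟨sUnion_subset fun q hq => (hc hq).1, ?_⟩, fun q hq => subset_sUnion_of_mem hq⟩
    rw [Set.disjoint_left]
    rintro y ⟨x, ⟨q, hq, hx⟩, rfl⟩ ⟨x', ⟨q', hq', hx'⟩, hxx⟩
    rcases hchain.total hq hq' with h | h
    · exact Set.disjoint_left.1 (hc hq').2 ⟨x, h hx, rfl⟩ ⟨x', hx', hxx⟩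
    · exact Set.disjoint_left.1 (hc hq).2 ⟨x, hx, rfl⟩ ⟨x', h hx', hxx⟩
  refine ⟨Q, hQ.prop.1, ?_, hQ.prop.2⟩
  by_contra hcon
  have hQs : #Q ≤ κ := not_lt.1 hcon
  have hcov : D ⊆ (Q ∪ ⋃ q ∈ Q, {x ∈ D | s x = t q}) ∪ ⋃ q ∈ Q, {x ∈ D | t x = s q} := by
    intro x hx
    by_contra hnot
    simp only [mem_union, mem_iUnion, mem_ofPred_eq, not_or, not_exists, not_and] at hnot
    obtain ⟨⟨hxQ, h1⟩, h2⟩ := hnot
    have hmem : (insert x Q) ⊆ D ∧ Disjoint (s '' (insert x Q)) (t '' (insert x Q)) := by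
      refine ⟨insert_subset hx hQ.prop.1, ?_⟩
      rw [Set.disjoint_left]
      rintro y ⟨a, ha, rfl⟩ ⟨b, hb, hab⟩
      rcases mem_insert_iff.1 ha with ha' | ha'
      · rcases mem_insert_iff.1 hb with hb' | hb'
        · subst ha'; subst hb'
          exact hne _ hx hab.symm
        · subst ha'
          exact h1 b hb' hx hab.symm
      · rcases mem_insert_iff.1 hb with hb' | hb'
        · subst hb'
          exact h2 a ha' hx hab
        · exact Set.disjoint_left.1 hQ.prop.2 ⟨a, ha', rfl⟩ ⟨b, hb', hab⟩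
    have := hQ.le_of_ge hmem (subset_insert x Q)
    exact hxQ (this (mem_insert x Q))
  have hb : ∀ (F : X → Set X), (∀ q, #(F q) ≤ κ) → #(⋃ q ∈ Q, F q : Set X) ≤ κ := by
    intro F hF
    refine (mk_biUnion_le F Q).trans ?_
    have : (⨆ x : Q, #(F x.1)) ≤ κ := ciSup_le' fun q => hF q
    exact (mul_le_mul' hQs this).trans (mul_eq_self hκ).le
  have : #D ≤ κ := (mk_mono hcov).trans
    (union_le hκ (union_le hκ hQs (hb _ fun q => hs _)) (hb _ fun q => ht _))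
  exact absurd hD (not_lt.2 this)

/-- Two functions that differ everywhere on a set of size `> κ` have disjoint ranges on a subset
of size `> κ`. -/
theorem sep {D : Set X} {Z : Type u} (hκ : ℵ₀ ≤ κ) (hD : κ < #D) (s t : X → Z)
    (hne : ∀ x ∈ D, s x ≠ t x) :
    ∃ Q ⊆ D, κ < #Q ∧ Disjoint (s '' Q) (t '' Q) := by
  by_cases hs : ∀ y, #({x ∈ D | s x = y} : Set X) ≤ κ
  · by_cases ht : ∀ y, #({x ∈ D | t x = y} : Set X) ≤ κ
    · exact sep_aux hκ hD s t hne hs ht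
    · push Not at ht
      obtain ⟨y, hy⟩ := ht
      refine ⟨_, fun x hx => hx.1, hy, ?_⟩
      rw [Set.disjoint_left]
      rintro z ⟨a, ha, rfl⟩ ⟨b, hb, hab⟩
      have : s a = t a := by rw [← hab, hb.2, ha.2]
      exact hne a ha.1 this
  · push Not at hs
    obtain ⟨y, hy⟩ := hs
    refine ⟨_, fun x hx => hx.1, hy, ?_⟩
    rw [Set.disjoint_left]
    rintro z ⟨a, ha, rfl⟩ ⟨b, hb, hab⟩
    have : s b = t b := by rw [hab, hb.2, ha.2]
    exact hne b hb.1 this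

theorem Triv.unique (hκ : ℵ₀ ≤ κ) {Z : Set X} {e e' : X → Y} (h : Triv φ Z e) (h' : Triv φ Z e') :
    #({x ∈ Z | e x ≠ e' x} : Set X) ≤ κ := by
  by_contra hcon
  push Not at hcon
  obtain ⟨Q, hQ, hQc, hdis⟩ := sep hκ hcon e e' (fun x hx => hx.2)
  have hQZ : Q ⊆ Z := fun x hx => (hQ hx).1
  have h1 : SubMod κ (φ.f Q) (e '' Q ∩ e' '' Q) := SubMod.inter hκ (h Q hQZ).1 (h' Q hQZ).1
  rw [disjoint_iff_inter_eq_empty.1 hdis] at h1
  have h2 : #(φ.f Q) ≤ κ := small_of_subMod hκ h1 (by simp)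
  exact absurd hQc (not_lt.2 (φ.small_of_f hκ h2))

theorem Triv.congr (hκ : ℵ₀ ≤ κ) {Z : Set X} {e e' : X → Y} (h : Triv φ Z e)
    (hee : #({x ∈ Z | e x ≠ e' x} : Set X) ≤ κ) : Triv φ Z e' := by
  intro A hA
  have h1 : SubMod κ (e '' A) (e' '' A) := by
    refine (mk_mono (B := e '' {x ∈ Z | e x ≠ e' x}) ?_).trans (mk_image_le.trans hee)
    rintro y ⟨⟨x, hx, rfl⟩, hy⟩
    refine ⟨x, ⟨hA hx, fun h => hy ⟨x, hx, h.symm⟩⟩, rfl⟩
  have h2 : SubMod κ (e' '' A) (e '' A) := by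
    refine (mk_mono (B := e' '' {x ∈ Z | e x ≠ e' x}) ?_).trans (mk_image_le.trans hee)
    rintro y ⟨⟨x, hx, rfl⟩, hy⟩
    refine ⟨x, ⟨hA hx, fun h => hy ⟨x, hx, h⟩⟩, rfl⟩
  exact ⟨(h A hA).1.trans hκ h1, h2.trans hκ (h A hA).2⟩

/-- Size of the set of points where `e` does not transport `g B` to `B`. -/
theorem Triv.err (hκ : ℵ₀ ≤ κ) {Z : Set X} {e : X → Y} (h : Triv φ Z e) (B : Set Y) :
    #({x ∈ Z | ¬ (x ∈ φ.g B ↔ e x ∈ B)} : Set X) ≤ κ := by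
  have h1 : #({x ∈ Z | x ∈ φ.g B ∧ e x ∉ B} : Set X) ≤ κ := by
    apply φ.small_of_f hκ
    set N : Set X := {x ∈ Z | x ∈ φ.g B ∧ e x ∉ B}
    have hN : N ⊆ Z := fun x hx => hx.1
    have a1 : SubMod κ (φ.f N) B :=
      (φ.f_mono (.of_subset (fun x hx => hx.2.1))).trans hκ (φ.fg_le B)
    have a2 : SubMod κ (φ.f N) (e '' N ∩ B) := SubMod.inter hκ (h N hN).1 a1
    have a3 : e '' N ∩ B = ∅ := by
      rw [eq_empty_iff_forall_notMem]
      rintro y ⟨⟨x, hx, rfl⟩, hy⟩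
      exact hx.2.2 hy
    rw [a3] at a2
    exact small_of_subMod hκ a2 (by simp)
  have h2 : #({x ∈ Z | x ∉ φ.g B ∧ e x ∈ B} : Set X) ≤ κ := by
    set N : Set X := {x ∈ Z | x ∉ φ.g B ∧ e x ∈ B}
    have hN : N ⊆ Z := fun x hx => hx.1
    have a0 : e '' N ⊆ B := by
      rintro y ⟨x, hx, rfl⟩
      exact hx.2.2
    have a1 : SubMod κ (φ.f N) B := (h N hN).1.trans hκ (.of_subset a0)
    have a2 : SubMod κ N (φ.g B) := (φ.le_gf N).trans hκ (φ.g_mono a1)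
    exact small_of_subMod_disjoint a2 (Set.disjoint_left.2 fun x hx => hx.2.1)
  refine (mk_mono ?_).trans (union_le hκ h1 h2)
  rintro x ⟨hxZ, hx⟩
  by_cases hg : x ∈ φ.g B
  · exact Or.inl ⟨hxZ, hg, fun hB => hx ⟨fun _ => hB, fun _ => hg⟩⟩
  · refine Or.inr ⟨hxZ, hg, ?_⟩
    by_contra hB
    exact hx ⟨fun h => absurd h hg, fun h => absurd h hB⟩

/-- Triviality can be checked on sets of size `κ⁺`. -/
theorem triv_of_succ (hκ : ℵ₀ ≤ κ) {Z : Set X} {e : X → Y}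
    (h : ∀ K ⊆ Z, #K = succ κ → Triv φ K e) : Triv φ Z e := by
  intro A hA
  constructor
  · -- `φ.f A ⊆* e '' A`
    by_contra hcon
    unfold SubMod at hcon
    push Not at hcon
    set W : Set Y := φ.f A \ e '' A
    have hV1 : SubMod κ (φ.g W) A := (φ.g_mono (.of_subset sdiff_subset)).trans hκ (φ.gf_le A)
    have hV2 : κ < #(φ.g W ∩ A : Set X) := by
      by_contra hle
      have : SubMod κ (φ.g W) (φ.g W ∩ A) := SubMod.inter hκ (SubMod.refl _) hV1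
      have h3 := small_of_subMod hκ this (not_lt.1 hle)
      exact absurd hcon (not_lt.2 (φ.small_of_g hκ h3))
    obtain ⟨K, hK, hKc⟩ := le_mk_iff_exists_subset.1 (succ_le_of_lt hV2)
    have hKZ : K ⊆ Z := fun x hx => hA (hK hx).2
    have a1 := (h K hKZ hKc K (Subset.refl K)).1
    have a2 : SubMod κ (φ.f K) W :=
      (φ.f_mono (.of_subset (fun x hx => (hK hx).1))).trans hκ (φ.fg_le W)
    have a3 : SubMod κ (φ.f K) (e '' K ∩ W) := SubMod.inter hκ a1 a2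
    have a4 : e '' K ∩ W = ∅ := by
      rw [eq_empty_iff_forall_notMem]
      rintro y ⟨⟨x, hx, rfl⟩, hy⟩
      exact hy.2 ⟨x, (hK hx).2, rfl⟩
    rw [a4] at a3
    have := φ.small_of_f hκ (small_of_subMod hκ a3 (by simp))
    rw [hKc] at this
    exact absurd this (not_le.2 (lt_succ κ))
  · by_contra hcon
    unfold SubMod at hcon
    push Not at hcon
    obtain ⟨S, hS, hSc⟩ := le_mk_iff_exists_subset.1 (succ_le_of_lt hcon)
    -- choose preimages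
    have hpre : ∀ y ∈ S, ∃ x ∈ A, e x = y := fun y hy => (hS hy).1
    have : Nonempty X := by
      have hne : S.Nonempty := by
        rw [nonempty_iff_ne_empty]
        rintro rfl
        simp only [mk_eq_zero] at hSc
        exact absurd hSc.symm (succ_ne_zero κ)
      obtain ⟨y, hy⟩ := hne
      obtain ⟨x, -⟩ := hpre y hy
      exact ⟨x⟩
    choose! r hrA hre using hpre
    have hrinj : InjOn r S := by
      intro a ha b hb hab
      rw [← hre a ha, ← hre b hb, hab]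
    have hKc : #(r '' S : Set X) = succ κ := by
      rw [mk_image_eq_of_injOn r S hrinj, hSc]
    have hKA : r '' S ⊆ A := by
      rintro x ⟨y, hy, rfl⟩
      exact hrA y hy
    have heK : e '' (r '' S) = S := by
      ext y
      constructor
      · rintro ⟨x, ⟨z, hz, rfl⟩, rfl⟩
        rw [hre z hz]; exact hz
      · intro hy
        exact ⟨r y, ⟨y, hy, rfl⟩, hre y hy⟩
    have a1 := (h _ (hKA.trans hA) hKc _ (Subset.refl _)).2
    rw [heK] at a1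
    have a2 : SubMod κ S (φ.f A) := a1.trans hκ (φ.f_mono (.of_subset hKA))
    have a3 := small_of_subMod_disjoint a2 (Set.disjoint_left.2 fun y hy => (hS hy).2)
    rw [hSc] at a3
    exact absurd a3 (not_le.2 (lt_succ κ))

theorem triv_union (hκ : ℵ₀ ≤ κ) {Z W : Set X} {e e' : X → Y} (h : Triv φ Z e)
    (h' : Triv φ W e') : ∃ e'', Triv φ (Z ∪ W) e'' := by
  classical
  refine ⟨fun x => if x ∈ Z then e x else e' x, ?_⟩
  intro A hA
  set e'' : X → Y := fun x => if x ∈ Z then e x else e' x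
  have hA1 : A = (A ∩ Z) ∪ (A \ Z) := (inter_union_sdiff A Z).symm
  have hA2 : A \ Z ⊆ W := by
    intro x hx
    rcases hA hx.1 with h | h
    · exact absurd h hx.2
    · exact h
  have i1 : e'' '' (A ∩ Z) = e '' (A ∩ Z) := by
    apply image_congr
    intro x hx
    simp [e'', hx.2]
  have i2 : e'' '' (A \ Z) = e' '' (A \ Z) := by
    apply image_congr
    intro x hx
    simp [e'', hx.2]
  have t1 := h (A ∩ Z) inter_subset_right
  have t2 := h' (A \ Z) hA2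
  rw [← i1] at t1
  rw [← i2] at t2
  constructor
  · have a1 := φ.f_union hκ (A ∩ Z) (A \ Z)
    rw [← hA1] at a1
    refine a1.trans hκ (SubMod.union hκ (t1.1.trans hκ (.of_subset ?_))
      (t2.1.trans hκ (.of_subset ?_)))
    · exact image_mono inter_subset_left
    · exact image_mono sdiff_subset
  · have : e'' '' A = e'' '' (A ∩ Z) ∪ e'' '' (A \ Z) := by
      rw [← image_union, ← hA1]
    rw [this]
    exact SubMod.union hκ (t1.2.trans hκ (φ.f_mono (.of_subset inter_subset_left)))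
      (t2.2.trans hκ (φ.f_mono (.of_subset sdiff_subset)))

theorem biUnion_small {ι : Type u} {S : Set ι} {F : ι → Set X} {ρ σ : Cardinal.{u}}
    (hσ : ℵ₀ ≤ σ) (hS : #S ≤ σ) (hρ : ρ ≤ σ) (hF : ∀ i ∈ S, #(F i) ≤ ρ) :
    #(⋃ i ∈ S, F i : Set X) ≤ σ := by
  refine (mk_biUnion_le F S).trans ?_
  have : (⨆ x : S, #(F x.1)) ≤ ρ := ciSup_le' fun q => hF q.1 q.2
  exact (mul_le_mul' hS (this.trans hρ)).trans (mul_eq_self hσ).le

theorem sUnion_small {S : Set (Set X)} {ρ σ : Cardinal.{u}}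
    (hσ : ℵ₀ ≤ σ) (hS : #S ≤ σ) (hρ : ρ ≤ σ) (hF : ∀ A ∈ S, #A ≤ ρ) :
    #(⋃₀ S : Set X) ≤ σ := by
  rw [sUnion_eq_biUnion]
  exact biUnion_small hσ hS hρ hF

/-- **Transfer lemma.** -/
theorem transfer (hκ : ℵ₀ ≤ κ) {Z : Set X}
    (H : ∀ K ⊆ Z, #K < #Z → ∃ e, Triv φ K e)
    (e₀ : X → Y) {F : Set X} (hF : F ⊆ Z) (hFc : #F < #Z) {ρ : Cardinal.{u}}
    (hρ1 : succ κ ≤ ρ) (hρ2 : succ ρ < #Z)
    (hE : ∀ K ⊆ Z \ F, #K < #Z → ∀ e, Triv φ K e → #({x ∈ K | e x ≠ e₀ x} : Set X) ≤ ρ) :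
    ∃ e, Triv φ Z e := by
  have hρ0 : ℵ₀ ≤ ρ := hκ.trans ((le_succ κ).trans hρ1)
  have hρZ : ρ < #Z := (lt_succ ρ).trans hρ2
  have hκZ : succ κ < #Z := hρ1.trans_lt hρZ
  have hXne : Nonempty X := by
    have hne : Z.Nonempty := by
      rw [nonempty_iff_ne_empty]
      rintro rfl
      simp at hρZ
    exact ⟨hne.some⟩
  set Moved : Set X → Prop := fun T => T ⊆ Z \ F ∧ #T = succ κ ∧
    ∃ e, Triv φ T e ∧ ∀ x ∈ T, e x ≠ e₀ x with hMoved
  obtain ⟨C, hC⟩ : ∃ C, Maximal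
      (fun C : Set (Set X) => (∀ T ∈ C, Moved T) ∧ C.Pairwise Disjoint) C := by
    apply zorn_subset
    intro c hc hchain
    refine ⟨⋃₀ c, ⟨?_, ?_⟩, fun q hq => subset_sUnion_of_mem hq⟩
    · rintro T ⟨q, hq, hT⟩
      exact (hc hq).1 T hT
    · rintro T ⟨q, hq, hT⟩ T' ⟨q', hq', hT'⟩ hne
      rcases hchain.total hq hq' with h | h
      · exact (hc hq').2 (h hT) hT' hne
      · exact (hc hq).2 hT (h hT') hne
  obtain ⟨hCm, hCd⟩ := hC.prop
  have hCcard : #C ≤ ρ := by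
    by_contra hcon
    push Not at hcon
    obtain ⟨D, hDC, hDc⟩ := le_mk_iff_exists_subset.1 (succ_le_of_lt hcon)
    have hρs : ℵ₀ ≤ succ ρ := hρ0.trans (le_succ ρ)
    have hKc : #(⋃₀ D : Set X) ≤ succ ρ :=
      sUnion_small hρs hDc.le (hρ1.trans (le_succ ρ)) fun T hT => (hCm T (hDC hT)).2.1.le
    have hKZ : ⋃₀ D ⊆ Z \ F := sUnion_subset fun T hT => (hCm T (hDC hT)).1
    have hKlt : #(⋃₀ D : Set X) < #Z := hKc.trans_lt hρ2
    obtain ⟨e, he⟩ := H _ (hKZ.trans sdiff_subset) hKlt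
    have hEK := hE _ hKZ hKlt e he
    have hex : ∀ T ∈ D, ∃ x ∈ T, e x ≠ e₀ x := by
      intro T hT
      by_contra hno
      push Not at hno
      obtain ⟨-, hTc, e', he', hne⟩ := hCm T (hDC hT)
      have h1 := (he.mono (subset_sUnion_of_mem hT)).unique hκ he'
      have h2 : T ⊆ {x ∈ T | e x ≠ e' x} := by
        intro x hx
        refine ⟨hx, fun h => hne x hx ?_⟩
        rw [← h, hno x hx]
      have h3 := (mk_mono h2).trans h1
      rw [hTc] at h3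
      exact absurd h3 (not_le.2 (lt_succ κ))
    choose! w hwT hwe using hex
    have hwinj : InjOn w D := by
      intro T hT T' hT' hww
      by_contra hne
      have := hCd (hDC hT) (hDC hT') hne
      exact Set.disjoint_left.1 this (hwT T hT) (hww ▸ hwT T' hT')
    have h4 : #(w '' D : Set X) = succ ρ := by
      rw [mk_image_eq_of_injOn w D hwinj, hDc]
    have h5 : w '' D ⊆ {x ∈ ⋃₀ D | e x ≠ e₀ x} := by
      rintro x ⟨T, hT, rfl⟩
      exact ⟨⟨T, hT, hwT T hT⟩, hwe T hT⟩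
    have h6 := (mk_mono h5).trans hEK
    rw [h4] at h6
    exact absurd h6 (not_le.2 (lt_succ ρ))
  set G : Set X := ⋃₀ C
  have hGZ : G ⊆ Z \ F := sUnion_subset fun T hT => (hCm T hT).1
  have hGc : #G ≤ ρ := sUnion_small hρ0 hCcard hρ1 fun T hT => (hCm T hT).2.1.le
  have hmain : Triv φ (Z \ (F ∪ G)) e₀ := by
    apply triv_of_succ hκ
    intro K hK hKc
    have hKZ : K ⊆ Z \ F := fun x hx => ⟨(hK hx).1, fun h => (hK hx).2 (Or.inl h)⟩
    obtain ⟨e, he⟩ := H K (hKZ.trans sdiff_subset) (by rw [hKc]; exact hκZ)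
    by_cases hsm : #({x ∈ K | e x ≠ e₀ x} : Set X) ≤ κ
    · exact he.congr hκ hsm
    · exfalso
      push Not at hsm
      set E : Set X := {x ∈ K | e x ≠ e₀ x}
      have hEK : E ⊆ K := fun x hx => hx.1
      have hEc : #E = succ κ := le_antisymm ((mk_mono hEK).trans hKc.le) (succ_le_of_lt hsm)
      have hEm : Moved E := ⟨hEK.trans hKZ, hEc, e, he.mono hEK, fun x hx => hx.2⟩
      have hEG : Disjoint E G := by
        rw [Set.disjoint_left]
        intro x hx hxG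
        exact (hK (hEK hx)).2 (Or.inr hxG)
      have hins : (∀ T ∈ insert E C, Moved T) ∧ (insert E C).Pairwise Disjoint := by
        refine ⟨?_, ?_⟩
        · rintro T (rfl | hT)
          · exact hEm
          · exact hCm T hT
        · apply hCd.insert
          intro T hT _
          have : Disjoint E T := hEG.mono_right (subset_sUnion_of_mem hT)
          exact ⟨this, this.symm⟩
      have hEC : E ∈ C := hC.le_of_ge hins (subset_insert E C) (mem_insert E C)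
      have hEne : E.Nonempty := by
        rw [nonempty_iff_ne_empty]
        intro h0
        rw [h0] at hEc
        simp only [mk_eq_zero] at hEc
        exact absurd hEc.symm (succ_ne_zero κ)
      obtain ⟨x, hx⟩ := hEne
      exact Set.disjoint_left.1 hEG hx ⟨E, hEC, hx⟩
  have hZinf : ℵ₀ ≤ #Z := hρ0.trans hρZ.le
  have hFG : #(F ∪ G : Set X) < #Z :=
    (mk_union_le F G).trans_lt (add_lt_of_lt hZinf hFc (hGc.trans_lt hρZ))
  obtain ⟨e', he'⟩ := H (F ∪ G) (union_subset hF (hGZ.trans sdiff_subset)) hFG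
  obtain ⟨e'', he''⟩ := triv_union hκ hmain he'
  refine ⟨e'', ?_⟩
  rwa [sdiff_union_of_subset] at he''
  exact union_subset hF (hGZ.trans sdiff_subset)

theorem exists_rank {Z : Set X} (hZ : ℵ₀ ≤ #Z) :
    ∃ rk : X → (#Z).ord.ToType, InjOn rk Z := by
  classical
  have h : #Z = #(#Z).ord.ToType := by simp
  obtain ⟨e⟩ := Cardinal.eq.1 h
  have hne : Nonempty (#Z).ord.ToType := by
    rw [← mk_ne_zero_iff, ← h]
    intro h0
    rw [h0] at hZ
    exact aleph0_ne_zero (le_antisymm hZ zero_le)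
  obtain ⟨w₀⟩ := hne
  refine ⟨fun x => if hx : x ∈ Z then e ⟨x, hx⟩ else w₀, ?_⟩
  intro x hx y hy hxy
  simp only [hx, hy, dif_pos] at hxy
  simpa using e.injective hxy

theorem mk_Iio_lt' {c : Cardinal.{u}} (i : c.ord.ToType) : #(Iio i) < c := by
  have := mk_Iio_lt i (by simp)
  simpa using this

theorem mk_Iic_lt' {c : Cardinal.{u}} (hc : ℵ₀ ≤ c) (i : c.ord.ToType) : #(Iic i) < c := by
  rw [← Iio_insert]
  exact mk_insert_le.trans_lt (add_lt_of_lt hc (mk_Iio_lt' i) (one_lt_aleph0.trans_le hc))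

theorem mk_sep_lt {c : Cardinal.{u}} {Z : Set X} (rk : X → c.ord.ToType) (hrk : InjOn rk Z)
    {S : Set c.ord.ToType} (hS : #S < c) : #({x ∈ Z | rk x ∈ S} : Set X) < c := by
  have h1 : #(rk '' {x ∈ Z | rk x ∈ S}) = #({x ∈ Z | rk x ∈ S} : Set X) :=
    mk_image_eq_of_injOn rk _ (hrk.mono fun x hx => hx.1)
  rw [← h1]
  refine (mk_mono ?_).trans_lt hS
  rintro w ⟨x, hx, rfl⟩
  exact hx.2

/-- The singular case. -/
theorem case_singular (hκ : ℵ₀ ≤ κ) {Z : Set X}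
    (H : ∀ K ⊆ Z, #K < #Z → ∃ e, Triv φ K e) (hZ : succ κ < #Z)
    (hs : (#Z).ord.cof < #Z) : ∃ e, Triv φ Z e := by
  classical
  have hZinf : ℵ₀ ≤ #Z := hκ.trans ((le_succ κ).trans hZ.le)
  set θ := (#Z).ord.cof with hθ
  have hlim : ∀ ρ, ℵ₀ ≤ ρ → ρ < #Z → succ ρ < #Z := by
    intro ρ hρ hρZ
    refine lt_of_le_of_ne (succ_le_of_lt hρZ) ?_
    intro heq
    have := (isRegular_succ hρ).cof_ord
    rw [heq, ← hθ] at this
    exact absurd this hs.ne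
  obtain ⟨rk, hrk⟩ := exists_rank hZinf
  obtain ⟨S, hScof, hSc⟩ := Order.exists_cof_eq (#Z).ord.ToType
  rw [Ordinal.cof_toType, ← hθ] at hSc
  -- the pieces
  set P : (#Z).ord.ToType → Set X := fun s => {x ∈ Z | rk x ∈ Iic s}
  have hPZ : ∀ s, P s ⊆ Z := fun s x hx => hx.1
  have hP : ∀ s, #(P s) < #Z := fun s => mk_sep_lt rk hrk (mk_Iic_lt' hZinf s)
  have hPe : ∀ s, ∃ e, Triv φ (P s) e := fun s => H _ (hPZ s) (hP s)
  choose e he using hPe
  have hsel : ∀ x, ∃ s ∈ S, rk x ≤ s := fun x => hScof (rk x)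
  choose sel hselS hsel using hsel
  set ρ := max (succ κ) θ with hρdef
  have hρ0 : ℵ₀ ≤ ρ := hκ.trans ((le_succ κ).trans (le_max_left _ _))
  have hκρ : κ ≤ ρ := (le_succ κ).trans (le_max_left _ _)
  have hρZ : ρ < #Z := max_lt hZ hs
  have hSρ : #S ≤ ρ := hSc.le.trans (le_max_right _ _)
  set F : Set X := ⋃ s ∈ S, ⋃ t ∈ S, {x ∈ P s ∩ P t | e s x ≠ e t x}
  have hF : F ⊆ Z := by
    intro x hx
    simp only [F, mem_iUnion] at hx
    obtain ⟨s, _, t, _, hx⟩ := hx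
    exact hx.1.1.1
  have hFc : #F ≤ ρ := by
    apply biUnion_small hρ0 hSρ le_rfl
    intro s _
    apply biUnion_small hρ0 hSρ hκρ
    intro t _
    exact ((he s).mono inter_subset_left).unique hκ ((he t).mono inter_subset_right)
  refine transfer hκ H (fun x => e (sel x) x) hF (hFc.trans_lt hρZ) (le_max_left _ _)
    (hlim ρ hρ0 hρZ) ?_
  intro K hK hKc e' he'
  refine (mk_mono (B := ⋃ s ∈ S, {x ∈ K ∩ P s | e' x ≠ e s x}) ?_).trans ?_
  · rintro x ⟨hxK, hx⟩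
    simp only [mem_iUnion]
    exact ⟨sel x, hselS x, ⟨hxK, (hK hxK).1, hsel x⟩, hx⟩
  · apply biUnion_small hρ0 hSρ hκρ
    intro s _
    exact (he'.mono inter_subset_left).unique hκ ((he s).mono inter_subset_right)

theorem iUnion_small {ι : Type u} {F : ι → Set X} {ρ σ : Cardinal.{u}}
    (hσ : ℵ₀ ≤ σ) (hι : #ι ≤ σ) (hρ : ρ ≤ σ) (hF : ∀ i, #(F i) ≤ ρ) :
    #(⋃ i, F i : Set X) ≤ σ := by
  refine (mk_iUnion_le F).trans ?_
  have : (⨆ x : ι, #(F x)) ≤ ρ := ciSup_le' fun q => hF q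
  exact (mul_le_mul' hι (this.trans hρ)).trans (mul_eq_self hσ).le

/-- In the regular case `Z` is covered by smaller sets such that each smaller subset of `Z` lies in
one of them. -/
theorem exists_cover {Z : Set X} (H : ∀ K ⊆ Z, #K < #Z → ∃ e, Triv φ K e)
    (hZinf : ℵ₀ ≤ #Z) (hreg : (#Z).ord.cof = #Z) :
    ∃ (W : Type u) (P : W → Set X) (e : W → X → Y), #W = #Z ∧
      (∀ w, P w ⊆ Z ∧ #(P w) < #Z ∧ Triv φ (P w) (e w)) ∧
      (∀ K ⊆ Z, #K < #Z → ∃ w, K ⊆ P w) := by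
  obtain ⟨rk, hrk⟩ := exists_rank hZinf
  set P : (#Z).ord.ToType → Set X := fun s => {x ∈ Z | rk x ∈ Iio s}
  have hPZ : ∀ s, P s ⊆ Z := fun s x hx => hx.1
  have hP : ∀ s, #(P s) < #Z := fun s => mk_sep_lt rk hrk (mk_Iio_lt' s)
  have hPe : ∀ s, ∃ e, Triv φ (P s) e := fun s => H _ (hPZ s) (hP s)
  choose e he using hPe
  refine ⟨_, P, e, by simp, fun w => ⟨hPZ w, hP w, he w⟩, ?_⟩
  intro K hK hKc
  have hnot : ¬ IsCofinal (rk '' K) := by
    intro hcof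
    have h1 := Order.cof_le hcof
    rw [Ordinal.cof_toType, hreg] at h1
    exact absurd (h1.trans mk_image_le) (not_le.2 hKc)
  obtain ⟨w, hw⟩ := not_isCofinal_iff.1 hnot
  exact ⟨w, fun x hx => ⟨hK hx, hw _ ⟨x, hx, rfl⟩⟩⟩

theorem exists_pattern {Z : Set X} {W : Type u} (P : W → Set X) (e : W → X → Y)
    (hW : #W = #Z) (hPc : ∀ w, #(P w) < #Z) (hZ : ℵ₀ ≤ #Z) (ι : Type u) (hι : #Z ≤ 2 ^ #ι)
    (g : Set Y → Set X) :
    ∃ (B : ι → Set Y) (e₀ : X → Y), ∀ w, ∀ x ∈ P w,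
      (∀ i, x ∈ g (B i) ↔ e w x ∈ B i) → e₀ x = e w x := by
  classical
  have hWne : Nonempty W := by
    rw [← mk_ne_zero_iff, hW]
    intro h0
    rw [h0] at hZ
    exact aleph0_ne_zero (le_antisymm hZ zero_le)
  obtain ⟨w₀⟩ := hWne
  set R : Set Y := ⋃ w, e w '' P w
  have hR : #R ≤ #Z := iUnion_small hZ hW.le le_rfl fun w => mk_image_le.trans (hPc w).le
  have hR2 : #R ≤ #(Set ι) := by
    rw [mk_set]; exact hR.trans hι
  obtain ⟨c⟩ := hR2
  set B : ι → Set Y := fun i => {y | ∃ h : y ∈ R, i ∈ c ⟨y, h⟩}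
  refine ⟨B, fun x => if h : ∃ y ∈ R, ∀ i, x ∈ g (B i) ↔ y ∈ B i then h.choose else e w₀ x, ?_⟩
  intro w x hx hpat
  have hy : e w x ∈ R := mem_iUnion.2 ⟨w, ⟨x, hx, rfl⟩⟩
  have hex : ∃ y ∈ R, ∀ i, x ∈ g (B i) ↔ y ∈ B i := ⟨_, hy, hpat⟩
  simp only [dif_pos hex]
  obtain ⟨h1, h2⟩ := hex.choose_spec
  set y' := hex.choose
  have h3 : c ⟨y', h1⟩ = c ⟨e w x, hy⟩ := by
    ext i
    have h4 : y' ∈ B i ↔ e w x ∈ B i := (h2 i).symm.trans (hpat i)
    have h5 : y' ∈ B i ↔ i ∈ c ⟨y', h1⟩ :=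
      ⟨fun ⟨_, h⟩ => h, fun h => ⟨h1, h⟩⟩
    have h6 : e w x ∈ B i ↔ i ∈ c ⟨e w x, hy⟩ :=
      ⟨fun ⟨_, h⟩ => h, fun h => ⟨hy, h⟩⟩
    rw [← h5, ← h6, h4]
  have := c.injective h3
  simpa using congrArg Subtype.val this

/-- Regular `|Z|`, with `|Z| ≤ 2^ν` for some `ν ≥ κ⁺` with `ν⁺ < |Z|`. -/
theorem case_power (hκ : ℵ₀ ≤ κ) {Z : Set X} (H : ∀ K ⊆ Z, #K < #Z → ∃ e, Triv φ K e)
    (hreg : (#Z).ord.cof = #Z) {ν : Cardinal.{u}} (hν1 : succ κ ≤ ν) (hν2 : succ ν < #Z)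
    (hν3 : #Z ≤ 2 ^ ν) : ∃ e, Triv φ Z e := by
  have hν0 : ℵ₀ ≤ ν := hκ.trans ((le_succ κ).trans hν1)
  have hκν : κ ≤ ν := (le_succ κ).trans hν1
  have hZinf : ℵ₀ ≤ #Z := hν0.trans ((le_succ ν).trans hν2.le)
  obtain ⟨W, P, e, hW, hP, hcov⟩ := exists_cover H hZinf hreg
  obtain ⟨B, e₀, hB⟩ := exists_pattern P e hW (fun w => (hP w).2.1) hZinf ν.out
    (by rw [mk_out]; exact hν3) φ.g
  have hsm : ∀ w, #({x ∈ P w | e₀ x ≠ e w x} : Set X) ≤ ν := by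
    intro w
    refine (mk_mono (B := ⋃ i : ν.out, {x ∈ P w | ¬ (x ∈ φ.g (B i) ↔ e w x ∈ B i)}) ?_).trans ?_
    · rintro x ⟨hx, hne⟩
      by_contra hno
      simp only [mem_iUnion, not_exists] at hno
      apply hne
      apply hB w x hx
      intro i
      by_contra hi
      exact hno i ⟨hx, hi⟩
    · exact iUnion_small hν0 (by rw [mk_out]) hκν fun i => (hP w).2.2.err hκ (B i)
  refine transfer hκ H e₀ (empty_subset Z) (by simpa using (aleph0_pos.trans_le hZinf)) hν1 hν2 ?_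
  intro K hK hKc e' he'
  have hKZ : K ⊆ Z := hK.trans sdiff_subset
  obtain ⟨w, hw⟩ := hcov K hKZ hKc
  refine (mk_mono (B := {x ∈ K | e' x ≠ e w x} ∪ {x ∈ P w | e₀ x ≠ e w x}) ?_).trans ?_
  · rintro x ⟨hx, hne⟩
    by_cases h : e' x = e w x
    · exact Or.inr ⟨hw hx, fun h' => hne (h.trans h'.symm)⟩
    · exact Or.inl ⟨hx, h⟩
  · exact union_le hν0 ((he'.unique hκ ((hP w).2.2.mono hw)).trans hκν) (hsm w)

/-- Regular `|Z| ≤ 2^κ`. -/
theorem case_known (hκ : ℵ₀ ≤ κ) {Z : Set X} (H : ∀ K ⊆ Z, #K < #Z → ∃ e, Triv φ K e)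
    (hreg : (#Z).ord.cof = #Z) (hZ : succ κ < #Z) (hZ2 : #Z ≤ 2 ^ κ) : ∃ e, Triv φ Z e := by
  have hZinf : ℵ₀ ≤ #Z := hκ.trans ((le_succ κ).trans hZ.le)
  obtain ⟨W, P, e, hW, hP, hcov⟩ := exists_cover H hZinf hreg
  obtain ⟨B, e₀, hB⟩ := exists_pattern P e hW (fun w => (hP w).2.1) hZinf κ.out
    (by rw [mk_out]; exact hZ2) φ.g
  have hsm : ∀ w, #({x ∈ P w | e₀ x ≠ e w x} : Set X) ≤ κ := by
    intro w
    refine (mk_mono (B := ⋃ i : κ.out, {x ∈ P w | ¬ (x ∈ φ.g (B i) ↔ e w x ∈ B i)}) ?_).trans ?_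
    · rintro x ⟨hx, hne⟩
      by_contra hno
      simp only [mem_iUnion, not_exists] at hno
      apply hne
      apply hB w x hx
      intro i
      by_contra hi
      exact hno i ⟨hx, hi⟩
    · exact iUnion_small hκ (by rw [mk_out]) le_rfl fun i => (hP w).2.2.err hκ (B i)
  refine ⟨e₀, triv_of_succ hκ fun K hK hKc => ?_⟩
  obtain ⟨w, hw⟩ := hcov K hK (by rw [hKc]; exact hZ)
  refine ((hP w).2.2.mono hw).congr hκ ((mk_mono ?_).trans (hsm w))
  rintro x ⟨hx, hne⟩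
  exact ⟨hw hx, fun h => hne h.symm⟩

/-- The successor case `|Z| = μ⁺`, `μ ≥ κ⁺⁺` with `2^ν ≤ μ` for all `ν < μ`. -/
theorem case_succ (hκ : ℵ₀ ≤ κ) {Z : Set X} (H : ∀ K ⊆ Z, #K < #Z → ∃ e, Triv φ K e)
    {μ : Cardinal.{u}} (hZ : #Z = succ μ) (hμ : succ (succ κ) ≤ μ) (hpow : ∀ ν < μ, 2 ^ ν ≤ μ) :
    ∃ e, Triv φ Z e := by
  have hκ1 : κ < succ κ := lt_succ κ
  have hκ2 : succ κ < succ (succ κ) := lt_succ _
  have hκμ : κ < μ := hκ1.trans (hκ2.trans_le hμ)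
  have hsκμ : succ κ < μ := hκ2.trans_le hμ
  have hμ0 : ℵ₀ ≤ μ := hκ.trans hκμ.le
  have hsκ0 : ℵ₀ ≤ succ κ := hκ.trans hκ1.le
  have hZinf : ℵ₀ ≤ #Z := by rw [hZ]; exact hμ0.trans (le_succ μ)
  have hμZ : μ < #Z := by rw [hZ]; exact lt_succ μ
  have hreg : (#Z).ord.cof = #Z := by rw [hZ]; exact (isRegular_succ hμ0).cof_ord
  obtain ⟨W, P, e, hW, hP, hcov⟩ := exists_cover H hZinf hreg
  set ι := μ.ord.ToType
  have hιc : #ι = μ := by simp [ι]
  obtain ⟨B, e₀, hB⟩ := exists_pattern P e hW (fun w => (hP w).2.1) hZinf ι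
    (by rw [hιc, hZ]; exact succ_le_of_lt (cantor μ)) φ.g
  -- initial patterns
  set a : (ξ : ι) → X → Set (Iio ξ) := fun ξ x => {j | x ∈ φ.g (B j.1)}
  set d : (ξ : ι) → Y → Set (Iio ξ) := fun ξ y => {j | y ∈ B j.1}
  set BQ : (ξ : ι) → Set (Set (Iio ξ)) → Set Y := fun ξ Q => {y | d ξ y ∈ Q}
  set FQ : (ξ : ι) → Set (Set (Iio ξ)) → Set X := fun ξ Q =>
    {x ∈ Z | ¬ (x ∈ φ.g (BQ ξ Q) ↔ a ξ x ∈ Q)}
  have hFQ : ∀ ξ Q, #(FQ ξ Q) ≤ μ := by
    intro ξ Q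
    by_contra hcon
    push Not at hcon
    set σ := max κ #(Iio ξ)
    have hσ0 : ℵ₀ ≤ σ := hκ.trans (le_max_left _ _)
    have hσμ : σ < μ := max_lt hκμ (mk_Iio_lt' ξ)
    obtain ⟨T, hT, hTc⟩ := le_mk_iff_exists_subset.1 ((succ_le_of_lt hσμ).trans hcon.le)
    have hTZ : T ⊆ Z := fun x hx => (hT hx).1
    obtain ⟨w, hw⟩ := hcov T hTZ (by rw [hTc]; exact (succ_le_of_lt hσμ).trans_lt hμZ)
    have hcovT : T ⊆ {x ∈ P w | ¬ (x ∈ φ.g (BQ ξ Q) ↔ e w x ∈ BQ ξ Q)} ∪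
        ⋃ j : Iio ξ, {x ∈ P w | ¬ (x ∈ φ.g (B j.1) ↔ e w x ∈ B j.1)} := by
      intro x hx
      by_contra hno
      simp only [mem_union, mem_iUnion, not_or, not_exists] at hno
      obtain ⟨h1, h2⟩ := hno
      have h1' : x ∈ φ.g (BQ ξ Q) ↔ e w x ∈ BQ ξ Q := by
        by_contra h; exact h1 ⟨hw hx, h⟩
      have h2' : a ξ x = d ξ (e w x) := by
        ext j
        by_contra h
        exact h2 j ⟨hw hx, h⟩
      apply (hT hx).2
      rw [h1', h2']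
      exact Iff.rfl
    have h3 : #T ≤ σ := (mk_mono hcovT).trans (union_le hσ0
      (((hP w).2.2.err hκ _).trans (le_max_left _ _))
      (iUnion_small hσ0 (le_max_right _ _) (le_max_left _ _) fun j => (hP w).2.2.err hκ _))
    rw [hTc] at h3
    exact absurd h3 (not_le.2 (lt_succ σ))
  set F : Set X := ⋃ ξ : ι, ⋃ Q : {Q : Set (Set (Iio ξ)) // #Q ≤ succ κ}, FQ ξ Q.1
  have hFZ : F ⊆ Z := by
    intro x hx
    simp only [F, mem_iUnion] at hx
    obtain ⟨ξ, Q, hx⟩ := hx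
    exact hx.1
  have hFc : #F ≤ μ := by
    apply iUnion_small hμ0 hιc.le le_rfl
    intro ξ
    refine iUnion_small (F := fun Q : {Q : Set (Set (Iio ξ)) // #Q ≤ succ κ} => FQ ξ Q.1)
      hμ0 ?_ le_rfl (fun Q => hFQ ξ Q.1)
    refine (mk_bounded_set_le (Set (Iio ξ)) (succ κ)).trans ?_
    rw [mk_set]
    set ν := max #(Iio ξ) (succ κ)
    have hν : ν < μ := max_lt (mk_Iio_lt' ξ) hsκμ
    have h1 : max (2 ^ #(Iio ξ)) ℵ₀ ≤ 2 ^ ν := by
      apply max_le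
      · exact power_le_power_left two_ne_zero (le_max_left _ _)
      · exact (hsκ0.trans (le_max_right _ _)).trans (cantor ν).le
    calc (max (2 ^ #(Iio ξ)) ℵ₀) ^ succ κ ≤ (2 ^ ν) ^ succ κ := power_le_power_right h1
      _ = 2 ^ (ν * succ κ) := by rw [power_mul]
      _ = 2 ^ ν := by
        rw [mul_eq_left (hsκ0.trans (le_max_right _ _)) (le_max_right _ _)]
        exact succ_ne_zero κ
      _ ≤ μ := hpow ν hν
  refine transfer hκ H e₀ hFZ (hFc.trans_lt hμZ) le_rfl (hμ.trans_lt hμZ) ?_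
  intro K hK hKc e' he'
  have hKZ : K ⊆ Z := hK.trans sdiff_subset
  obtain ⟨w, hw⟩ := hcov K hKZ hKc
  -- bad points at level `ξ`
  have hQ : ∀ ξ, #({x ∈ P w \ F | a ξ x ≠ d ξ (e w x)} : Set X) ≤ κ := by
    intro ξ
    by_contra hcon
    push Not at hcon
    obtain ⟨Q', hQ', hQ'c, hdis⟩ := sep hκ hcon (a ξ) (fun x => d ξ (e w x)) (fun x hx => hx.2)
    obtain ⟨T, hT, hTc⟩ := le_mk_iff_exists_subset.1 (succ_le_of_lt hQ'c)
    set Q : Set (Set (Iio ξ)) := (fun x => d ξ (e w x)) '' T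
    have hQc : #Q ≤ succ κ := mk_image_le.trans hTc.le
    have hsub : T ⊆ {x ∈ P w | ¬ (x ∈ φ.g (BQ ξ Q) ↔ e w x ∈ BQ ξ Q)} := by
      intro x hx
      have hxD := hQ' (hT hx)
      refine ⟨hxD.1.1, ?_⟩
      intro hiff
      have h1 : e w x ∈ BQ ξ Q := ⟨x, hx, rfl⟩
      have h2 := hiff.2 h1
      have h3 : x ∉ FQ ξ Q := by
        intro h
        apply hxD.1.2
        simp only [F, mem_iUnion]
        exact ⟨ξ, ⟨Q, hQc⟩, h⟩
      have h4 : x ∈ φ.g (BQ ξ Q) ↔ a ξ x ∈ Q := by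
        by_contra h
        exact h3 ⟨(hP w).1 hxD.1.1, h⟩
      obtain ⟨z, hz, hzx⟩ := h4.1 h2
      exact Set.disjoint_left.1 hdis ⟨x, hT hx, rfl⟩ ⟨z, hT hz, hzx⟩
    have := (mk_mono hsub).trans ((hP w).2.2.err hκ _)
    rw [hTc] at this
    exact absurd this (not_le.2 hκ1)
  have hU : #({x ∈ P w \ F | e₀ x ≠ e w x} : Set X) ≤ succ κ := by
    set U : Set X := {x ∈ P w \ F | e₀ x ≠ e w x}
    have hr : ∀ x ∈ U, ∃ i : ι, ¬ (x ∈ φ.g (B i) ↔ e w x ∈ B i) := by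
      intro x hx
      by_contra hno
      push Not at hno
      exact hx.2 (hB w x hx.1.1 hno)
    have : Nonempty ι := by
      rw [← mk_ne_zero_iff, hιc]
      intro h0
      rw [h0] at hμ0
      exact aleph0_ne_zero (le_antisymm hμ0 zero_le)
    choose! r hr using hr
    by_contra hcon
    push Not at hcon
    obtain ⟨T, hT, hTc⟩ := le_mk_iff_exists_subset.1 hcon.le
    have hnomax : NoMaxOrder ι := Cardinal.noMaxOrder hμ0
    have hcofT : IsCofinal (r '' T) := by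
      by_contra hno
      obtain ⟨ξ, hξ⟩ := not_isCofinal_iff.1 hno
      have h1 : T ⊆ {x ∈ P w \ F | a ξ x ≠ d ξ (e w x)} := by
        intro x hx
        refine ⟨(hT hx).1, fun h => ?_⟩
        have h2 : r x < ξ := hξ _ ⟨x, hx, rfl⟩
        apply hr x (hT hx)
        have h3 : (⟨r x, h2⟩ : Iio ξ) ∈ a ξ x ↔ (⟨r x, h2⟩ : Iio ξ) ∈ d ξ (e w x) := by rw [h]
        exact h3
      have h4 := (mk_mono h1).trans (hQ ξ)
      rw [hTc] at h4
      exact absurd h4 (not_le.2 hκ1)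
    have hnext : ∀ i : ι, ∃ ξ, i < ξ := fun i => exists_gt i
    choose nx hnx using hnext
    have h5 : U ⊆ ⋃ t ∈ T, {x ∈ P w \ F | a (nx (r t)) x ≠ d (nx (r t)) (e w x)} := by
      intro x hx
      obtain ⟨_, ⟨t, ht, rfl⟩, hle⟩ := hcofT (r x)
      simp only [mem_iUnion]
      refine ⟨t, ht, hx.1, fun h => ?_⟩
      have h2 : r x < nx (r t) := hle.trans_lt (hnx _)
      apply hr x hx
      have h3 : (⟨r x, h2⟩ : Iio (nx (r t))) ∈ a (nx (r t)) x ↔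
        (⟨r x, h2⟩ : Iio (nx (r t))) ∈ d (nx (r t)) (e w x) := by rw [h]
      exact h3
    have h6 := (mk_mono h5).trans (biUnion_small hsκ0 hTc.le hκ1.le fun t _ => hQ _)
    exact absurd h6 (not_le.2 hcon)
  refine (mk_mono (B := {x ∈ K | e' x ≠ e w x} ∪ {x ∈ P w \ F | e₀ x ≠ e w x}) ?_).trans ?_
  · rintro x ⟨hx, hne⟩
    by_cases h : e' x = e w x
    · exact Or.inr ⟨⟨hw hx, (hK hx).2⟩, fun h' => hne (h.trans h'.symm)⟩
    · exact Or.inl ⟨hx, h⟩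
  · exact union_le hsκ0 ((he'.unique hκ ((hP w).2.2.mono hw)).trans hκ1.le) hU

/-- A set on which `φ` is not trivial, though it is trivial on all smaller subsets, has size
`κ⁺⁺ = (2^κ)⁺` or strongly inaccessible size. -/
theorem main_aux (hκ : ℵ₀ ≤ κ) (φ : ModIso κ X Y) (Z : Set X) (hZ : succ κ < #Z)
    (H : ∀ K ⊆ Z, #K < #Z → ∃ e, Triv φ K e) (hno : ¬ ∃ e, Triv φ Z e) :
    (#Z = succ (succ κ) ∧ (2 : Cardinal.{u}) ^ κ = succ κ) ∨ (#Z).IsInaccessible := by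
  have hZinf : ℵ₀ ≤ #Z := hκ.trans ((le_succ κ).trans hZ.le)
  have hreg : (#Z).ord.cof = #Z := by
    by_contra hne
    exact hno (case_singular hκ H hZ (lt_of_le_of_ne (Ordinal.cof_ord_le _) hne))
  have hk : (2 : Cardinal.{u}) ^ κ < #Z := by
    by_contra hcon
    exact hno (case_known hκ H hreg hZ (not_lt.1 hcon))
  have hp : ∀ ν : Cardinal.{u}, succ κ ≤ ν → succ ν < #Z → (2 : Cardinal.{u}) ^ ν < #Z := by
    intro ν h1 h2
    by_contra hcon
    exact hno (case_power hκ H hreg h1 h2 (not_lt.1 hcon))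
  have hss : succ (succ κ) ≤ #Z := succ_le_of_lt hZ
  rcases hss.eq_or_lt with heq | hlt
  · left
    refine ⟨heq.symm, ?_⟩
    rw [← heq] at hk
    exact le_antisymm (lt_succ_iff.1 hk) (succ_le_of_lt (cantor κ))
  · right
    by_contra hin
    have hnsl : ∃ x < #Z, #Z ≤ (2 : Cardinal.{u}) ^ x := by
      by_contra hcon
      push Not at hcon
      exact hin ⟨hκ.trans_lt ((lt_succ κ).trans hZ), hreg.ge, fun x hx => hcon x hx⟩
    obtain ⟨x, hx, hx2⟩ := hnsl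
    set μ := max x (succ κ) with hμdef
    have hμZ : μ < #Z := max_lt hx hZ
    have hμ2 : #Z ≤ (2 : Cardinal.{u}) ^ μ :=
      hx2.trans (power_le_power_left two_ne_zero (le_max_left _ _))
    have hμs : #Z = succ μ := by
      refine le_antisymm ?_ (succ_le_of_lt hμZ)
      by_contra hcon
      push Not at hcon
      exact absurd (hp μ (le_max_right _ _) hcon) (not_lt.2 hμ2)
    have hμ3 : succ (succ κ) ≤ μ := by
      rw [hμs] at hlt
      exact lt_succ_iff.1 hlt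
    refine hno (case_succ hκ H hμs hμ3 ?_)
    intro ν hν
    set ν' := max ν (succ κ)
    have hν' : ν' < μ := max_lt hν ((lt_succ _).trans_le hμ3)
    have h4 : (2 : Cardinal.{u}) ^ ν' < #Z :=
      hp ν' (le_max_right _ _) ((succ_le_of_lt hν').trans_lt hμZ)
    rw [hμs] at h4
    exact (power_le_power_left two_ne_zero (le_max_left _ _)).trans (lt_succ_iff.1 h4)

end Pool.Agent.MP9708fd
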