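import Pool.Agent.Lib.MP_9708fd_lc.Core

open Cardinal Set Order

universe u

namespace Pool.Agent.MP9708fd

/-- Equality of subsets of `X` modulo the ideal `[X]^{≤κ}` of sets of cardinality at most `κ`. -/
def modSetoid (κ : Cardinal.{u}) [hκ : Fact (ℵ₀ ≤ κ)] (X : Type u) : Setoid (Set X) where
  r A B := #(symmDiff A B : Set X) ≤ κ
  iseqv := by
    refine ⟨fun A => by simp, fun {A B} h => by rwa [symmDiff_comm], fun {A B C} h h' => ?_⟩
    exact (mk_mono (symmDiff_triangle A B C)).trans (union_le hκ.out h h')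

/-- The quotient `P(X)/[X]^{≤κ}`. -/
def PMod (κ : Cardinal.{u}) [Fact (ℵ₀ ≤ κ)] (X : Type u) : Type u := Quotient (modSetoid κ X)

/-- The class `[A]` of a subset `A` of `X`. -/
def cls (κ : Cardinal.{u}) [Fact (ℵ₀ ≤ κ)] {X : Type u} (A : Set X) : PMod κ X :=
  Quotient.mk (modSetoid κ X) A

variable {κ : Cardinal.{u}} [hκ : Fact (ℵ₀ ≤ κ)] {X : Type u}

theorem symmDiff_small_iff {A B : Set X} :
    #(symmDiff A B : Set X) ≤ κ ↔ SubMod κ A B ∧ SubMod κ B A := by
  constructor
  · intro h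
    exact ⟨(mk_mono (fun x hx => Or.inl hx)).trans h, (mk_mono (fun x hx => Or.inr hx)).trans h⟩
  · rintro ⟨h, h'⟩
    exact union_le hκ.out h h'

theorem cls_eq {A B : Set X} : cls κ A = cls κ B ↔ SubMod κ A B ∧ SubMod κ B A := by
  rw [← symmDiff_small_iff]
  exact Quotient.eq (r := modSetoid κ X)

/-- `[A] ≤ [B]` iff `|A \ B| ≤ κ`. -/
instance : LE (PMod κ X) where
  le := Quotient.lift₂ (fun A B : Set X => #(A \ B : Set X) ≤ κ) (by
    intro A B A' B' hA hB
    have hA' := symmDiff_small_iff.1 hA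
    have hB' := symmDiff_small_iff.1 hB
    apply propext
    constructor
    · intro h
      exact (hA'.2.trans hκ.out h).trans hκ.out hB'.1
    · intro h
      exact (hA'.1.trans hκ.out h).trans hκ.out hB'.2)

theorem cls_le {A B : Set X} : cls κ A ≤ cls κ B ↔ SubMod κ A B := Iff.rfl

theorem cls_surj (p : PMod κ X) : ∃ A, cls κ A = p := Quotient.exists_rep p

instance : PartialOrder (PMod κ X) where
  le_refl p := by
    obtain ⟨A, rfl⟩ := cls_surj p
    exact cls_le.2 (SubMod.refl A)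
  le_trans p q r hpq hqr := by
    obtain ⟨A, rfl⟩ := cls_surj p
    obtain ⟨B, rfl⟩ := cls_surj q
    obtain ⟨C, rfl⟩ := cls_surj r
    exact cls_le.2 ((cls_le.1 hpq).trans hκ.out (cls_le.1 hqr))
  le_antisymm p q hpq hqp := by
    obtain ⟨A, rfl⟩ := cls_surj p
    obtain ⟨B, rfl⟩ := cls_surj q
    exact cls_eq.2 ⟨cls_le.1 hpq, cls_le.1 hqp⟩

/-- The quotient is a Boolean algebra, with the operations induced from `P(X)`. -/
instance : BooleanAlgebra (PMod κ X) where
  sup := Quotient.map₂ (fun A B : Set X => A ∪ B) (by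
    intro A A' hA B B' hB
    have hA' := symmDiff_small_iff.1 hA
    have hB' := symmDiff_small_iff.1 hB
    exact symmDiff_small_iff.2
      ⟨SubMod.union hκ.out (hA'.1.trans hκ.out (.of_subset subset_union_left))
        (hB'.1.trans hκ.out (.of_subset subset_union_right)),
       SubMod.union hκ.out (hA'.2.trans hκ.out (.of_subset subset_union_left))
        (hB'.2.trans hκ.out (.of_subset subset_union_right))⟩)
  inf := Quotient.map₂ (fun A B : Set X => A ∩ B) (by
    intro A A' hA B B' hB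
    have hA' := symmDiff_small_iff.1 hA
    have hB' := symmDiff_small_iff.1 hB
    exact symmDiff_small_iff.2
      ⟨SubMod.inter hκ.out ((SubMod.of_subset inter_subset_left).trans hκ.out hA'.1)
        ((SubMod.of_subset inter_subset_right).trans hκ.out hB'.1),
       SubMod.inter hκ.out ((SubMod.of_subset inter_subset_left).trans hκ.out hA'.2)
        ((SubMod.of_subset inter_subset_right).trans hκ.out hB'.2)⟩)
  compl := Quotient.map (fun A : Set X => Aᶜ) (by
    intro A A' hA
    have hA' := symmDiff_small_iff.1 hA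
    refine symmDiff_small_iff.2 ⟨?_, ?_⟩
    · refine (mk_mono ?_).trans hA'.2
      rintro x ⟨h1, h2⟩
      exact ⟨not_not.1 h2, h1⟩
    · refine (mk_mono ?_).trans hA'.1
      rintro x ⟨h1, h2⟩
      exact ⟨not_not.1 h2, h1⟩)
  top := cls κ univ
  bot := cls κ ∅
  le_sup_left p q := by
    obtain ⟨A, rfl⟩ := cls_surj p
    obtain ⟨B, rfl⟩ := cls_surj q
    exact SubMod.of_subset subset_union_left
  le_sup_right p q := by
    obtain ⟨A, rfl⟩ := cls_surj p
    obtain ⟨B, rfl⟩ := cls_surj q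
    exact SubMod.of_subset subset_union_right
  sup_le p q r hp hq := by
    obtain ⟨A, rfl⟩ := cls_surj p
    obtain ⟨B, rfl⟩ := cls_surj q
    obtain ⟨C, rfl⟩ := cls_surj r
    exact SubMod.union hκ.out hp hq
  inf_le_left p q := by
    obtain ⟨A, rfl⟩ := cls_surj p
    obtain ⟨B, rfl⟩ := cls_surj q
    exact SubMod.of_subset inter_subset_left
  inf_le_right p q := by
    obtain ⟨A, rfl⟩ := cls_surj p
    obtain ⟨B, rfl⟩ := cls_surj q
    exact SubMod.of_subset inter_subset_right
  le_inf p q r hp hq := by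
    obtain ⟨A, rfl⟩ := cls_surj p
    obtain ⟨B, rfl⟩ := cls_surj q
    obtain ⟨C, rfl⟩ := cls_surj r
    exact SubMod.inter hκ.out hp hq
  le_sup_inf p q r := by
    obtain ⟨A, rfl⟩ := cls_surj p
    obtain ⟨B, rfl⟩ := cls_surj q
    obtain ⟨C, rfl⟩ := cls_surj r
    refine SubMod.of_subset ?_
    rintro x ⟨h1, h2⟩
    rcases h1 with h1 | h1
    · exact Or.inl h1
    · rcases h2 with h2 | h2
      · exact Or.inl h2
      · exact Or.inr ⟨h1, h2⟩
  inf_compl_le_bot p := by
    obtain ⟨A, rfl⟩ := cls_surj p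
    refine SubMod.of_subset ?_
    rintro x ⟨h1, h2⟩
    exact absurd h1 h2
  top_le_sup_compl p := by
    obtain ⟨A, rfl⟩ := cls_surj p
    refine SubMod.of_subset ?_
    intro x _
    exact em (x ∈ A)
  le_top p := by
    obtain ⟨A, rfl⟩ := cls_surj p
    exact SubMod.of_subset (subset_univ A)
  bot_le p := by
    obtain ⟨A, rfl⟩ := cls_surj p
    exact SubMod.of_subset (empty_subset A)

/-- `π` is trivial on `Z`: there is a function `e` with `π([A]) = [e[A]]` for every `A ⊆ Z`. -/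
def TrivialOn (π : PMod κ X ≃o PMod κ X) (Z : Set X) : Prop :=
  ∃ e : X → X, ∀ A : Set X, A ⊆ Z → π (cls κ A) = cls κ (e '' A)

/-- `π` is trivial: there is a function `e` with `π([A]) = [e[A]]` for every `A ⊆ X`. -/
def IsTrivial (π : PMod κ X ≃o PMod κ X) : Prop :=
  ∃ e : X → X, ∀ A : Set X, π (cls κ A) = cls κ (e '' A)

/-- Lift of an automorphism to maps on sets. -/
noncomputable def liftIso (π : PMod κ X ≃o PMod κ X) : ModIso κ X X where
  f A := (cls_surj (π (cls κ A))).choose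
  g A := (cls_surj (π.symm (cls κ A))).choose
  f_mono {A B} h := by
    rw [← cls_le, (cls_surj (π (cls κ A))).choose_spec, (cls_surj (π (cls κ B))).choose_spec]
    exact π.monotone (cls_le.2 h)
  g_mono {A B} h := by
    rw [← cls_le, (cls_surj (π.symm (cls κ A))).choose_spec,
      (cls_surj (π.symm (cls κ B))).choose_spec]
    exact π.symm.monotone (cls_le.2 h)
  gf_le A := by
    rw [← cls_le, (cls_surj (π.symm (cls κ _))).choose_spec,
      (cls_surj (π (cls κ A))).choose_spec, OrderIso.symm_apply_apply]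
  le_gf A := by
    rw [← cls_le, (cls_surj (π.symm (cls κ _))).choose_spec,
      (cls_surj (π (cls κ A))).choose_spec, OrderIso.symm_apply_apply]
  fg_le A := by
    rw [← cls_le, (cls_surj (π (cls κ _))).choose_spec,
      (cls_surj (π.symm (cls κ A))).choose_spec, OrderIso.apply_symm_apply]
  le_fg A := by
    rw [← cls_le, (cls_surj (π (cls κ _))).choose_spec,
      (cls_surj (π.symm (cls κ A))).choose_spec, OrderIso.apply_symm_apply]

theorem cls_liftIso (π : PMod κ X ≃o PMod κ X) (A : Set X) :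
    cls κ ((liftIso π).f A) = π (cls κ A) := (cls_surj (π (cls κ A))).choose_spec

theorem triv_iff (π : PMod κ X ≃o PMod κ X) (Z : Set X) (e : X → X) :
    Triv (liftIso π) Z e ↔ ∀ A : Set X, A ⊆ Z → π (cls κ A) = cls κ (e '' A) := by
  constructor
  · intro h A hA
    rw [← cls_liftIso]
    exact cls_eq.2 (h A hA)
  · intro h A hA
    rw [← cls_eq, cls_liftIso]
    exact h A hA

theorem exists_superset {Z : Set X} {c : Cardinal.{u}} (hc : ℵ₀ ≤ c) (hX : c ≤ #X) (hZ : #Z ≤ c) :
    ∃ Z', Z ⊆ Z' ∧ #Z' = c := by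
  have h1 : c ≤ #(univ : Set X) := by simpa using hX
  obtain ⟨T, -, hT⟩ := le_mk_iff_exists_subset.1 h1
  refine ⟨Z ∪ T, subset_union_left, le_antisymm (union_le hc hZ hT.le) ?_⟩
  rw [← hT]
  exact mk_mono subset_union_right

/-- ZFC structure theorem. -/
theorem structure_theorem (hX : κ < #X) (π : PMod κ X ≃o PMod κ X)
    (htriv : ∀ Z : Set X, #Z = succ κ → TrivialOn π Z) (hnon : ¬ IsTrivial π) :
    ∃ Z : Set X, ¬ TrivialOn π Z ∧ (∀ Z' : Set X, #Z' < #Z → TrivialOn π Z') ∧
      ((#Z = succ (succ κ) ∧ (2 : Cardinal.{u}) ^ κ = succ κ) ∨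
        (κ < #Z ∧ (#Z).IsInaccessible)) := by
  have hκ' := hκ.out
  have hsκ : ℵ₀ ≤ succ κ := hκ'.trans (le_succ κ)
  have hiff : ∀ Z : Set X, TrivialOn π Z ↔ ∃ e, Triv (liftIso π) Z e := by
    intro Z
    constructor
    · rintro ⟨e, he⟩
      exact ⟨e, (triv_iff π Z e).2 he⟩
    · rintro ⟨e, he⟩
      exact ⟨e, (triv_iff π Z e).1 he⟩
  have h1 : ∀ K : Set X, #K ≤ succ κ → TrivialOn π K := by
    intro K hK
    obtain ⟨Z', hZ', hc⟩ := exists_superset hsκ (succ_le_of_lt hX) hK
    obtain ⟨e, he⟩ := htriv Z' hc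
    exact ⟨e, fun A hA => he A (hA.trans hZ')⟩
  have huniv : ¬ TrivialOn π (univ : Set X) := by
    rintro ⟨e, he⟩
    exact hnon ⟨e, fun A => he A (subset_univ A)⟩
  -- a set of minimal size on which `π` is not trivial
  obtain ⟨Z, hZ, hmin⟩ : ∃ Z : Set X, ¬ TrivialOn π Z ∧
      ∀ Z' : Set X, #Z' < #Z → TrivialOn π Z' := by
    have hwf : WellFounded (fun A B : Set X => #A < #B) :=
      InvImage.wf (fun A : Set X => #A) wellFounded_lt
    obtain ⟨Z, hZ, hmin⟩ := hwf.has_min {Z : Set X | ¬ TrivialOn π Z} ⟨univ, huniv⟩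
    refine ⟨Z, hZ, fun Z' hZ' => ?_⟩
    by_contra hcon
    exact hmin Z' hcon hZ'
  have hZc : succ κ < #Z := by
    by_contra hcon
    exact hZ (h1 Z (not_lt.1 hcon))
  refine ⟨Z, hZ, hmin, ?_⟩
  rcases main_aux hκ' (liftIso π) Z hZc (fun K _ hKc => (hiff K).1 (hmin K hKc))
    (fun h => hZ ((hiff Z).2 h)) with h | h
  · exact Or.inl h
  · exact Or.inr ⟨(lt_succ κ).trans hZc, h⟩

end Pool.Agent.MP9708fd
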