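import Pool.Agent.Lib.MP_9708fd_lc.ESem

open Cardinal Set

namespace MP9708F

universe u

section wo

variable {L : Type u} [LinearOrder L] [InaccOrder L]

omit [InaccOrder L] in
theorem card_min {c : Cardinal.{u}} (hc : ℵ₀ ≤ c) {x : L} (h : ∀ y < x, #(Iio y) < c) :
    #(Iio x) ≤ c := by
  by_contra hcon
  push Not at hcon
  obtain ⟨A, hA, hAc⟩ := le_mk_iff_exists_subset.1 hcon.le
  have hcof : ∀ y < x, ∃ a ∈ A, y ≤ a := by
    intro y hy
    by_contra hc'
    push Not at hc'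
    have h1 : A ⊆ Iio y := fun a ha => hc' a ha
    exact absurd (hAc.ge.trans (mk_le_mk_of_subset h1)) (h y hy).not_ge
  have h2 : Iio x ⊆ ⋃ a : A, Iic a.1 := by
    intro y hy
    obtain ⟨a, ha, hya⟩ := hcof y hy
    exact mem_iUnion.2 ⟨⟨a, ha⟩, hya⟩
  have h3 : ∀ a : A, #(Iic a.1) ≤ c := by
    intro a
    have h4 : Iic a.1 = insert a.1 (Iio a.1) := by
      ext y
      simp [le_iff_eq_or_lt]
    rw [h4]
    refine (mk_insert_le).trans ?_
    exact add_le_of_le hc (h a.1 (hA a.2)).le (one_le_aleph0.trans hc)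
  have h5 := (mk_le_mk_of_subset h2).trans (mk_iUnion_le_sum_mk.trans (sum_le_sum _ _ h3))
  rw [sum_const', hAc, mul_eq_self hc] at h5
  exact absurd h5 hcon.not_ge

theorem exists_card_ge {c : Cardinal.{u}} (h : c < #L) : {x : L | c ≤ #(Iio x)}.Nonempty := by
  obtain ⟨g⟩ : Nonempty L := inferInstance
  obtain ⟨d, -, hd⟩ := exists_large h g
  exact ⟨d, hd.le.trans (mk_le_mk_of_subset fun x hx => hx.2)⟩

/-- The element `ω` of `L`. -/
noncomputable def o0 (L : Type u) [LinearOrder L] [InaccOrder L] : L :=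
  WellFounded.min (wellFounded_lt (α := L)) {x | ℵ₀ ≤ #(Iio x)} (exists_card_ge aleph0_lt)

/-- The element `ω₁` of `L`. -/
noncomputable def o1 (L : Type u) [LinearOrder L] [InaccOrder L] : L :=
  WellFounded.min (wellFounded_lt (α := L)) {x | ℵ₁ ≤ #(Iio x)} (exists_card_ge aleph_one_lt)

theorem lt_o0 {x : L} (h : x < o0 L) : #(Iio x) < ℵ₀ := by
  by_contra hc
  push Not at hc
  exact WellFounded.not_lt_min (wellFounded_lt (α := L)) {x | ℵ₀ ≤ #(Iio x)} hc h

theorem lt_o1 {x : L} (h : x < o1 L) : #(Iio x) < ℵ₁ := by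
  by_contra hc
  push Not at hc
  exact WellFounded.not_lt_min (wellFounded_lt (α := L)) {x | ℵ₁ ≤ #(Iio x)} hc h

theorem card_o0 : #(Iio (o0 L)) = ℵ₀ := by
  refine le_antisymm (card_min le_rfl fun y hy => lt_o0 hy) ?_
  exact WellFounded.min_mem (wellFounded_lt (α := L)) {x | ℵ₀ ≤ #(Iio x)} _

theorem card_o1 : #(Iio (o1 L)) = ℵ₁ := by
  refine le_antisymm (card_min (aleph0_le_aleph 1) fun y hy => lt_o1 hy) ?_
  exact WellFounded.min_mem (wellFounded_lt (α := L)) {x | ℵ₁ ≤ #(Iio x)} _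

end wo

section trans

variable {P : Type u} [Preorder P] {L : Type u} [LinearOrder L] [WellFoundedLT L]

theorem fmem_trans_chk {a : Set L} (ha : ∀ x ∈ a, ∀ y < x, y ∈ a) {z w : Nam P} {p : P}
    (h1 : fmem z (chk P a) p) (h2 : fmem w z p) : fmem w (chk P a) p := by
  rw [fmem_chk] at h1 ⊢
  intro q hq
  obtain ⟨r, hr, x, hx, hx'⟩ := h1 q hq
  have h3 : fmem w (chk P (Iio x)) r := by
    rw [← on_eq]
    exact fmem_congr_right hx' (fmem_mono (hr.trans hq) h2)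
  rw [fmem_chk] at h3
  obtain ⟨s, hs, y, hy, hy'⟩ := h3 r le_rfl
  exact ⟨s, hs.trans hr, y, ha x hx y hy, hy'⟩

variable [Nonempty P]

theorem isOrd_chk {a : Set L} (ha : ∀ x ∈ a, ∀ y < x, y ∈ a) :
    IsOrd ME (cls (chk P a)) := by
  constructor
  · intro z hz w hw
    obtain ⟨z, rfl⟩ := cls_surj z
    obtain ⟨w, rfl⟩ := cls_surj w
    rw [ME_cls] at hz hw ⊢
    filter_upwards [hz, hw] with p h1 h2 using fmem_trans_chk ha h1 h2
  · intro y hy z hz w hw
    obtain ⟨y, rfl⟩ := cls_surj y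
    obtain ⟨z, rfl⟩ := cls_surj z
    obtain ⟨w, rfl⟩ := cls_surj w
    rw [ME_chk] at hy
    rw [ME_cls] at hz hw ⊢
    filter_upwards [hy, hz, hw] with p ⟨x, hx, hx'⟩ h1 h2
    have hx2 : feq y (chk P (Iio x)) p := by
      rw [← on_eq]
      exact hx'
    refine fmem_congr_right (feq_symm hx2) (fmem_trans_chk (z := z) ?_ ?_ h2)
    · intro u hu v hv
      exact lt_trans hv hu
    · exact fmem_congr_right hx2 h1

end trans

section card

variable {P : Type u} [Preorder P] {L : Type u} [LinearOrder L] [InaccOrder L]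

/-- A set forced to inject into a small ordinal is decided densely often. -/
theorem inj_decided (hd : Dst P #L) {f : L → LowerSet P} (hf : RegF f) {γ : L} {e : Nam P} {p : P}
    (h : FInj e (nn f) (on P γ) p) : ∃ q ≤ p, ∃ d : Set L, #d ≤ #(Iio γ) ∧ Dc f d q := by
  have hne : Nonempty P := ⟨p⟩
  let S : L → L → P → Prop := fun β x q => q ∈ f x ∧ fmem (opN (on P x) (on P β)) e q
  have hSm : ∀ β x q, S β x q → ∀ r ≤ q, S β x r := fun β x q hq r hr =>
    ⟨(f x).lower hr hq.1, fmem_mono hr hq.2⟩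
  have hinj : ∀ β x x' q, q ≤ p → S β x q → S β x' q → x = x' := by
    intro β x x' q hq h1 h2
    exact on_inj.1 (h.inj _ _ _ q hq h1.2 h2.2)
  obtain ⟨q, hq, hqD⟩ := hd (Iio γ) (card_Iio_lt γ)
    (fun β => {q | (∃ x, S β.1 x q) ∨ ∀ x, ∀ r ≤ q, ¬ S β.1 x r})
    (by
      rintro β q (⟨x, hx⟩ | hq) r hr
      · exact Or.inl ⟨x, hSm _ _ _ hx r hr⟩
      · exact Or.inr fun x s hs => hq x s (hs.trans hr))
    (by
      intro β q
      by_cases hq : ∃ x, ∃ r ≤ q, S β.1 x r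
      · obtain ⟨x, r, hr, hx⟩ := hq
        exact ⟨r, hr, Or.inl ⟨x, hx⟩⟩
      · push Not at hq
        exact ⟨q, le_rfl, Or.inr hq⟩) p
  refine ⟨q, hq, {x | ∃ β : Iio γ, S β.1 x q}, ?_, ?_, ?_⟩
  · have h1 : ∀ x : {x | ∃ β : Iio γ, S β.1 x q}, ∃ β : Iio γ, S β.1 x.1 q := fun x => x.2
    choose b hb using h1
    refine mk_le_of_injective (f := b) fun x y hxy => Subtype.ext ?_
    exact hinj (b x).1 x.1 y.1 q hq (hb x) (by rw [hxy]; exact hb y)
  · rintro x ⟨β, hβ⟩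
    exact hβ.1
  · intro x hx r hr hrx
    have h1 : fmem (on P x) (nn f) r := (fmem_on_nn hf).2 hrx
    obtain ⟨s, hs, b, hb⟩ := h.total _ r (hr.trans hq) h1 r le_rfl
    obtain ⟨t, ht, a, b', -, hb', hab⟩ := h.pairs _ s (hs.trans (hr.trans hq)) hb s le_rfl
    obtain ⟨-, hbb⟩ := opN_inj.1 hab
    have h2 : fmem b (chk P (Iio γ)) t := by
      rw [← on_eq]
      exact fmem_congr_left (feq_symm hbb) hb'
    obtain ⟨u, hu, β, hβ, hβ'⟩ := fmem_chk.1 h2 t le_rfl
    have hur : u ≤ r := hu.trans (ht.trans hs)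
    have h3 : S β x u := by
      refine ⟨(f x).lower hur hrx, ?_⟩
      exact fmem_congr_left (opN_congr (feq_refl _ u) hβ') (fmem_mono (hu.trans ht) hb)
    rcases hqD ⟨β, hβ⟩ with ⟨x', hx'⟩ | hn
    · have h4 := hinj β x x' u (hur.trans (hr.trans hq)) h3 (hSm _ _ _ hx' u (hur.trans hr))
      subst h4
      exact hx ⟨⟨β, hβ⟩, hx'⟩
    · exact hn x u (hur.trans hr) h3

variable [Nonempty P]

theorem cardLe_nn (hd : Dst P #L) {f : L → LowerSet P} (hf : RegF f) {γ : L} :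
    CardLe ME (cls (nn f)) (cls (on P γ)) ↔ ∀ᶠ p in (genU P : Filter P), ∀ q ≤ p, ∃ r ≤ q,
      ∃ d : Set L, #d ≤ #(Iio γ) ∧ Dc f d r := by
  rw [cardLe_cls]
  refine Filter.eventually_congr (Filter.Eventually.of_forall fun p => ?_)
  constructor
  · intro h q hq
    obtain ⟨r, hr, e, he⟩ := h q hq
    obtain ⟨s, hs, d, hd1, hd2⟩ := inj_decided hd hf he
    exact ⟨s, hs.trans hr, d, hd1, hd2⟩
  · intro h q hq
    obtain ⟨r, hr, d, hd1, hd2⟩ := h q hq
    obtain ⟨i⟩ : Nonempty (d ↪ Iio γ) := hd1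
    obtain ⟨g, hg⟩ : ∃ g : L → L, ∀ x : d, g x.1 = (i x).1 := by
      classical
      refine ⟨fun x => if hx : x ∈ d then (i ⟨x, hx⟩).1 else x, fun x => ?_⟩
      simp
    have h1 : ∀ x ∈ d, g x ∈ Iio γ := fun x hx => by
      rw [hg ⟨x, hx⟩]
      exact (i ⟨x, hx⟩).2
    have h2 : InjOn g d := by
      intro x hx y hy hxy
      rw [hg ⟨x, hx⟩, hg ⟨y, hy⟩] at hxy
      exact congrArg Subtype.val (i.injective (Subtype.ext hxy))
    refine ⟨r, hr, gr P d g, ?_⟩
    have h3 := FInj.congr (feq_refl (gr P d g) r) (feq_symm ((feq_nn_chk hf).2 hd2))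
      (feq_refl (chk P (Iio γ)) r) (gr_inj h1 h2 r)
    rw [← on_eq] at h3
    exact h3

theorem diffLe_nn (hd : Dst P #L) {f g : L → LowerSet P} (hf : RegF f) (hg : RegF g) {γ : L} :
    DiffLe ME (cls (on P γ)) (cls (nn f)) (cls (nn g)) ↔ ∀ᶠ p in (genU P : Filter P), ∀ q ≤ p,
      ∃ r ≤ q, ∃ d : Set L, #d ≤ #(Iio γ) ∧ Dc (dfF f g) d r := by
  rw [← cardLe_nn hd (dfF_reg hf g)]
  constructor
  · rintro ⟨D, hD, hle⟩
    rw [diff_nn hf hg] at hD
    rwa [← hD]
  · intro h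
    exact ⟨_, (diff_nn hf hg).2 rfl, h⟩

theorem isCard_chk (hd : Dst P #L) {a : Set L} (ha : ∀ x ∈ a, ∀ y < x, y ∈ a)
    (hc : ∀ β ∈ a, #(Iio β) < #a) : IsCard ME (cls (chk P a)) := by
  refine ⟨isOrd_chk ha, fun y hy hle => ?_⟩
  obtain ⟨y, rfl⟩ := cls_surj y
  rw [ME_chk] at hy
  rw [cardLe_cls] at hle
  have h1 : ∀ᶠ p in (genU P : Filter P), False := by
    filter_upwards [hy, hle] with p ⟨β, hβ, hβ'⟩ hp
    obtain ⟨r, hr, e, he⟩ := hp p le_rfl
    have h2 : FInj e (nn (chF P a)) (on P β) r :=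
      FInj.congr (feq_refl e r) (chk_eq_nn a r) (feq_mono hr hβ') he
    obtain ⟨q, -, d, hd1, hd2⟩ := inj_decided hd (chF_reg a) h2
    have h3 : a ⊆ d := by
      intro x hx
      by_contra hxd
      exact hd2.2 x hxd q le_rfl hx
    exact absurd ((mk_le_mk_of_subset h3).trans hd1) (hc β hβ).not_ge
  rw [Filter.eventually_false_iff_eq_bot] at h1
  exact (genU P).neBot.ne h1

theorem isCard_on (hd : Dst P #L) {γ : L} (hγ : ∀ β < γ, #(Iio β) < #(Iio γ)) :
    IsCard ME (cls (on P γ)) := by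
  rw [on_eq]
  exact isCard_chk hd (fun x hx y hy => lt_trans hy hx) hγ

theorem isCard_univ (hd : Dst P #L) : IsCard ME (cls (chk P (Set.univ : Set L))) := by
  refine isCard_chk hd (fun _ _ _ _ => mem_univ _) fun β _ => ?_
  rw [mk_univ]
  exact card_Iio_lt β

theorem isInfCard_chk (hd : Dst P #L) {a : Set L} (ha : ∀ x ∈ a, ∀ y < x, y ∈ a)
    (hc : ∀ β ∈ a, #(Iio β) < #a) (hne : a.Nonempty) (hm : ∀ x ∈ a, ∃ y ∈ a, x < y) :
    IsInfCard ME (cls (chk P a)) := by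
  refine ⟨isCard_chk hd ha hc, ?_, fun y hy => ?_⟩
  · obtain ⟨x, hx⟩ := hne
    refine ⟨cls (on P x), ?_⟩
    rw [ME_cls]
    exact Filter.Eventually.of_forall fun p => fmem_on_chk.2 hx
  · obtain ⟨y, rfl⟩ := cls_surj y
    rw [ME_chk] at hy
    have h1 : ∃ z : Nam P, ∀ᶠ p in (genU P : Filter P), fmem z (chk P a) p ∧ fmem y z p := by
      refine (sem_ex (S := fun z p => fmem z (chk P a) p ∧ fmem y z p)
        (fun z => (fmemReg _ _).and (fmemReg _ _)) ?_).2 ?_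
      · intro z z' p hz h
        exact ⟨fmem_congr_left hz h.1, fmem_congr_right hz h.2⟩
      · filter_upwards [hy] with p ⟨x, hx, hx'⟩ q hq
        obtain ⟨x', hx2, hlt⟩ := hm x hx
        refine ⟨q, le_rfl, on P x', fmem_on_chk.2 hx2, ?_⟩
        refine fmem_congr_left (feq_symm (feq_mono hq hx')) ?_
        rw [on_eq x']
        exact fmem_on_chk.2 hlt
    obtain ⟨z, hz⟩ := h1
    refine ⟨cls z, ?_, ?_⟩
    · rw [ME_cls]
      exact hz.mono fun p hp => hp.1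
    · rw [ME_cls]
      exact hz.mono fun p hp => hp.2

theorem isInfCard_o0 (hd : Dst P #L) : IsInfCard ME (cls (on P (o0 L))) := by
  rw [on_eq]
  refine isInfCard_chk hd (fun x hx y hy => lt_trans hy hx) (fun β hβ => ?_) ?_ fun x hx => ?_
  · rw [card_o0]
    exact lt_o0 hβ
  · rw [← nonempty_coe_sort, ← mk_ne_zero_iff, card_o0]
    exact aleph0_ne_zero
  · by_contra hc
    push Not at hc
    have h1 : Iio (o0 L) ⊆ insert x (Iio x) := by
      intro y hy
      exact (hc y hy).eq_or_lt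
    have h2 := (mk_le_mk_of_subset h1).trans mk_insert_le
    rw [card_o0] at h2
    exact absurd h2 (add_lt_aleph0 (lt_o0 hx) one_lt_aleph0).not_ge

theorem isInfCard_univ (hd : Dst P #L) : IsInfCard ME (cls (chk P (Set.univ : Set L))) := by
  refine isInfCard_chk hd (fun _ _ _ _ => mem_univ _) (fun β _ => ?_) univ_nonempty
    fun x _ => ?_
  · rw [mk_univ]
    exact card_Iio_lt β
  · obtain ⟨y, hy⟩ := exists_gt' x
    exact ⟨y, mem_univ y, hy⟩

theorem o0_mem : ME (cls (on P (o0 L))) (cls (chk P (Set.univ : Set L))) := by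
  rw [ME_cls]
  exact Filter.Eventually.of_forall fun p => fmem_on_chk.2 (mem_univ _)

theorem o0_lt_o1 : o0 L < o1 L := by
  by_contra h
  push Not at h
  have h1 : #(Iio (o1 L)) ≤ #(Iio (o0 L)) := mk_le_mk_of_subset (Iio_subset_Iio h)
  rw [card_o0, card_o1] at h1
  exact absurd h1 (aleph0_lt_aleph_one).not_ge

/-- A set of cardinality `ω⁺` in the model is decided to be small. -/
theorem hasCard_succ (hd : Dst P #L) {m : Mod P} (hm : IsSuccCard ME (cls (on P (o0 L))) m)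
    {f : L → LowerSet P} (hf : RegF f) (h : HasCard ME (cls (nn f)) m) :
    ∀ᶠ p in (genU P : Filter P), ∀ q ≤ p, ∃ r ≤ q, ∃ d : Set L, #d ≤ ℵ₁ ∧ Dc f d r := by
  obtain ⟨-, -, hmin⟩ := hm
  have hcard : IsCard ME (cls (on P (o1 L))) := by
    refine isCard_on hd fun β hβ => ?_
    rw [card_o1]
    exact lt_o1 hβ
  have hmem : ME (cls (on P (o0 L))) (cls (on P (o1 L))) := by
    rw [on_eq (o1 L), ME_cls]
    exact Filter.Eventually.of_forall fun p => fmem_on_chk.2 o0_lt_o1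
  rcases hmin _ hcard hmem with rfl | hmo
  · have h1 := (cardLe_nn hd hf).1 h.1
    rwa [card_o1] at h1
  · obtain ⟨y, rfl⟩ := cls_surj m
    rw [on_eq (o1 L), ME_chk] at hmo
    have h1 := cardLe_cls.1 h.1
    filter_upwards [hmo, h1] with p ⟨β, hβ, hβ'⟩ hp q hq
    obtain ⟨r, hr, e, he⟩ := hp q hq
    have h2 : FInj e (nn f) (on P β) r :=
      FInj.congr (feq_refl e r) (feq_refl _ r) (feq_mono (hr.trans hq) hβ') he
    obtain ⟨s, hs, d, hd1, hd2⟩ := inj_decided hd hf h2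
    exact ⟨s, hs.trans hr, d, hd1.trans (lt_o1 hβ).le, hd2⟩

end card

end MP9708F
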