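import Pool.Agent.Lib.MP_9708fd_lc.FStmt

/-!
# Q1 inside a model of set theory

`M` is a type with a binary relation `E` (read `E x y` as `x ∈ y`).  Everything below is first
order over `(M, E)`.
-/

namespace MP9708F

universe u

variable {M : Type u} (E : M → M → Prop)

/-- `p` is the Kuratowski pair `(a, b)`. -/
def IsPair (p a b : M) : Prop :=
  ∀ z, E z p ↔ (∀ w, E w z ↔ w = a) ∨ (∀ w, E w z ↔ w = a ∨ w = b)

/-- `(a, b) ∈ f`. -/
def HasPair (f a b : M) : Prop := ∃ p, E p f ∧ IsPair E p a b

/-- `f` is a function from `x` to `y`. -/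
structure IsFun (f x y : M) : Prop where
  pairs : ∀ p, E p f → ∃ a b, E a x ∧ E b y ∧ IsPair E p a b
  total : ∀ a, E a x → ∃ b, HasPair E f a b
  func : ∀ a b b', HasPair E f a b → HasPair E f a b' → b = b'

/-- `f` is an injective function from `x` to `y`. -/
structure IsInj (f x y : M) : Prop extends IsFun E f x y where
  inj : ∀ a a' b, HasPair E f a b → HasPair E f a' b → a = a'

/-- `|x| ≤ |y|`: there is an injection from `x` to `y`. -/
def CardLe (x y : M) : Prop := ∃ f, IsInj E f x y

/-- `x ⊆ y`. -/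
def Sub (x y : M) : Prop := ∀ z, E z x → E z y

/-- `x` is a transitive set. -/
def IsTrans' (x : M) : Prop := ∀ y, E y x → ∀ z, E z y → E z x

/-- `x` is an ordinal (in a model of Foundation: a transitive set of transitive sets). -/
def IsOrd (x : M) : Prop := IsTrans' E x ∧ ∀ y, E y x → IsTrans' E y

/-- `x` is a cardinal (an initial ordinal). -/
def IsCard (x : M) : Prop := IsOrd E x ∧ ∀ y, E y x → ¬ CardLe E x y

/-- `x` is an infinite cardinal (a cardinal which is a nonzero limit ordinal). -/
def IsInfCard (x : M) : Prop := IsCard E x ∧ (∃ y, E y x) ∧ ∀ y, E y x → ∃ z, E z x ∧ E y z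

/-- `y` is the least cardinal above `x`. -/
def IsSuccCard (x y : M) : Prop := IsCard E y ∧ E x y ∧ ∀ z, IsCard E z → E x z → y = z ∨ E y z

/-- `X` has cardinality `μ`. -/
def HasCard (X μ : M) : Prop := CardLe E X μ ∧ CardLe E μ X

/-- `|x \ y| ≤ k`. -/
def DiffLe (k x y : M) : Prop := ∃ d, (∀ z, E z d ↔ E z x ∧ ¬ E z y) ∧ CardLe E d k

/-- `x` and `y` are equal modulo the ideal of sets of cardinality at most `k`. -/
def EqMod (k x y : M) : Prop := DiffLe E k x y ∧ DiffLe E k y x

/-- `R` is the relation `{(A, B) : π([A]) = [B]}` of an automorphism `π` of the Boolean algebra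
`P(l)/𝓘`, where `𝓘` is the ideal of the subsets of `l` of cardinality at most `k`. -/
structure IsAut (k l R : M) : Prop where
  pairs : ∀ p, E p R → ∃ A B, Sub E A l ∧ Sub E B l ∧ IsPair E p A B
  closed : ∀ A B A' B', HasPair E R A B → Sub E A' l → Sub E B' l → EqMod E k A A' →
    EqMod E k B B' → HasPair E R A' B'
  total : ∀ A, Sub E A l → ∃ B, HasPair E R A B
  surj : ∀ B, Sub E B l → ∃ A, HasPair E R A B
  le_iff : ∀ A B A' B', HasPair E R A B → HasPair E R A' B' →
    (DiffLe E k A A' ↔ DiffLe E k B B')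

/-- The automorphism given by `R` is trivial on `X`: there is a function `e` from `X` to `l` with
`π([A]) = [e[A]]` for all `A ⊆ X`. -/
def TrivOn (k l R X : M) : Prop :=
  ∃ e, IsFun E e X l ∧ ∀ A B C, Sub E A X → HasPair E R A B →
    (∀ y, E y C ↔ ∃ x, E x A ∧ HasPair E e x y) → EqMod E k B C

/-- Q1 in `(M, E)`: there are infinite cardinals `k < l` and a nontrivial automorphism of
`P(l)/𝓘_{k⁺}` which is trivial on all subsets of `l` of cardinality `k⁺`. -/
def Q1 : Prop :=
  ∃ k l R, IsInfCard E k ∧ IsInfCard E l ∧ E k l ∧ IsAut E k l R ∧ ¬ TrivOn E k l R l ∧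
    ∀ X m, Sub E X l → IsSuccCard E k m → HasCard E X m → TrivOn E k l R X

end MP9708F
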