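import Pool.Agent.Lib.MP_9708fd_lc.FModel
import Pool.Agent.Lib.MP_9708fd_lc.FAxioms
import Pool.Agent.Lib.MP_9708fd_lc.EStmt
import Pool.Agent.Lib.MP_9708fd_lc.COrd

/-!
# Names for pairs, ordinals, subsets of `L`; definitions for the evaluation
-/

open Cardinal Set

namespace MP9708F

universe u

variable {P : Type u} [Preorder P] {L : Type u} [LinearOrder L] [WellFoundedLT L]

/-- The name of the Kuratowski pair. -/
def opN (x y : Nam P) : Nam P := Nam.pair (Nam.pair x x) (Nam.pair x y)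

/-- The canonical name of `x : L`, seen as the ordinal `{y | y < x}`. -/
noncomputable def on (P : Type u) [Preorder P] : L → Nam P :=
  WellFounded.fix (C := fun _ => Nam P) (wellFounded_lt (α := L)) fun x ih =>
    ⟨Iio x, fun _ => ⊤, fun y => ih y.1 y.2⟩

/-- The canonical name of `a : Set L`, seen as a set of ordinals. -/
noncomputable def chk (P : Type u) [Preorder P] (a : Set L) : Nam P :=
  ⟨a, fun _ => ⊤, fun y => on P y.1⟩

theorem on_eq (x : L) : on P x = chk P (Iio x) := by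
  unfold on chk
  rw [WellFounded.fix_eq]
  rfl

/-- The name of a subset of `L`. -/
noncomputable def nn (f : L → LowerSet P) : Nam P := ⟨L, f, on P⟩

/-- `f` consists of regular sets. -/
def RegF (f : L → LowerSet P) : Prop := ∀ x, Reg (fun p => p ∈ f x)

/-- `p` decides the set named by `f` to be `d`. -/
def Dc (f : L → LowerSet P) (d : Set L) (p : P) : Prop :=
  (∀ x ∈ d, p ∈ f x) ∧ ∀ x ∉ d, ∀ q ≤ p, q ∉ f x

/-- `p` forces `e` to be a function from `x` to `y`. -/
structure FFun (e x y : Nam P) (p : P) : Prop where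
  pairs : ∀ z, ∀ q ≤ p, fmem z e q → ∀ r ≤ q, ∃ s ≤ r, ∃ a b, fmem a x s ∧ fmem b y s ∧
    feq z (opN a b) s
  total : ∀ a, ∀ q ≤ p, fmem a x q → ∀ r ≤ q, ∃ s ≤ r, ∃ b, fmem (opN a b) e s
  func : ∀ a b b', ∀ q ≤ p, fmem (opN a b) e q → fmem (opN a b') e q → feq b b' q

/-- `p` forces `e` to be an injective function from `x` to `y`. -/
structure FInj (e x y : Nam P) (p : P) : Prop extends FFun e x y p where
  inj : ∀ a a' b, ∀ q ≤ p, fmem (opN a b) e q → fmem (opN a' b) e q → feq a a' q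

/-- `P` is `<κ`-distributive. -/
def Dst (P : Type u) [Preorder P] (κ : Cardinal.{u}) : Prop :=
  ∀ (Θ : Type u), #Θ < κ → ∀ D : Θ → Set P, (∀ i, ∀ p ∈ D i, ∀ q ≤ p, q ∈ D i) →
    (∀ i p, ∃ q ≤ p, q ∈ D i) → ∀ p, ∃ q ≤ p, ∀ i, q ∈ D i

end MP9708F
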