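import Pool.Agent.Lib.MP_9708fd_lc.CNontriv
import Pool.Agent.Lib.MP_9708fd_lc.ENames

/-!
# Combinatorics of the relation of the generic automorphism
-/

open Cardinal Set

set_option linter.unusedSectionVars false

namespace MP9708F

universe u

/-- Two functions which send all subsets of `S` to almost equal sets are almost equal, if the second
one is a permutation. -/
theorem free_lemma {L : Type u} {S : Set L} {h : L → L} (t : Equiv.Perm L)
    (H : ∀ a ⊆ S, {y | ¬ (y ∈ h '' a ↔ t.symm y ∈ a)}.Countable) :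
    {x | x ∈ S ∧ h x ≠ t x}.Countable := by
  set D : Set L := {x | x ∈ S ∧ h x ≠ t x} with hD
  let φ : L → L := fun x => t.symm (h x)
  have hφ : ∀ x ∈ D, φ x ≠ x := by
    intro x hx h1
    apply hx.2
    have h2 : t (φ x) = t x := by rw [h1]
    rwa [show t (φ x) = h x from t.apply_symm_apply _] at h2
  -- free sets are countable
  have hfree : ∀ A ⊆ D, (∀ x ∈ A, φ x ∉ A) → A.Countable := by
    intro A hA hfr
    have h1 := H A fun x hx => (hA hx).1
    have h2 : t '' A ⊆ {y | ¬ (y ∈ h '' A ↔ t.symm y ∈ A)} := by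
      rintro _ ⟨x, hx, rfl⟩ h3
      rw [t.symm_apply_apply] at h3
      obtain ⟨x', hx', h4⟩ := h3.2 hx
      apply hfr x' hx'
      show t.symm (h x') ∈ A
      rw [h4, t.symm_apply_apply]
      exact hx
    have h3 := h1.mono h2
    exact countable_of_injective_of_countable_image t.injective.injOn h3
  obtain ⟨A, hA⟩ : ∃ A, Maximal (fun A : Set L => A ⊆ D ∧ ∀ x ∈ A, φ x ∉ A) A := by
    apply zorn_subset
    intro c hc hchain
    refine ⟨⋃₀ c, ⟨sUnion_subset fun q hq => (hc hq).1, ?_⟩,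
      fun q hq => subset_sUnion_of_mem hq⟩
    rintro x ⟨s, hs, hxs⟩ ⟨s', hs', hxs'⟩
    rcases hchain.total hs hs' with h1 | h1
    · exact (hc hs').2 x (h1 hxs) hxs'
    · exact (hc hs).2 x hxs (h1 hxs')
  have hAc := hfree A hA.prop.1 hA.prop.2
  have h1 : ∀ x ∈ D, x ∉ A → x ∉ φ '' A → φ x ∈ A := by
    intro x hx hxA hxφ
    by_contra hcon
    have h2 : insert x A ⊆ D ∧ ∀ z ∈ insert x A, φ z ∉ insert x A := by
      refine ⟨insert_subset hx hA.prop.1, ?_⟩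
      rintro z (rfl | hz) (h3 | h3)
      · exact hφ z hx h3
      · exact hcon h3
      · exact hxφ ⟨z, hz, h3⟩
      · exact hA.prop.2 z hz h3
    exact hxA (hA.le_of_ge h2 (subset_insert x A) (mem_insert x A))
  have h2 : (D \ (A ∪ φ '' A)).Countable := by
    apply hfree
    · exact sdiff_subset
    · intro x hx h3
      exact h3.2 (Or.inl (h1 x hx.1 (fun h => hx.2 (Or.inl h)) fun h => hx.2 (Or.inr h)))
  refine ((h2.union (hAc.union (hAc.image φ)))).mono ?_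
  intro x hx
  by_cases h3 : x ∈ A ∪ φ '' A
  · exact Or.inr h3
  · exact Or.inl ⟨hx, h3⟩

variable {L : Type u} [LinearOrder L] [InaccOrder L]

/-- `p` decides the set named by `f` below its height to be `a`. -/
def DcB (f : L → LowerSet (PP L)) (a : Set L) (p : PP L) : Prop :=
  ∀ x < p.1.ht, (x ∈ a → p ∈ f x) ∧ (x ∉ a → ∀ q ≤ p, q ∉ f x)

theorem decide_openDense (f : L → LowerSet (PP L)) (x : L) :
    (∀ p ∈ {q : PP L | q ∈ f x ∨ ∀ r ≤ q, r ∉ f x}, ∀ q ≤ p,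
      q ∈ {q : PP L | q ∈ f x ∨ ∀ r ≤ q, r ∉ f x}) ∧
    ∀ p, ∃ q ≤ p, q ∈ {q : PP L | q ∈ f x ∨ ∀ r ≤ q, r ∉ f x} := by
  constructor
  · rintro p (hp | hp) q hq
    · exact Or.inl ((f x).lower hq hp)
    · exact Or.inr fun r hr => hp r (hr.trans hq)
  · intro p
    by_cases h : ∃ q ≤ p, q ∈ f x
    · obtain ⟨q, hq, h⟩ := h
      exact ⟨q, hq, Or.inl h⟩
    · push Not at h
      exact ⟨p, le_rfl, Or.inr h⟩

/-- Finitely many families can be decided below the height. -/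
theorem exists_DcB {n : ℕ} (F : Fin n → L → LowerSet (PP L)) (p : PP L) :
    ∃ q ≤ p, ∀ i, ∃ a, DcB (F i) a q := by
  obtain ⟨q, hq, h⟩ := PP.decide_all (L := L)
    (D := fun x => {q | ∀ i, q ∈ F i x ∨ ∀ r ≤ q, r ∉ F i x}) (by
      intro x p hp q hq i
      exact (decide_openDense (F i) x).1 p (hp i) q hq) (by
      intro x p
      have : ∀ m : ℕ, m ≤ n → ∃ q ≤ p, ∀ i : Fin n, i.1 < m → (q ∈ F i x ∨ ∀ r ≤ q, r ∉ F i x) := by
        intro m
        induction m with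
        | zero => exact fun _ => ⟨p, le_rfl, fun i hi => absurd hi (by omega)⟩
        | succ m ih =>
          intro hm
          obtain ⟨q, hq, h1⟩ := ih (by omega)
          obtain ⟨r, hr, h2⟩ := (decide_openDense (F ⟨m, by omega⟩) x).2 q
          refine ⟨r, hr.trans hq, fun i hi => ?_⟩
          rcases Nat.lt_succ_iff_lt_or_eq.1 hi with h3 | h3
          · exact (decide_openDense (F i) x).1 q (h1 i h3) r hr
          · have : i = ⟨m, by omega⟩ := Fin.ext h3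
            rw [this]
            exact h2
      obtain ⟨q, hq, h⟩ := this n le_rfl
      exact ⟨q, hq, fun i => h i i.2⟩) p
  refine ⟨q, hq, fun i => ⟨{x | q ∈ F i x}, fun x hx => ⟨fun h1 => h1, fun h1 => ?_⟩⟩⟩
  rcases h x hx i with h2 | h2
  · exact absurd h2 h1
  · exact h2

theorem DcB.mem_iff {f : L → LowerSet (PP L)} {a : Set L} {p : PP L} (h : DcB f a p) {x : L}
    (hx : x < p.1.ht) : x ∈ a ↔ p ∈ f x := by
  constructor
  · exact (h x hx).1
  · intro h1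
    by_contra h2
    exact (h x hx).2 h2 p le_rfl h1

/-- Decided values are preserved. -/
theorem DcB.mem_iff' {f : L → LowerSet (PP L)} {a : Set L} {p q : PP L} (h : DcB f a p)
    (hq : q ≤ p) {x : L} (hx : x < p.1.ht) : x ∈ a ↔ q ∈ f x := by
  constructor
  · intro h1
    exact (f x).lower hq ((h x hx).1 h1)
  · intro h1
    by_contra h2
    exact (h x hx).2 h2 q hq h1

theorem ht_le {q p : PP L} (h : q ≤ p) : p.1.ht ≤ q.1.ht := (PP.le_def.1 h).ht

/-- A set all of whose decided initial pieces are countable is decided to be countable. -/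
theorem exists_countable_Dc {D : L → LowerSet (PP L)} {p : PP L}
    (h : ∀ s ≤ p, {x | x < s.1.ht ∧ s ∈ D x}.Countable) :
    ∃ q ≤ p, ∃ d : Set L, d.Countable ∧ Dc D d q := by
  by_contra hcon
  push Not at hcon
  have h1 : ∀ q ≤ p, ∃ r ≤ q, ∃ x, q.1.ht ≤ x ∧ r ∈ {r : PP L | r ∈ D x} := by
    intro q hq
    by_contra h2
    push Not at h2
    obtain ⟨s, hs, h3⟩ := exists_DcB (n := 1) (fun _ => D) q
    obtain ⟨a, ha⟩ := h3 0
    refine hcon s (hs.trans hq) {x | x < s.1.ht ∧ s ∈ D x} (h s (hs.trans hq)) ⟨fun x hx => hx.2,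
      fun x hx r hr h4 => ?_⟩
    rcases lt_or_ge x s.1.ht with h5 | h5
    · exact hx ⟨h5, (ha.mem_iff h5).1 ((ha.mem_iff' hr h5).2 h4)⟩
    · exact h2 r (hr.trans hs) x ((ht_le hs).trans h5) h4
  obtain ⟨q, hq, h2⟩ := PP.exists_uncountable (D := fun x => {r | r ∈ D x})
    (fun x p hp q hq => (D x).lower hq hp) p h1
  exact h2 (h q hq)

/-- The conditions forcing that the set named by `g` is almost equal to the image of the set
named by `f` under the generic permutations. -/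
def wR (f g : L → LowerSet (PP L)) : LowerSet (PP L) :=
  ⟨{p | ∀ q ≤ p, ∀ a b, DcB f a q → DcB g b q →
    {y | y < q.1.ht ∧ ¬ (y ∈ b ↔ pv q.1.t true y ∈ a)}.Countable}, fun _ _ h h' q hq =>
    h' q (hq.trans h)⟩

theorem mem_wR {f g : L → LowerSet (PP L)} {p : PP L} : p ∈ wR f g ↔ ∀ q ≤ p, ∀ a b, DcB f a q →
    DcB g b q → {y | y < q.1.ht ∧ ¬ (y ∈ b ↔ pv q.1.t true y ∈ a)}.Countable := Iff.rfl

theorem wR_reg (f g : L → LowerSet (PP L)) : Reg (fun p => p ∈ wR f g) := by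
  refine ⟨fun h h' => (wR f g).lower h h', ?_⟩
  intro p hp q hq a b ha hb
  obtain ⟨r, hr, h1⟩ := hp q hq
  obtain ⟨s, hs, h2⟩ := exists_DcB (n := 2) ![f, g] r
  obtain ⟨a', ha'⟩ := h2 0
  obtain ⟨b', hb'⟩ := h2 1
  have ha' : DcB f a' s := ha'
  have hb' : DcB g b' s := hb'
  have hsq : s ≤ q := hs.trans hr
  refine ((h1 s hs a' b' ha' hb').union (PP.t_agree hsq true)).mono ?_
  rintro y ⟨hy, hy'⟩
  by_cases h3 : pv s.1.t true y = pv q.1.t true y
  · left
    have hys : y < s.1.ht := hy.trans_le (ht_le hsq)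
    refine ⟨hys, fun h4 => hy' ?_⟩
    have h5 : pv q.1.t true y < q.1.ht := pv_lt q.ok.fix true hy
    rw [hb.mem_iff' hsq hy, ha.mem_iff' hsq h5, ← hb'.mem_iff hys,
      ← ha'.mem_iff (h5.trans_le (ht_le hsq)), ← h3]
    exact h4
  · exact Or.inr ⟨hy, h3⟩

theorem wR_ext {f g f' g' : L → LowerSet (PP L)} {p : PP L}
    (hf : ∀ x, ∀ q ≤ p, q ∈ f x ↔ q ∈ f' x) (hg : ∀ x, ∀ q ≤ p, q ∈ g x ↔ q ∈ g' x)
    (h : p ∈ wR f g) : p ∈ wR f' g' := by
  intro q hq a b ha hb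
  refine h q hq a b (fun x hx => ?_) (fun x hx => ?_)
  · obtain ⟨h1, h2⟩ := ha x hx
    exact ⟨fun h => (hf x q hq).2 (h1 h), fun h r hr h3 =>
      h2 h r hr ((hf x r (hr.trans hq)).1 h3)⟩
  · obtain ⟨h1, h2⟩ := hb x hx
    exact ⟨fun h => (hg x q hq).2 (h1 h), fun h r hr h3 =>
      h2 h r hr ((hg x r (hr.trans hq)).1 h3)⟩

/-- The family named by the mates. -/
def gM (ζ : Nm L) (ε : Bool) : L → LowerSet (PP L) := fun x =>
  ⟨{p | ∀ q ≤ p, ∃ r ≤ q, ζ ∈ r.1.s ∧ x < r.1.ht ∧ x ∈ r.1.m ζ ε}, fun _ _ h h' q hq =>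
    h' q (hq.trans h)⟩

theorem gM_reg (ζ : Nm L) (ε : Bool) : RegF (gM ζ ε) := fun _ => Reg.dense

theorem mem_gM {ζ : Nm L} {ε : Bool} {x : L} {p : PP L} (hζ : ζ ∈ p.1.s) (hx : x < p.1.ht) :
    p ∈ gM ζ ε x ↔ x ∈ p.1.m ζ ε := by
  constructor
  · intro h
    obtain ⟨r, hr, h1, h2, h3⟩ := h p le_rfl
    exact ((PP.le_def.1 hr).m hζ ε hx).1 h3
  · intro h q hq
    exact ⟨q, le_rfl, (PP.le_def.1 hq).s hζ, hx.trans_le (ht_le hq),
      ((PP.le_def.1 hq).m hζ ε hx).2 h⟩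

theorem DcB_gM {ζ : Nm L} {ε : Bool} {p : PP L} (hζ : ζ ∈ p.1.s) {b : Set L}
    (h : DcB (gM ζ ε) b p) {x : L} (hx : x < p.1.ht) : x ∈ b ↔ x ∈ p.1.m ζ ε := by
  rw [h.mem_iff hx, mem_gM hζ hx]

/-- Every set has an image. -/
theorem exists_image (f : L → LowerSet (PP L)) :
    ∃ g, RegF g ∧ ∀ p, p ∈ wR f g := by
  obtain ⟨ζ, hζ⟩ := PP.exists_name f
  refine ⟨gM ζ true, gM_reg ζ true, fun p => (wR_reg _ _).reg fun q _ => ?_⟩
  obtain ⟨r, hr, hζr⟩ := PP.exists_index ζ q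
  refine ⟨r, hr, ?_⟩
  intro s hs a b ha hb
  have hζs := (PP.le_def.1 hs).s hζr
  refine (s.mate hζs true).mono ?_
  rintro y ⟨hy, hy'⟩ h1
  apply hy'
  rw [DcB_gM hζs hb hy, h1]
  have h2 : pv s.1.t true y < s.1.ht := pv_lt s.ok.fix true hy
  obtain ⟨h3, h4⟩ := hζ s hζs _ h2
  constructor
  · intro h5
    by_contra h6
    obtain ⟨r', hr', h7⟩ := h3 h5 s le_rfl
    exact (ha _ h2).2 h6 r' hr' h7
  · intro h5
    by_contra h6
    exact h4 h6 s le_rfl ((ha _ h2).1 h5)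

/-- Every set is an image. -/
theorem exists_preimage (g : L → LowerSet (PP L)) :
    ∃ f, RegF f ∧ ∀ p, p ∈ wR f g := by
  obtain ⟨ζ, hζ⟩ := PP.exists_name g
  refine ⟨gM ζ false, gM_reg ζ false, fun p => (wR_reg _ _).reg fun q _ => ?_⟩
  obtain ⟨r, hr, hζr⟩ := PP.exists_index ζ q
  refine ⟨r, hr, ?_⟩
  intro s hs a b ha hb
  have hζs := (PP.le_def.1 hs).s hζr
  refine ((s.mate hζs false).image s.1.t).mono ?_
  rintro y ⟨hy, hy'⟩
  refine ⟨s.1.t.symm y, ?_, s.1.t.apply_symm_apply y⟩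
  intro h1
  apply hy'
  have h2 : s.1.t.symm y < s.1.ht := pv_lt s.ok.fix true hy
  have h5 : pv s.1.t false (s.1.t.symm y) = y := s.1.t.apply_symm_apply y
  rw [h5] at h1
  show y ∈ b ↔ s.1.t.symm y ∈ a
  rw [DcB_gM hζs ha h2, h1]
  obtain ⟨h3, h4⟩ := hζ s hζs _ hy
  constructor
  · intro h6
    by_contra h7
    exact h4 h7 s le_rfl ((hb _ hy).1 h6)
  · intro h6
    by_contra h7
    obtain ⟨r', hr', h8⟩ := h3 h6 s le_rfl
    exact (hb _ hy).2 h7 r' hr' h8

end MP9708F
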