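import Pool.Agent.Lib.MP_9708fd_lc.EComb
import Pool.Agent.Lib.MP_9708fd_lc.ECard

/-!
# Combinatorics of the relation of the generic automorphism, part 2
-/

open Cardinal Set

set_option linter.unusedSectionVars false

namespace MP9708F

universe u

variable {L : Type u} [LinearOrder L] [InaccOrder L]

theorem dst : Dst (PP L) #L := fun _ hΘ _ h1 h2 p => PP.distrib hΘ h1 h2 p

theorem Dc.mem_of {P : Type u} [Preorder P] {f : L → LowerSet P} {d : Set L} {p : P}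
    (h : Dc f d p) {q : P} (hq : q ≤ p) {x : L} (hx : q ∈ f x) : x ∈ d := by
  by_contra h1
  exact h.2 x h1 q hq hx

theorem Dc.mono {P : Type u} [Preorder P] {f : L → LowerSet P} {d : Set L} {p q : P}
    (h : Dc f d p) (hq : q ≤ p) : Dc f d q :=
  ⟨fun x hx => (f x).lower hq (h.1 x hx), fun x hx r hr => h.2 x hx r (hr.trans hq)⟩

theorem Dc.congr {P : Type u} [Preorder P] {f g : L → LowerSet P} {d : Set L} {p : P}
    (h : Dc f d p) (hfg : ∀ x, ∀ q ≤ p, q ∈ f x ↔ q ∈ g x) : Dc g d p :=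
  ⟨fun x hx => (hfg x p le_rfl).1 (h.1 x hx), fun x hx r hr h1 =>
    h.2 x hx r hr ((hfg x r hr).2 h1)⟩

theorem dfF_congr {P : Type u} [Preorder P] {f g f' g' : L → LowerSet P} {p : P}
    (hf : ∀ x, ∀ q ≤ p, q ∈ f x ↔ q ∈ f' x) (hg : ∀ x, ∀ q ≤ p, q ∈ g x ↔ q ∈ g' x) (x : L) (q : P)
    (hq : q ≤ p) : q ∈ dfF f g x ↔ q ∈ dfF f' g' x := by
  constructor
  · rintro ⟨h1, h2⟩
    exact ⟨(hf x q hq).1 h1, fun r hr h3 => h2 r hr ((hg x r (hr.trans hq)).2 h3)⟩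
  · rintro ⟨h1, h2⟩
    exact ⟨(hf x q hq).2 h1, fun r hr h3 => h2 r hr ((hg x r (hr.trans hq)).1 h3)⟩

theorem imF_congr {P : Type u} [Preorder P] {f : L → LowerSet P} {e e' : Nam P} {p : P}
    (he : feq e e' p) (y : L) (q : P) (hq : q ≤ p) : q ∈ imF f e y ↔ q ∈ imF f e' y := by
  constructor
  · intro h r hr
    obtain ⟨s, hs, x, h1, h2⟩ := h r hr
    exact ⟨s, hs, x, h1, fmem_congr_right (feq_mono (hs.trans (hr.trans hq)) he) h2⟩
  · intro h r hr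
    obtain ⟨s, hs, x, h1, h2⟩ := h r hr
    exact ⟨s, hs, x, h1, fmem_congr_right (feq_symm (feq_mono (hs.trans (hr.trans hq)) he)) h2⟩

theorem diff_image1 {f g f' g' : L → LowerSet (PP L)} {p : PP L} (h : p ∈ wR f g)
    (h' : p ∈ wR f' g') {d : Set L} (hdc : d.Countable) (hd : Dc (dfF f f') d p) :
    ∃ q ≤ p, ∃ d : Set L, d.Countable ∧ Dc (dfF g g') d q := by
  apply exists_countable_Dc
  intro s hs
  obtain ⟨s', hs', h1⟩ := exists_DcB (n := 4) ![f, g, f', g'] s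
  obtain ⟨a, ha⟩ := h1 0
  obtain ⟨b, hb⟩ := h1 1
  obtain ⟨a', ha'⟩ := h1 2
  obtain ⟨b', hb'⟩ := h1 3
  have ha : DcB f a s' := ha
  have hb : DcB g b s' := hb
  have ha' : DcB f' a' s' := ha'
  have hb' : DcB g' b' s' := hb'
  have c1 := h s' (hs'.trans hs) a b ha hb
  have c2 := h' s' (hs'.trans hs) a' b' ha' hb'
  refine ((c1.union c2).union (hdc.image s'.1.t)).mono ?_
  rintro y ⟨hy, hy1, hy2⟩
  have hys : y < s'.1.ht := hy.trans_le (ht_le hs')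
  by_cases e1 : y ∈ b ↔ pv s'.1.t true y ∈ a
  · by_cases e2 : y ∈ b' ↔ pv s'.1.t true y ∈ a'
    · right
      refine ⟨pv s'.1.t true y, ?_, s'.1.t.apply_symm_apply y⟩
      have hz : pv s'.1.t true y < s'.1.ht := pv_lt s'.ok.fix true hys
      have h3 : y ∈ b := (hb.mem_iff hys).2 ((g y).lower hs' hy1)
      have h4 : y ∉ b' := fun h5 => hy2 s' hs' ((hb'.mem_iff hys).1 h5)
      refine hd.mem_of (hs'.trans hs) (show s' ∈ dfF f f' _ from ⟨?_, ?_⟩)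
      · exact (ha _ hz).1 (e1.1 h3)
      · exact (ha' _ hz).2 fun h5 => h4 (e2.2 h5)
    · exact Or.inl (Or.inr ⟨hys, e2⟩)
  · exact Or.inl (Or.inl ⟨hys, e1⟩)

theorem diff_image2 {f g f' g' : L → LowerSet (PP L)} {p : PP L} (h : p ∈ wR f g)
    (h' : p ∈ wR f' g') {d : Set L} (hdc : d.Countable) (hd : Dc (dfF g g') d p) :
    ∃ q ≤ p, ∃ d : Set L, d.Countable ∧ Dc (dfF f f') d q := by
  apply exists_countable_Dc
  intro s hs
  obtain ⟨s', hs', h1⟩ := exists_DcB (n := 4) ![f, g, f', g'] s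
  obtain ⟨a, ha⟩ := h1 0
  obtain ⟨b, hb⟩ := h1 1
  obtain ⟨a', ha'⟩ := h1 2
  obtain ⟨b', hb'⟩ := h1 3
  have ha : DcB f a s' := ha
  have hb : DcB g b s' := hb
  have ha' : DcB f' a' s' := ha'
  have hb' : DcB g' b' s' := hb'
  have c1 := h s' (hs'.trans hs) a b ha hb
  have c2 := h' s' (hs'.trans hs) a' b' ha' hb'
  refine (((c1.union c2).union hdc).image s'.1.t.symm).mono ?_
  rintro x ⟨hx, hx1, hx2⟩
  have hxs : x < s'.1.ht := hx.trans_le (ht_le hs')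
  refine ⟨s'.1.t x, ?_, s'.1.t.symm_apply_apply x⟩
  have hy : s'.1.t x < s'.1.ht := pv_lt s'.ok.fix false hxs
  have hyx : pv s'.1.t true (s'.1.t x) = x := s'.1.t.symm_apply_apply x
  have h3 : x ∈ a := (ha.mem_iff hxs).2 ((f x).lower hs' hx1)
  have h4 : x ∉ a' := fun h5 => hx2 s' hs' ((ha'.mem_iff hxs).1 h5)
  by_cases e1 : s'.1.t x ∈ b ↔ pv s'.1.t true (s'.1.t x) ∈ a
  · by_cases e2 : s'.1.t x ∈ b' ↔ pv s'.1.t true (s'.1.t x) ∈ a'
    · right
      rw [hyx] at e1 e2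
      refine hd.mem_of (hs'.trans hs) (show s' ∈ dfF g g' _ from ⟨?_, ?_⟩)
      · exact (hb _ hy).1 (e1.2 h3)
      · exact (hb' _ hy).2 fun h5 => h4 (e2.1 h5)
    · exact Or.inl (Or.inr ⟨hy, e2⟩)
  · exact Or.inl (Or.inl ⟨hy, e1⟩)

theorem wR_closed {f g f' g' : L → LowerSet (PP L)} {p : PP L} (h : p ∈ wR f g)
    {d1 d2 d3 d4 : Set L} (c1 : d1.Countable) (c2 : d2.Countable) (c3 : d3.Countable)
    (c4 : d4.Countable) (h1 : Dc (dfF f f') d1 p) (h2 : Dc (dfF f' f) d2 p)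
    (h3 : Dc (dfF g g') d3 p) (h4 : Dc (dfF g' g) d4 p) : p ∈ wR f' g' := by
  intro q hq a' b' ha' hb'
  obtain ⟨s, hs, h5⟩ := exists_DcB (n := 2) ![f, g] q
  obtain ⟨a, ha⟩ := h5 0
  obtain ⟨b, hb⟩ := h5 1
  have ha : DcB f a s := ha
  have hb : DcB g b s := hb
  have hsp := hs.trans hq
  have c5 := h s hsp a b ha hb
  refine ((((c5.union (PP.t_agree hs true)).union (c3.union c4)).union
    ((c1.union c2).image q.1.t))).mono ?_
  rintro y ⟨hy, hy'⟩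
  by_contra hcon
  simp only [mem_union, not_or] at hcon
  obtain ⟨⟨⟨e1, e2⟩, e3, e4⟩, e5⟩ := hcon
  apply hy'
  have hys : y < s.1.ht := hy.trans_le (ht_le hs)
  have e2' : pv s.1.t true y = pv q.1.t true y := by
    by_contra h6
    exact e2 ⟨hy, h6⟩
  have e1' : y ∈ b ↔ pv s.1.t true y ∈ a := by
    by_contra h6
    exact e1 ⟨hys, h6⟩
  rw [e2'] at e1'
  set z := pv q.1.t true y with hz
  have hzq : z < q.1.ht := pv_lt q.ok.fix true hy
  have hzs : z < s.1.ht := hzq.trans_le (ht_le hs)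
  have hz1 : z ∉ d1 := fun h6 => e5 ⟨z, Or.inl h6, q.1.t.apply_symm_apply y⟩
  have hz2 : z ∉ d2 := fun h6 => e5 ⟨z, Or.inr h6, q.1.t.apply_symm_apply y⟩
  have e6 : y ∈ b ↔ y ∈ b' := by
    constructor
    · intro h6
      by_contra h7
      refine e3 (h3.mem_of hsp (show s ∈ dfF g g' y from ⟨(hb y hys).1 h6, fun r hr => ?_⟩))
      exact (hb' y hy).2 h7 r (hr.trans hs)
    · intro h6
      by_contra h7
      refine e4 (h4.mem_of hsp (show s ∈ dfF g' g y from ⟨?_, (hb y hys).2 h7⟩))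
      exact (g' y).lower hs ((hb' y hy).1 h6)
  have e7 : z ∈ a ↔ z ∈ a' := by
    constructor
    · intro h6
      by_contra h7
      refine hz1 (h1.mem_of hsp (show s ∈ dfF f f' z from ⟨(ha z hzs).1 h6, fun r hr => ?_⟩))
      exact (ha' z hzq).2 h7 r (hr.trans hs)
    · intro h6
      by_contra h7
      refine hz2 (h2.mem_of hsp (show s ∈ dfF f' f z from ⟨?_, (ha z hzs).2 h7⟩))
      exact (f' z).lower hs ((ha' z hzq).1 h6)
  rw [← e6, ← e7]
  exact e1'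

/-- Densely often, the set named by `D` is decided to be countable. -/
def DBc (D : L → LowerSet (PP L)) (p : PP L) : Prop :=
  ∀ q ≤ p, ∃ r ≤ q, ∃ d : Set L, #d ≤ #(Iio (o0 L)) ∧ Dc D d r

theorem card_le_iff {d : Set L} : #d ≤ #(Iio (o0 L)) ↔ d.Countable := by
  rw [card_o0, le_aleph0_iff_set_countable]

theorem DBc.reg' (D : L → LowerSet (PP L)) : Reg (DBc D) := Reg.dense

theorem DBc.congr {D D' : L → LowerSet (PP L)} {p : PP L} (h : DBc D p)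
    (hD : ∀ x, ∀ q ≤ p, q ∈ D x ↔ q ∈ D' x) : DBc D' p := by
  intro q hq
  obtain ⟨r, hr, d, h1, h2⟩ := h q hq
  exact ⟨r, hr, d, h1, h2.congr fun x s hs => hD x s (hs.trans (hr.trans hq))⟩

theorem diff_image {f g f' g' : L → LowerSet (PP L)} {p : PP L} (h : p ∈ wR f g)
    (h' : p ∈ wR f' g') : DBc (dfF f f') p ↔ DBc (dfF g g') p := by
  constructor
  · intro h1 q hq
    obtain ⟨r, hr, d, h2, h3⟩ := h1 q hq
    rw [card_le_iff] at h2
    have hrp := hr.trans hq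
    obtain ⟨s, hs, d', h4, h5⟩ := diff_image1 ((wR f g).lower hrp h) ((wR f' g').lower hrp h') h2 h3
    exact ⟨s, hs.trans hr, d', card_le_iff.2 h4, h5⟩
  · intro h1 q hq
    obtain ⟨r, hr, d, h2, h3⟩ := h1 q hq
    rw [card_le_iff] at h2
    have hrp := hr.trans hq
    obtain ⟨s, hs, d', h4, h5⟩ := diff_image2 ((wR f g).lower hrp h) ((wR f' g').lower hrp h') h2 h3
    exact ⟨s, hs.trans hr, d', card_le_iff.2 h4, h5⟩

theorem wR_closed' {f g f' g' : L → LowerSet (PP L)} {p : PP L} (h : p ∈ wR f g)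
    (h1 : DBc (dfF f f') p) (h2 : DBc (dfF f' f) p) (h3 : DBc (dfF g g') p)
    (h4 : DBc (dfF g' g) p) : p ∈ wR f' g' := by
  refine (wR_reg _ _).reg fun q hq => ?_
  obtain ⟨r1, hr1, d1, c1, e1⟩ := h1 q hq
  obtain ⟨r2, hr2, d2, c2, e2⟩ := h2 r1 (hr1.trans hq)
  obtain ⟨r3, hr3, d3, c3, e3⟩ := h3 r2 (hr2.trans (hr1.trans hq))
  obtain ⟨r4, hr4, d4, c4, e4⟩ := h4 r3 (hr3.trans (hr2.trans (hr1.trans hq)))
  rw [card_le_iff] at c1 c2 c3 c4
  have k3 : r4 ≤ r2 := hr4.trans hr3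
  have k2 : r4 ≤ r1 := k3.trans hr2
  have k1 : r4 ≤ q := k2.trans hr1
  exact ⟨r4, k1, wR_closed ((wR f g).lower (k1.trans hq) h) c1 c2 c3 c4 (e1.mono k2)
    (e2.mono k3) (e3.mono hr4) e4⟩

/-- The set named by `f₁` is contained in the set named by `f`. -/
def SubB {P : Type u} [Preorder P] (f₁ f : L → LowerSet P) (p : P) : Prop :=
  ∀ x, ∀ q ≤ p, q ∈ f₁ x → q ∈ f x

/-- `e` trivialises the automorphism on the set named by `f`. -/
def TT (f : L → LowerSet (PP L)) (e : Nam (PP L)) (p : PP L) : Prop :=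
  ∀ f₁ g₁, RegF f₁ → RegF g₁ → ∀ q ≤ p, SubB f₁ f q → q ∈ wR f₁ g₁ →
    DBc (dfF g₁ (imF f₁ e)) q ∧ DBc (dfF (imF f₁ e) g₁) q

theorem TT_reg (f : L → LowerSet (PP L)) (e : Nam (PP L)) : Reg (TT f e) := by
  refine ⟨fun hqp h f₁ g₁ h1 h2 r hr => h f₁ g₁ h1 h2 r (hr.trans hqp), ?_⟩
  intro p hp f₁ g₁ h1 h2 q hq h3 h4
  constructor
  · refine (DBc.reg' _).reg fun r hr => ?_
    obtain ⟨s, hs, h5⟩ := hp r (hr.trans hq)
    exact ⟨s, hs, (h5 f₁ g₁ h1 h2 s le_rfl (fun x t ht => h3 x t (ht.trans (hs.trans hr)))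
      ((wR f₁ g₁).lower (hs.trans hr) h4)).1⟩
  · refine (DBc.reg' _).reg fun r hr => ?_
    obtain ⟨s, hs, h5⟩ := hp r (hr.trans hq)
    exact ⟨s, hs, (h5 f₁ g₁ h1 h2 s le_rfl (fun x t ht => h3 x t (ht.trans (hs.trans hr)))
      ((wR f₁ g₁).lower (hs.trans hr) h4)).2⟩

theorem TT_ext (f : L → LowerSet (PP L)) : Ext' (TT f) := by
  intro e e' p he h f₁ g₁ h1 h2 q hq h3 h4
  obtain ⟨h5, h6⟩ := h f₁ g₁ h1 h2 q hq h3 h4
  have h7 : ∀ x, ∀ r ≤ q, r ∈ imF f₁ e x ↔ r ∈ imF f₁ e' x := fun x r hr =>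
    imF_congr he x r (hr.trans hq)
  exact ⟨h5.congr fun x r hr => dfF_congr (fun _ _ _ => Iff.rfl) h7 x r hr,
    h6.congr fun x r hr => dfF_congr h7 (fun _ _ _ => Iff.rfl) x r hr⟩

/-- The automorphism is trivialised on a decided bounded set by the permutation of the
condition. -/
theorem TT_gr {f : L → LowerSet (PP L)} {d : Set L} {r : PP L} (hd : Dc f d r)
    (hdr : ∀ x ∈ d, x < r.1.ht) : TT f (gr (PP L) d r.1.t) r := by
  intro f₁ g₁ hf₁ hg₁ q hq hsub hw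
  -- the image of the decided part
  have key : ∀ s ≤ q, ∀ a, DcB f₁ a s → (∀ x ∈ a, x < s.1.ht → x ∈ d) ∧
      ∀ y, ∀ s' ≤ s, s' ∈ imF f₁ (gr (PP L) d r.1.t) y ↔
        ∃ x ∈ a, x ∈ d ∧ y = r.1.t x := by
    intro s hs a ha
    have h1 : ∀ x ∈ a, x < s.1.ht → x ∈ d := by
      intro x hx hxs
      exact hd.mem_of (hs.trans hq) (hsub x s hs ((ha x hxs).1 hx))
    refine ⟨h1, fun y s' hs' => ?_⟩
    constructor
    · intro h2
      obtain ⟨s'', hs'', x, h3, h4⟩ := h2 s' le_rfl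
      rw [fmem_gr] at h4
      refine ⟨x, ?_, h4.1, h4.2⟩
      have hxs : x < s.1.ht := (hdr x h4.1).trans_le (ht_le (hs.trans hq))
      exact (ha.mem_iff' (hs''.trans hs') hxs).2 h3
    · rintro ⟨x, hx, hxd, rfl⟩ s'' hs''
      refine ⟨s'', le_rfl, x, ?_, ?_⟩
      · have hxs : x < s.1.ht := (hdr x hxd).trans_le (ht_le (hs.trans hq))
        exact (ha.mem_iff' (hs''.trans hs') hxs).1 hx
      · rw [fmem_gr]
        exact ⟨hxd, rfl⟩
  have main : ∀ s ≤ q, ∃ c : Set L, c.Countable ∧ ∀ y < s.1.ht, y ∉ c →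
      (s ∈ g₁ y → ∃ s' ≤ s, s' ∈ imF f₁ (gr (PP L) d r.1.t) y) ∧
      (s ∈ imF f₁ (gr (PP L) d r.1.t) y → ∃ s' ≤ s, s' ∈ g₁ y) := by
    intro s hs
    obtain ⟨s', hs', h1⟩ := exists_DcB (n := 2) ![f₁, g₁] s
    obtain ⟨a, ha⟩ := h1 0
    obtain ⟨b, hb⟩ := h1 1
    have ha : DcB f₁ a s' := ha
    have hb : DcB g₁ b s' := hb
    obtain ⟨h2, h3⟩ := key s' (hs'.trans hs) a ha
    have c1 := hw s' (hs'.trans hs) a b ha hb
    have hsr : s' ≤ r := hs'.trans (hs.trans hq)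
    have c2 := PP.im_agree' hsr true (a := a ∩ d) fun x hx => hdr x hx.2
    refine ⟨_, c1.union c2, fun y hy hyc => ?_⟩
    simp only [mem_union, mem_ofPred_eq, not_or, not_and, not_not] at hyc
    obtain ⟨e1, e2⟩ := hyc
    have hys : y < s'.1.ht := hy.trans_le (ht_le hs')
    have e1 := e1 hys
    have hz : pv s'.1.t true y < s'.1.ht := pv_lt s'.ok.fix true hys
    have e3 : pv s'.1.t true y ∈ a ↔ pv s'.1.t true y ∈ a ∩ d :=
      ⟨fun h => ⟨h, h2 _ h hz⟩, fun h => h.1⟩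
    rw [e3, e2] at e1
    constructor
    · intro h4
      refine ⟨s', hs', (h3 y s' le_rfl).2 ?_⟩
      have h5 : y ∈ b := (hb.mem_iff' le_rfl hys).2 ((g₁ y).lower hs' h4)
      have h6 := e1.1 h5
      exact ⟨pv r.1.t true y, h6.1, h6.2, (r.1.t.apply_symm_apply y).symm⟩
    · intro h4
      obtain ⟨x, hxa, hxd, rfl⟩ := (h3 y s' le_rfl).1 ((imF f₁ _ y).lower hs' h4)
      refine ⟨s', hs', (hb.mem_iff hys).1 (e1.2 ?_)⟩
      have h5 : pv r.1.t true (r.1.t x) = x := r.1.t.symm_apply_apply x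
      rw [h5]
      exact ⟨hxa, hxd⟩
  constructor
  · intro q' hq'
    obtain ⟨r', hr', d', h1, h2⟩ := exists_countable_Dc
      (D := dfF g₁ (imF f₁ (gr (PP L) d r.1.t))) (p := q') (by
        intro s hs
        obtain ⟨c, hc, h3⟩ := main s (hs.trans hq')
        refine hc.mono ?_
        rintro y ⟨hy, hy1, hy2⟩
        by_contra hyc
        obtain ⟨s', hs', h4⟩ := (h3 y hy hyc).1 hy1
        exact hy2 s' hs' h4)
    exact ⟨r', hr', d', card_le_iff.2 h1, h2⟩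
  · intro q' hq'
    obtain ⟨r', hr', d', h1, h2⟩ := exists_countable_Dc
      (D := dfF (imF f₁ (gr (PP L) d r.1.t)) g₁) (p := q') (by
        intro s hs
        obtain ⟨c, hc, h3⟩ := main s (hs.trans hq')
        refine hc.mono ?_
        rintro y ⟨hy, hy1, hy2⟩
        by_contra hyc
        obtain ⟨s', hs', h4⟩ := (h3 y hy hyc).2 hy1
        exact hy2 s' hs' h4)
    exact ⟨r', hr', d', card_le_iff.2 h1, h2⟩

end MP9708F
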