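import Pool.Agent.Lib.MP_9708fd_lc.EComb2

/-!
# Q1 holds in the generic model
-/

open Cardinal Set

set_option linter.unusedSectionVars false

namespace MP9708F

universe u

section pairs

variable {P : Type u} [Preorder P] [Nonempty P]

theorem pair_inj {z A B A' B' : Mod P} (h : IsPair ME z A B) (h' : IsPair ME z A' B') :
    A = A' ∧ B = B' := by
  obtain ⟨x, rfl⟩ := cls_surj A
  obtain ⟨y, rfl⟩ := cls_surj B
  obtain ⟨x', rfl⟩ := cls_surj A'
  obtain ⟨y', rfl⟩ := cls_surj B'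
  rw [isPair_cls] at h h'
  rw [h, cls_eq] at h'
  rw [cls_eq, cls_eq, ← Filter.eventually_and]
  exact h'.mono fun p hp => opN_inj.1 hp

end pairs

variable {L : Type u} [LinearOrder L] [InaccOrder L]

/-- The least infinite cardinal. -/
noncomputable def kk (L : Type u) [LinearOrder L] [InaccOrder L] : Mod (PP L) :=
  cls (on (PP L) (o0 L))

/-- The inaccessible cardinal. -/
noncomputable def ll (L : Type u) [LinearOrder L] [InaccOrder L] : Mod (PP L) :=
  cls (chk (PP L) (Set.univ : Set L))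

/-- The name of the relation of the generic automorphism. -/
noncomputable def RR (L : Type u) [LinearOrder L] [InaccOrder L] : Mod (PP L) :=
  cls (RN (P := PP L) (L := L) wR)

theorem hasPair_RR {f g : L → LowerSet (PP L)} (hf : RegF f) (hg : RegF g) :
    HasPair ME (RR L) (cls (nn f)) (cls (nn g)) ↔
      ∀ᶠ p in (genU (PP L) : Filter (PP L)), p ∈ wR f g :=
  hasPair_RN (fun f g _ _ => wR_reg f g)
    (fun _ _ _ _ _ _ _ _ _ h1 h2 h3 => wR_ext h1 h2 h3) hf hg

theorem hasPair_RR' {A B : Mod (PP L)} (h : HasPair ME (RR L) A B) :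
    ∃ f g, RegF f ∧ RegF g ∧ A = cls (nn f) ∧ B = cls (nn g) ∧
      ∀ᶠ p in (genU (PP L) : Filter (PP L)), p ∈ wR f g := by
  obtain ⟨z, hz, hz'⟩ := id h
  obtain ⟨A', B', h1, h2, h3⟩ := RN_pairs _ z hz
  obtain ⟨rfl, rfl⟩ := pair_inj hz' h3
  obtain ⟨f, hf, rfl⟩ := sub_iff.1 h1
  obtain ⟨g, hg, rfl⟩ := sub_iff.1 h2
  exact ⟨f, g, hf, hg, rfl, rfl, (hasPair_RR hf hg).1 h⟩

theorem diffLe_iff {f g : L → LowerSet (PP L)} (hf : RegF f) (hg : RegF g) :
    DiffLe ME (kk L) (cls (nn f)) (cls (nn g)) ↔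
      ∀ᶠ p in (genU (PP L) : Filter (PP L)), DBc (dfF f g) p :=
  diffLe_nn dst hf hg

theorem isAut : IsAut ME (kk L) (ll L) (RR L) where
  pairs := fun p hp => RN_pairs _ p hp
  closed := by
    intro A B A' B' h hA' hB' h1 h2
    obtain ⟨f, g, hf, hg, rfl, rfl, h3⟩ := hasPair_RR' h
    obtain ⟨f', hf', rfl⟩ := sub_iff.1 hA'
    obtain ⟨g', hg', rfl⟩ := sub_iff.1 hB'
    rw [hasPair_RR hf' hg']
    obtain ⟨h4, h5⟩ := h1
    obtain ⟨h6, h7⟩ := h2
    rw [diffLe_iff hf hf'] at h4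
    rw [diffLe_iff hf' hf] at h5
    rw [diffLe_iff hg hg'] at h6
    rw [diffLe_iff hg' hg] at h7
    filter_upwards [h3, h4, h5, h6, h7] with p p3 p4 p5 p6 p7
    exact wR_closed' p3 p4 p5 p6 p7
  total := by
    intro A hA
    obtain ⟨f, hf, rfl⟩ := sub_iff.1 hA
    obtain ⟨g, hg, h⟩ := exists_image f
    exact ⟨cls (nn g), (hasPair_RR hf hg).2 (Filter.Eventually.of_forall h)⟩
  surj := by
    intro B hB
    obtain ⟨g, hg, rfl⟩ := sub_iff.1 hB
    obtain ⟨f, hf, h⟩ := exists_preimage g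
    exact ⟨cls (nn f), (hasPair_RR hf hg).2 (Filter.Eventually.of_forall h)⟩
  le_iff := by
    intro A B A' B' h h'
    obtain ⟨f, g, hf, hg, rfl, rfl, h3⟩ := hasPair_RR' h
    obtain ⟨f', g', hf', hg', rfl, rfl, h4⟩ := hasPair_RR' h'
    rw [diffLe_iff hf hf', diffLe_iff hg hg']
    constructor
    · intro h5
      filter_upwards [h3, h4, h5] with p p3 p4 p5 using (diff_image p3 p4).1 p5
    · intro h5
      filter_upwards [h3, h4, h5] with p p3 p4 p5 using (diff_image p3 p4).2 p5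

/-- The automorphism is trivial on every set of cardinality `ω⁺`. -/
theorem trivOn_small {X m : Mod (PP L)} (hX : Sub ME X (ll L)) (hm : IsSuccCard ME (kk L) m)
    (hXm : HasCard ME X m) : TrivOn ME (kk L) (ll L) (RR L) X := by
  obtain ⟨F, hF, rfl⟩ := sub_iff.1 hX
  have h1 := hasCard_succ dst hm hF hXm
  have h2 : ∃ e : Nam (PP L), ∀ᶠ p in (genU (PP L) : Filter (PP L)),
      FFun e (nn F) (chk (PP L) (Set.univ : Set L)) p ∧ TT F e p := by
    rw [sem_ex (S := fun e p => FFun e (nn F) (chk (PP L) (Set.univ : Set L)) p ∧ TT F e p)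
      (fun e => (FFun.reg' _ _ _).and (TT_reg F e)) (by
        intro e e' p he h
        exact ⟨FFun.congr he (feq_refl _ _) (feq_refl _ _) h.1, TT_ext F e e' p he h.2⟩)]
    filter_upwards [h1] with p hp q hq
    obtain ⟨r, hr, d, hd, hdr⟩ := hp q hq
    obtain ⟨y, hy⟩ := bdd_of_card (hd.trans_lt aleph_one_lt)
    obtain ⟨s, hs, hys⟩ := PP.exists_ht r y
    have hds : Dc F d s := hdr.mono hs
    refine ⟨s, hs.trans hr, gr (PP L) d s.1.t, ?_, TT_gr hds fun x hx => (hy x hx).trans hys⟩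
    exact FFun.congr (feq_refl _ _) (feq_symm ((feq_nn_chk hF).2 hds)) (feq_refl _ _)
      (gr_fun (fun x _ => mem_univ _) s)
  obtain ⟨e, he⟩ := h2
  have he1 : IsFun ME (cls e) (cls (nn F)) (cls (chk (PP L) (Set.univ : Set L))) :=
    isFun_cls.2 (he.mono fun p hp => hp.1)
  refine ⟨cls e, he1, ?_⟩
  intro A B C hA hAB hC
  obtain ⟨f, g, hf, hg, rfl, rfl, h3⟩ := hasPair_RR' hAB
  rw [image_nn hf he1] at hC
  subst hC
  have hA : ∀ᶠ p in (genU (PP L) : Filter (PP L)), SubB f F p := by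
    filter_upwards [los_sub.1 hA] with p hp x q hq hx
    exact (fmem_on_nn hF).1 (hp _ q hq ((fmem_on_nn hf).2 hx))
  have h4 : ∀ᶠ p in (genU (PP L) : Filter (PP L)), DBc (dfF g (imF f e)) p ∧
      DBc (dfF (imF f e) g) p := by
    filter_upwards [he, h3, hA] with p p1 p2 p3
    exact p1.2 f g hf hg p le_rfl p3 p2
  exact ⟨(diffLe_iff hg (imF_reg f e)).2 (h4.mono fun p hp => hp.1),
    (diffLe_iff (imF_reg f e) hg).2 (h4.mono fun p hp => hp.2)⟩

/-- `ė` sends a decided bounded set to a set which is not almost equal to its generic image. -/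
def WW (ė A : Nam (PP L)) (a : Set L) (h : L → L) (q : PP L) : Prop :=
  (∀ x ∈ a, fmem (opN (on (PP L) x) (on (PP L) (h x))) ė q) ∧ (∀ x ∈ a, x < q.1.ht) ∧
    feq A (chk (PP L) a) q ∧ ¬ {y | ¬ (y ∈ h '' a ↔ q.1.t.symm y ∈ a)}.Countable

theorem WW.mono {ė A : Nam (PP L)} {a : Set L} {h : L → L} {p q : PP L} (hw : WW ė A a h p)
    (hq : q ≤ p) : WW ė A a h q := by
  obtain ⟨h1, h2, h3, h4⟩ := hw
  refine ⟨fun x hx => fmem_mono hq (h1 x hx), fun x hx => (h2 x hx).trans_le (ht_le hq),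
    feq_mono hq h3, fun h5 => h4 ?_⟩
  refine (h5.union (PP.im_agree' hq true h2)).mono ?_
  intro y hy
  by_cases h6 : q.1.t.symm y ∈ a ↔ p.1.t.symm y ∈ a
  · left
    intro h7
    exact hy (h7.trans h6)
  · exact Or.inr h6

/-- The negation of `WW`, as a regular predicate. -/
def VV (ė A : Nam (PP L)) (p : PP L) : Prop := ∀ q ≤ p, ∀ a h, ¬ WW ė A a h q

theorem VV_reg (ė A : Nam (PP L)) : Reg (VV ė A) := by
  refine ⟨fun hqp h r hr => h r (hr.trans hqp), ?_⟩
  intro p hp q hq a h hw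
  obtain ⟨r, hr, h1⟩ := hp q hq
  exact h1 r le_rfl a h (hw.mono hr)

theorem VV_ext (ė : Nam (PP L)) : Ext' (VV ė) := by
  intro A A' p hA h q hq a h' hw
  exact h q hq a h' ⟨hw.1, hw.2.1, feq_trans (feq_mono hq hA) hw.2.2.1, hw.2.2.2⟩

/-- The automorphism is not trivial. -/
theorem not_trivOn : ¬ TrivOn ME (kk L) (ll L) (RR L) (ll L) := by
  rintro ⟨e, he, H⟩
  obtain ⟨ė, rfl⟩ := cls_surj e
  have he' := isFun_cls.1 he
  have hV : ∀ A : Nam (PP L), ∀ᶠ p in (genU (PP L) : Filter (PP L)), VV ė A p := by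
    intro A
    by_contra hcon
    rw [← gen_not (fun p hp q hq => (VV_reg ė A).mono hq hp)] at hcon
    have h1 : ∀ᶠ p in (genU (PP L) : Filter (PP L)), ∃ a h, WW ė A a h p := by
      rw [← gen_reg (A := fun p => ∃ a h, WW ė A a h p) (by
        rintro p ⟨a, h, hw⟩ q hq
        exact ⟨a, h, hw.mono hq⟩)]
      filter_upwards [hcon] with p hp q hq
      have h2 := hp q hq
      unfold VV at h2
      push Not at h2
      obtain ⟨r, hr, a, h, hw⟩ := h2
      exact ⟨r, hr, a, h, hw⟩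
    have h2 : Sub ME (cls A) (cls (chk (PP L) (Set.univ : Set L))) := by
      refine los_sub.2 ?_
      filter_upwards [h1] with p ⟨a, h, hw⟩ z q hq hz
      have h3 : fmem z (chk (PP L) a) q := fmem_congr_right (feq_mono hq hw.2.2.1) hz
      rw [fmem_chk] at h3 ⊢
      intro r hr
      obtain ⟨s, hs, x, -, hx⟩ := h3 r hr
      exact ⟨s, hs, x, mem_univ x, hx⟩
    obtain ⟨f, hf, hAf⟩ := sub_iff.1 h2
    obtain ⟨g, hg, hfg⟩ := exists_image f
    have h3 : HasPair ME (RR L) (cls (nn f)) (cls (nn g)) :=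
      (hasPair_RR hf hg).2 (Filter.Eventually.of_forall hfg)
    have h4 := H (cls (nn f)) (cls (nn g)) (cls (nn (imF f ė))) (by rw [← hAf]; exact h2) h3
      ((image_nn hf he).2 rfl)
    obtain ⟨h5, h6⟩ := h4
    rw [diffLe_iff hg (imF_reg f ė)] at h5
    rw [diffLe_iff (imF_reg f ė) hg] at h6
    rw [cls_eq] at hAf
    have h7 : ∀ᶠ p in (genU (PP L) : Filter (PP L)), False := by
      filter_upwards [h1, h5, h6, hAf, he'] with p ⟨a, h, hw⟩ p5 p6 pA pe
      obtain ⟨q1, hq1, d1, hd1, hD1⟩ := p5 p le_rfl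
      obtain ⟨q2, hq2, d2, hd2, hD2⟩ := p6 q1 hq1
      rw [card_le_iff] at hd1 hd2
      have hbd : ∃ y, ∀ x ∈ h '' a, x < y := by
        apply bdd_of_card
        refine mk_image_le.trans_lt ?_
        refine (mk_le_mk_of_subset (show a ⊆ Iio p.1.ht from hw.2.1)).trans_lt (card_Iio_lt _)
      obtain ⟨y0, hy0⟩ := hbd
      obtain ⟨q3, hq3, hy3⟩ := PP.exists_ht q2 y0
      obtain ⟨q, hq, h8⟩ := exists_DcB (n := 1) ![g] q3
      obtain ⟨b, hb⟩ := h8 0
      have hb : DcB g b q := hb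
      have hqq2 : q ≤ q2 := hq.trans hq3
      have hqq1 : q ≤ q1 := hqq2.trans hq2
      have hqp : q ≤ p := hqq1.trans hq1
      have hwq := hw.mono hqp
      have hDa : Dc f a q := by
        refine (feq_nn_chk hf).1 ?_
        exact feq_trans (feq_symm (feq_mono hqp pA)) hwq.2.2.1
      have hDBa : DcB f a q := fun x _ => ⟨fun hx => hDa.1 x hx, fun hx => hDa.2 x hx⟩
      apply hwq.2.2.2
      refine (((hfg q q le_rfl a b hDBa hb).union hd1).union hd2).mono ?_
      intro y hy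
      by_contra hcon
      simp only [mem_union, not_or] at hcon
      obtain ⟨⟨e1, e2⟩, e3⟩ := hcon
      have hyq : y < q.1.ht := by
        by_contra h9
        apply hy
        rw [not_lt] at h9
        constructor
        · intro h10
          exact absurd ((hy0 y h10).trans hy3) (not_lt.2 ((ht_le hq).trans h9))
        · intro h10
          exfalso
          have h11 : pv q.1.t true y = y := pv_eq_self q.ok.fix true h9
          have h12 : q.1.t.symm y = y := h11
          rw [h12] at h10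
          exact absurd (hwq.2.1 y h10) (not_lt.2 h9)
      have e1' : y ∈ b ↔ q.1.t.symm y ∈ a := by
        by_contra h9
        exact e1 ⟨hyq, h9⟩
      apply hy
      rw [← e1']
      constructor
      · rintro ⟨x, hx, rfl⟩
        by_contra h9
        apply e3
        refine hD2.mem_of hqq2 (show q ∈ dfF (imF f ė) g _ from ⟨?_, ?_⟩)
        · intro r hr
          exact ⟨r, le_rfl, x, (f x).lower hr (hDa.1 x hx), fmem_mono hr (hwq.1 x hx)⟩
        · exact (hb _ hyq).2 h9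
      · intro h9
        by_contra h10
        apply e2
        refine hD1.mem_of hqq1 (show q ∈ dfF g (imF f ė) _ from ⟨(hb _ hyq).1 h9, ?_⟩)
        intro r hr h11
        obtain ⟨s, hs, x, hx, hxy⟩ := h11 r le_rfl
        have hsq : s ≤ q := hs.trans hr
        have hxa : x ∈ a := hDa.mem_of hsq hx
        apply h10
        have h12 := pe.func (on (PP L) x) (on (PP L) y) (on (PP L) (h x)) s (hsq.trans hqp) hxy
          (fmem_mono hsq (hwq.1 x hxa))
        rw [on_inj] at h12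
        exact ⟨x, hxa, h12.symm⟩
    rw [Filter.eventually_false_iff_eq_bot] at h7
    exact (genU (PP L)).neBot.ne h7
  rw [sem_all (S := VV ė) (VV_reg ė) (VV_ext ė)] at hV
  obtain ⟨p₀, hp₀V, hp₀e⟩ := (hV.and he').exists
  refine PP.nontriv (fun x y => {p | fmem (opN (on (PP L) x) (on (PP L) y)) ė p})
    (fun x y p hp q hq => fmem_mono hq hp) p₀ ?_ ?_
  · intro x q hq
    obtain ⟨s, hs, b, hb⟩ := hp₀e.total (on (PP L) x) q hq (fmem_on_chk.2 (mem_univ x)) q le_rfl
    obtain ⟨s', hs', a', b', h1, h2, h3⟩ := hp₀e.pairs _ s (hs.trans hq) hb s le_rfl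
    obtain ⟨h4, h5⟩ := opN_inj.1 h3
    obtain ⟨s'', hs'', y, -, hy⟩ := fmem_chk.1 h2 s' le_rfl
    refine ⟨s'', hs''.trans (hs'.trans hs), y, ?_⟩
    have h6 : feq b (on (PP L) y) s'' := feq_trans (feq_mono hs'' h5) hy
    exact fmem_congr_left (opN_congr (feq_refl _ _) h6) (fmem_mono (hs''.trans hs') hb)
  · intro q hq h hh
    refine free_lemma (S := {x | x < q.1.ht}) q.1.t fun a ha => ?_
    by_contra hcon
    exact hp₀V (chk (PP L) a) q hq a h ⟨fun x hx => hh x (ha hx), fun x hx => ha hx,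
      feq_refl _ _, hcon⟩

theorem q1 : Q1 (ME : Mod (PP L) → Mod (PP L) → Prop) :=
  ⟨kk L, ll L, RR L, isInfCard_o0 dst, isInfCard_univ dst, o0_mem, isAut, not_trivOn,
    fun _ _ hX hm hXm => trivOn_small hX hm hXm⟩

end MP9708F
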