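import Pool.Agent.Lib.MP_9708fd_lc.ENames

/-!
# Semantic transfer
-/

open Cardinal Set

namespace MP9708F

universe u

section general0

variable {P : Type u} [Preorder P]

theorem Reg.exists_neg {S : P → Prop} (hS : Reg S) {p : P} (h : ¬ S p) :
    ∃ q ≤ p, ∀ r ≤ q, ¬ S r := by
  by_contra hc
  push Not at hc
  exact h (hS.reg hc)

theorem fmem_pair_left (x y : Nam P) (p : P) : fmem x (Nam.pair x y) p :=
  fmem_pair.2 fun q _ => ⟨q, le_rfl, Or.inl (feq_refl _ _)⟩

theorem fmem_pair_right (x y : Nam P) (p : P) : fmem y (Nam.pair x y) p :=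
  fmem_pair.2 fun q _ => ⟨q, le_rfl, Or.inr (feq_refl _ _)⟩

theorem pair_congr {x y x' y' : Nam P} {p : P} (hx : feq x x' p) (hy : feq y y' p) :
    feq (Nam.pair x y) (Nam.pair x' y') p := by
  refine feq_of_fmem fun z q hq => ?_
  rw [fmem_pair, fmem_pair]
  constructor
  · intro h r hr
    obtain ⟨s, hs, h1 | h1⟩ := h r hr
    · exact ⟨s, hs, Or.inl (feq_trans h1 (feq_mono (hs.trans (hr.trans hq)) hx))⟩
    · exact ⟨s, hs, Or.inr (feq_trans h1 (feq_mono (hs.trans (hr.trans hq)) hy))⟩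
  · intro h r hr
    obtain ⟨s, hs, h1 | h1⟩ := h r hr
    · exact ⟨s, hs, Or.inl (feq_trans h1 (feq_symm (feq_mono (hs.trans (hr.trans hq)) hx)))⟩
    · exact ⟨s, hs, Or.inr (feq_trans h1 (feq_symm (feq_mono (hs.trans (hr.trans hq)) hy)))⟩

theorem opN_congr {x y x' y' : Nam P} {p : P} (hx : feq x x' p) (hy : feq y y' p) :
    feq (opN x y) (opN x' y') p :=
  pair_congr (pair_congr hx hx) (pair_congr hx hy)

theorem fmem_pair_self {w x : Nam P} {p : P} : fmem w (Nam.pair x x) p ↔ feq w x p := by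
  rw [fmem_pair]
  constructor
  · intro h
    refine feq_reg fun q hq => ?_
    obtain ⟨r, hr, h1 | h1⟩ := h q hq
    · exact ⟨r, hr, h1⟩
    · exact ⟨r, hr, h1⟩
  · intro h q hq
    exact ⟨q, le_rfl, Or.inl (feq_mono hq h)⟩

theorem pair_self_eq {a b c : Nam P} {p : P} (h : feq (Nam.pair a a) (Nam.pair b c) p) :
    feq b a p ∧ feq c a p :=
  ⟨fmem_pair_self.1 (fmem_congr_right (feq_symm h) (fmem_pair_left b c p)),
    fmem_pair_self.1 (fmem_congr_right (feq_symm h) (fmem_pair_right b c p))⟩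

theorem opN_inj {x y x' y' : Nam P} {p : P} :
    feq (opN x y) (opN x' y') p ↔ feq x x' p ∧ feq y y' p := by
  constructor
  · intro h
    have hx : feq x x' p := by
      refine feq_reg fun q hq => ?_
      have h1 : fmem (Nam.pair x x) (opN x' y') q :=
        fmem_congr_right (feq_mono hq h) (fmem_pair_left _ _ q)
      obtain ⟨r, hr, h2 | h2⟩ := fmem_pair.1 h1 q le_rfl
      · exact ⟨r, hr, feq_symm (pair_self_eq h2).1⟩
      · exact ⟨r, hr, feq_symm (pair_self_eq h2).1⟩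
    refine ⟨hx, ?_⟩
    -- if `y = x` then `y' = x`
    have key : ∀ q ≤ p, feq y x q → feq y y' q := by
      intro q hq hyx
      have h1 : fmem (Nam.pair x' y') (opN x y) q :=
        fmem_congr_right (feq_symm (feq_mono hq h)) (fmem_pair_right _ _ q)
      refine feq_reg fun r hr => ?_
      obtain ⟨s, hs, h2 | h2⟩ := fmem_pair.1 h1 r hr
      · refine ⟨s, hs, feq_trans (feq_mono (hs.trans hr) hyx) ?_⟩
        exact feq_symm (pair_self_eq (feq_symm h2)).2
      · have h3 : fmem y' (Nam.pair x y) s := fmem_congr_right h2 (fmem_pair_right _ _ s)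
        obtain ⟨t, ht, h4 | h4⟩ := fmem_pair.1 h3 s le_rfl
        · exact ⟨t, ht.trans hs, feq_trans (feq_mono (ht.trans (hs.trans hr)) hyx)
            (feq_symm h4)⟩
        · exact ⟨t, ht.trans hs, feq_symm h4⟩
    refine feq_reg fun q hq => ?_
    have h1 : fmem (Nam.pair x y) (opN x' y') q :=
      fmem_congr_right (feq_mono hq h) (fmem_pair_right _ _ q)
    obtain ⟨r, hr, h2 | h2⟩ := fmem_pair.1 h1 q le_rfl
    · have h3 := (pair_self_eq (feq_symm h2)).2
      exact ⟨r, hr, key r (hr.trans hq)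
        (feq_trans h3 (feq_symm (feq_mono (hr.trans hq) hx)))⟩
    · have h3 : fmem y (Nam.pair x' y') r := fmem_congr_right h2 (fmem_pair_right _ _ r)
      obtain ⟨s, hs, h4 | h4⟩ := fmem_pair.1 h3 r le_rfl
      · have hsp : s ≤ p := hs.trans (hr.trans hq)
        exact ⟨s, hs.trans hr, key s hsp (feq_trans h4 (feq_symm (feq_mono hsp hx)))⟩
      · exact ⟨s, hs.trans hr, h4⟩
  · rintro ⟨h1, h2⟩
    exact opN_congr h1 h2

theorem FFun.reg' (e x y : Nam P) : Reg (FFun e x y) := by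
  refine ⟨fun hq h => ⟨fun z r hr => h.pairs z r (hr.trans hq),
    fun a r hr => h.total a r (hr.trans hq), fun a b b' r hr => h.func a b b' r (hr.trans hq)⟩,
    fun {p} h => ⟨fun z q hq hz r hr => ?_, fun a q hq ha r hr => ?_,
      fun a b b' q hq h1 h2 => ?_⟩⟩
  · obtain ⟨s, hs, hs'⟩ := h r (hr.trans hq)
    obtain ⟨t, ht, a, b, h1⟩ := hs'.pairs z s le_rfl (fmem_mono (hs.trans hr) hz) s le_rfl
    exact ⟨t, ht.trans hs, a, b, h1⟩
  · obtain ⟨s, hs, hs'⟩ := h r (hr.trans hq)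
    obtain ⟨t, ht, b, h1⟩ := hs'.total a s le_rfl (fmem_mono (hs.trans hr) ha) s le_rfl
    exact ⟨t, ht.trans hs, b, h1⟩
  · refine feq_reg fun r hr => ?_
    obtain ⟨s, hs, hs'⟩ := h r (hr.trans hq)
    exact ⟨s, hs, hs'.func a b b' s le_rfl (fmem_mono (hs.trans hr) h1)
      (fmem_mono (hs.trans hr) h2)⟩

theorem FInj.reg' (e x y : Nam P) : Reg (FInj e x y) := by
  refine ⟨fun hq h => ⟨(FFun.reg' e x y).mono hq h.toFFun,
    fun a a' b r hr => h.inj a a' b r (hr.trans hq)⟩,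
    fun {p} h => ⟨(FFun.reg' e x y).reg fun q hq => ?_, fun a a' b q hq h1 h2 => ?_⟩⟩
  · obtain ⟨r, hr, hr'⟩ := h q hq
    exact ⟨r, hr, hr'.toFFun⟩
  · refine feq_reg fun r hr => ?_
    obtain ⟨s, hs, hs'⟩ := h r (hr.trans hq)
    exact ⟨s, hs, hs'.inj a a' b s le_rfl (fmem_mono (hs.trans hr) h1)
      (fmem_mono (hs.trans hr) h2)⟩

theorem FFun.congr {e x y e' x' y' : Nam P} {p : P} (he : feq e e' p) (hx : feq x x' p)
    (hy : feq y y' p) (h : FFun e x y p) : FFun e' x' y' p := by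
  refine ⟨fun z q hq hz r hr => ?_, fun a q hq ha r hr => ?_, fun a b b' q hq h1 h2 => ?_⟩
  · obtain ⟨s, hs, a, b, h1, h2, h3⟩ := h.pairs z q hq
      (fmem_congr_right (feq_symm (feq_mono hq he)) hz) r hr
    have hsp := hs.trans (hr.trans hq)
    exact ⟨s, hs, a, b, fmem_congr_right (feq_mono hsp hx) h1,
      fmem_congr_right (feq_mono hsp hy) h2, h3⟩
  · obtain ⟨s, hs, b, h1⟩ := h.total a q hq (fmem_congr_right (feq_symm (feq_mono hq hx)) ha) r hr
    exact ⟨s, hs, b, fmem_congr_right (feq_mono (hs.trans (hr.trans hq)) he) h1⟩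
  · exact h.func a b b' q hq (fmem_congr_right (feq_symm (feq_mono hq he)) h1)
      (fmem_congr_right (feq_symm (feq_mono hq he)) h2)

theorem FInj.congr {e x y e' x' y' : Nam P} {p : P} (he : feq e e' p) (hx : feq x x' p)
    (hy : feq y y' p) (h : FInj e x y p) : FInj e' x' y' p :=
  ⟨h.toFFun.congr he hx hy, fun a a' b q hq h1 h2 => h.inj a a' b q hq
    (fmem_congr_right (feq_symm (feq_mono hq he)) h1)
    (fmem_congr_right (feq_symm (feq_mono hq he)) h2)⟩

end general0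

section general

variable {P : Type u} [Preorder P] [Nonempty P]

theorem not_ev_false : ¬ ∀ᶠ _ in (genU P : Filter P), False := by
  rw [Filter.eventually_false_iff_eq_bot]
  exact (genU P).neBot.ne

/-- Universal quantifiers. -/
theorem sem_all {S : Nam P → P → Prop} (hS : ∀ x, Reg (S x)) (hext : Ext' S) :
    (∀ x, ∀ᶠ p in (genU P : Filter P), S x p) ↔ ∀ᶠ p in (genU P : Filter P), ∀ x, S x p := by
  refine ⟨fun h => ?_, fun h x => h.mono fun p hp => hp x⟩
  by_contra hc
  rw [← gen_not fun p hp q hq x => (hS x).mono hq (hp x)] at hc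
  obtain ⟨x, hx⟩ := fullness' (fun y p => ∀ q ≤ p, ¬ S y q)
    (fun y => Reg.neg fun hq h => (hS y).mono hq h)
    (fun y z p hyz hy q hq hz => hy q hq (hext z y q (feq_symm (feq_mono hq hyz)) hz))
  have h1 : ∀ᶠ p in (genU P : Filter P), ∀ q ≤ p, ¬ S x q := by
    filter_upwards [hc] with p hp
    refine hx p fun q hq => ?_
    have h2 := hp q hq
    push Not at h2
    obtain ⟨y, hy⟩ := h2
    obtain ⟨r, hr, h3⟩ := (hS y).exists_neg hy
    exact ⟨r, hr, y, h3⟩
  refine not_ev_false (P := P) ?_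
  filter_upwards [h x, h1] with p hp hp' using hp' p le_rfl hp

/-- Existential quantifiers. -/
theorem sem_ex {S : Nam P → P → Prop} (hS : ∀ x, Reg (S x)) (hext : Ext' S) :
    (∃ x, ∀ᶠ p in (genU P : Filter P), S x p) ↔
      ∀ᶠ p in (genU P : Filter P), ∀ q ≤ p, ∃ r ≤ q, ∃ x, S x r := by
  constructor
  · rintro ⟨x, hx⟩
    filter_upwards [hx] with p hp q hq
    exact ⟨q, le_rfl, x, (hS x).mono hq hp⟩
  · intro h
    obtain ⟨x, hx⟩ := fullness' S hS hext
    exact ⟨x, h.mono fun p hp => hx p hp⟩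

/-- Implications. -/
theorem sem_imp {S T : P → Prop} (hS : ∀ p, S p → ∀ q ≤ p, S q) (hT : Reg T) :
    ((∀ᶠ p in (genU P : Filter P), S p) → ∀ᶠ p in (genU P : Filter P), T p) ↔
      ∀ᶠ p in (genU P : Filter P), ∀ q ≤ p, S q → T q := by
  constructor
  · intro h
    by_contra hc
    rw [← gen_not fun p hp q hq r hr => hp r (hr.trans hq)] at hc
    have h1 : ∀ᶠ p in (genU P : Filter P), S p ∧ ∀ q ≤ p, ¬ T q := by
      refine (gen_reg (A := fun p => S p ∧ ∀ q ≤ p, ¬ T q) fun p hp q hq =>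
        ⟨hS p hp.1 q hq, fun r hr => hp.2 r (hr.trans hq)⟩).1 ?_
      filter_upwards [hc] with p hp q hq
      have h2 := hp q hq
      push Not at h2
      obtain ⟨r, hr, hSr, hTr⟩ := h2
      obtain ⟨s, hs, h3⟩ := hT.exists_neg hTr
      exact ⟨s, hs.trans hr, hS r hSr s hs, h3⟩
    have h2 := h (h1.mono fun p hp => hp.1)
    refine not_ev_false (P := P) ?_
    filter_upwards [h1, h2] with p hp hp' using hp.2 p le_rfl hp'
  · intro h hs
    filter_upwards [h, hs] with p hp hp' using hp p le_rfl hp'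

/-- Universal statements with a premise. -/
theorem sem_all_imp {S T : Nam P → P → Prop} (hS : ∀ x, Reg (S x)) (hT : ∀ x, Reg (T x))
    (hSe : Ext' S) (hTe : Ext' T) :
    (∀ x, (∀ᶠ p in (genU P : Filter P), S x p) → ∀ᶠ p in (genU P : Filter P), T x p) ↔
      ∀ᶠ p in (genU P : Filter P), ∀ x, ∀ q ≤ p, S x q → T x q := by
  rw [← sem_all (S := fun x p => ∀ q ≤ p, S x q → T x q)]
  · refine forall_congr' fun x => sem_imp (fun p hp q hq => (hS x).mono hq hp) (hT x)
  · intro x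
    refine ⟨fun hq h r hr => h r (hr.trans hq), fun {p} h q hq hSq => ?_⟩
    refine (hT x).reg fun r hr => ?_
    obtain ⟨s, hs, hs'⟩ := h r (hr.trans hq)
    exact ⟨s, hs, hs' s le_rfl ((hS x).mono (hs.trans hr) hSq)⟩
  · intro x y p hxy h q hq hy
    exact hTe x y q (feq_mono hq hxy)
      (h q hq (hSe y x q (feq_symm (feq_mono hq hxy)) hy))

theorem ME_pair {x y : Nam P} {w : Mod P} :
    ME w (cls (Nam.pair x y)) ↔ w = cls x ∨ w = cls y := by
  obtain ⟨w, rfl⟩ := cls_surj w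
  rw [ME_wt, cls_eq, cls_eq, ← Ultrafilter.eventually_or]
  refine Filter.eventually_congr (Filter.Eventually.of_forall fun p => ?_)
  constructor
  · rintro ⟨⟨b⟩, -, h⟩
    cases b
    · exact Or.inr h
    · exact Or.inl h
  · rintro (h | h)
    · exact ⟨⟨true⟩, trivial, h⟩
    · exact ⟨⟨false⟩, trivial, h⟩

theorem eq_pair_iff {x y : Nam P} {z : Mod P} :
    (∀ w, ME w z ↔ w = cls x ∨ w = cls y) ↔ z = cls (Nam.pair x y) := by
  constructor
  · intro h
    exact ax_ext _ _ fun w => (h w).trans ME_pair.symm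
  · rintro rfl w
    exact ME_pair

theorem isPair_cls {z : Mod P} {x y : Nam P} :
    IsPair ME z (cls x) (cls y) ↔ z = cls (opN x y) := by
  have h1 : ∀ z : Mod P, (∀ w, ME w z ↔ w = cls x) ↔ z = cls (Nam.pair x x) := by
    intro z
    rw [← eq_pair_iff]
    refine forall_congr' fun w => ?_
    rw [or_self]
  unfold IsPair
  constructor
  · intro h
    refine ax_ext _ _ fun w => ?_
    rw [h w, h1, eq_pair_iff]
    exact ME_pair.symm
  · rintro rfl w
    rw [h1, eq_pair_iff]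
    exact ME_pair

theorem hasPair_cls {e x y : Nam P} :
    HasPair ME (cls e) (cls x) (cls y) ↔ ∀ᶠ p in (genU P : Filter P), fmem (opN x y) e p := by
  rw [← ME_cls]
  constructor
  · rintro ⟨q, hq, h⟩
    rw [isPair_cls] at h
    rwa [← h]
  · intro h
    exact ⟨_, h, isPair_cls.2 rfl⟩

theorem isFun_cls {e x y : Nam P} :
    IsFun ME (cls e) (cls x) (cls y) ↔ ∀ᶠ p in (genU P : Filter P), FFun e x y p := by
  have hp : (∀ z, ME z (cls e) → ∃ a b, ME a (cls x) ∧ ME b (cls y) ∧ IsPair ME z a b) ↔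
      ∀ᶠ p in (genU P : Filter P), ∀ z, ∀ q ≤ p, fmem z e q → ∀ r ≤ q, ∃ s ≤ r, ∃ a b,
        fmem a x s ∧ fmem b y s ∧ feq z (opN a b) s := by
    rw [← sem_all_imp (S := fun z p => fmem z e p) (T := fun z p => ∀ r ≤ p, ∃ s ≤ r, ∃ a b,
        fmem a x s ∧ fmem b y s ∧ feq z (opN a b) s) (fun z => fmemReg _ _)
        (fun z => Reg.dense) (fun z z' p hz h => fmem_congr_left hz h)
        (fun z z' p hz h q hq => by
          obtain ⟨r, hr, a, b, h1, h2, h3⟩ := h q hq
          exact ⟨r, hr, a, b, h1, h2, feq_trans (feq_symm (feq_mono (hr.trans hq) hz)) h3⟩)]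
    have h2 : ∀ z : Nam P, (∃ a b, ME a (cls x) ∧ ME b (cls y) ∧ IsPair ME (cls z) a b) ↔
        ∀ᶠ p in (genU P : Filter P), ∀ r ≤ p, ∃ s ≤ r, ∃ a b,
          fmem a x s ∧ fmem b y s ∧ feq z (opN a b) s := by
      intro z
      constructor
      · rintro ⟨a, b, ha, hb, hab⟩
        obtain ⟨a, rfl⟩ := cls_surj a
        obtain ⟨b, rfl⟩ := cls_surj b
        rw [isPair_cls, cls_eq] at hab
        rw [ME_cls] at ha hb
        filter_upwards [ha, hb, hab] with p h1 h2 h3 q hq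
        exact ⟨q, le_rfl, a, b, fmem_mono hq h1, fmem_mono hq h2, feq_mono hq h3⟩
      · intro h
        have h3 : ∃ a, ∀ᶠ p in (genU P : Filter P), ∀ q ≤ p, ∃ r ≤ q, ∃ b,
            fmem a x r ∧ fmem b y r ∧ feq z (opN a b) r := by
          refine (sem_ex (S := fun a p => ∀ q ≤ p, ∃ r ≤ q, ∃ b,
            fmem a x r ∧ fmem b y r ∧ feq z (opN a b) r) (fun a => Reg.dense) ?_).2 ?_
          · intro a a' p ha h q hq
            obtain ⟨r, hr, b, h1, h2, h3⟩ := h q hq
            have har := feq_mono (hr.trans hq) ha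
            exact ⟨r, hr, b, fmem_congr_left har h1, h2,
              feq_trans h3 (opN_congr har (feq_refl _ r))⟩
          · filter_upwards [h] with p hp q hq
            obtain ⟨r, hr, a, b, h1, h2, h3⟩ := hp q hq
            exact ⟨r, hr, a, fun s hs => ⟨s, le_rfl, b, fmem_mono hs h1, fmem_mono hs h2,
              feq_mono hs h3⟩⟩
        obtain ⟨a, ha⟩ := h3
        have h4 : ∃ b, ∀ᶠ p in (genU P : Filter P),
            fmem a x p ∧ fmem b y p ∧ feq z (opN a b) p := by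
          refine (sem_ex (S := fun b p => fmem a x p ∧ fmem b y p ∧ feq z (opN a b) p)
            (fun b => (fmemReg _ _).and ((fmemReg _ _).and (feqReg _ _))) ?_).2 ha
          intro b b' p hb h
          exact ⟨h.1, fmem_congr_left hb h.2.1,
            feq_trans h.2.2 (opN_congr (feq_refl _ p) hb)⟩
        obtain ⟨b, hb⟩ := h4
        refine ⟨cls a, cls b, ?_, ?_, ?_⟩
        · rw [ME_cls]
          exact hb.mono fun p hp => hp.1
        · rw [ME_cls]
          exact hb.mono fun p hp => hp.2.1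
        · rw [isPair_cls, cls_eq]
          exact hb.mono fun p hp => hp.2.2
    constructor
    · intro h z hz
      exact (h2 z).1 (h (cls z) hz)
    · intro h z hz
      obtain ⟨z, rfl⟩ := cls_surj z
      exact (h2 z).2 (h z hz)
  have ht : (∀ a, ME a (cls x) → ∃ b, HasPair ME (cls e) a b) ↔
      ∀ᶠ p in (genU P : Filter P), ∀ a, ∀ q ≤ p, fmem a x q → ∀ r ≤ q, ∃ s ≤ r, ∃ b,
        fmem (opN a b) e s := by
    rw [← sem_all_imp (S := fun a p => fmem a x p) (T := fun a p => ∀ r ≤ p, ∃ s ≤ r, ∃ b,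
        fmem (opN a b) e s) (fun z => fmemReg _ _)
        (fun z => Reg.dense) (fun z z' p hz h => fmem_congr_left hz h)
        (fun z z' p hz h q hq => by
          obtain ⟨r, hr, b, h1⟩ := h q hq
          exact ⟨r, hr, b, fmem_congr_left (opN_congr (feq_mono (hr.trans hq) hz)
            (feq_refl _ r)) h1⟩)]
    have h2 : ∀ a : Nam P, (∃ b, HasPair ME (cls e) (cls a) b) ↔
        ∀ᶠ p in (genU P : Filter P), ∀ r ≤ p, ∃ s ≤ r, ∃ b, fmem (opN a b) e s := by
      intro a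
      rw [← sem_ex (S := fun b p => fmem (opN a b) e p) (fun b => fmemReg _ _)
        (fun b b' p hb h => fmem_congr_left (opN_congr (feq_refl _ p) hb) h)]
      constructor
      · rintro ⟨b, hb⟩
        obtain ⟨b, rfl⟩ := cls_surj b
        exact ⟨b, hasPair_cls.1 hb⟩
      · rintro ⟨b, hb⟩
        exact ⟨cls b, hasPair_cls.2 hb⟩
    constructor
    · intro h a ha
      exact (h2 a).1 (h (cls a) ha)
    · intro h a ha
      obtain ⟨a, rfl⟩ := cls_surj a
      exact (h2 a).2 (h a ha)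
  have hf : (∀ a b b', HasPair ME (cls e) a b → HasPair ME (cls e) a b' → b = b') ↔
      ∀ᶠ p in (genU P : Filter P), ∀ a b b', ∀ q ≤ p, fmem (opN a b) e q →
        fmem (opN a b') e q → feq b b' q := by
    have key : ∀ a b b' : Nam P, Reg fun p => ∀ q ≤ p, fmem (opN a b) e q →
        fmem (opN a b') e q → feq b b' q := by
      intro a b b'
      refine ⟨fun hq h r hr => h r (hr.trans hq), fun {p} h q hq h1 h2 => ?_⟩
      refine feq_reg fun r hr => ?_
      obtain ⟨s, hs, hs'⟩ := h r (hr.trans hq)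
      exact ⟨s, hs, hs' s le_rfl (fmem_mono (hs.trans hr) h1) (fmem_mono (hs.trans hr) h2)⟩
    have kext : ∀ a a' b c b' c' : Nam P, ∀ p, feq a a' p → feq b c p → feq b' c' p →
        (∀ q ≤ p, fmem (opN a b) e q → fmem (opN a b') e q → feq b b' q) →
        ∀ q ≤ p, fmem (opN a' c) e q → fmem (opN a' c') e q → feq c c' q := by
      intro a a' b c b' c' p ha hb hb' h q hq h1 h2
      have h3 := h q hq
        (fmem_congr_left (feq_symm (opN_congr (feq_mono hq ha) (feq_mono hq hb))) h1)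
        (fmem_congr_left (feq_symm (opN_congr (feq_mono hq ha) (feq_mono hq hb'))) h2)
      exact feq_trans (feq_symm (feq_mono hq hb)) (feq_trans h3 (feq_mono hq hb'))
    rw [← sem_all (S := fun a p => ∀ b b', ∀ q ≤ p, fmem (opN a b) e q →
        fmem (opN a b') e q → feq b b' q) (fun a => Reg.all fun b => Reg.all fun b' => key a b b')
        (fun a a' p ha h b b' => kext a a' b b b' b' p ha (feq_refl _ p) (feq_refl _ p)
          (h b b'))]
    have h3 : ∀ a : Nam P, (∀ᶠ p in (genU P : Filter P), ∀ b b', ∀ q ≤ p, fmem (opN a b) e q →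
        fmem (opN a b') e q → feq b b' q) ↔ ∀ b, ∀ᶠ p in (genU P : Filter P), ∀ b', ∀ q ≤ p,
        fmem (opN a b) e q → fmem (opN a b') e q → feq b b' q := by
      intro a
      rw [← sem_all (S := fun b p => ∀ b', ∀ q ≤ p, fmem (opN a b) e q →
        fmem (opN a b') e q → feq b b' q) (fun b => Reg.all fun b' => key a b b')
        (fun b c p hb h b' => kext a a b c b' b' p (feq_refl _ p) hb (feq_refl _ p) (h b'))]
    have h4 : ∀ a b : Nam P, (∀ᶠ p in (genU P : Filter P), ∀ b', ∀ q ≤ p,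
        fmem (opN a b) e q → fmem (opN a b') e q → feq b b' q) ↔
        ∀ b', ∀ᶠ p in (genU P : Filter P), ∀ q ≤ p,
        fmem (opN a b) e q → fmem (opN a b') e q → feq b b' q := by
      intro a b
      rw [← sem_all (S := fun b' p => ∀ q ≤ p, fmem (opN a b) e q →
        fmem (opN a b') e q → feq b b' q) (fun b' => key a b b')
        (fun b' c' p hb h => kext a a b b b' c' p (feq_refl _ p) (feq_refl _ p) hb h)]
    have h5 : ∀ a b b' : Nam P, (∀ᶠ p in (genU P : Filter P), ∀ q ≤ p,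
        fmem (opN a b) e q → fmem (opN a b') e q → feq b b' q) ↔
        (HasPair ME (cls e) (cls a) (cls b) → HasPair ME (cls e) (cls a) (cls b') →
          cls b = cls b') := by
      intro a b b'
      rw [hasPair_cls, hasPair_cls, cls_eq]
      have h6 := sem_imp (P := P) (S := fun p => fmem (opN a b) e p ∧ fmem (opN a b') e p)
        (T := fun p => feq b b' p) (fun p hp q hq => ⟨fmem_mono hq hp.1, fmem_mono hq hp.2⟩)
        (feqReg _ _)
      constructor
      · intro h h1 h2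
        filter_upwards [h, h1, h2] with p hp hp1 hp2 using hp p le_rfl hp1 hp2
      · intro h
        refine (h6.1 fun h7 => h (h7.mono fun p hp => hp.1) (h7.mono fun p hp => hp.2)).mono
          fun p hp q hq h1 h2 => hp q hq ⟨h1, h2⟩
    constructor
    · intro h a
      rw [h3]
      intro b
      rw [h4]
      intro b'
      rw [h5]
      exact h (cls a) (cls b) (cls b')
    · intro h a b b'
      obtain ⟨a, rfl⟩ := cls_surj a
      obtain ⟨b, rfl⟩ := cls_surj b
      obtain ⟨b', rfl⟩ := cls_surj b'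
      exact (h5 a b b').1 ((h4 a b).1 ((h3 a).1 (h a) b) b')
  constructor
  · intro h
    filter_upwards [hp.1 h.pairs, ht.1 h.total, hf.1 h.func] with p h1 h2 h3 using ⟨h1, h2, h3⟩
  · intro h
    exact ⟨hp.2 (h.mono fun p hp => hp.pairs), ht.2 (h.mono fun p hp => hp.total),
      hf.2 (h.mono fun p hp => hp.func)⟩

theorem isInj_cls {e x y : Nam P} :
    IsInj ME (cls e) (cls x) (cls y) ↔ ∀ᶠ p in (genU P : Filter P), FInj e x y p := by
  have hf : (∀ a a' b, HasPair ME (cls e) a b → HasPair ME (cls e) a' b → a = a') ↔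
      ∀ᶠ p in (genU P : Filter P), ∀ a a' b, ∀ q ≤ p, fmem (opN a b) e q →
        fmem (opN a' b) e q → feq a a' q := by
    have key : ∀ a a' b : Nam P, Reg fun p => ∀ q ≤ p, fmem (opN a b) e q →
        fmem (opN a' b) e q → feq a a' q := by
      intro a a' b
      refine ⟨fun hq h r hr => h r (hr.trans hq), fun {p} h q hq h1 h2 => ?_⟩
      refine feq_reg fun r hr => ?_
      obtain ⟨s, hs, hs'⟩ := h r (hr.trans hq)
      exact ⟨s, hs, hs' s le_rfl (fmem_mono (hs.trans hr) h1) (fmem_mono (hs.trans hr) h2)⟩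
    have kext : ∀ a c a' c' b d : Nam P, ∀ p, feq a c p → feq a' c' p → feq b d p →
        (∀ q ≤ p, fmem (opN a b) e q → fmem (opN a' b) e q → feq a a' q) →
        ∀ q ≤ p, fmem (opN c d) e q → fmem (opN c' d) e q → feq c c' q := by
      intro a c a' c' b d p ha ha' hb h q hq h1 h2
      have h3 := h q hq
        (fmem_congr_left (feq_symm (opN_congr (feq_mono hq ha) (feq_mono hq hb))) h1)
        (fmem_congr_left (feq_symm (opN_congr (feq_mono hq ha') (feq_mono hq hb))) h2)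
      exact feq_trans (feq_symm (feq_mono hq ha)) (feq_trans h3 (feq_mono hq ha'))
    rw [← sem_all (S := fun a p => ∀ a' b, ∀ q ≤ p, fmem (opN a b) e q →
        fmem (opN a' b) e q → feq a a' q) (fun a => Reg.all fun a' => Reg.all fun b => key a a' b)
        (fun a c p ha h a' b => kext a c a' a' b b p ha (feq_refl _ p) (feq_refl _ p)
          (h a' b))]
    have h3 : ∀ a : Nam P, (∀ᶠ p in (genU P : Filter P), ∀ a' b, ∀ q ≤ p, fmem (opN a b) e q →
        fmem (opN a' b) e q → feq a a' q) ↔ ∀ a', ∀ᶠ p in (genU P : Filter P), ∀ b, ∀ q ≤ p,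
        fmem (opN a b) e q → fmem (opN a' b) e q → feq a a' q := by
      intro a
      rw [← sem_all (S := fun a' p => ∀ b, ∀ q ≤ p, fmem (opN a b) e q →
        fmem (opN a' b) e q → feq a a' q) (fun a' => Reg.all fun b => key a a' b)
        (fun a' c' p hb h b => kext a a a' c' b b p (feq_refl _ p) hb (feq_refl _ p) (h b))]
    have h4 : ∀ a a' : Nam P, (∀ᶠ p in (genU P : Filter P), ∀ b, ∀ q ≤ p,
        fmem (opN a b) e q → fmem (opN a' b) e q → feq a a' q) ↔
        ∀ b, ∀ᶠ p in (genU P : Filter P), ∀ q ≤ p,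
        fmem (opN a b) e q → fmem (opN a' b) e q → feq a a' q := by
      intro a a'
      rw [← sem_all (S := fun b p => ∀ q ≤ p, fmem (opN a b) e q →
        fmem (opN a' b) e q → feq a a' q) (fun b => key a a' b)
        (fun b d p hb h => kext a a a' a' b d p (feq_refl _ p) (feq_refl _ p) hb h)]
    have h5 : ∀ a a' b : Nam P, (∀ᶠ p in (genU P : Filter P), ∀ q ≤ p,
        fmem (opN a b) e q → fmem (opN a' b) e q → feq a a' q) ↔
        (HasPair ME (cls e) (cls a) (cls b) → HasPair ME (cls e) (cls a') (cls b) →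
          cls a = cls a') := by
      intro a a' b
      rw [hasPair_cls, hasPair_cls, cls_eq]
      have h6 := sem_imp (P := P) (S := fun p => fmem (opN a b) e p ∧ fmem (opN a' b) e p)
        (T := fun p => feq a a' p) (fun p hp q hq => ⟨fmem_mono hq hp.1, fmem_mono hq hp.2⟩)
        (feqReg _ _)
      constructor
      · intro h h1 h2
        filter_upwards [h, h1, h2] with p hp hp1 hp2 using hp p le_rfl hp1 hp2
      · intro h
        refine (h6.1 fun h7 => h (h7.mono fun p hp => hp.1) (h7.mono fun p hp => hp.2)).mono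
          fun p hp q hq h1 h2 => hp q hq ⟨h1, h2⟩
    constructor
    · intro h a
      rw [h3]
      intro a'
      rw [h4]
      intro b
      rw [h5]
      exact h (cls a) (cls a') (cls b)
    · intro h a a' b
      obtain ⟨a, rfl⟩ := cls_surj a
      obtain ⟨a', rfl⟩ := cls_surj a'
      obtain ⟨b, rfl⟩ := cls_surj b
      exact (h5 a a' b).1 ((h4 a a').1 ((h3 a).1 (h a) a') b)
  constructor
  · intro h
    filter_upwards [isFun_cls.1 h.toIsFun, hf.1 h.inj] with p h1 h2 using ⟨h1, h2⟩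
  · intro h
    exact ⟨isFun_cls.2 (h.mono fun p hp => hp.toFFun), hf.2 (h.mono fun p hp => hp.inj)⟩

theorem cardLe_cls {x y : Nam P} :
    CardLe ME (cls x) (cls y) ↔
      ∀ᶠ p in (genU P : Filter P), ∀ q ≤ p, ∃ r ≤ q, ∃ e, FInj e x y r := by
  rw [← sem_ex (S := fun e p => FInj e x y p) (fun e => FInj.reg' e x y)
    (fun e e' p he h => FInj.congr he (feq_refl _ p) (feq_refl _ p) h)]
  constructor
  · rintro ⟨e, he⟩
    obtain ⟨e, rfl⟩ := cls_surj e
    exact ⟨e, isInj_cls.1 he⟩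
  · rintro ⟨e, he⟩
    exact ⟨cls e, isInj_cls.2 he⟩

end general

section ordinals

variable {P : Type u} [Preorder P] {L : Type u} [LinearOrder L] [WellFoundedLT L]

theorem fmem_on_of_lt {x y : L} (h : x < y) (p : P) : fmem (on P x) (on P y) p := by
  rw [on_eq y]
  exact fmem_of_wt (y := chk P (Iio y)) (j := ⟨x, h⟩) (p := p) trivial

theorem not_fmem_self (x : L) : ∀ p : P, ¬ fmem (on P x) (on P x) p := by
  induction x using WellFoundedLT.induction with
  | ind x ih =>
    intro p h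
    have h1 : fmem (on P x) (chk P (Iio x)) p := by
      rw [← on_eq]
      exact h
    obtain ⟨r, hr, j, -, hj⟩ := h1 p le_rfl
    have hj' : feq (on P x) (on P j.1) r := hj
    refine ih j.1 j.2 r ?_
    exact fmem_congr_right hj' (fmem_on_of_lt j.2 r)

theorem on_inj {x y : L} {p : P} : feq (on P x) (on P y) p ↔ x = y := by
  constructor
  · intro h
    rcases lt_trichotomy x y with hxy | hxy | hxy
    · exact absurd (fmem_congr_right (feq_symm h) (fmem_on_of_lt hxy p)) (not_fmem_self x p)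
    · exact hxy
    · exact absurd (fmem_congr_right h (fmem_on_of_lt hxy p)) (not_fmem_self y p)
  · rintro rfl
    exact feq_refl _ _

theorem fmem_on_chk {x : L} {a : Set L} {p : P} : fmem (on P x) (chk P a) p ↔ x ∈ a := by
  constructor
  · intro h
    obtain ⟨r, -, j, -, hj⟩ := h p le_rfl
    have hj' : feq (on P x) (on P j.1) r := hj
    rw [on_inj] at hj'
    exact hj' ▸ j.2
  · intro h
    exact fmem_of_wt (y := chk P a) (j := ⟨x, h⟩) trivial

theorem fmem_chk {z : Nam P} {a : Set L} {p : P} :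
    fmem z (chk P a) p ↔ ∀ q ≤ p, ∃ r ≤ q, ∃ x ∈ a, feq z (on P x) r := by
  constructor
  · intro h q hq
    obtain ⟨r, hr, j, -, hj⟩ := h q hq
    exact ⟨r, hr, j.1, j.2, hj⟩
  · intro h q hq
    obtain ⟨r, hr, x, hx, hx'⟩ := h q hq
    exact ⟨r, hr, ⟨x, hx⟩, trivial, hx'⟩

theorem fmem_nn {z : Nam P} {f : L → LowerSet P} {p : P} :
    fmem z (nn f) p ↔ ∀ q ≤ p, ∃ r ≤ q, ∃ x, r ∈ f x ∧ feq z (on P x) r := Iff.rfl

theorem fmem_on_nn {x : L} {f : L → LowerSet P} (hf : RegF f) {p : P} :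
    fmem (on P x) (nn f) p ↔ p ∈ f x := by
  rw [fmem_nn]
  constructor
  · intro h
    refine (hf x).reg fun q hq => ?_
    obtain ⟨r, hr, y, hy, hy'⟩ := h q hq
    rw [on_inj] at hy'
    exact ⟨r, hr, hy' ▸ hy⟩
  · intro h q hq
    exact ⟨q, le_rfl, x, (f x).lower hq h, feq_refl _ _⟩

/-- `p` decides the set named by `f` to be `d` iff it forces `nn f` to be the canonical name. -/
theorem feq_nn_chk {f : L → LowerSet P} (hf : RegF f) {d : Set L} {p : P} :
    feq (nn f) (chk P d) p ↔ Dc f d p := by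
  constructor
  · intro h
    refine ⟨fun x hx => ?_, fun x hx q hq hqx => hx ?_⟩
    · exact (fmem_on_nn hf).1 (fmem_congr_right (feq_symm h) (fmem_on_chk.2 hx))
    · exact fmem_on_chk.1 (fmem_congr_right (feq_mono hq h) ((fmem_on_nn hf).2 hqx))
  · rintro ⟨h1, h2⟩
    refine feq_of_fmem fun z q hq => ?_
    rw [fmem_nn, fmem_chk]
    constructor
    · intro h r hr
      obtain ⟨s, hs, x, hx, hx'⟩ := h r hr
      refine ⟨s, hs, x, ?_, hx'⟩
      by_contra hxd
      exact h2 x hxd s (hs.trans (hr.trans hq)) hx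
    · intro h r hr
      obtain ⟨s, hs, x, hx, hx'⟩ := h r hr
      exact ⟨s, hs, x, (f x).lower (hs.trans (hr.trans hq)) (h1 x hx), hx'⟩

theorem feq_nn {f g : L → LowerSet P} (hf : RegF f) (hg : RegF g) {p : P} :
    feq (nn f) (nn g) p ↔ ∀ x, ∀ q ≤ p, q ∈ f x ↔ q ∈ g x := by
  constructor
  · intro h x q hq
    rw [← fmem_on_nn hf, ← fmem_on_nn hg]
    exact fmem_congr_iff (feq_refl _ q) (feq_mono hq h)
  · intro h
    refine feq_of_fmem fun z q hq => ?_
    rw [fmem_nn, fmem_nn]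
    constructor
    · intro h' r hr
      obtain ⟨s, hs, x, hx, hx'⟩ := h' r hr
      exact ⟨s, hs, x, (h x s (hs.trans (hr.trans hq))).1 hx, hx'⟩
    · intro h' r hr
      obtain ⟨s, hs, x, hx, hx'⟩ := h' r hr
      exact ⟨s, hs, x, (h x s (hs.trans (hr.trans hq))).2 hx, hx'⟩

/-- The regular open family of a canonical name. -/
noncomputable def chF (P : Type u) [Preorder P] (d : Set L) : L → LowerSet P := fun x =>
  ⟨{p | x ∈ d}, fun _ _ _ h => h⟩

omit [LinearOrder L] [WellFoundedLT L] in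
theorem chF_reg (d : Set L) : RegF (chF P d) := by
  intro x
  refine ⟨fun _ h => h, fun h => ?_⟩
  obtain ⟨r, -, hr⟩ := h _ le_rfl
  exact hr

theorem chk_eq_nn (d : Set L) (p : P) : feq (chk P d) (nn (chF P d)) p := by
  refine feq_symm ((feq_nn_chk (chF_reg d)).2 ⟨fun x hx => hx, fun x hx q _ h => hx h⟩)

/-- The name of the graph of the restriction of `h` to `a`. -/
noncomputable def gr (P : Type u) [Preorder P] (a : Set L) (h : L → L) : Nam P :=
  ⟨a, fun _ => ⊤, fun x => opN (on P x.1) (on P (h x.1))⟩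

theorem fmem_gr_iff {a : Set L} {h : L → L} {z : Nam P} {p : P} :
    fmem z (gr P a h) p ↔ ∀ q ≤ p, ∃ r ≤ q, ∃ x ∈ a, feq z (opN (on P x) (on P (h x))) r := by
  constructor
  · intro h' q hq
    obtain ⟨r, hr, j, -, hj⟩ := h' q hq
    exact ⟨r, hr, j.1, j.2, hj⟩
  · intro h' q hq
    obtain ⟨r, hr, x, hx, hx'⟩ := h' q hq
    exact ⟨r, hr, ⟨x, hx⟩, trivial, hx'⟩

theorem fmem_gr {a : Set L} {h : L → L} {x y : L} {p : P} :
    fmem (opN (on P x) (on P y)) (gr P a h) p ↔ x ∈ a ∧ y = h x := by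
  have : Nonempty P := ⟨p⟩
  rw [fmem_gr_iff]
  constructor
  · intro h'
    obtain ⟨r, -, z, hz, hz'⟩ := h' p le_rfl
    rw [opN_inj, on_inj, on_inj] at hz'
    obtain ⟨rfl, rfl⟩ := hz'
    exact ⟨hz, rfl⟩
  · rintro ⟨hx, rfl⟩ q hq
    exact ⟨q, le_rfl, x, hx, feq_refl _ _⟩

theorem gr_fun {a b : Set L} {h : L → L} (hab : ∀ x ∈ a, h x ∈ b) (p : P) :
    FFun (gr P a h) (chk P a) (chk P b) p := by
  have : Nonempty P := ⟨p⟩
  refine ⟨fun z q _ hz r hr => ?_, fun z q _ hz r hr => ?_, fun z w w' q _ hw hw' => ?_⟩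
  · obtain ⟨s, hs, x, hx, hx'⟩ := fmem_gr_iff.1 hz r hr
    exact ⟨s, hs, on P x, on P (h x), fmem_on_chk.2 hx, fmem_on_chk.2 (hab x hx), hx'⟩
  · obtain ⟨s, hs, x, hx, hx'⟩ := fmem_chk.1 hz r hr
    refine ⟨s, hs, on P (h x), ?_⟩
    exact fmem_congr_left (opN_congr (feq_symm hx') (feq_refl _ s)) (fmem_gr.2 ⟨hx, rfl⟩)
  · refine feq_reg fun r hr => ?_
    obtain ⟨s, hs, x, hx, hx'⟩ := fmem_gr_iff.1 hw r hr
    obtain ⟨t, ht, y, hy, hy'⟩ := fmem_gr_iff.1 hw' s (hs.trans hr)
    obtain ⟨h1, h2⟩ := opN_inj.1 (feq_mono ht hx')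
    obtain ⟨h3, h4⟩ := opN_inj.1 hy'
    obtain rfl : x = y := on_inj.1 (feq_trans (feq_symm h1) h3)
    exact ⟨t, ht.trans hs, feq_trans h2 (feq_symm h4)⟩

theorem gr_inj {a b : Set L} {h : L → L} (hab : ∀ x ∈ a, h x ∈ b) (hi : InjOn h a) (p : P) :
    FInj (gr P a h) (chk P a) (chk P b) p := by
  have : Nonempty P := ⟨p⟩
  refine ⟨gr_fun hab p, fun z z' w q _ hz hz' => ?_⟩
  refine feq_reg fun r hr => ?_
  obtain ⟨s, hs, x, hx, hx'⟩ := fmem_gr_iff.1 hz r hr
  obtain ⟨t, ht, y, hy, hy'⟩ := fmem_gr_iff.1 hz' s (hs.trans hr)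
  obtain ⟨h1, h2⟩ := opN_inj.1 (feq_mono ht hx')
  obtain ⟨h3, h4⟩ := opN_inj.1 hy'
  obtain rfl : x = y := hi hx hy (on_inj.1 (feq_trans (feq_symm h2) h4))
  exact ⟨t, ht.trans hs, feq_trans h1 (feq_symm h3)⟩

end ordinals

section ordinals

variable {P : Type u} [Preorder P] {L : Type u} [LinearOrder L] [WellFoundedLT L]

/-- The regular family of a name of a subset of `L`. -/
noncomputable def trF (L : Type u) [LinearOrder L] [WellFoundedLT L] (a : Nam P) :
    L → LowerSet P := fun x => ⟨{p | fmem (on P x) a p}, fun _ _ h h' => fmem_mono h h'⟩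

theorem trF_reg (a : Nam P) : RegF (trF L a) := fun _ => fmemReg _ _

theorem nn_sub_univ (f : L → LowerSet P) {z : Nam P} {p : P} (h : fmem z (nn f) p) :
    fmem z (chk P (Set.univ : Set L)) p := by
  rw [fmem_nn] at h
  rw [fmem_chk]
  intro q hq
  obtain ⟨r, hr, x, -, hx⟩ := h q hq
  exact ⟨r, hr, x, mem_univ x, hx⟩

theorem nn_trF {a : Nam P} {p : P}
    (h : ∀ z, ∀ q ≤ p, fmem z a q → fmem z (chk P (Set.univ : Set L)) q) :
    feq a (nn (trF L a)) p := by
  refine feq_of_fmem fun z q hq => ⟨fun hz => ?_, fun hz => ?_⟩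
  · have h1 := h z q hq hz
    rw [fmem_chk] at h1
    rw [fmem_nn]
    intro r hr
    obtain ⟨s, hs, x, -, hx⟩ := h1 r hr
    exact ⟨s, hs, x, fmem_congr hx (feq_refl a s) (fmem_mono (hs.trans hr) hz), hx⟩
  · rw [fmem_nn] at hz
    refine fmem_reg fun r hr => ?_
    obtain ⟨s, hs, x, hx, hx'⟩ := hz r hr
    exact ⟨s, hs, fmem_congr (feq_symm hx') (feq_refl a s) hx⟩

theorem nn_sub_nn {f g : L → LowerSet P} {p : P} (h : ∀ x, ∀ q ≤ p, q ∈ f x → q ∈ g x)
    {z : Nam P} {q : P} (hq : q ≤ p) (hz : fmem z (nn f) q) : fmem z (nn g) q := by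
  rw [fmem_nn] at hz ⊢
  intro r hr
  obtain ⟨s, hs, x, hx, hx'⟩ := hz r hr
  exact ⟨s, hs, x, h x s (hs.trans (hr.trans hq)) hx, hx'⟩

variable [Nonempty P]

/-- Every subset of `L` in the model is the class of a regular name. -/
theorem sub_iff {A : Mod P} : Sub ME A (cls (chk P (Set.univ : Set L))) ↔
    ∃ f : L → LowerSet P, RegF f ∧ A = cls (nn f) := by
  constructor
  · intro h
    obtain ⟨a, rfl⟩ := cls_surj A
    refine ⟨trF L a, trF_reg a, ?_⟩
    rw [cls_eq]
    filter_upwards [los_sub.1 h] with p hp using nn_trF hp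
  · rintro ⟨f, -, rfl⟩
    exact los_sub.2 (Filter.Eventually.of_forall fun p z q _ hz => nn_sub_univ f hz)

theorem sub_nn {f g : L → LowerSet P} (hf : RegF f) (hg : RegF g) :
    Sub ME (cls (nn f)) (cls (nn g)) ↔ ∀ᶠ p in (genU P : Filter P), ∀ x, p ∈ f x → p ∈ g x := by
  have h1 : Sub ME (cls (nn f)) (cls (nn g)) ↔
      ∀ᶠ p in (genU P : Filter P), ∀ z, ∀ q ≤ p, fmem z (nn f) q → fmem z (nn g) q := los_sub
  rw [h1]
  constructor
  · intro h
    filter_upwards [h] with p hp x hx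
    exact (fmem_on_nn hg).1 (hp _ p le_rfl ((fmem_on_nn hf).2 hx))
  · intro h
    have hD : DenseOpen {p : P | (∀ x, ∀ q ≤ p, q ∈ f x → q ∈ g x) ∨
        ∃ x, p ∈ f x ∧ ∀ q ≤ p, q ∉ g x} := by
      refine ⟨?_, fun p => ?_⟩
      · rintro p (hp | ⟨x, hp, hp'⟩) q hq
        · exact Or.inl fun x r hr => hp x r (hr.trans hq)
        · exact Or.inr ⟨x, (f x).lower hq hp, fun r hr => hp' r (hr.trans hq)⟩
      · by_cases hp : ∀ x, ∀ q ≤ p, q ∈ f x → q ∈ g x
        · exact ⟨p, le_rfl, Or.inl hp⟩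
        · push Not at hp
          obtain ⟨x, q, hq, hqf, hqg⟩ := hp
          obtain ⟨r, hr, hr'⟩ : ∃ r ≤ q, ∀ s ≤ r, s ∉ g x := by
            by_contra hc
            push Not at hc
            exact hqg ((hg x).reg hc)
          exact ⟨r, hr.trans hq, Or.inr ⟨x, (f x).lower hr hqf, hr'⟩⟩
    filter_upwards [h, genU_dense hD] with p hp hp' z q hq hz
    rcases hp' with hp' | ⟨x, hx, hx'⟩
    · exact nn_sub_nn hp' hq hz
    · exact absurd (hp x hx) (hx' p le_rfl)

/-- The regular family of the difference. -/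
def dfF (f g : L → LowerSet P) : L → LowerSet P := fun x =>
  ⟨{p | p ∈ f x ∧ ∀ q ≤ p, q ∉ g x}, fun _ _ h h' => ⟨(f x).lower h h'.1, fun r hr =>
    h'.2 r (hr.trans h)⟩⟩

omit [LinearOrder L] [WellFoundedLT L] [Nonempty P] in
theorem dfF_reg {f : L → LowerSet P} (hf : RegF f) (g : L → LowerSet P) : RegF (dfF f g) :=
  fun x => (hf x).and (Reg.neg fun hq h => (g x).lower hq h)

theorem ME_nn {z : Nam P} {f : L → LowerSet P} : ME (cls z) (cls (nn f)) ↔
    ∀ᶠ p in (genU P : Filter P), ∃ x, p ∈ f x ∧ feq z (on P x) p := ME_wt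

theorem ME_chk {z : Nam P} {a : Set L} : ME (cls z) (cls (chk P a)) ↔
    ∀ᶠ p in (genU P : Filter P), ∃ x ∈ a, feq z (on P x) p := by
  rw [ME_wt]
  refine Filter.eventually_congr (Filter.Eventually.of_forall fun p => ?_)
  constructor
  · rintro ⟨x, -, h⟩
    exact ⟨x.1, x.2, h⟩
  · rintro ⟨x, hx, h⟩
    exact ⟨⟨x, hx⟩, trivial, h⟩

theorem diff_nn {f g : L → LowerSet P} (hf : RegF f) (hg : RegF g) {D : Mod P} :
    (∀ z, ME z D ↔ ME z (cls (nn f)) ∧ ¬ ME z (cls (nn g))) ↔ D = cls (nn (dfF f g)) := by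
  have key : ∀ z, ME z (cls (nn (dfF f g))) ↔ ME z (cls (nn f)) ∧ ¬ ME z (cls (nn g)) := by
    intro z
    obtain ⟨z, rfl⟩ := cls_surj z
    constructor
    · intro h
      rw [ME_nn] at h
      refine ⟨?_, fun h' => ?_⟩
      · rw [ME_nn]
        filter_upwards [h] with p ⟨x, hx, hx'⟩ using ⟨x, hx.1, hx'⟩
      · rw [ME_nn] at h'
        have h2 : ∀ᶠ p in (genU P : Filter P), False := by
          filter_upwards [h, h'] with p ⟨x, hx, hx'⟩ ⟨y, hy, hy'⟩
          obtain rfl : x = y := on_inj.1 (feq_trans (feq_symm hx') hy')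
          exact hx.2 p le_rfl hy
        rw [Filter.eventually_false_iff_eq_bot] at h2
        exact (genU P).neBot.ne h2
    · rintro ⟨h, h'⟩
      rw [ME_cls, ← gen_not fun p hp q hq => fmem_mono hq hp] at h'
      rw [ME_nn] at h ⊢
      filter_upwards [h, h'] with p ⟨x, hx, hx'⟩ hp'
      refine ⟨x, ⟨hx, fun q hq hqg => hp' q hq ?_⟩, hx'⟩
      exact fmem_congr (feq_symm (feq_mono hq hx')) (feq_refl _ q) ((fmem_on_nn hg).2 hqg)
  constructor
  · intro h
    exact ax_ext _ _ fun z => (h z).trans (key z).symm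
  · rintro rfl z
    exact key z

/-- The regular family of the image under `e`. -/
def imF (f : L → LowerSet P) (e : Nam P) : L → LowerSet P := fun y =>
  ⟨{p | ∀ q ≤ p, ∃ r ≤ q, ∃ x, r ∈ f x ∧ fmem (opN (on P x) (on P y)) e r},
    fun _ _ h h' q hq => h' q (hq.trans h)⟩

omit [Nonempty P] in
theorem imF_reg (f : L → LowerSet P) (e : Nam P) : RegF (imF f e) := fun _ => Reg.dense

/-- Images under a function (or relation) with values in `L`. -/
theorem image_nn {f : L → LowerSet P} (hf : RegF f) {e X : Nam P} {C : Mod P}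
    (he : IsFun ME (cls e) (cls X) (cls (chk P (Set.univ : Set L)))) :
    (∀ y, ME y C ↔ ∃ x, ME x (cls (nn f)) ∧ HasPair ME (cls e) x y) ↔
      C = cls (nn (imF f e)) := by
  have key : ∀ y, ME y (cls (nn (imF f e))) ↔
      ∃ x, ME x (cls (nn f)) ∧ HasPair ME (cls e) x y := by
    intro y
    obtain ⟨y, rfl⟩ := cls_surj y
    constructor
    · intro h
      rw [ME_nn] at h
      have h1 : ∀ᶠ p in (genU P : Filter P), ∀ q ≤ p, ∃ r ≤ q, ∃ x,
          fmem x (nn f) r ∧ fmem (opN x y) e r := by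
        filter_upwards [h] with p ⟨b, hb, hb'⟩ q hq
        obtain ⟨r, hr, x, hx, hx'⟩ := hb q hq
        refine ⟨r, hr, on P x, (fmem_on_nn hf).2 hx, ?_⟩
        exact fmem_congr (opN_congr (feq_refl _ r) (feq_symm (feq_mono (hr.trans hq) hb')))
          (feq_refl _ r) hx'
      have h2 := (sem_ex (S := fun x p => fmem x (nn f) p ∧ fmem (opN x y) e p)
        (fun x => (fmemReg _ _).and (fmemReg _ _)) (fun x x' p hx h =>
          ⟨fmem_congr hx (feq_refl _ p) h.1, fmem_congr (opN_congr hx (feq_refl _ p))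
            (feq_refl _ p) h.2⟩)).2 h1
      obtain ⟨x, hx⟩ := h2
      refine ⟨cls x, ?_, ?_⟩
      · rw [ME_cls]
        exact hx.mono fun p hp => hp.1
      · rw [hasPair_cls]
        exact hx.mono fun p hp => hp.2
    · rintro ⟨x, hx, hxy⟩
      obtain ⟨x, rfl⟩ := cls_surj x
      obtain ⟨q, hq, hq'⟩ := id hxy
      obtain ⟨a, b, ha, hb, hab⟩ := he.pairs q hq
      obtain ⟨a, rfl⟩ := cls_surj a
      obtain ⟨b, rfl⟩ := cls_surj b
      rw [isPair_cls] at hq' hab
      rw [hq', cls_eq] at hab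
      rw [ME_chk] at hb
      rw [ME_nn] at hx
      rw [hasPair_cls] at hxy
      rw [ME_nn]
      filter_upwards [hx, hxy, hab, hb] with p ⟨c, hc, hc'⟩ h1 h2 ⟨d, _, hd⟩
      obtain ⟨-, h3⟩ := opN_inj.1 h2
      have h4 := feq_trans h3 hd
      refine ⟨d, fun q hq => ⟨q, le_rfl, c, (f c).lower hq hc, ?_⟩, h4⟩
      exact fmem_congr (opN_congr (feq_mono hq hc') (feq_mono hq h4)) (feq_refl _ q)
        (fmem_mono hq h1)
  constructor
  · intro h
    exact ax_ext _ _ fun z => (h z).trans (key z).symm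
  · rintro rfl z
    exact key z

/-- Names for relations between subsets of `L`. -/
noncomputable def RN (w : (L → LowerSet P) → (L → LowerSet P) → LowerSet P) : Nam P :=
  ⟨{f : L → LowerSet P // RegF f} × {f : L → LowerSet P // RegF f}, fun i => w i.1.1 i.2.1,
    fun i => opN (nn i.1.1) (nn i.2.1)⟩

theorem RN_pairs (w : (L → LowerSet P) → (L → LowerSet P) → LowerSet P) (z : Mod P)
    (hz : ME z (cls (RN w))) : ∃ A B, Sub ME A (cls (chk P (Set.univ : Set L))) ∧
      Sub ME B (cls (chk P (Set.univ : Set L))) ∧ IsPair ME z A B := by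
  obtain ⟨z, rfl⟩ := cls_surj z
  let F : L → LowerSet P := fun x => ⟨{p | ∀ q ≤ p, ∃ r ≤ q, ∃ f g : L → LowerSet P,
    RegF f ∧ RegF g ∧ feq z (opN (nn f) (nn g)) r ∧ r ∈ f x},
    fun _ _ h h' q hq => h' q (hq.trans h)⟩
  let G : L → LowerSet P := fun x => ⟨{p | ∀ q ≤ p, ∃ r ≤ q, ∃ f g : L → LowerSet P,
    RegF f ∧ RegF g ∧ feq z (opN (nn f) (nn g)) r ∧ r ∈ g x},
    fun _ _ h h' q hq => h' q (hq.trans h)⟩
  have hF : RegF F := fun _ => Reg.dense
  have hG : RegF G := fun _ => Reg.dense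
  refine ⟨cls (nn F), cls (nn G), sub_iff.2 ⟨F, hF, rfl⟩, sub_iff.2 ⟨G, hG, rfl⟩, ?_⟩
  rw [isPair_cls, cls_eq]
  have h1 : ∀ᶠ p in (genU P : Filter P), ∃ j, p ∈ (RN w).wt j ∧ feq z ((RN w).el j) p :=
    ME_wt.1 hz
  filter_upwards [h1] with p ⟨⟨f, g⟩, _, hp⟩
  have hp' : feq z (opN (nn f.1) (nn g.1)) p := hp
  refine feq_trans hp' (opN_congr ?_ ?_)
  · rw [feq_nn f.2 hF]
    intro x q hq
    constructor
    · intro h r hr
      exact ⟨r, le_rfl, f.1, g.1, f.2, g.2, feq_mono (hr.trans hq) hp', (f.1 x).lower hr h⟩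
    · intro h
      refine (f.2 x).reg fun r hr => ?_
      obtain ⟨s, hs, f', g', hf', hg', h2, h3⟩ := h r hr
      have hsp : s ≤ p := hs.trans (hr.trans hq)
      have h4 := (opN_inj.1 (feq_trans (feq_symm h2) (feq_mono hsp hp'))).1
      exact ⟨s, hs, ((feq_nn hf' f.2).1 h4 x s le_rfl).1 h3⟩
  · rw [feq_nn g.2 hG]
    intro x q hq
    constructor
    · intro h r hr
      exact ⟨r, le_rfl, f.1, g.1, f.2, g.2, feq_mono (hr.trans hq) hp', (g.1 x).lower hr h⟩
    · intro h
      refine (g.2 x).reg fun r hr => ?_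
      obtain ⟨s, hs, f', g', hf', hg', h2, h3⟩ := h r hr
      have hsp : s ≤ p := hs.trans (hr.trans hq)
      have h4 := (opN_inj.1 (feq_trans (feq_symm h2) (feq_mono hsp hp'))).2
      exact ⟨s, hs, ((feq_nn hg' g.2).1 h4 x s le_rfl).1 h3⟩

theorem hasPair_RN {w : (L → LowerSet P) → (L → LowerSet P) → LowerSet P}
    (hw : ∀ f g, RegF f → RegF g → Reg (fun p => p ∈ w f g))
    (hext : ∀ f g f' g' p, RegF f → RegF g → RegF f' → RegF g' →
      (∀ x, ∀ q ≤ p, q ∈ f x ↔ q ∈ f' x) →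
      (∀ x, ∀ q ≤ p, q ∈ g x ↔ q ∈ g' x) → p ∈ w f g → p ∈ w f' g')
    {f g : L → LowerSet P} (hf : RegF f) (hg : RegF g) :
    HasPair ME (cls (RN w)) (cls (nn f)) (cls (nn g)) ↔
      ∀ᶠ p in (genU P : Filter P), p ∈ w f g := by
  rw [hasPair_cls]
  refine Filter.eventually_congr (Filter.Eventually.of_forall fun p => ?_)
  constructor
  · intro h
    refine (hw f g hf hg).reg fun q hq => ?_
    obtain ⟨r, hr, ⟨f', g'⟩, h1, h2⟩ := h q hq
    refine ⟨r, hr, ?_⟩
    have h2' : feq (opN (nn f) (nn g)) (opN (nn f'.1) (nn g'.1)) r := h2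
    obtain ⟨h3, h4⟩ := opN_inj.1 h2'
    exact hext f'.1 g'.1 f g r f'.2 g'.2 hf hg (fun x q hq => ((feq_nn hf f'.2).1 h3 x q hq).symm)
      (fun x q hq => ((feq_nn hg g'.2).1 h4 x q hq).symm) h1
  · intro h q hq
    exact ⟨q, le_rfl, ⟨⟨f, hf⟩, ⟨g, hg⟩⟩, (w f g).lower hq h, feq_refl _ _⟩

end ordinals

end MP9708F
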