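import Pool.Agent.Lib.MP_9708fd_lc.FNames

/-!
# Basic properties of the forcing relation

Monotonicity, regularity, the equality axioms, congruence and fullness.
-/

namespace MP9708F

universe u

variable {P : Type u} [Preorder P]

/-- A predicate on conditions is monotone and regular. -/
structure Reg (S : P → Prop) : Prop where
  mono : ∀ {p q : P}, q ≤ p → S p → S q
  reg : ∀ {p : P}, (∀ q ≤ p, ∃ r ≤ q, S r) → S p

theorem Reg.iff {S : P → Prop} (h : Reg S) (p : P) : S p ↔ ∀ q ≤ p, ∃ r ≤ q, S r :=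
  ⟨fun hp q hq => ⟨q, le_rfl, h.mono hq hp⟩, h.reg⟩

theorem Reg.top : Reg (fun _ : P => True) := ⟨fun _ _ => trivial, fun _ => trivial⟩

theorem Reg.neg {S : P → Prop} (h : ∀ {p q : P}, q ≤ p → S p → S q) :
    Reg (fun p => ∀ q ≤ p, ¬ S q) := by
  refine ⟨fun hqp hp r hr => hp r (hr.trans hqp), ?_⟩
  intro p hp q hq hS
  obtain ⟨r, hr, hrS⟩ := hp q hq
  exact hrS r le_rfl (h hr hS)

theorem Reg.and {S T : P → Prop} (hS : Reg S) (hT : Reg T) : Reg (fun p => S p ∧ T p) := by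
  refine ⟨fun hqp hp => ⟨hS.mono hqp hp.1, hT.mono hqp hp.2⟩, fun {p} hp => ⟨?_, ?_⟩⟩
  · refine hS.reg fun q hq => ?_
    obtain ⟨r, hr, h, -⟩ := hp q hq
    exact ⟨r, hr, h⟩
  · refine hT.reg fun q hq => ?_
    obtain ⟨r, hr, -, h⟩ := hp q hq
    exact ⟨r, hr, h⟩

theorem Reg.all {ι : Sort*} {S : ι → P → Prop} (hS : ∀ i, Reg (S i)) :
    Reg (fun p => ∀ i, S i p) := by
  refine ⟨fun hqp hp i => (hS i).mono hqp (hp i), fun {p} hp i => ?_⟩
  refine (hS i).reg fun q hq => ?_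
  obtain ⟨r, hr, h⟩ := hp q hq
  exact ⟨r, hr, h i⟩

/-- Densely below `p`, `S`, is regular. -/
theorem Reg.dense {S : P → Prop} : Reg (fun p => ∀ q ≤ p, ∃ r ≤ q, S r) := by
  refine ⟨fun hqp hp r hr => hp r (hr.trans hqp), ?_⟩
  intro p hp q hq
  obtain ⟨r, hr, h⟩ := hp q hq
  obtain ⟨s, hs, h'⟩ := h r le_rfl
  exact ⟨s, hs.trans hr, h'⟩

theorem feq_iff (x y : Nam P) (p : P) : feq x y p ↔
    (∀ i, ∀ q ≤ p, q ∈ x.wt i → ∃ r ≤ q, ∃ j, r ∈ y.wt j ∧ feq (x.el i) (y.el j) r) ∧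
    (∀ j, ∀ q ≤ p, q ∈ y.wt j → ∃ r ≤ q, ∃ i, r ∈ x.wt i ∧ feq (x.el i) (y.el j) r) := by
  cases x
  cases y
  rfl

theorem feq_mono {x y : Nam P} {p q : P} (hqp : q ≤ p) (h : feq x y p) : feq x y q := by
  rw [feq_iff] at h ⊢
  exact ⟨fun i r hr => h.1 i r (hr.trans hqp), fun j r hr => h.2 j r (hr.trans hqp)⟩

theorem feqReg (x y : Nam P) : Reg (feq x y) := by
  refine ⟨fun hqp h => feq_mono hqp h, fun {p} hp => ?_⟩
  rw [feq_iff]
  constructor
  · intro i q hq hqi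
    obtain ⟨r, hr, h⟩ := hp q hq
    obtain ⟨s, hs, j, h1, h2⟩ := ((feq_iff _ _ _).1 h).1 i r le_rfl ((x.wt i).lower hr hqi)
    exact ⟨s, hs.trans hr, j, h1, h2⟩
  · intro j q hq hqj
    obtain ⟨r, hr, h⟩ := hp q hq
    obtain ⟨s, hs, i, h1, h2⟩ := ((feq_iff _ _ _).1 h).2 j r le_rfl ((y.wt j).lower hr hqj)
    exact ⟨s, hs.trans hr, i, h1, h2⟩

theorem feq_refl (x : Nam P) (p : P) : feq x x p := by
  induction x generalizing p with
  | mk ι w x ih =>
    rw [feq_iff]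
    exact ⟨fun i q _ hqi => ⟨q, le_rfl, i, hqi, ih i q⟩,
      fun i q _ hqi => ⟨q, le_rfl, i, hqi, ih i q⟩⟩

theorem feq_symm {x y : Nam P} {p : P} (h : feq x y p) : feq y x p := by
  induction x generalizing y p with
  | mk ι w x ih =>
    rw [feq_iff] at h ⊢
    refine ⟨fun j q hq hqj => ?_, fun i q hq hqi => ?_⟩
    · obtain ⟨r, hr, i, h1, h2⟩ := h.2 j q hq hqj
      exact ⟨r, hr, i, h1, ih i h2⟩
    · obtain ⟨r, hr, j, h1, h2⟩ := h.1 i q hq hqi
      exact ⟨r, hr, j, h1, ih i h2⟩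

theorem feq_trans {x y z : Nam P} {p : P} (h : feq x y p) (h' : feq y z p) : feq x z p := by
  induction x generalizing y z p with
  | mk ι w x ih =>
    rw [feq_iff] at h h' ⊢
    constructor
    · intro i q hq hqi
      obtain ⟨r, hr, j, h1, h2⟩ := h.1 i q hq hqi
      obtain ⟨s, hs, k, h3, h4⟩ := h'.1 j r (hr.trans hq) h1
      exact ⟨s, hs.trans hr, k, h3, ih i (feq_mono hs h2) h4⟩
    · intro k q hq hqk
      obtain ⟨r, hr, j, h1, h2⟩ := h'.2 k q hq hqk
      obtain ⟨s, hs, i, h3, h4⟩ := h.2 j r (hr.trans hq) h1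
      exact ⟨s, hs.trans hr, i, h3, ih i h4 (feq_mono hs h2)⟩

theorem fmemReg (x y : Nam P) : Reg (fmem x y) := Reg.dense

theorem fmem_mono {x y : Nam P} {p q : P} (hqp : q ≤ p) (h : fmem x y p) : fmem x y q :=
  (fmemReg x y).mono hqp h

theorem fmem_of_wt {y : Nam P} {j : y.idx} {p : P} (h : p ∈ y.wt j) : fmem (y.el j) y p :=
  fun q hq => ⟨q, le_rfl, j, (y.wt j).lower hq h, feq_refl _ _⟩

theorem fmem_congr_left {x x' y : Nam P} {p : P} (h : feq x x' p) (h' : fmem x y p) :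
    fmem x' y p := by
  intro q hq
  obtain ⟨r, hr, j, h1, h2⟩ := h' q hq
  exact ⟨r, hr, j, h1, feq_trans (feq_symm (feq_mono (hr.trans hq) h)) h2⟩

theorem fmem_congr_right {x y y' : Nam P} {p : P} (h : feq y y' p) (h' : fmem x y p) :
    fmem x y' p := by
  intro q hq
  obtain ⟨r, hr, j, h1, h2⟩ := h' q hq
  obtain ⟨s, hs, k, h3, h4⟩ := ((feq_iff _ _ _).1 h).1 j r (hr.trans hq) h1
  exact ⟨s, hs.trans hr, k, h3, feq_trans (feq_mono hs h2) h4⟩

theorem fmem_congr_iff {x x' y y' : Nam P} {p : P} (h : feq x x' p) (h' : feq y y' p) :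
    fmem x y p ↔ fmem x' y' p :=
  ⟨fun hm => fmem_congr_right h' (fmem_congr_left h hm),
    fun hm => fmem_congr_right (feq_symm h') (fmem_congr_left (feq_symm h) hm)⟩

theorem fmem_congr {x x' y y' : Nam P} {p : P} (hx : feq x x' p) (hy : feq y y' p)
    (h : fmem x y p) : fmem x' y' p := (fmem_congr_iff hx hy).1 h

theorem feq_reg {x y : Nam P} {p : P} (h : ∀ q ≤ p, ∃ r ≤ q, feq x y r) : feq x y p :=
  (feqReg x y).reg h

theorem fmem_reg {x y : Nam P} {p : P} (h : ∀ q ≤ p, ∃ r ≤ q, fmem x y r) : fmem x y p :=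
  (fmemReg x y).reg h

/-- Extensionality. -/
theorem feq_of_fmem {x y : Nam P} {p : P} (h : ∀ z, ∀ q ≤ p, fmem z x q ↔ fmem z y q) :
    feq x y p := by
  rw [feq_iff]
  constructor
  · intro i q hq hqi
    obtain ⟨r, hr, j, h1, h2⟩ := (h (x.el i) q hq).1 (fmem_of_wt hqi) q le_rfl
    exact ⟨r, hr, j, h1, h2⟩
  · intro j q hq hqj
    obtain ⟨r, hr, i, h1, h2⟩ := (h (y.el j) q hq).2 (fmem_of_wt hqj) q le_rfl
    exact ⟨r, hr, i, h1, feq_symm h2⟩

theorem feq_iff_fmem {x y : Nam P} {p : P} :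
    feq x y p ↔ ∀ z, ∀ q ≤ p, fmem z x q ↔ fmem z y q :=
  ⟨fun h z q hq => fmem_congr_iff (feq_refl z q) (feq_mono hq h), feq_of_fmem⟩

/-- Membership in terms of the elements of a name. -/
theorem fmem_iff {x y : Nam P} {p : P} :
    fmem x y p ↔ ∀ q ≤ p, ∃ r ≤ q, ∃ j, r ∈ y.wt j ∧ feq x (y.el j) r := Iff.rfl

/-! ### The forcing relation -/

namespace SetFormula

theorem forces_reg (φ : SetFormula) (v : ℕ → Nam P) : Reg (φ.Forces v) := by
  induction φ generalizing v with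
  | mem i j => exact fmemReg _ _
  | eq i j => exact feqReg _ _
  | neg φ ih => exact Reg.neg fun hqp h => (ih v).mono hqp h
  | and φ ψ ih1 ih2 => exact (ih1 v).and (ih2 v)
  | all φ ih => exact Reg.all fun x => ih (push x v)

theorem forces_mono (φ : SetFormula) (v : ℕ → Nam P) {p q : P} (hqp : q ≤ p)
    (h : φ.Forces v p) : φ.Forces v q := (forces_reg φ v).mono hqp h

theorem forces_iff_dense (φ : SetFormula) (v : ℕ → Nam P) (p : P) :
    φ.Forces v p ↔ ∀ q ≤ p, ∃ r ≤ q, φ.Forces v r := (forces_reg φ v).iff p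

/-- Every formula is decided densely often. -/
theorem exists_decides (φ : SetFormula) (v : ℕ → Nam P) (p : P) :
    ∃ q ≤ p, φ.Forces v q ∨ φ.neg.Forces v q := by
  by_cases h : ∃ q ≤ p, φ.Forces v q
  · obtain ⟨q, hq, h⟩ := h
    exact ⟨q, hq, Or.inl h⟩
  · refine ⟨p, le_rfl, Or.inr fun q hq h' => h ⟨q, hq, h'⟩⟩

theorem forces_congr (φ : SetFormula) {v v' : ℕ → Nam P} {p : P} (h : ∀ n, feq (v n) (v' n) p)
    (h' : φ.Forces v p) : φ.Forces v' p := by
  induction φ generalizing v v' p with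
  | mem i j => exact (fmem_congr_iff (h i) (h j)).1 h'
  | eq i j => exact feq_trans (feq_symm (h i)) (feq_trans h' (h j))
  | neg φ ih =>
    intro q hq hφ
    exact h' q hq (ih (fun n => feq_symm (feq_mono hq (h n))) hφ)
  | and φ ψ ih1 ih2 => exact ⟨ih1 h h'.1, ih2 h h'.2⟩
  | all φ ih =>
    intro x
    refine ih (fun n => ?_) (h' x)
    cases n with
    | zero => exact feq_refl _ _
    | succ n => exact h n

/-- The formula `∃ x, φ`. -/
def ex (φ : SetFormula) : SetFormula := neg (all (neg φ))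

theorem forces_ex {φ : SetFormula} {v : ℕ → Nam P} {p : P} :
    φ.ex.Forces v p ↔ ∀ q ≤ p, ∃ r ≤ q, ∃ x, φ.Forces (push x v) r := by
  constructor
  · intro h q hq
    have := h q hq
    simp only [Forces, not_forall, not_not] at this
    obtain ⟨x, r, hr, h'⟩ := this
    exact ⟨r, hr, x, h'⟩
  · intro h q hq h'
    obtain ⟨r, hr, x, h''⟩ := h q hq
    exact h' x r hr h''

end SetFormula

theorem Forces_mono {φ : SetFormula} {v : ℕ → Nam P} {p q : P} (hq : q ≤ p)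
    (h : φ.Forces v p) : φ.Forces v q := φ.forces_mono v hq h

theorem Forces_reg {φ : SetFormula} {v : ℕ → Nam P} {p : P}
    (h : ∀ q ≤ p, ∃ r ≤ q, φ.Forces v r) : φ.Forces v p := (φ.forces_reg v).reg h

theorem Forces_congr {φ : SetFormula} {v v' : ℕ → Nam P} {p : P}
    (h : ∀ n, feq (v n) (v' n) p) (hφ : φ.Forces v p) : φ.Forces v' p := φ.forces_congr h hφ

/-- The empty name. -/
def Nam.empty : Nam P := ⟨PEmpty, fun i => i.elim, fun i => i.elim⟩

instance : Inhabited (Nam P) := ⟨Nam.empty⟩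

/-! ### Mixing and fullness -/

/-- A set of pairwise incompatible conditions. -/
def Antichain' (C : Set P) : Prop := ∀ a ∈ C, ∀ b ∈ C, ∀ r, r ≤ a → r ≤ b → a = b

/-- Mixing names over an antichain. -/
theorem exists_mix {C : Set P} (hC : Antichain' C) (f : P → Nam P) :
    ∃ x : Nam P, ∀ a ∈ C, feq x (f a) a := by
  refine ⟨⟨Σ a : C, (f a.1).idx, fun s => ⟨{p | p ≤ s.1.1 ∧ p ∈ (f s.1.1).wt s.2}, ?_⟩,
    fun s => (f s.1.1).el s.2⟩, ?_⟩
  · rintro p q hqp ⟨h1, h2⟩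
    exact ⟨hqp.trans h1, ((f s.1.1).wt s.2).lower hqp h2⟩
  · intro a ha
    rw [feq_iff]
    constructor
    · rintro ⟨⟨b, hb⟩, i⟩ q hq ⟨h1, h2⟩
      obtain rfl : a = b := hC a ha b hb q hq h1
      exact ⟨q, le_rfl, i, h2, feq_refl _ _⟩
    · intro j q hq hqj
      exact ⟨q, le_rfl, ⟨⟨a, ha⟩, j⟩, ⟨hq, hqj⟩, feq_refl _ _⟩

/-- Every set of conditions contains a maximal antichain: every element of the set is compatible
with an element of the antichain. -/
theorem exists_maximal_antichain (D : Set P) : ∃ C ⊆ D, Antichain' C ∧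
    ∀ p ∈ D, ∃ a ∈ C, ∃ r, r ≤ a ∧ r ≤ p := by
  obtain ⟨C, hC⟩ : ∃ C, Maximal (fun C : Set P => C ⊆ D ∧ Antichain' C) C := by
    apply zorn_subset
    intro c hc hchain
    refine ⟨⋃₀ c, ⟨Set.sUnion_subset fun q hq => (hc hq).1, ?_⟩,
      fun q hq => Set.subset_sUnion_of_mem hq⟩
    rintro a ⟨s, hs, has⟩ b ⟨t, ht, hbt⟩ r hra hrb
    rcases hchain.total hs ht with h | h
    · exact (hc ht).2 a (h has) b hbt r hra hrb
    · exact (hc hs).2 a has b (h hbt) r hra hrb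
  refine ⟨C, hC.prop.1, hC.prop.2, fun p hp => ?_⟩
  by_contra hcon
  push Not at hcon
  have hins : insert p C ⊆ D ∧ Antichain' (insert p C) := by
    refine ⟨Set.insert_subset hp hC.prop.1, ?_⟩
    rintro a (rfl | ha) b (rfl | hb) r hra hrb
    · rfl
    · exact absurd hra (hcon b hb r hrb)
    · exact absurd hrb (hcon a ha r hra)
    · exact hC.prop.2 a ha b hb r hra hrb
  have hpC : p ∈ C := hC.le_of_ge hins (Set.subset_insert p C) (Set.mem_insert p C)
  exact hcon p hpC p le_rfl le_rfl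

/-- Fullness for an arbitrary regular extensional predicate on names. -/
theorem fullness' (S : Nam P → P → Prop) (hreg : ∀ x, Reg (S x))
    (hext : ∀ x y p, feq x y p → S x p → S y p) :
    ∃ x, ∀ p, (∀ q ≤ p, ∃ r ≤ q, ∃ y, S y r) → S x p := by
  classical
  obtain ⟨C, hCD, hCa, hCm⟩ := exists_maximal_antichain {p : P | ∃ y, S y p}
  choose! f hf using hCD
  obtain ⟨x, hx⟩ := exists_mix hCa f
  refine ⟨x, fun p hp => (hreg x).reg fun q hq => ?_⟩
  obtain ⟨r, hr, hy⟩ := hp q hq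
  obtain ⟨a, ha, s, hsa, hsr⟩ := hCm r hy
  exact ⟨s, hsr.trans hr, hext _ _ _ (feq_symm (feq_mono hsa (hx a ha)))
    ((hreg _).mono hsa (hf ha))⟩

/-- Fullness: existential statements are witnessed by names. -/
theorem fullness (φ : SetFormula) (v : ℕ → Nam P) :
    ∃ x, ∀ p, φ.ex.Forces v p → φ.Forces (push x v) p := by
  obtain ⟨x, hx⟩ := fullness' (fun y p => φ.Forces (push y v) p) (fun y => φ.forces_reg _) (by
    intro y z p hyz h
    refine φ.forces_congr (fun n => ?_) h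
    cases n with
    | zero => exact hyz
    | succ n => exact feq_refl _ _)
  exact ⟨x, fun p hp => hx p (SetFormula.forces_ex.1 hp)⟩

end MP9708F
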