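import Pool.Agent.Lib.MP_9708fd_lc.FForce

/-!
# The quotient of the names by an ultrafilter, and Łoś' theorem
-/

namespace MP9708F

universe u

variable {P : Type u} [Preorder P]

/-- Dense open sets of conditions. -/
def DenseOpen (D : Set P) : Prop :=
  (∀ p ∈ D, ∀ q ≤ p, q ∈ D) ∧ ∀ p, ∃ q ≤ p, q ∈ D

theorem DenseOpen.inter {D D' : Set P} (h : DenseOpen D) (h' : DenseOpen D') :
    DenseOpen (D ∩ D') := by
  refine ⟨fun p hp q hq => ⟨h.1 p hp.1 q hq, h'.1 p hp.2 q hq⟩, fun p => ?_⟩
  obtain ⟨q, hq, hqD⟩ := h.2 p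
  obtain ⟨r, hr, hrD⟩ := h'.2 q
  exact ⟨r, hr.trans hq, h.1 q hqD r hr, hrD⟩

/-- The filter generated by the dense open sets. -/
def denseFilter (P : Type u) [Preorder P] : Filter P where
  sets := {A | ∃ D, DenseOpen D ∧ D ⊆ A}
  univ_sets := ⟨Set.univ, ⟨fun _ _ _ _ => trivial, fun p => ⟨p, le_rfl, trivial⟩⟩,
    Set.subset_univ _⟩
  sets_of_superset := by
    rintro A B ⟨D, hD, hDA⟩ hAB
    exact ⟨D, hD, hDA.trans hAB⟩
  inter_sets := by
    rintro A B ⟨D, hD, hDA⟩ ⟨D', hD', hDB⟩
    exact ⟨D ∩ D', hD.inter hD', Set.inter_subset_inter hDA hDB⟩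

theorem denseFilter_neBot [Nonempty P] : (denseFilter P).NeBot := by
  refine Filter.neBot_iff.2 fun h => ?_
  have h1 : (∅ : Set P) ∈ denseFilter P := by rw [h]; exact Filter.mem_bot
  obtain ⟨D, hD, hDe⟩ := h1
  obtain ⟨p⟩ := (inferInstance : Nonempty P)
  obtain ⟨q, -, hq⟩ := hD.2 p
  exact hDe hq

/-- An ultrafilter containing all dense open sets. -/
noncomputable def genU (P : Type u) [Preorder P] [Nonempty P] : Ultrafilter P :=
  haveI := denseFilter_neBot (P := P)
  Ultrafilter.of (denseFilter P)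

variable [Nonempty P]

theorem genU_dense {D : Set P} (h : DenseOpen D) : ∀ᶠ p in (genU P : Filter P), p ∈ D := by
  have := denseFilter_neBot (P := P)
  have h1 : (genU P : Filter P) ≤ denseFilter P := Ultrafilter.of_le _
  exact h1 ⟨D, h, le_rfl⟩

/-- For downwards closed predicates, forcing densely below is the same as forcing. -/
theorem gen_reg {A : P → Prop} (hA : ∀ p, A p → ∀ q ≤ p, A q) :
    (∀ᶠ p in (genU P : Filter P), ∀ q ≤ p, ∃ r ≤ q, A r) ↔ ∀ᶠ p in (genU P : Filter P), A p := by
  refine ⟨fun h => ?_, fun h => h.mono fun p hp q hq => ⟨q, le_rfl, hA p hp q hq⟩⟩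
  have hD : DenseOpen {p : P | A p ∨ ∀ q ≤ p, ¬ A q} := by
    refine ⟨?_, fun p => ?_⟩
    · rintro p (hp | hp) q hq
      · exact Or.inl (hA p hp q hq)
      · exact Or.inr fun r hr => hp r (hr.trans hq)
    · by_cases hp : ∃ q ≤ p, A q
      · obtain ⟨q, hq, hAq⟩ := hp
        exact ⟨q, hq, Or.inl hAq⟩
      · push Not at hp
        exact ⟨p, le_rfl, Or.inr hp⟩
  filter_upwards [h, genU_dense hD] with p hp hp'
  rcases hp' with hp' | hp'
  · exact hp'
  · obtain ⟨r, hr, hAr⟩ := hp p le_rfl
    exact absurd hAr (hp' r hr)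

/-- Negation. -/
theorem gen_not {A : P → Prop} (hA : ∀ p, A p → ∀ q ≤ p, A q) :
    (∀ᶠ p in (genU P : Filter P), ∀ q ≤ p, ¬ A q) ↔ ¬ ∀ᶠ p in (genU P : Filter P), A p := by
  rw [← gen_reg hA, ← Ultrafilter.eventually_not]
  have hD : DenseOpen {p : P | (∀ q ≤ p, A q) ∨ ∀ q ≤ p, ¬ A q} := by
    refine ⟨?_, fun p => ?_⟩
    · rintro p (hp | hp) q hq
      · exact Or.inl fun r hr => hp r (hr.trans hq)
      · exact Or.inr fun r hr => hp r (hr.trans hq)
    · by_cases hp : ∃ q ≤ p, A q
      · obtain ⟨q, hq, hAq⟩ := hp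
        exact ⟨q, hq, Or.inl fun r hr => hA q hAq r hr⟩
      · push Not at hp
        exact ⟨p, le_rfl, Or.inr hp⟩
  constructor
  · intro h
    filter_upwards [h] with p hp hp'
    obtain ⟨r, hr, hAr⟩ := hp' p le_rfl
    exact hp r hr hAr
  · intro h
    filter_upwards [h, genU_dense hD] with p hp hp'
    rcases hp' with hp' | hp'
    · exact absurd (fun q hq => ⟨q, le_rfl, hp' q hq⟩) hp
    · exact hp'

/-- Equality of names modulo the ultrafilter. -/
def namSetoid (P : Type u) [Preorder P] [Nonempty P] : Setoid (Nam P) where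
  r x y := ∀ᶠ p in (genU P : Filter P), feq x y p
  iseqv :=
    { refl := fun x => Filter.Eventually.of_forall fun p => feq_refl x p
      symm := fun h => h.mono fun p hp => feq_symm hp
      trans := fun h h' => by
        filter_upwards [h, h'] with p hp hp' using feq_trans hp hp' }

/-- The model. -/
def Mod (P : Type u) [Preorder P] [Nonempty P] : Type (u + 1) := Quotient (namSetoid P)

/-- The class of a name. -/
def cls (x : Nam P) : Mod P := Quotient.mk (namSetoid P) x

theorem cls_surj : Function.Surjective (cls : Nam P → Mod P) := Quotient.mk_surjective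

theorem cls_eq {x y : Nam P} : cls x = cls y ↔ ∀ᶠ p in (genU P : Filter P), feq x y p :=
  Quotient.eq (r := namSetoid P)

/-- Membership of the model. -/
def ME (x y : Mod P) : Prop :=
  Quotient.liftOn₂ x y (fun x y => ∀ᶠ p in (genU P : Filter P), fmem x y p) (by
    intro x y x' y' hx hy
    refine propext ⟨fun h => ?_, fun h => ?_⟩
    · have hx' : ∀ᶠ p in (genU P : Filter P), feq x x' p := hx
      have hy' : ∀ᶠ p in (genU P : Filter P), feq y y' p := hy
      filter_upwards [h, hx', hy'] with p hp hp1 hp2 using fmem_congr hp1 hp2 hp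
    · have hx' : ∀ᶠ p in (genU P : Filter P), feq x x' p := hx
      have hy' : ∀ᶠ p in (genU P : Filter P), feq y y' p := hy
      filter_upwards [h, hx', hy'] with p hp hp1 hp2 using
        fmem_congr (feq_symm hp1) (feq_symm hp2) hp)

theorem ME_cls {x y : Nam P} : ME (cls x) (cls y) ↔ ∀ᶠ p in (genU P : Filter P), fmem x y p :=
  Iff.rfl

/-- Pushing commutes with taking classes. -/
theorem push_cls (x : Nam P) (v : ℕ → Nam P) :
    (push (cls x) fun n => cls (v n)) = fun n => cls (push x v n) := by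
  funext n
  cases n <;> rfl

/-- **Łoś' theorem.** -/
theorem los (φ : SetFormula) : ∀ v : ℕ → Nam P,
    φ.Holds ME (fun n => cls (v n)) ↔ ∀ᶠ p in (genU P : Filter P), φ.Forces v p := by
  induction φ with
  | mem i j => exact fun v => Iff.rfl
  | eq i j => exact fun v => cls_eq
  | neg φ ih =>
    intro v
    have h1 : (SetFormula.neg φ).Holds ME (fun n => cls (v n)) ↔
        ¬ φ.Holds ME (fun n => cls (v n)) := Iff.rfl
    rw [h1, ih v, ← gen_not (fun p hp q hq => Forces_mono hq hp)]
    exact Iff.rfl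
  | and φ ψ ih ih' =>
    intro v
    have h1 : (SetFormula.and φ ψ).Holds ME (fun n => cls (v n)) ↔
        φ.Holds ME (fun n => cls (v n)) ∧ ψ.Holds ME (fun n => cls (v n)) := Iff.rfl
    rw [h1, ih v, ih' v, ← Filter.eventually_and]
    exact Iff.rfl
  | all φ ih =>
    intro v
    have h1 : (SetFormula.all φ).Holds ME (fun n => cls (v n)) ↔
        ∀ x, φ.Holds ME (push x fun n => cls (v n)) := Iff.rfl
    rw [h1]
    constructor
    · intro h
      by_contra hc
      rw [← gen_not (fun p hp q hq => Forces_mono hq hp)] at hc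
      obtain ⟨x, hx⟩ := fullness (.neg φ) v
      have h2 : ∀ᶠ p in (genU P : Filter P), (SetFormula.neg φ).Forces (push x v) p := by
        filter_upwards [hc] with p hp
        refine hx p fun q hq hq' => hp q hq fun y => ?_
        refine Forces_reg fun r hr => ?_
        have h3 := hq' y r hr
        by_contra h4
        push Not at h4
        exact h3 fun s hs hs' => h4 s hs hs'
      have h3 := h (cls x)
      rw [push_cls, ih] at h3
      have h4 : ∀ᶠ p in (genU P : Filter P), False := by
        filter_upwards [h2, h3] with p hp hp' using hp p le_rfl hp'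
      rw [Filter.eventually_false_iff_eq_bot] at h4
      exact (genU P).neBot.ne h4
    · intro h x
      obtain ⟨x, rfl⟩ := cls_surj x
      rw [push_cls, ih]
      exact h.mono fun p hp => hp x

/-- Łoś' theorem for existential statements. -/
theorem los_ex (φ : SetFormula) (v : ℕ → Nam P) :
    (∃ x : Mod P, φ.Holds ME (push x fun n => cls (v n))) ↔
      ∀ᶠ p in (genU P : Filter P), ∃ x, φ.Forces (push x v) p := by
  constructor
  · rintro ⟨x, hx⟩
    obtain ⟨x, rfl⟩ := cls_surj x
    rw [push_cls, los] at hx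
    exact hx.mono fun p hp => ⟨x, hp⟩
  · intro h
    obtain ⟨x, hx⟩ := fullness φ v
    refine ⟨cls x, ?_⟩
    rw [push_cls, los]
    filter_upwards [h] with p ⟨y, hy⟩
    refine hx p fun q hq hq' => ?_
    exact hq' y q le_rfl (Forces_mono hq hy)

/-- Renaming of variables. -/
def SetFormula.rename : SetFormula → (ℕ → ℕ) → SetFormula
  | .mem i j, f => .mem (f i) (f j)
  | .eq i j, f => .eq (f i) (f j)
  | .neg φ, f => .neg (φ.rename f)
  | .and φ ψ, f => .and (φ.rename f) (ψ.rename f)
  | .all φ, f => .all (φ.rename fun n => Nat.casesOn n 0 fun k => f k + 1)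

theorem push_rename {M : Type*} (x : M) (v : ℕ → M) (f : ℕ → ℕ) :
    (fun n => push x v (Nat.casesOn n 0 fun k => f k + 1)) = push x fun n => v (f n) := by
  funext n
  cases n <;> rfl

theorem holds_rename {M : Type*} (E : M → M → Prop) (φ : SetFormula) :
    ∀ (f : ℕ → ℕ) (v : ℕ → M), (φ.rename f).Holds E v ↔ φ.Holds E fun n => v (f n) := by
  induction φ with
  | mem i j => exact fun _ _ => Iff.rfl
  | eq i j => exact fun _ _ => Iff.rfl
  | neg φ ih => exact fun f v => not_congr (ih f v)
  | and φ ψ ih ih' => exact fun f v => and_congr (ih f v) (ih' f v)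
  | all φ ih =>
    intro f v
    refine forall_congr' fun x => ?_
    rw [ih, push_rename]

omit [Nonempty P] in
theorem forces_rename (φ : SetFormula) : ∀ (f : ℕ → ℕ) (v : ℕ → Nam P) (p : P),
    (φ.rename f).Forces v p ↔ φ.Forces (fun n => v (f n)) p := by
  induction φ with
  | mem i j => exact fun _ _ _ => Iff.rfl
  | eq i j => exact fun _ _ _ => Iff.rfl
  | neg φ ih =>
    intro f v p
    exact forall_congr' fun q => forall_congr' fun _ => not_congr (ih f v q)
  | and φ ψ ih ih' => exact fun f v p => and_congr (ih f v p) (ih' f v p)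
  | all φ ih =>
    intro f v p
    refine forall_congr' fun x => ?_
    rw [ih, push_rename]

end MP9708F
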