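import Pool.Agent.Lib.MP_9708fd_lc.FStmt

/-!
# Names and the forcing relation over a preorder `P`
-/

namespace MP9708F

universe u

/-- `P`-names: families of names `x i` with weights `w i` (`i : ι`). -/
inductive Nam (P : Type u) [Preorder P] : Type (u + 1)
  | mk (ι : Type u) (w : ι → LowerSet P) (x : ι → Nam P) : Nam P

variable {P : Type u} [Preorder P]

namespace Nam

/-- Index type of a name. -/
def idx : Nam P → Type u
  | mk ι _ _ => ι

/-- Weights of a name. -/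
def wt : (x : Nam P) → x.idx → LowerSet P
  | mk _ w _ => w

/-- Elements of a name. -/
def el : (x : Nam P) → x.idx → Nam P
  | mk _ _ x => x

end Nam

/-- `p` forces `x = y`. -/
def feq : Nam P → Nam P → P → Prop
  | ⟨ι, w, x⟩, ⟨κ, v, y⟩, p =>
    (∀ i : ι, ∀ q ≤ p, q ∈ w i → ∃ r ≤ q, ∃ j : κ, r ∈ v j ∧ feq (x i) (y j) r) ∧
    (∀ j : κ, ∀ q ≤ p, q ∈ v j → ∃ r ≤ q, ∃ i : ι, r ∈ w i ∧ feq (x i) (y j) r)

/-- `p` forces `x ∈ y`. -/
def fmem (x y : Nam P) (p : P) : Prop :=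
  ∀ q ≤ p, ∃ r ≤ q, ∃ j, r ∈ y.wt j ∧ feq x (y.el j) r

/-- `p` forces `φ` under the assignment `v`. -/
def SetFormula.Forces : SetFormula → (ℕ → Nam P) → P → Prop
  | .mem i j, v, p => fmem (v i) (v j) p
  | .eq i j, v, p => feq (v i) (v j) p
  | .neg φ, v, p => ∀ q ≤ p, ¬ φ.Forces v q
  | .and φ ψ, v, p => φ.Forces v p ∧ ψ.Forces v p
  | .all φ, v, p => ∀ x, φ.Forces (push x v) p

end MP9708F
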