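import Mathlib

/-!
# Automorphisms of `P(X)/[X]^{≤κ}`: basic facts

We work with a lifting `Φ : Set X → Set X` of an automorphism of the quotient algebra.
-/

open Cardinal Set Filter

namespace MP9708

universe u

variable {X : Type u}

/-- `A` has cardinality at most `κ`. -/
def Sm (κ : Cardinal.{u}) (A : Set X) : Prop := #A ≤ κ

theorem Sm.mono {κ : Cardinal.{u}} {A B : Set X} (hB : Sm κ B) (h : A ⊆ B) : Sm κ A :=
  (mk_le_mk_of_subset h).trans hB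

theorem sm_empty {κ : Cardinal.{u}} : Sm κ (∅ : Set X) := by
  simp [Sm]

theorem Sm.union {κ : Cardinal.{u}} (hκ : ℵ₀ ≤ κ) {A B : Set X} (hA : Sm κ A) (hB : Sm κ B) :
    Sm κ (A ∪ B) :=
  (mk_union_le A B).trans (add_le_of_le hκ hA hB)

theorem Sm.iUnion {κ : Cardinal.{u}} (hκ : ℵ₀ ≤ κ) {ι : Type u} (hι : #ι ≤ κ) {A : ι → Set X}
    (hA : ∀ i, Sm κ (A i)) : Sm κ (⋃ i, A i) := by
  refine (mk_iUnion_le A).trans ?_
  refine (mul_le_mul' hι (ciSup_le' hA)).trans ?_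
  exact (mul_eq_self hκ).le

theorem card_iUnion_le {μ : Cardinal.{u}} (hμ : ℵ₀ ≤ μ) {ι : Type u} (hι : #ι ≤ μ) {A : ι → Set X}
    (hA : ∀ i, #(A i) ≤ μ) : #(⋃ i, A i) ≤ μ :=
  Sm.iUnion hμ hι hA

/-- If `A` is not small then it has a subset of size exactly `κ⁺`. -/
theorem exists_succ_subset {κ : Cardinal.{u}} {A : Set X} (h : ¬ Sm κ A) :
    ∃ Y ⊆ A, #Y = Order.succ κ := by
  have h1 : Order.succ κ ≤ #A := Order.succ_le_of_lt (not_le.1 h)
  exact le_mk_iff_exists_subset.1 h1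

theorem not_sm_of_card {κ : Cardinal.{u}} {Y : Set X} (h : #Y = Order.succ κ) : ¬ Sm κ Y := by
  intro h'
  have h2 : #Y ≤ κ := h'
  rw [h] at h2
  exact absurd h2 (not_le.2 (Order.lt_succ κ))

/-- The filter of all but at most `κ` many elements of `Y`. -/
def ae (κ : Cardinal.{u}) [hκ : Fact (ℵ₀ ≤ κ)] (Y : Set X) : Filter X where
  sets := {s | Sm κ (Y \ s)}
  univ_sets := by simp [sm_empty]
  sets_of_superset := fun {s t} hs hst => Sm.mono hs (diff_subset_diff_right hst)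
  inter_sets := fun {s t} hs ht => by
    have : Y \ (s ∩ t) = (Y \ s) ∪ (Y \ t) := by
      ext x; simp only [mem_diff, mem_inter_iff, mem_union]; tauto
    simp only [mem_setOf_eq, this]
    exact Sm.union hκ.out hs ht

variable {κ : Cardinal.{u}} [hκ : Fact (ℵ₀ ≤ κ)]

theorem eventually_ae {Y : Set X} {P : X → Prop} :
    (∀ᶠ x in ae κ Y, P x) ↔ Sm κ {x | x ∈ Y ∧ ¬ P x} := Iff.rfl

theorem ae_mem (Y : Set X) : ∀ᶠ x in ae κ Y, x ∈ Y := by
  rw [eventually_ae]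
  convert sm_empty (κ := κ) (X := X)
  ext x; simp

theorem ae_mono {Y Y' : Set X} (h : Y ⊆ Y') {P : X → Prop} (hP : ∀ᶠ x in ae κ Y', P x) :
    ∀ᶠ x in ae κ Y, P x := by
  rw [eventually_ae] at *
  exact hP.mono fun x hx => ⟨h hx.1, hx.2⟩

theorem ae_all {ι : Type u} (hι : #ι ≤ κ) {Y : Set X} {P : ι → X → Prop}
    (h : ∀ i, ∀ᶠ x in ae κ Y, P i x) : ∀ᶠ x in ae κ Y, ∀ i, P i x := by
  rw [eventually_ae]
  refine (Sm.iUnion hκ.out hι (A := fun i => {x | x ∈ Y ∧ ¬ P i x}) fun i => ?_).mono ?_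
  · exact h i
  · rintro x ⟨hx, hx'⟩
    push_neg at hx'
    obtain ⟨i, hi⟩ := hx'
    exact mem_iUnion.2 ⟨i, hx, hi⟩

/-- If `Y` is not small then `ae κ Y` is a proper filter. -/
theorem ae_neBot {Y : Set X} (h : ¬ Sm κ Y) : (ae κ Y).NeBot := by
  constructor
  intro hb
  apply h
  have : (∅ : Set X) ∈ ae κ Y := by rw [hb]; exact mem_bot
  have h2 : Sm κ (Y \ ∅) := this
  simpa using h2

theorem ae_exists {Y : Set X} (h : ¬ Sm κ Y) {P : X → Prop} (hP : ∀ᶠ x in ae κ Y, P x) :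
    ∃ x ∈ Y, P x := by
  haveI := ae_neBot h
  exact ((ae_mem Y).and hP).exists

theorem not_sm_of_ae {Y : Set X} (h : ¬ Sm κ Y) {P : X → Prop} (hP : ∀ᶠ x in ae κ Y, P x) :
    ¬ Sm κ {x | x ∈ Y ∧ P x} := by
  intro h2
  apply h
  rw [eventually_ae] at hP
  refine (Sm.union hκ.out hP h2).mono ?_
  intro x hx
  by_cases hx' : P x
  · exact Or.inr ⟨hx, hx'⟩
  · exact Or.inl ⟨hx, hx'⟩

theorem ae_of_not_sm_false {Y : Set X} {P : X → Prop}
    (h : ∀ Y' ⊆ Y, #Y' = Order.succ κ → (∀ x ∈ Y', ¬ P x) → False) : ∀ᶠ x in ae κ Y, P x := by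
  rw [eventually_ae]
  by_contra hn
  obtain ⟨Y', hY', hc⟩ := exists_succ_subset hn
  exact h Y' (fun x hx => (hY' hx).1) hc fun x hx => (hY' hx).2

/-- equality modulo sets of size `≤ κ` -/
def EqS (κ : Cardinal.{u}) (A B : Set X) : Prop := Sm κ (A \ B) ∧ Sm κ (B \ A)

omit hκ in
theorem EqS.refl (A : Set X) : EqS κ A A := by simp [EqS, sm_empty]

omit hκ in
theorem EqS.symm {A B : Set X} (h : EqS κ A B) : EqS κ B A := ⟨h.2, h.1⟩

theorem leS_trans {A B C : Set X} (h1 : Sm κ (A \ B)) (h2 : Sm κ (B \ C)) : Sm κ (A \ C) := by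
  refine (Sm.union hκ.out h1 h2).mono ?_
  intro x hx
  by_cases hB : x ∈ B
  · exact Or.inr ⟨hB, hx.2⟩
  · exact Or.inl ⟨hx.1, hB⟩

theorem EqS.trans {A B C : Set X} (h1 : EqS κ A B) (h2 : EqS κ B C) : EqS κ A C :=
  ⟨leS_trans h1.1 h2.1, leS_trans h2.2 h1.2⟩

/-- A lifting of an automorphism of `P(X)/[X]^{≤κ}`. -/
structure Lift (κ : Cardinal.{u}) (X : Type u) where
  Φ : Set X → Set X
  le_iff : ∀ A B, Sm κ (A \ B) ↔ Sm κ (Φ A \ Φ B)
  surj : ∀ B, ∃ A, EqS κ (Φ A) B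

variable (L : Lift κ X)

theorem Lift.sm_phi_empty : Sm κ (L.Φ ∅) := by
  obtain ⟨A, hA⟩ := L.surj ∅
  have h1 : Sm κ (L.Φ A) := by simpa using hA.1
  have h2 : Sm κ (L.Φ ∅ \ L.Φ A) := by
    rw [← L.le_iff]; simp [sm_empty]
  refine (Sm.union hκ.out h1 h2).mono ?_
  intro x hx
  by_cases h : x ∈ L.Φ A
  · exact Or.inl h
  · exact Or.inr ⟨hx, h⟩

theorem Lift.sm_iff (A : Set X) : Sm κ A ↔ Sm κ (L.Φ A) := by
  have h : Sm κ A ↔ Sm κ (L.Φ A \ L.Φ ∅) := by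
    rw [← L.le_iff]; simp
  rw [h]
  constructor
  · intro h1
    refine (Sm.union hκ.out h1 L.sm_phi_empty).mono ?_
    intro x hx
    by_cases h : x ∈ L.Φ ∅
    · exact Or.inr h
    · exact Or.inl ⟨hx, h⟩
  · intro h1
    exact h1.mono diff_subset

omit hκ in
theorem Lift.mono {A B : Set X} (h : A ⊆ B) : Sm κ (L.Φ A \ L.Φ B) := by
  rw [← L.le_iff, diff_eq_empty.2 h]
  exact sm_empty

theorem Lift.disjoint {A B : Set X} (h : Sm κ (A ∩ B)) : Sm κ (L.Φ A ∩ L.Φ B) := by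
  obtain ⟨W, hW⟩ := L.surj (L.Φ A ∩ L.Φ B)
  have h1 : Sm κ (W \ A) := by
    rw [L.le_iff]
    refine hW.1.mono ?_
    intro x hx; exact ⟨hx.1, fun h => hx.2 h.1⟩
  have h2 : Sm κ (W \ B) := by
    rw [L.le_iff]
    refine hW.1.mono ?_
    intro x hx; exact ⟨hx.1, fun h => hx.2 h.2⟩
  have h3 : Sm κ W := by
    refine (Sm.union hκ.out (Sm.union hκ.out h1 h2) h).mono ?_
    intro x hx
    by_cases ha : x ∈ A
    · by_cases hb : x ∈ B
      · exact Or.inr ⟨ha, hb⟩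
      · exact Or.inl (Or.inr ⟨hx, hb⟩)
    · exact Or.inl (Or.inl ⟨hx, ha⟩)
  rw [L.sm_iff] at h3
  refine (Sm.union hκ.out h3 hW.2).mono ?_
  intro x hx
  by_cases h : x ∈ L.Φ W
  · exact Or.inl h
  · exact Or.inr ⟨hx, h⟩

/-- `e` trivialises the lifting on `Y`. -/
def Tr (e : X → X) (Y : Set X) : Prop := ∀ A ⊆ Y, EqS κ (L.Φ A) (e '' A)

variable {L}

omit hκ in
theorem Tr.mono {e : X → X} {Y Y' : Set X} (h : Tr L e Y') (hY : Y ⊆ Y') : Tr L e Y :=
  fun A hA => h A (hA.trans hY)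

theorem Tr.sm_of_image {e : X → X} {Y : Set X} (h : Tr L e Y) {A : Set X} (hA : A ⊆ Y)
    (hs : Sm κ (e '' A)) : Sm κ A := by
  rw [L.sm_iff]
  refine (Sm.union hκ.out hs (h A hA).1).mono ?_
  intro x hx
  by_cases h : x ∈ e '' A
  · exact Or.inl h
  · exact Or.inr ⟨hx, h⟩

theorem Tr.not_mem_small {e : X → X} {Y : Set X} (h : Tr L e Y) {S : Set X} (hS : Sm κ S) :
    ∀ᶠ x in ae κ Y, e x ∉ S := by
  rw [eventually_ae]
  apply h.sm_of_image (fun x hx => hx.1)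
  refine hS.mono ?_
  rintro _ ⟨x, hx, rfl⟩
  by_contra h2
  exact hx.2 h2

/-- the key fact: `e` respects every set modulo `κ` -/
theorem Tr.iff_phi {e : X → X} {Y : Set X} (h : Tr L e Y) (C : Set X) :
    ∀ᶠ x in ae κ Y, (x ∈ C ↔ e x ∈ L.Φ C) := by
  -- first part
  have h1 : Sm κ {x | x ∈ Y ∧ x ∈ C ∧ e x ∉ L.Φ C} := by
    apply h.sm_of_image (fun x hx => hx.1)
    set A := {x | x ∈ Y ∧ x ∈ C ∧ e x ∉ L.Φ C} with hA
    have h2 : Sm κ (e '' A \ L.Φ A) := (h A (fun x hx => hx.1)).2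
    have h3 : Sm κ (L.Φ A \ L.Φ C) := L.mono (fun x hx => hx.2.1)
    refine (leS_trans h2 h3).mono ?_
    rintro _ ⟨x, hx, rfl⟩
    exact ⟨⟨x, hx, rfl⟩, hx.2.2⟩
  have h2 : Sm κ {x | x ∈ Y ∧ x ∉ C ∧ e x ∈ L.Φ C} := by
    apply h.sm_of_image (fun x hx => hx.1)
    set A := {x | x ∈ Y ∧ x ∉ C ∧ e x ∈ L.Φ C} with hA
    have h2 : Sm κ (e '' A \ L.Φ A) := (h A (fun x hx => hx.1)).2
    have h3 : Sm κ (L.Φ A ∩ L.Φ C) := L.disjoint (by
      have : A ∩ C = ∅ := by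
        ext x; constructor
        · rintro ⟨h1, h2⟩; exact absurd h2 h1.2.1
        · intro h; exact absurd h (notMem_empty x)
      rw [this]; exact sm_empty)
    refine (Sm.union hκ.out h2 h3).mono ?_
    rintro _ ⟨x, hx, rfl⟩
    by_cases h4 : e x ∈ L.Φ A
    · exact Or.inr ⟨h4, hx.2.2⟩
    · exact Or.inl ⟨⟨x, hx, rfl⟩, h4⟩
  rw [eventually_ae]
  refine (Sm.union hκ.out h1 h2).mono ?_
  rintro x ⟨hx, hx'⟩
  by_cases hc : x ∈ C
  · left; exact ⟨hx, hc, fun h => hx' ⟨fun _ => h, fun _ => hc⟩⟩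
  · right
    refine ⟨hx, hc, ?_⟩
    by_contra h
    exact hx' ⟨fun h' => absurd h' hc, fun h' => absurd h' h⟩

theorem Tr.iff_of_eqS {e : X → X} {Y : Set X} (h : Tr L e Y) {C N : Set X}
    (hN : EqS κ (L.Φ C) N) : ∀ᶠ x in ae κ Y, (x ∈ C ↔ e x ∈ N) := by
  filter_upwards [h.iff_phi C, h.not_mem_small hN.1, h.not_mem_small hN.2] with x h1 h2 h3
  rw [h1]
  constructor
  · intro h4
    by_contra h5
    exact h2 ⟨h4, h5⟩
  · intro h4
    by_contra h5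
    exact h3 ⟨h4, h5⟩

/-- The hypothesis: trivial on all sets of size `κ⁺`. -/
def TrivSucc (L : Lift κ X) : Prop := ∀ Y : Set X, #Y = Order.succ κ → ∃ e : X → X, Tr L e Y

/-- pulling back a non-small set of values -/
theorem exists_transfer (hL : TrivSucc L) {W A : Set X} (h : ¬ Sm κ (W ∩ L.Φ A)) :
    ∃ Y ⊆ A, #Y = Order.succ κ ∧ ∃ e, Tr L e Y ∧ ∀ᶠ x in ae κ Y, e x ∈ W := by
  obtain ⟨B, hB⟩ := L.surj (W ∩ L.Φ A)
  have h1 : Sm κ (B \ A) := by
    rw [L.le_iff]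
    refine hB.1.mono ?_
    intro x hx; exact ⟨hx.1, fun h => hx.2 h.2⟩
  have h2 : ¬ Sm κ B := by
    intro h3
    rw [L.sm_iff] at h3
    apply h
    refine (Sm.union hκ.out h3 hB.2).mono ?_
    intro x hx
    by_cases h : x ∈ L.Φ B
    · exact Or.inl h
    · exact Or.inr ⟨hx, h⟩
  have h3 : ¬ Sm κ (B ∩ A) := by
    intro h4
    apply h2
    refine (Sm.union hκ.out h1 h4).mono ?_
    intro x hx
    by_cases h : x ∈ A
    · exact Or.inr ⟨hx, h⟩
    · exact Or.inl ⟨hx, h⟩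
  obtain ⟨Y, hY, hc⟩ := exists_succ_subset h3
  obtain ⟨e, he⟩ := hL Y hc
  refine ⟨Y, fun x hx => (hY hx).2, hc, e, he, ?_⟩
  filter_upwards [he.iff_of_eqS hB, ae_mem Y] with x h4 h5
  exact (h4.1 (hY h5).1).1

/-- coding, forward direction -/
theorem exists_code (L : Lift κ X) {T : Type u} [Nonempty T] (hT : #T ≤ 2 ^ κ) (h : X → T) :
    ∃ hB : X → T, ∀ e Y, Tr L e Y → ∀ᶠ x in ae κ Y, hB (e x) = h x := by
  obtain ⟨K, rfl⟩ : ∃ K : Type u, #K = κ := ⟨κ.out, mk_out κ⟩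
  rw [← mk_set] at hT
  obtain ⟨c⟩ := hT
  refine ⟨fun y => Function.invFun c {n | y ∈ L.Φ {x | n ∈ c (h x)}}, ?_⟩
  intro e Y he
  have h1 : ∀ᶠ x in ae #K Y, ∀ n : K, (x ∈ {x | n ∈ c (h x)} ↔ e x ∈ L.Φ {x | n ∈ c (h x)}) :=
    ae_all le_rfl fun n => he.iff_phi _
  filter_upwards [h1] with x hx
  have h2 : {n | e x ∈ L.Φ {x | n ∈ c (h x)}} = c (h x) := by
    ext n
    exact (hx n).symm
  rw [h2]
  exact Function.leftInverse_invFun c.injective (h x)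

/-- coding, backward direction -/
theorem exists_code' (L : Lift κ X) {T : Type u} [Nonempty T] (hT : #T ≤ 2 ^ κ) (g : X → T) :
    ∃ gA : X → T, ∀ e Y, Tr L e Y → ∀ᶠ x in ae κ Y, gA x = g (e x) := by
  obtain ⟨K, rfl⟩ : ∃ K : Type u, #K = κ := ⟨κ.out, mk_out κ⟩
  rw [← mk_set] at hT
  obtain ⟨c⟩ := hT
  choose A hA using fun n : K => L.surj {y | n ∈ c (g y)}
  refine ⟨fun x => Function.invFun c {n | x ∈ A n}, ?_⟩
  intro e Y he
  have h1 : ∀ᶠ x in ae #K Y, ∀ n : K, (x ∈ A n ↔ e x ∈ {y | n ∈ c (g y)}) :=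
    ae_all le_rfl fun n => he.iff_of_eqS (hA n)
  filter_upwards [h1] with x hx
  have h2 : {n | x ∈ A n} = c (g (e x)) := by
    ext n
    exact hx n
  simp only [h2]
  exact Function.leftInverse_invFun c.injective _

/-- coherence of the trivialising functions -/
theorem Tr.coherent {e e' : X → X} {Y Y' : Set X} (h : Tr L e Y) (h' : Tr L e' Y') :
    ∀ᶠ x in ae κ (Y ∩ Y'), e x = e' x := by
  apply ae_of_not_sm_false
  intro D hD hc hne
  have hDY : D ⊆ Y := fun x hx => (hD hx).1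
  have hDY' : D ⊆ Y' := fun x hx => (hD hx).2
  have hDne : D.Nonempty := by
    rw [nonempty_iff_ne_empty]
    rintro rfl
    exact not_sm_of_card hc sm_empty
  set N : Set X := e '' D ∪ e' '' D with hN
  obtain ⟨d, hd⟩ := hDne
  haveI : Nonempty N := ⟨⟨e d, Or.inl ⟨d, hd, rfl⟩⟩⟩
  have hκs : ℵ₀ ≤ Order.succ κ := hκ.out.trans (Order.le_succ κ)
  have hNc : #N ≤ 2 ^ κ := by
    have h1 : #N ≤ Order.succ κ := by
      refine (mk_union_le _ _).trans (add_le_of_le hκs ?_ ?_)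
      · exact mk_image_le.trans hc.le
      · exact mk_image_le.trans hc.le
    exact h1.trans (Order.succ_le_of_lt (cantor κ))
  classical
  obtain ⟨gA, hgA⟩ := exists_code' L hNc (fun y => if h : y ∈ N then ⟨y, h⟩ else Classical.arbitrary N)
  obtain ⟨x, hx, h1, h2⟩ := ae_exists (not_sm_of_card hc)
    ((hgA e D (h.mono hDY)).and (hgA e' D (h'.mono hDY')))
  have h3 : e x ∈ N := Or.inl ⟨x, hx, rfl⟩
  have h4 : e' x ∈ N := Or.inr ⟨x, hx, rfl⟩
  rw [h1] at h2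
  simp only [h3, h4, dif_pos, Subtype.mk.injEq] at h2
  exact hne x hx h2

/-- images of a set of size `κ⁺` under a trivialising function are not small -/
theorem Tr.not_sm_image {e : X → X} {Y : Set X} (h : Tr L e Y) (hY : ¬ Sm κ Y) :
    ¬ Sm κ (e '' Y) := fun h' => hY (h.sm_of_image subset_rfl h')

/-- glueing: if `e'` agrees (mod `κ`) with all trivialising functions on sets of size `κ⁺`
inside `S`, then `e'` trivialises `S`. -/
theorem tr_of_agree (hL : TrivSucc L) {S : Set X} {e' : X → X}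
    (h : ∀ Y ⊆ S, #Y = Order.succ κ → ∀ e, Tr L e Y → ∀ᶠ x in ae κ Y, e x = e' x) :
    Tr L e' S := by
  intro A hA
  constructor
  · -- `Φ A \ e' '' A` is small
    by_contra hn
    have hn' : ¬ Sm κ ((e' '' A)ᶜ ∩ L.Φ A) := by
      intro h1; apply hn
      refine h1.mono ?_
      intro x hx; exact ⟨hx.2, hx.1⟩
    obtain ⟨Y, hYA, hc, e, he, h1⟩ := exists_transfer hL hn'
    obtain ⟨x, hx, h2, h3⟩ := ae_exists (not_sm_of_card hc) (h1.and (h Y (hYA.trans hA) hc e he))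
    exact h2 ⟨x, hYA hx, h3.symm⟩
  · by_contra hn
    -- choose preimages
    have h0 : ∀ y : (e' '' A \ L.Φ A : Set X), ∃ x ∈ A, e' x = y := fun y => y.2.1
    choose f hf hf' using h0
    have hfi : Function.Injective f := by
      intro y y' hyy
      apply Subtype.ext
      rw [← hf' y, ← hf' y', hyy]
    have h1 : ¬ Sm κ (range f) := by
      intro h2
      apply hn
      have : #(range f) = #((e' '' A \ L.Φ A : Set X)) := mk_range_eq f hfi
      rw [Sm, ← this]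
      exact h2
    obtain ⟨Y, hY, hc⟩ := exists_succ_subset h1
    have hYA : Y ⊆ A := by
      intro x hx
      obtain ⟨y, rfl⟩ := hY hx
      exact hf y
    obtain ⟨e, he⟩ := hL Y hc
    obtain ⟨x, hx, h2, h3⟩ := ae_exists (not_sm_of_card hc)
      ((he.iff_phi A).and (h Y (hYA.trans hA) hc e he))
    have h4 := h2.1 (hYA hx)
    rw [h3] at h4
    obtain ⟨y, rfl⟩ := hY hx
    rw [hf' y] at h4
    exact y.2.2 h4

/-- piecewise glueing -/
theorem Tr.union {e e' : X → X} {S T : Set X} (h : Tr L e S) (h' : Tr L e' T) (hL : TrivSucc L) :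
    ∃ f, Tr L f (S ∪ T) := by
  classical
  refine ⟨fun x => if x ∈ S then e x else e' x, tr_of_agree hL ?_⟩
  intro Y hY hc g hg
  have h1 : ∀ᶠ x in ae κ Y, x ∈ S → g x = e x := by
    have := hg.coherent h
    rw [eventually_ae] at this ⊢
    refine this.mono ?_
    rintro x ⟨hx, hx'⟩
    push_neg at hx'
    exact ⟨⟨hx, hx'.1⟩, hx'.2⟩
  have h2 : ∀ᶠ x in ae κ Y, x ∈ T → g x = e' x := by
    have := hg.coherent h'
    rw [eventually_ae] at this ⊢
    refine this.mono ?_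
    rintro x ⟨hx, hx'⟩
    push_neg at hx'
    exact ⟨⟨hx, hx'.1⟩, hx'.2⟩
  filter_upwards [h1, h2, ae_mem Y] with x h3 h4 h5
  by_cases hS : x ∈ S
  · simp only [hS, if_true]; exact h3 hS
  · simp only [hS, if_false]
    exact h4 ((hY h5).resolve_left hS)


end MP9708

namespace MP9708

universe u

variable {X : Type u} {κ : Cardinal.{u}} [hκ : Fact (ℵ₀ ≤ κ)] {L : Lift κ X}



/-- Inverse images of small sets are small: if `Φ A = N` modulo `κ` then `|A| ≤ max |N| κ⁺`. -/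
theorem card_le_of_phi (hL : TrivSucc L) (A N : Set X) (h : EqS κ (L.Φ A) N) :
    #A ≤ max #N (Order.succ κ) := by
  have hκs : ℵ₀ ≤ Order.succ κ := hκ.out.trans (Order.le_succ κ)
  suffices H : ∀ ν : Cardinal.{u}, ∀ A N : Set X, #N = ν → EqS κ (L.Φ A) N →
      #A ≤ max ν (Order.succ κ) from H _ A N rfl h
  clear h A N
  intro ν
  induction ν using WellFoundedLT.induction with
  | ind ν ih =>
  intro A N hN h
  by_cases hνs : ν ≤ κ
  · -- then `A` is small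
    have h1 : Sm κ N := by rw [Sm, hN]; exact hνs
    have h2 : Sm κ (L.Φ A) := by
      refine (Sm.union hκ.out h1 h.1).mono ?_
      intro x hx
      by_cases h : x ∈ N
      · exact Or.inl h
      · exact Or.inr ⟨hx, h⟩
    rw [← L.sm_iff] at h2
    exact (h2.trans (Order.le_succ κ)).trans (le_max_right _ _)
  have hνs' : Order.succ κ ≤ ν := Order.succ_le_of_lt (not_le.1 hνs)
  rw [max_eq_left hνs']
  have hν0 : ℵ₀ ≤ ν := hκs.trans hνs'
  obtain ⟨lo, wf, hord⟩ := exists_ord_eq_type_lt N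
  have hseg : ∀ y : N, #(Subtype.val '' Iic y : Set X) < ν := by
    intro y
    refine mk_image_le.trans_lt ?_
    rw [← hN]
    exact mk_Iic_lt y hord (by rw [hN]; exact hν0)
  choose Ay hAy using fun y : N => L.surj (Subtype.val '' Iic y)
  have hAyc : ∀ y, #(Ay y) ≤ ν := by
    intro y
    refine (ih _ (hseg y) (Ay y) _ rfl (hAy y)).trans ?_
    exact max_le (hseg y).le hνs'
  set As : Set X := ⋃ y, Ay y with hAs
  have hAsc : #As ≤ ν := card_iUnion_le hν0 hN.le hAyc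
  have hmain : #(A \ As : Set X) ≤ Order.succ κ := by
    by_cases hsm : Sm κ (A \ As)
    · exact hsm.trans (Order.le_succ κ)
    obtain ⟨Y, hY, hYc⟩ := exists_succ_subset hsm
    obtain ⟨e, he⟩ := hL Y hYc
    have hYns := not_sm_of_card hYc
    set Y' : Set X := {x | x ∈ Y ∧ e x ∈ N} with hY'
    have hY'ns : ¬ Sm κ Y' := by
      apply not_sm_of_ae hYns
      filter_upwards [he.iff_of_eqS h, ae_mem Y] with x h1 h2
      exact h1.1 (hY h2).1
    have hbd : ∀ y : N, Sm κ {x | x ∈ Y' ∧ ∀ hx : e x ∈ N, (⟨e x, hx⟩ : N) ≤ y} := by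
      intro y
      have h1 := he.iff_of_eqS (hAy y)
      rw [eventually_ae] at h1
      refine h1.mono ?_
      rintro x ⟨⟨hx, hxN⟩, hx2⟩
      refine ⟨hx, fun h2 => ?_⟩
      have h3 : x ∈ Ay y := h2.2 ⟨⟨e x, hxN⟩, hx2 hxN, rfl⟩
      exact (hY hx).2 (mem_iUnion.2 ⟨y, h3⟩)
    set T : Set N := {t | t.1 ∈ e '' Y'} with hT
    have hTc : #T ≤ Order.succ κ := by
      have h1 : #T ≤ #(e '' Y' : Set X) := by
        refine ⟨⟨fun t => ⟨t.1.1, t.2⟩, ?_⟩⟩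
        intro t t' htt
        apply Subtype.ext
        apply Subtype.ext
        exact congrArg (fun z : (e '' Y' : Set X) => (z : X)) htt
      refine h1.trans (mk_image_le.trans ?_)
      refine (mk_le_mk_of_subset (t := Y) ?_).trans hYc.le
      intro x hx; exact hx.1
    have hcof : ∀ y : N, ∃ t : T, y ≤ t.1 := by
      intro y
      by_contra hno
      push Not at hno
      apply hY'ns
      refine (hbd y).mono ?_
      intro x hx
      refine ⟨hx, fun hxN => ?_⟩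
      exact (hno ⟨⟨e x, hxN⟩, ⟨x, hx, rfl⟩⟩).le
    choose j hj using hcof
    obtain ⟨x0, hx0⟩ : Y'.Nonempty := by
      rw [nonempty_iff_ne_empty]
      intro h1
      apply hY'ns
      rw [h1]; exact sm_empty
    have hTne : Nonempty T := ⟨⟨⟨e x0, hx0.2⟩, ⟨x0, hx0, rfl⟩⟩⟩
    classical
    obtain ⟨gA, hgA⟩ := exists_code' L (T := T) (hTc.trans (Order.succ_le_of_lt (cantor κ)))
      (fun y => if h : y ∈ N then j ⟨y, h⟩ else Classical.arbitrary T)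
    have hR : ∀ t : T, Sm κ {x | x ∈ A \ As ∧ gA x = t} := by
      intro t
      by_contra hns
      obtain ⟨Y1, hY1, hY1c⟩ := exists_succ_subset hns
      obtain ⟨e1, he1⟩ := hL Y1 hY1c
      obtain ⟨x, hx, ⟨h1, h2⟩, h3⟩ := ae_exists (not_sm_of_card hY1c)
        (((he1.iff_of_eqS h).and (hgA e1 Y1 he1)).and (he1.iff_of_eqS (hAy t.1)))
      have hxN : e1 x ∈ N := h1.1 (hY1 hx).1.1
      rw [(hY1 hx).2] at h2
      simp only [hxN, dif_pos] at h2
      have h4 : (⟨e1 x, hxN⟩ : N) ≤ t.1 := by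
        have := hj ⟨e1 x, hxN⟩
        rwa [← h2] at this
      have h5 : x ∈ Ay t.1 := h3.2 ⟨⟨e1 x, hxN⟩, h4, rfl⟩
      exact (hY1 hx).1.2 (mem_iUnion.2 ⟨t.1, h5⟩)
    refine (mk_le_mk_of_subset (t := ⋃ t : T, {x | x ∈ A \ As ∧ gA x = t}) ?_).trans
      (card_iUnion_le hκs hTc fun t => (hR t).trans (Order.le_succ κ))
    intro x hx
    exact mem_iUnion.2 ⟨gA x, hx, rfl⟩
  calc #A ≤ #(A \ As ∪ As : Set X) := mk_le_mk_of_subset (by
        intro x hx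
        by_cases h : x ∈ As
        · exact Or.inr h
        · exact Or.inl ⟨hx, h⟩)
    _ ≤ #(A \ As : Set X) + #As := mk_union_le _ _
    _ ≤ ν := add_le_of_le hν0 (hmain.trans hνs') hAsc

/-- The general few exceptions lemma. -/
theorem exists_exceptional (hL : TrivSucc L) {T : Type u}
    {τ τB : X → T} (hτ : ∀ e Y, Tr L e Y → ∀ᶠ x in ae κ Y, τB (e x) = τ x)
    (S R : Set X)
    (h : ∀ t : T, ∀ Y ⊆ S, (∀ x ∈ Y, τ x = t) → ∀ e, Tr L e Y → ∀ᶠ x in ae κ Y, e x ∉ R) :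
    ∃ A : Set X, #A ≤ max #T (Order.succ κ) ∧
      ∀ Y ⊆ S \ A, ∀ e, Tr L e Y → ∀ᶠ x in ae κ Y, e x ∉ R := by
  have hκs : ℵ₀ ≤ Order.succ κ := hκ.out.trans (Order.le_succ κ)
  have hmax : ℵ₀ ≤ max #T (Order.succ κ) := hκs.trans (le_max_right _ _)
  have hR : ∀ t : T, Sm κ (R ∩ {y | τB y = t} ∩ L.Φ S) := by
    intro t
    by_contra hns
    obtain ⟨Y, hYS, hYc, e, he, h1⟩ := exists_transfer hL hns
    have h2 : ∀ᶠ x in ae κ Y, τ x = t := by
      filter_upwards [h1, hτ e Y he] with x h3 h4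
      rw [← h4]; exact h3.2
    set Y3 : Set X := {x | x ∈ Y ∧ τ x = t} with hY3
    have hY3ns : ¬ Sm κ Y3 := not_sm_of_ae (not_sm_of_card hYc) h2
    have hY3Y : Y3 ⊆ Y := fun x hx => hx.1
    obtain ⟨x, hx, h4, h5⟩ := ae_exists hY3ns
      ((h t Y3 (hY3Y.trans hYS) (fun x hx => hx.2) e (he.mono hY3Y)).and (ae_mono hY3Y h1))
    exact h4 h5.1
  obtain ⟨A, hA⟩ := L.surj (⋃ t, R ∩ {y | τB y = t} ∩ L.Φ S)
  refine ⟨A, ?_, ?_⟩
  · refine (card_le_of_phi hL A _ hA).trans (max_le ?_ (le_max_right _ _))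
    apply card_iUnion_le hmax (le_max_left _ _)
    intro t
    exact ((hR t).trans (Order.le_succ κ)).trans (le_max_right _ _)
  · intro Y hY e he
    filter_upwards [he.iff_of_eqS hA, he.iff_phi S, ae_mem Y] with x h1 h2 h3 h4
    apply (hY h3).2
    rw [h1]
    exact mem_iUnion.2 ⟨τB (e x), ⟨h4, rfl⟩, h2.1 (hY h3).1⟩

omit hκ in
theorem Tr.congr {e e' : X → X} {Y : Set X} (h : Tr L e Y) (hee : ∀ x ∈ Y, e x = e' x) :
    Tr L e' Y := by
  intro A hA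
  have : e' '' A = e '' A := by
    apply image_congr
    intro x hx
    exact (hee x (hA hx)).symm
  rw [this]
  exact h A hA

/-- Packing: from a bound on the size of disjoint families of bad sets we obtain a small
exceptional set. -/
theorem packing (Q : X → X → Prop) (S0 : Set X) {μ : Cardinal.{u}}
    (hμ : Order.succ κ ≤ μ)
    (H : ∀ (I : Type u) (D : I → Set X) (E : X → X), (∀ i j, i ≠ j → Disjoint (D i) (D j)) →
      (∀ i, D i ⊆ S0 ∧ #(D i) = Order.succ κ ∧ Tr L E (D i) ∧ ∀ x ∈ D i, ¬ Q x (E x)) →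
      #I ≤ μ) :
    ∃ Z : Set X, #Z ≤ μ ∧ ∀ Y ⊆ S0 \ Z, ∀ e, Tr L e Y → ∀ᶠ x in ae κ Y, Q x (e x) := by
  classical
  have hκs : ℵ₀ ≤ Order.succ κ := hκ.out.trans (Order.le_succ κ)
  let Bad : Set X → Prop := fun D => D ⊆ S0 ∧ #D = Order.succ κ ∧
    ∃ e, Tr L e D ∧ ∀ x ∈ D, ¬ Q x (e x)
  let F : Set (Set (Set X)) := {𝓓 | (∀ D ∈ 𝓓, Bad D) ∧ 𝓓.PairwiseDisjoint id}
  obtain ⟨𝓓, h𝓓⟩ : ∃ 𝓓, Maximal (· ∈ F) 𝓓 := by
    apply zorn_subset
    intro c hcF hc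
    refine ⟨⋃₀ c, ⟨?_, ?_⟩, fun s hs => subset_sUnion_of_mem hs⟩
    · rintro D ⟨s, hs, hD⟩
      exact (hcF hs).1 D hD
    · rintro D ⟨s, hs, hD⟩ D' ⟨s', hs', hD'⟩ hne
      rcases hc.total hs hs' with h | h
      · exact (hcF hs').2 (h hD) hD' hne
      · exact (hcF hs).2 hD (h hD') hne
  have hBad : ∀ D : 𝓓, Bad D.1 := fun D => h𝓓.1.1 D.1 D.2
  choose eD heD heD' using fun D : 𝓓 => (hBad D).2.2
  have hdisj : ∀ i j : 𝓓, i ≠ j → Disjoint i.1 j.1 := by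
    intro i j hij
    exact h𝓓.1.2 i.2 j.2 (fun h => hij (Subtype.ext h))
  -- one function
  let E : X → X := fun x => if h : ∃ D : 𝓓, x ∈ D.1 then eD h.choose x else x
  have hE : ∀ D : 𝓓, ∀ x ∈ D.1, E x = eD D x := by
    intro D x hx
    have h : ∃ D : 𝓓, x ∈ D.1 := ⟨D, hx⟩
    have h1 : h.choose = D := by
      by_contra hne
      exact (Set.disjoint_left.1 (hdisj _ _ hne)) h.choose_spec hx
    simp only [E, h, dif_pos, h1]
  have hI := H 𝓓 (fun D => D.1) E hdisj (fun D => ⟨(hBad D).1, (hBad D).2.1,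
    (heD D).congr (fun x hx => (hE D x hx).symm), fun x hx => by
      rw [hE D x hx]; exact heD' D x hx⟩)
  refine ⟨⋃ D : 𝓓, D.1, ?_, ?_⟩
  · apply card_iUnion_le (hκs.trans hμ) hI
    intro D
    rw [(hBad D).2.1]; exact hμ
  · intro Y hY e he
    apply ae_of_not_sm_false
    intro D hD hDc hDbad
    have hbadD : Bad D := ⟨fun x hx => (hY (hD hx)).1, hDc, e, he.mono hD, hDbad⟩
    have hdD : ∀ D' ∈ 𝓓, Disjoint D D' := by
      intro D' hD'
      rw [Set.disjoint_left]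
      intro x hx hx'
      exact (hY (hD hx)).2 (mem_iUnion.2 ⟨⟨D', hD'⟩, hx'⟩)
    have hmem : insert D 𝓓 ∈ F := by
      refine ⟨?_, ?_⟩
      · rintro D' (rfl | hD')
        · exact hbadD
        · exact h𝓓.1.1 D' hD'
      · rw [pairwiseDisjoint_insert]
        exact ⟨h𝓓.1.2, fun D' hD' _ => hdD D' hD'⟩
    have hDin : D ∈ 𝓓 := h𝓓.2 hmem (subset_insert D 𝓓) (mem_insert D 𝓓)
    have := hdD D hDin
    rw [disjoint_self] at this
    apply not_sm_of_card hDc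
    have h2 : D = ∅ := this
    rw [h2]; exact sm_empty

/-- 2-colouring of forests. -/
theorem coloring {W Λ : Type*} [LinearOrder W] [WellFoundedLT W] (p : W → Prop) (a b : W → Λ)
    (hne : ∀ ζ, p ζ → a ζ ≠ b ζ)
    (hnew : ∀ ξ ζ, p ξ → p ζ → ξ < ζ → a ζ ≠ a ξ ∧ a ζ ≠ b ξ) :
    ∃ φ : Λ → Prop, ∀ ζ, p ζ → (φ (a ζ) ↔ ¬ φ (b ζ)) := by
  classical
  let step : (ζ : W) → ((ξ : W) → ξ < ζ → Prop) → Prop := fun ζ f =>
    ¬ (∀ ξ, ∀ h : ξ < ζ, p ξ → a ξ = b ζ → f ξ h)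
  let ψ : W → Prop := (wellFounded_lt (α := W)).fix step
  have hψ : ∀ ζ, ψ ζ ↔ ¬ (∀ ξ, ξ < ζ → p ξ → a ξ = b ζ → ψ ξ) := by
    intro ζ
    have := (wellFounded_lt (α := W)).fix_eq step ζ
    show (wellFounded_lt (α := W)).fix step ζ ↔ _
    rw [this]
  refine ⟨fun v => ∀ ξ, p ξ → a ξ = v → ψ ξ, ?_⟩
  intro ζ hζ
  have h1 : (∀ ξ, p ξ → a ξ = a ζ → ψ ξ) ↔ ψ ζ := by
    constructor
    · intro h; exact h ζ hζ rfl
    · intro h ξ hξ hξζ
      rcases lt_trichotomy ξ ζ with h2 | h2 | h2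
      · exact absurd hξζ.symm (hnew ξ ζ hξ hζ h2).1
      · rw [h2]; exact h
      · exact absurd hξζ (hnew ζ ξ hζ hξ h2).1
  show (∀ ξ, p ξ → a ξ = a ζ → ψ ξ) ↔ ¬ (∀ ξ, p ξ → a ξ = b ζ → ψ ξ)
  rw [h1, hψ ζ, not_iff_not]
  constructor
  · intro h ξ hξ hξb
    rcases lt_trichotomy ξ ζ with h2 | h2 | h2
    · exact h ξ h2 hξ hξb
    · rw [h2] at hξb; exact absurd hξb (hne ζ hζ)
    · exact absurd hξb (hnew ζ ξ hζ hξ h2).2
  · intro h ξ _ hξ hξb
    exact h ξ hξ hξb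


end MP9708
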