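import Mathlib

/-!
# The Boolean algebra `P(X)/[X]^{≤κ}` and trivial automorphisms

`X` plays the role of the cardinal `λ` (only its cardinality matters).
-/

open Cardinal Set

namespace MP9708

universe u

theorem card_union_le_of {X : Type u} {κ : Cardinal.{u}} (hκ : ℵ₀ ≤ κ) {A B : Set X}
    (hA : #A ≤ κ) (hB : #B ≤ κ) : #(A ∪ B : Set X) ≤ κ :=
  (mk_union_le A B).trans (add_le_of_le hκ hA hB)

/-- Equality modulo the ideal of sets of cardinality `≤ κ` (the ideal `𝓘_{κ⁺}`). -/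
def modSetoid (κ : Cardinal.{u}) [hκ : Fact (ℵ₀ ≤ κ)] (X : Type u) : Setoid (Set X) where
  r A B := #(A \ B : Set X) ≤ κ ∧ #(B \ A : Set X) ≤ κ
  iseqv :=
    { refl := fun A => by simp
      symm := fun h => ⟨h.2, h.1⟩
      trans := fun {A B C} h h' => by
        constructor
        · refine (mk_le_mk_of_subset (t := (A \ B) ∪ (B \ C)) ?_).trans
            (card_union_le_of hκ.out h.1 h'.1)
          intro x hx
          by_cases hB : x ∈ B
          · exact Or.inr ⟨hB, hx.2⟩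
          · exact Or.inl ⟨hx.1, hB⟩
        · refine (mk_le_mk_of_subset (t := (C \ B) ∪ (B \ A)) ?_).trans
            (card_union_le_of hκ.out h'.2 h.2)
          intro x hx
          by_cases hB : x ∈ B
          · exact Or.inr ⟨hB, hx.2⟩
          · exact Or.inl ⟨hx.1, hB⟩ }

/-- The quotient `P(X)/𝓘_{κ⁺}`. -/
def PQ (κ : Cardinal.{u}) [Fact (ℵ₀ ≤ κ)] (X : Type u) : Type u := Quotient (modSetoid κ X)

variable {κ : Cardinal.{u}} [hκ : Fact (ℵ₀ ≤ κ)] {X : Type u}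

/-- The class `[A]` of `A ⊆ X`. -/
def cl (κ : Cardinal.{u}) [Fact (ℵ₀ ≤ κ)] {X : Type u} (A : Set X) : PQ κ X :=
  Quotient.mk (modSetoid κ X) A

theorem cl_eq_iff {A B : Set X} :
    cl κ A = cl κ B ↔ #(A \ B : Set X) ≤ κ ∧ #(B \ A : Set X) ≤ κ :=
  Quotient.eq (r := modSetoid κ X)

theorem cl_surj (a : PQ κ X) : ∃ A : Set X, cl κ A = a := Quotient.exists_rep a

/-- `[A] ≤ [B]` iff `A \ B` has cardinality at most `κ`; joins, meets and complements are induced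
by unions, intersections and complements. -/
instance : BooleanAlgebra (PQ κ X) where
  le a b := ∃ A B : Set X, cl κ A = a ∧ cl κ B = b ∧ #(A \ B : Set X) ≤ κ
  sup := Quotient.map₂ (· ∪ ·) (by
    intro A A' hA B B' hB
    constructor
    · refine (mk_le_mk_of_subset (t := (A \ A') ∪ (B \ B')) ?_).trans
        (card_union_le_of hκ.out hA.1 hB.1)
      rintro x ⟨h1 | h1, h2⟩
      · exact Or.inl ⟨h1, fun h => h2 (Or.inl h)⟩
      · exact Or.inr ⟨h1, fun h => h2 (Or.inr h)⟩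
    · refine (mk_le_mk_of_subset (t := (A' \ A) ∪ (B' \ B)) ?_).trans
        (card_union_le_of hκ.out hA.2 hB.2)
      rintro x ⟨h1 | h1, h2⟩
      · exact Or.inl ⟨h1, fun h => h2 (Or.inl h)⟩
      · exact Or.inr ⟨h1, fun h => h2 (Or.inr h)⟩)
  inf := Quotient.map₂ (· ∩ ·) (by
    intro A A' hA B B' hB
    constructor
    · refine (mk_le_mk_of_subset (t := (A \ A') ∪ (B \ B')) ?_).trans
        (card_union_le_of hκ.out hA.1 hB.1)
      rintro x ⟨⟨h1, h1'⟩, h2⟩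
      by_cases h : x ∈ A'
      · exact Or.inr ⟨h1', fun h' => h2 ⟨h, h'⟩⟩
      · exact Or.inl ⟨h1, h⟩
    · refine (mk_le_mk_of_subset (t := (A' \ A) ∪ (B' \ B)) ?_).trans
        (card_union_le_of hκ.out hA.2 hB.2)
      rintro x ⟨⟨h1, h1'⟩, h2⟩
      by_cases h : x ∈ A
      · exact Or.inr ⟨h1', fun h' => h2 ⟨h, h'⟩⟩
      · exact Or.inl ⟨h1, h⟩)
  top := cl κ univ
  bot := cl κ ∅
  compl := Quotient.map compl (by
    intro A A' hA
    constructor
    · refine (mk_le_mk_of_subset ?_).trans hA.2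
      rintro x ⟨h1, h2⟩
      exact ⟨by simpa using h2, h1⟩
    · refine (mk_le_mk_of_subset ?_).trans hA.1
      rintro x ⟨h1, h2⟩
      exact ⟨by simpa using h2, h1⟩)
  le_refl a := by
    obtain ⟨A, rfl⟩ := cl_surj a
    exact ⟨A, A, rfl, rfl, by simp⟩
  le_trans a b c := by
    rintro ⟨A, B, rfl, rfl, hAB⟩ ⟨B', C, hB, rfl, hBC⟩
    rw [cl_eq_iff] at hB
    refine ⟨A, C, rfl, rfl, ?_⟩
    refine (mk_le_mk_of_subset (t := ((A \ B) ∪ (B \ B')) ∪ (B' \ C)) ?_).trans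
      (card_union_le_of hκ.out (card_union_le_of hκ.out hAB hB.2) hBC)
    rintro x ⟨h1, h2⟩
    by_cases h : x ∈ B
    · by_cases h' : x ∈ B'
      · exact Or.inr ⟨h', h2⟩
      · exact Or.inl (Or.inr ⟨h, h'⟩)
    · exact Or.inl (Or.inl ⟨h1, h⟩)
  le_antisymm a b := by
    rintro ⟨A, B, rfl, rfl, hAB⟩ ⟨B', A', hB, hA, hBA⟩
    rw [cl_eq_iff] at hB hA
    rw [cl_eq_iff]
    refine ⟨hAB, ?_⟩
    refine (mk_le_mk_of_subset (t := ((B \ B') ∪ (B' \ A')) ∪ (A' \ A)) ?_).trans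
      (card_union_le_of hκ.out (card_union_le_of hκ.out hB.2 hBA) hA.1)
    rintro x ⟨h1, h2⟩
    by_cases h : x ∈ B'
    · by_cases h' : x ∈ A'
      · exact Or.inr ⟨h', h2⟩
      · exact Or.inl (Or.inr ⟨h, h'⟩)
    · exact Or.inl (Or.inl ⟨h1, h⟩)
  le_sup_left a b := by
    obtain ⟨A, rfl⟩ := cl_surj a
    obtain ⟨B, rfl⟩ := cl_surj b
    refine ⟨A, A ∪ B, rfl, rfl, ?_⟩
    rw [sdiff_eq_empty.2 subset_union_left]; simp
  le_sup_right a b := by
    obtain ⟨A, rfl⟩ := cl_surj a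
    obtain ⟨B, rfl⟩ := cl_surj b
    refine ⟨B, A ∪ B, rfl, rfl, ?_⟩
    rw [sdiff_eq_empty.2 subset_union_right]; simp
  sup_le a b c := by
    obtain ⟨A, rfl⟩ := cl_surj a
    obtain ⟨B, rfl⟩ := cl_surj b
    obtain ⟨C, rfl⟩ := cl_surj c
    rintro ⟨A', C', hA, hC, h1⟩ ⟨B', C'', hB, hC', h2⟩
    rw [cl_eq_iff] at hA hC hB hC'
    refine ⟨A ∪ B, C, rfl, rfl, ?_⟩
    refine (mk_le_mk_of_subset
      (t := (((A \ A') ∪ (A' \ C')) ∪ (C' \ C)) ∪ (((B \ B') ∪ (B' \ C'')) ∪ (C'' \ C))) ?_).trans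
      (card_union_le_of hκ.out
        (card_union_le_of hκ.out (card_union_le_of hκ.out hA.2 h1) hC.1)
        (card_union_le_of hκ.out (card_union_le_of hκ.out hB.2 h2) hC'.1))
    rintro x ⟨h3 | h3, h4⟩
    · left
      by_cases h : x ∈ A'
      · by_cases h' : x ∈ C'
        · exact Or.inr ⟨h', h4⟩
        · exact Or.inl (Or.inr ⟨h, h'⟩)
      · exact Or.inl (Or.inl ⟨h3, h⟩)
    · right
      by_cases h : x ∈ B'
      · by_cases h' : x ∈ C''
        · exact Or.inr ⟨h', h4⟩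
        · exact Or.inl (Or.inr ⟨h, h'⟩)
      · exact Or.inl (Or.inl ⟨h3, h⟩)
  inf_le_left a b := by
    obtain ⟨A, rfl⟩ := cl_surj a
    obtain ⟨B, rfl⟩ := cl_surj b
    refine ⟨A ∩ B, A, rfl, rfl, ?_⟩
    rw [sdiff_eq_empty.2 inter_subset_left]; simp
  inf_le_right a b := by
    obtain ⟨A, rfl⟩ := cl_surj a
    obtain ⟨B, rfl⟩ := cl_surj b
    refine ⟨A ∩ B, B, rfl, rfl, ?_⟩
    rw [sdiff_eq_empty.2 inter_subset_right]; simp
  le_inf a b c := by
    obtain ⟨A, rfl⟩ := cl_surj a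
    obtain ⟨B, rfl⟩ := cl_surj b
    obtain ⟨C, rfl⟩ := cl_surj c
    rintro ⟨A', B', hA, hB, h1⟩ ⟨A'', C', hA', hC, h2⟩
    rw [cl_eq_iff] at hA hB hA' hC
    refine ⟨A, B ∩ C, rfl, rfl, ?_⟩
    refine (mk_le_mk_of_subset
      (t := (((A \ A') ∪ (A' \ B')) ∪ (B' \ B)) ∪ (((A \ A'') ∪ (A'' \ C')) ∪ (C' \ C))) ?_).trans
      (card_union_le_of hκ.out
        (card_union_le_of hκ.out (card_union_le_of hκ.out hA.2 h1) hB.1)
        (card_union_le_of hκ.out (card_union_le_of hκ.out hA'.2 h2) hC.1))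
    rintro x ⟨h3, h4⟩
    by_cases hB2 : x ∈ B
    · have hC2 : x ∉ C := fun h => h4 ⟨hB2, h⟩
      right
      by_cases h : x ∈ A''
      · by_cases h' : x ∈ C'
        · exact Or.inr ⟨h', hC2⟩
        · exact Or.inl (Or.inr ⟨h, h'⟩)
      · exact Or.inl (Or.inl ⟨h3, h⟩)
    · left
      by_cases h : x ∈ A'
      · by_cases h' : x ∈ B'
        · exact Or.inr ⟨h', hB2⟩
        · exact Or.inl (Or.inr ⟨h, h'⟩)
      · exact Or.inl (Or.inl ⟨h3, h⟩)
  le_sup_inf a b c := by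
    obtain ⟨A, rfl⟩ := cl_surj a
    obtain ⟨B, rfl⟩ := cl_surj b
    obtain ⟨C, rfl⟩ := cl_surj c
    refine ⟨(A ∪ B) ∩ (A ∪ C), A ∪ (B ∩ C), rfl, rfl, ?_⟩
    rw [← union_inter_distrib_left]; simp
  le_top a := by
    obtain ⟨A, rfl⟩ := cl_surj a
    exact ⟨A, univ, rfl, rfl, by simp⟩
  bot_le a := by
    obtain ⟨A, rfl⟩ := cl_surj a
    exact ⟨∅, A, rfl, rfl, by simp⟩
  inf_compl_le_bot a := by
    obtain ⟨A, rfl⟩ := cl_surj a
    refine ⟨A ∩ Aᶜ, ∅, rfl, rfl, ?_⟩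
    simp
  top_le_sup_compl a := by
    obtain ⟨A, rfl⟩ := cl_surj a
    refine ⟨univ, A ∪ Aᶜ, rfl, rfl, ?_⟩
    simp

theorem cl_le_iff {A B : Set X} : cl κ A ≤ cl κ B ↔ #(A \ B : Set X) ≤ κ := by
  constructor
  · rintro ⟨A', B', hA, hB, h⟩
    rw [cl_eq_iff] at hA hB
    refine (mk_le_mk_of_subset (t := ((A \ A') ∪ (A' \ B')) ∪ (B' \ B)) ?_).trans
      (card_union_le_of hκ.out (card_union_le_of hκ.out hA.2 h) hB.1)
    rintro x ⟨h1, h2⟩
    by_cases h : x ∈ A'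
    · by_cases h' : x ∈ B'
      · exact Or.inr ⟨h', h2⟩
      · exact Or.inl (Or.inr ⟨h, h'⟩)
    · exact Or.inl (Or.inl ⟨h1, h⟩)
  · intro h
    exact ⟨A, B, rfl, rfl, h⟩

theorem cl_union (A B : Set X) : cl κ (A ∪ B) = cl κ A ⊔ cl κ B := rfl

theorem cl_inter (A B : Set X) : cl κ (A ∩ B) = cl κ A ⊓ cl κ B := rfl

theorem cl_compl (A : Set X) : cl κ Aᶜ = (cl κ A)ᶜ := rfl

/-- The automorphism `π` of the Boolean algebra `P(X)/𝓘_{κ⁺}` is trivial on `S ⊆ X`: there is a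
function `e` with `π([A]) = [e[A]]` for all `A ⊆ S`.  (For `S = X` this says that `π` is trivial.) -/
def TrivialOn (π : PQ κ X ≃o PQ κ X) (S : Set X) : Prop :=
  ∃ e : S → X, ∀ A : Set S, π (cl κ (Subtype.val '' A)) = cl κ (e '' A)

/-- The tree property of a cardinal `c`: every tree of height `c` all of whose levels have size
`< c` has a cofinal branch.  (`T a` is the `a`-th level, and `p a b` sends an element of the
level `b` to its predecessor of level `a`; a cofinal branch is a thread `s`.)  A strongly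
inaccessible cardinal has the tree property iff it is weakly compact. -/
def TreeProperty (c : Cardinal.{u}) : Prop :=
  ∀ (T : c.ord.ToType → Type u) (p : ∀ a b : c.ord.ToType, a ≤ b → T b → T a),
    (∀ a (t : T a), p a a le_rfl t = t) →
    (∀ a b d (hab : a ≤ b) (hbd : b ≤ d) (t : T d),
      p a b hab (p b d hbd t) = p a d (hab.trans hbd) t) →
    (∀ a, Nonempty (T a)) → (∀ a, #(T a) < c) →
    ∃ s : ∀ a, T a, ∀ a b (hab : a ≤ b), p a b hab (s b) = s a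

end MP9708
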