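import Pool.Agent.Lib.MP_9708fd_lc.TBasic
import Pool.Agent.Lib.MP_9708fd_lc.TDefs

/-!
# Exactness, the weakly compact step, and the main theorem
-/

open Cardinal Set Filter

namespace MP9708


universe u

variable {X : Type u} {κ : Cardinal.{u}} [hκ : Fact (ℵ₀ ≤ κ)] {L : Lift κ X}

/-- `(C_l)` is respected exactly (modulo `κ`) outside `Z`. -/
def ExactOff (L : Lift κ X) {Λ : Type u} (C : Λ → Set X) (Z : Set X) : Prop :=
  ∀ Y, Disjoint Y Z → ∀ e, Tr L e Y → ∀ᶠ x in ae κ Y, ∀ l, (x ∈ C l ↔ e x ∈ L.Φ (C l))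

theorem ExactOff.mono {Λ : Type u} {C : Λ → Set X} {Z Z' : Set X} (h : ExactOff L C Z)
    (hZ : Z ⊆ Z') : ExactOff L C Z' :=
  fun Y hY e he => h Y (hY.mono_right hZ) e he

/-- Exactness for families of at most `2^κ` sets. -/
theorem exact_base (hL : TrivSucc L) {Λ : Type u} (hΛ : #Λ ≤ 2 ^ κ) (C : Λ → Set X) :
    ∃ Z : Set X, #Z ≤ 2 ^ κ ∧ ExactOff L C Z := by
  classical
  have hs2 : Order.succ κ ≤ 2 ^ κ := Order.succ_le_of_lt (cantor κ)
  have h20 : ℵ₀ ≤ (2 : Cardinal) ^ κ := (hκ.out.trans (Order.le_succ κ)).trans hs2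
  by_cases hΛe : IsEmpty Λ
  · refine ⟨∅, by simp, ?_⟩
    intro Y _ e _
    exact Filter.Eventually.of_forall fun x l => (hΛe.false l).elim
  rw [not_isEmpty_iff] at hΛe
  obtain ⟨Z, hZ, hZ'⟩ := packing (κ := κ) (L := L) (fun x y => ∀ l, (x ∈ C l ↔ y ∈ L.Φ (C l)))
    univ hs2 (by
    intro I D E hdisj hD
    -- a bad index
    have hbad : ∀ x : X, ∃ l : Λ, (∃ i, x ∈ D i) → ¬ (x ∈ C l ↔ E x ∈ L.Φ (C l)) := by
      intro x
      by_cases h : ∃ i, x ∈ D i
      · obtain ⟨i, hi⟩ := h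
        have := (hD i).2.2.2 x hi
        push Not at this
        obtain ⟨l, hl⟩ := this
        refine ⟨l, fun _ => ?_⟩
        intro h2
        rcases hl with ⟨h3, h4⟩ | ⟨h3, h4⟩
        · exact h4 (h2.1 h3)
        · exact h3 (h2.2 h4)
      · exact ⟨Classical.arbitrary Λ, fun h' => absurd h' h⟩
    choose lf hlf using hbad
    -- the code
    let T := Λ ⊕ Λ
    have hT : #T ≤ 2 ^ κ := by
      simp only [T, mk_sum, lift_id]
      exact add_le_of_le h20 hΛ hΛ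
    let v : X → T := fun x => if x ∈ C (lf x) then Sum.inl (lf x) else Sum.inr (lf x)
    let idx : T → Λ := Sum.elim id id
    let sgn : T → Prop := Sum.elim (fun _ => True) (fun _ => False)
    have hidx : ∀ x, idx (v x) = lf x := by
      intro x
      by_cases h : x ∈ C (lf x) <;> simp [v, idx, h]
    have hsgn : ∀ x, (sgn (v x) ↔ x ∈ C (lf x)) := by
      intro x
      by_cases h : x ∈ C (lf x) <;> simp [v, sgn, h]
    obtain ⟨vB, hvB⟩ := exists_code L hT v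
    obtain ⟨A, hA, hA'⟩ := exists_exceptional hL hvB (⋃ i, D i)
      {y | ¬ (y ∈ L.Φ (C (idx (vB y))) ↔ sgn (vB y))} (by
      intro t Y hY ht e he
      filter_upwards [hvB e Y he, he.iff_phi (C (idx t)), ae_mem Y] with x h1 h2 h3 h4
      apply h4
      rw [h1, ht x h3, ← h2, ← ht x h3, hidx, hsgn])
    have hA2 : #A ≤ 2 ^ κ := hA.trans (max_le hT hs2)
    have hmeet : ∀ i, ∃ a : A, a.1 ∈ D i := by
      intro i
      by_contra hno
      push Not at hno
      have h1 : D i ⊆ (⋃ i, D i) \ A := fun x hx =>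
        ⟨mem_iUnion.2 ⟨i, hx⟩, fun hxA => hno ⟨x, hxA⟩ hx⟩
      obtain ⟨x, hx, h2, h3⟩ := ae_exists (not_sm_of_card (hD i).2.1)
        ((hA' (D i) h1 E (hD i).2.2.1).and (hvB E (D i) (hD i).2.2.1))
      have h4 : (E x ∈ L.Φ (C (idx (vB (E x)))) ↔ sgn (vB (E x))) := by
        by_contra h5; exact h2 h5
      rw [h3, hidx, hsgn] at h4
      exact hlf x ⟨i, hx⟩ h4.symm
    choose a ha using hmeet
    refine le_trans ?_ hA2
    refine ⟨⟨a, ?_⟩⟩
    intro i j hij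
    by_contra hne
    refine Set.disjoint_left.1 (hdisj i j hne) (ha i) ?_
    rw [hij]; exact ha j)
  refine ⟨Z, hZ, ?_⟩
  intro Y hY e he
  apply hZ' Y _ e he
  intro x hx
  exact ⟨mem_univ x, fun h => Set.disjoint_left.1 hY hx h⟩

/-- A disjoint family with more than `ν` members has a member disjoint from any given set of
size `≤ ν`; more precisely the members meeting `A` are at most `|A|` many. -/
theorem card_meet_le {I : Type u} {D : I → Set X} (hdisj : ∀ i j, i ≠ j → Disjoint (D i) (D j))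
    (A : Set X) : #{i : I | ¬ Disjoint (D i) A} ≤ #A := by
  have h : ∀ i : {i : I | ¬ Disjoint (D i) A}, ∃ a : A, a.1 ∈ D i.1 := by
    intro i
    have := i.2
    rw [mem_setOf_eq, Set.not_disjoint_iff] at this
    obtain ⟨x, hx, hx'⟩ := this
    exact ⟨⟨x, hx'⟩, hx⟩
  choose a ha using h
  refine ⟨⟨a, ?_⟩⟩
  intro i j hij
  by_contra hne
  refine Set.disjoint_left.1 (hdisj i.1 j.1 (fun h => hne (Subtype.ext h))) (ha i) ?_
  rw [hij]; exact ha j

/-- restriction of a large index set to members disjoint from a small set -/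
theorem card_avoid {I : Type u} {D : I → Set X} (hdisj : ∀ i j, i ≠ j → Disjoint (D i) (D j))
    {ν : Cardinal.{u}} (hν : ℵ₀ ≤ ν) (J : Set I) (hJ : ν < #J) (A : Set X) (hA : #A ≤ ν) :
    ν < #{i : I | i ∈ J ∧ Disjoint (D i) A} := by
  by_contra hcon
  rw [not_lt] at hcon
  have h1 : J ⊆ {i : I | i ∈ J ∧ Disjoint (D i) A} ∪ {i : I | ¬ Disjoint (D i) A} := by
    intro i hi
    by_cases h : Disjoint (D i) A
    · exact Or.inl ⟨hi, h⟩
    · exact Or.inr h
  have h2 : #J ≤ ν := (mk_le_mk_of_subset h1).trans ((mk_union_le _ _).trans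
    (add_le_of_le hν hcon ((card_meet_le hdisj A).trans hA)))
  exact absurd hJ (not_lt.2 h2)

/-- Exactness for arbitrary families. -/
theorem exact_family (hL : TrivSucc L) (ν : Cardinal.{u}) :
    ∀ (Λ : Type u), #Λ ≤ ν → ∀ C : Λ → Set X,
      ∃ Z : Set X, #Z ≤ max ν (2 ^ κ) ∧ ExactOff L C Z := by
  classical
  have hs2 : Order.succ κ ≤ 2 ^ κ := Order.succ_le_of_lt (cantor κ)
  have hκs : ℵ₀ ≤ Order.succ κ := hκ.out.trans (Order.le_succ κ)
  have h20 : ℵ₀ ≤ (2 : Cardinal) ^ κ := hκs.trans hs2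
  induction ν using WellFoundedLT.induction with
  | ind ν ih =>
  intro Λ hΛ C
  by_cases hbase : #Λ ≤ 2 ^ κ
  · obtain ⟨Z, hZ, hZ'⟩ := exact_base hL hbase C
    exact ⟨Z, hZ.trans (le_max_right _ _), hZ'⟩
  rw [not_le] at hbase
  rcases hΛ.lt_or_eq with hlt | hΛν
  · obtain ⟨Z, hZ, hZ'⟩ := ih _ hlt Λ le_rfl C
    exact ⟨Z, hZ.trans (max_le_max hlt.le le_rfl), hZ'⟩
  have hν2 : 2 ^ κ ≤ ν := by rw [← hΛν]; exact hbase.le
  have hνs : Order.succ κ ≤ ν := hs2.trans hν2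
  have hν0 : ℵ₀ ≤ ν := h20.trans hν2
  rw [max_eq_left hν2]
  obtain ⟨lo, wf, hord⟩ := exists_ord_eq_type_lt Λ
  have hseg : ∀ l : Λ, #(Iic l) < ν := by
    intro l
    rw [← hΛν]
    exact mk_Iic_lt l hord (by rw [hΛν]; exact hν0)
  -- exceptional sets for initial segments
  have hZl : ∀ l : Λ, ∃ Z : Set X, #Z ≤ ν ∧ ExactOff L (fun i : Iic l => C i.1) Z := by
    intro l
    obtain ⟨Z, hZ, hZ'⟩ := ih _ (hseg l) (Iic l) le_rfl (fun i => C i.1)
    exact ⟨Z, hZ.trans (max_le (hseg l).le hν2), hZ'⟩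
  choose Zl hZlc hZl' using hZl
  set Z1 : Set X := ⋃ l, Zl l with hZ1
  have hZ1c : #Z1 ≤ ν := card_iUnion_le hν0 hΛν.le hZlc
  have hΛne : Nonempty Λ := by
    by_contra h
    rw [not_nonempty_iff] at h
    have : #Λ = 0 := mk_eq_zero Λ
    rw [this] at hΛν
    rw [← hΛν] at hν0
    exact absurd hν0 (not_le.2 aleph0_pos)
  obtain ⟨Z2, hZ2, hZ2'⟩ := packing (κ := κ) (L := L) (fun x y => ∀ l, (x ∈ C l ↔ y ∈ L.Φ (C l)))
    Z1ᶜ hνs (by
    intro I D0 E hdisj0 hD0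
    by_contra hIbig
    rw [not_le] at hIbig
    -- a bad index
    have hbad : ∀ x : X, ∃ l : Λ, (∃ i, x ∈ D0 i) → ¬ (x ∈ C l ↔ E x ∈ L.Φ (C l)) := by
      intro x
      by_cases h : ∃ i, x ∈ D0 i
      · obtain ⟨i, hi⟩ := h
        have := (hD0 i).2.2.2 x hi
        push Not at this
        obtain ⟨l, hl⟩ := this
        refine ⟨l, fun _ => ?_⟩
        intro h2
        rcases hl with ⟨h3, h4⟩ | ⟨h3, h4⟩
        · exact h4 (h2.1 h3)
        · exact h3 (h2.2 h4)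
      · exact ⟨Classical.arbitrary Λ, fun h' => absurd h' h⟩
    choose lf hlf using hbad
    have hsmall : ∀ i l, Sm κ {x | x ∈ D0 i ∧ lf x ≤ l} := by
      intro i l
      have h1 : Disjoint (D0 i) (Zl l) := by
        rw [Set.disjoint_left]
        intro x hx hxZ
        exact (hD0 i).1 hx (mem_iUnion.2 ⟨l, hxZ⟩)
      have h2 := hZl' l (D0 i) h1 E (hD0 i).2.2.1
      rw [eventually_ae] at h2
      refine h2.mono ?_
      rintro x ⟨hx, hxl⟩
      refine ⟨hx, fun h3 => ?_⟩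
      exact hlf x ⟨i, hx⟩ (h3 ⟨lf x, hxl⟩)
    -- choose one member
    have hIne : Nonempty I := by
      by_contra h
      rw [not_nonempty_iff] at h
      have : #I = 0 := mk_eq_zero I
      rw [this] at hIbig
      exact absurd hIbig (not_lt.2 zero_le)
    obtain ⟨i0⟩ := hIne
    let T := (lf '' D0 i0 : Set Λ)
    have hTc : #T ≤ Order.succ κ := mk_image_le.trans (hD0 i0).2.1.le
    have hcof : ∀ l : Λ, ∃ t : T, l ≤ t.1 := by
      intro l
      by_contra hno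
      push Not at hno
      apply not_sm_of_card (hD0 i0).2.1
      refine (hsmall i0 l).mono ?_
      intro x hx
      exact ⟨hx, (hno ⟨lf x, ⟨x, hx, rfl⟩⟩).le⟩
    choose j hj using hcof
    have hTne : Nonempty T := ⟨j (Classical.arbitrary Λ)⟩
    have hT2 : #T ≤ 2 ^ κ := hTc.trans hs2
    let τ : X → T := fun x => j (lf x)
    obtain ⟨τB, hτB⟩ := exists_code L hT2 τ
    -- make `τ` injective on the members
    have hD1 : ∀ i, ∃ D ⊆ D0 i, BijOn τ D (τ '' D0 i) := fun i =>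
      SurjOn.exists_bijOn_subset (surjOn_image τ (D0 i))
    choose D hDD0 hDbij using hD1
    have hDns : ∀ i, ¬ Sm κ (D i) := by
      intro i hsm
      apply not_sm_of_card (hD0 i).2.1
      refine (Sm.iUnion hκ.out (ι := D i) (A := fun d => {x | x ∈ D0 i ∧ lf x ≤ (τ d.1).1}) hsm
        fun d => hsmall i _).mono ?_
      intro x hx
      obtain ⟨d, hd, hdx⟩ := (hDbij i).surjOn ⟨x, hx, rfl⟩
      refine mem_iUnion.2 ⟨⟨d, hd⟩, hx, ?_⟩
      show lf x ≤ (τ d).1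
      rw [hdx]
      exact hj (lf x)
    have hDc : ∀ i, #(D i) ≤ Order.succ κ := fun i =>
      (mk_le_mk_of_subset (hDD0 i)).trans (hD0 i).2.1.le
    have hDTr : ∀ i, Tr L E (D i) := fun i => (hD0 i).2.2.1.mono (hDD0 i)
    have hdisj : ∀ i j, i ≠ j → Disjoint (D i) (D j) := fun i j hij =>
      (hdisj0 i j hij).mono (hDD0 i) (hDD0 j)
    set U : Set X := ⋃ i, D i with hU
    have hUlf : ∀ x ∈ U, ¬ (x ∈ C (lf x) ↔ E x ∈ L.Φ (C (lf x))) := by
      intro x hx
      obtain ⟨i, hi⟩ := mem_iUnion.1 hx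
      exact hlf x ⟨i, hDD0 i hi⟩
    -- the partition of each `τ`-class
    have hEt : ∀ t : T, ∃ Z : Set X, #Z ≤ ν ∧
        ExactOff L (fun l : Iic t.1 => {x | x ∈ U ∧ τ x = t ∧ lf x = l.1}) Z := by
      intro t
      obtain ⟨Z, hZ, hZ'⟩ := ih _ (hseg t.1) (Iic t.1) le_rfl
        (fun l => {x | x ∈ U ∧ τ x = t ∧ lf x = l.1})
      exact ⟨Z, hZ.trans (max_le (hseg t.1).le hν2), hZ'⟩
    choose Zt hZtc hZt' using hEt
    set Z3 : Set X := ⋃ t, Zt t with hZ3
    have hZ3c : #Z3 ≤ ν := card_iUnion_le hν0 (hTc.trans hνs) hZtc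
    -- the decoding function
    let lBt : T → X → Λ := fun t y =>
      if h : ∃ l : Iic t.1, y ∈ L.Φ {z | z ∈ U ∧ τ z = t ∧ lf z = l.1} then h.choose.1
      else Classical.arbitrary Λ
    let lB : X → Λ := fun y => lBt (τB y) y
    have hlB : ∀ t : T, ∀ Y ⊆ U \ Z3, (∀ x ∈ Y, τ x = t) → ∀ e, Tr L e Y →
        ∀ᶠ x in ae κ Y, lB (e x) = lf x := by
      intro t Y hY ht e he
      have hYd : Disjoint Y (Zt t) := by
        rw [Set.disjoint_left]
        intro x hx hxZ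
        exact (hY hx).2 (mem_iUnion.2 ⟨t, hxZ⟩)
      filter_upwards [hτB e Y he, hZt' t Y hYd e he, ae_mem Y] with x h1 h2 h3
      have hτx : τ x = t := ht x h3
      rw [hτx] at h1
      have hle : lf x ≤ t.1 := by
        rw [← hτx]; exact hj (lf x)
      have hex : ∃ l : Iic t.1, e x ∈ L.Φ {z | z ∈ U ∧ τ z = t ∧ lf z = l.1} :=
        ⟨⟨lf x, hle⟩, (h2 ⟨lf x, hle⟩).1 ⟨(hY h3).1, hτx, rfl⟩⟩
      have hval : lB (e x) = hex.choose.1 := by
        show lBt (τB (e x)) (e x) = _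
        rw [h1]
        exact dif_pos hex
      rw [hval]
      exact ((h2 hex.choose).2 hex.choose_spec).2.2.symm
    -- claim A
    let s : X → ULift.{u} Prop := fun x => ⟨x ∈ C (lf x)⟩
    have h2s : #(ULift.{u} Prop) ≤ 2 ^ κ := by
      have : #(ULift.{u} Prop) < ℵ₀ := by
        rw [mk_uLift]
        simp
      exact this.le.trans h20
    obtain ⟨sB, hsB⟩ := exists_code L h2s s
    obtain ⟨A1, hA1, hA1'⟩ := exists_exceptional hL hτB (U \ Z3)
      {y | ¬ (y ∈ L.Φ (C (lB y)) ↔ (sB y).down)} (by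
      intro t Y hY ht e he
      have hYd : Disjoint Y (Zl t.1) := by
        rw [Set.disjoint_left]
        intro x hx hxZ
        obtain ⟨i, hi⟩ := mem_iUnion.1 (hY hx).1
        exact (hD0 i).1 (hDD0 i hi) (mem_iUnion.2 ⟨t.1, hxZ⟩)
      filter_upwards [hlB t Y hY ht e he, hsB e Y he, hZl' t.1 Y hYd e he, ae_mem Y]
        with x h1 h2 h3 h4 h5
      apply h5
      rw [h1, h2]
      have hle : lf x ≤ t.1 := by
        rw [← ht x h4]; exact hj (lf x)
      exact (h3 ⟨lf x, hle⟩).symm)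
    have hA1c : #A1 ≤ ν := hA1.trans (max_le (hTc.trans hνs) hνs)
    -- claim B
    have claimB : ∀ φ : T → Λ → Prop, ∃ A : Set X, #A ≤ Order.succ κ ∧
        ∀ Y ⊆ (U \ Z3) \ A, ∀ e, Tr L e Y →
          ∀ᶠ x in ae κ Y, (φ (τ x) (lf x) ↔ φ (τ x) (lB (e x))) := by
      intro φ
      obtain ⟨A, hA, hA'⟩ := exists_exceptional hL hτB (U \ Z3)
        {y | ¬ (y ∈ L.Φ {x | φ (τ x) (lf x)} ↔ φ (τB y) (lB y))} (by
        intro t Y hY ht e he
        filter_upwards [hlB t Y hY ht e he, hτB e Y he,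
          he.iff_phi {x | φ (τ x) (lf x)}] with x h1 h2 h3 h4
        apply h4
        rw [h1, h2]
        exact h3.symm)
      refine ⟨A, hA.trans (max_le hTc le_rfl), ?_⟩
      intro Y hY e he
      filter_upwards [hA' Y hY e he, hτB e Y he, he.iff_phi {x | φ (τ x) (lf x)}]
        with x h1 h2 h3
      have h4 : (e x ∈ L.Φ {x | φ (τ x) (lf x)} ↔ φ (τB (e x)) (lB (e x))) := by
        by_contra h5; exact h1 h5
      rw [h2, ← h3] at h4
      exact h4
    -- large index set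
    let J : Set I := {i | (i ∈ {i | i ∈ (univ : Set I) ∧ Disjoint (D i) Z3}) ∧
      Disjoint (D i) A1}
    have hJ : ν < #J := by
      apply card_avoid hdisj hν0 _ _ A1 hA1c
      apply card_avoid hdisj hν0 _ _ Z3 hZ3c
      rw [mk_univ]; exact hIbig
    have hJZ : ∀ i ∈ J, D i ⊆ U \ Z3 := fun i hi x hx =>
      ⟨mem_iUnion.2 ⟨i, hx⟩, fun h => Set.disjoint_left.1 hi.1.2 hx h⟩
    have hab : ∀ i ∈ J, ∀ᶠ x in ae κ (D i), lf x ≠ lB (E x) := by
      intro i hi
      have h1 : D i ⊆ (U \ Z3) \ A1 := fun x hx =>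
        ⟨hJZ i hi hx, fun h => Set.disjoint_left.1 hi.2 hx h⟩
      filter_upwards [hA1' (D i) h1 E (hDTr i), hsB E (D i) (hDTr i), ae_mem (D i)]
        with x h2 h3 h4 h5
      have h6 : (E x ∈ L.Φ (C (lB (E x))) ↔ (sB (E x)).down) := by
        by_contra h7; exact h2 h7
      rw [h3, ← h5] at h6
      exact hUlf x (mem_iUnion.2 ⟨i, h4⟩) h6.symm
    -- claim K
    have claimK : ∀ V : Set Λ, #V ≤ Order.succ κ →
        ∃ i : J, ¬ Sm κ {x | x ∈ D i.1 ∧ lf x ∉ V} := by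
      intro V hV
      by_contra hno
      push Not at hno
      obtain ⟨ZV, hZV, hZV'⟩ := exact_base hL (hV.trans hs2) (fun l : V => C l.1)
      have h1 := card_avoid hdisj hν0 J hJ ZV (hZV.trans hν2)
      obtain ⟨⟨i, hiJ, hiZ⟩⟩ : Nonempty {i : I | i ∈ J ∧ Disjoint (D i) ZV} := by
        rw [← mk_ne_zero_iff]
        exact (lt_of_le_of_lt zero_le h1).ne'
      have h2 : ∀ᶠ x in ae κ (D i), lf x ∈ V := by
        rw [eventually_ae]
        exact hno ⟨i, hiJ⟩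
      obtain ⟨x, hx, h3, h4⟩ := ae_exists (hDns i) (h2.and (hZV' (D i) hiZ E (hDTr i)))
      exact hUlf x (mem_iUnion.2 ⟨i, hx⟩) (h4 ⟨lf x, h3⟩)
    haveI hJne : Nonempty J := by
      rw [← mk_ne_zero_iff]
      exact (lt_of_le_of_lt zero_le hJ).ne'
    choose! F hF using claimK
    -- the chain
    let W := (Order.succ (Order.succ κ)).ord.ToType
    have hWc : #W = Order.succ (Order.succ κ) := mk_ord_toType _
    have hWseg : ∀ ζ : W, #(Iio ζ) ≤ Order.succ κ := by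
      intro ζ
      have : #(Iio ζ) < Order.succ (Order.succ κ) := by
        have h1 := mk_Iio_lt ζ (by rw [hWc, Ordinal.type_toType])
        rwa [hWc] at h1
      exact Order.lt_succ_iff.1 this
    let G : I → Set Λ := fun i => lf '' D i ∪ (fun x => lB (E x)) '' D i
    have hGc : ∀ i, #(G i) ≤ Order.succ κ := fun i =>
      (mk_union_le _ _).trans (add_le_of_le hκs (mk_image_le.trans (hDc i))
        (mk_image_le.trans (hDc i)))
    let step : (ζ : W) → ((ξ : W) → ξ < ζ → J) → J := fun ζ f =>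
      F (⋃ ξ : Iio ζ, G (f ξ.1 ξ.2).1)
    let ι : W → J := (wellFounded_lt (α := W)).fix step
    have hι : ∀ ζ, ι ζ = F (⋃ ξ : Iio ζ, G (ι ξ.1).1) := by
      intro ζ
      exact (wellFounded_lt (α := W)).fix_eq step ζ
    let V : W → Set Λ := fun ζ => ⋃ ξ : Iio ζ, G (ι ξ.1).1
    have hVc : ∀ ζ, #(V ζ) ≤ Order.succ κ := fun ζ =>
      card_iUnion_le hκs (hWseg ζ) fun ξ => hGc _
    have hnew : ∀ ζ, ¬ Sm κ {x | x ∈ D (ι ζ).1 ∧ lf x ∉ V ζ} := by
      intro ζ
      have := hF (V ζ) (hVc ζ)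
      rw [← hι ζ] at this
      exact this
    have hGV : ∀ ξ ζ : W, ξ < ζ → G (ι ξ).1 ⊆ V ζ := fun ξ ζ h l hl =>
      mem_iUnion.2 ⟨⟨ξ, h⟩, hl⟩
    have hιlt : ∀ ξ ζ : W, ξ < ζ → ι ξ ≠ ι ζ := by
      intro ξ ζ h heq
      apply hnew ζ
      refine sm_empty.mono ?_
      rintro x ⟨hx, hx'⟩
      exfalso
      apply hx'
      apply hGV ξ ζ h
      rw [heq]
      exact Or.inl ⟨x, hx, rfl⟩
    have hιinj : Function.Injective ι := by
      intro ξ ζ h
      rcases lt_trichotomy ξ ζ with h1 | h1 | h1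
      · exact absurd h (hιlt ξ ζ h1)
      · exact h1
      · exact absurd h.symm (hιlt ζ ξ h1)
    -- colouring
    have hcol : ∀ t : T, ∃ φ : Λ → Prop, ∀ ζ : W, ∀ x ∈ D (ι ζ).1, τ x = t → lf x ∉ V ζ →
        lf x ≠ lB (E x) → (φ (lf x) ↔ ¬ φ (lB (E x))) := by
      intro t
      let p : W → Prop := fun ζ => ∃ x ∈ D (ι ζ).1, τ x = t ∧ lf x ∉ V ζ ∧ lf x ≠ lB (E x)
      obtain ⟨x0, _⟩ : (D0 i0).Nonempty := by
        rw [nonempty_iff_ne_empty]
        intro h
        apply not_sm_of_card (hD0 i0).2.1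
        rw [h]; exact sm_empty
      have hxx : ∀ ζ : W, ∃ x : X, p ζ → (x ∈ D (ι ζ).1 ∧ τ x = t ∧ lf x ∉ V ζ ∧
          lf x ≠ lB (E x)) := by
        intro ζ
        by_cases h : p ζ
        · obtain ⟨x, hx⟩ := h
          exact ⟨x, fun _ => hx⟩
        · exact ⟨x0, fun h' => absurd h' h⟩
      choose xx hxx using hxx
      obtain ⟨φ, hφ⟩ := coloring p (fun ζ => lf (xx ζ)) (fun ζ => lB (E (xx ζ)))
        (fun ζ hζ => (hxx ζ hζ).2.2.2) (by
        intro ξ ζ hξ hζ hlt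
        have h1 := (hxx ζ hζ).2.2.1
        have h2 := (hxx ξ hξ).1
        constructor
        · intro h3
          apply h1
          rw [h3]
          exact hGV ξ ζ hlt (Or.inl ⟨xx ξ, h2, rfl⟩)
        · intro h3
          apply h1
          rw [h3]
          exact hGV ξ ζ hlt (Or.inr ⟨xx ξ, h2, rfl⟩))
      refine ⟨φ, ?_⟩
      intro ζ x hx hxt hxV hxne
      have hpζ : p ζ := ⟨x, hx, hxt, hxV, hxne⟩
      have hxeq : xx ζ = x := by
        apply (hDbij (ι ζ).1).injOn (hxx ζ hpζ).1 hx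
        rw [(hxx ζ hpζ).2.1, hxt]
      have := hφ ζ hpζ
      simp only [hxeq] at this
      exact this
    choose φ hφ using hcol
    obtain ⟨A, hA, hA'⟩ := claimB φ
    have hWdisj : ∀ ξ ζ : W, ξ ≠ ζ → Disjoint (D (ι ξ).1) (D (ι ζ).1) := fun ξ ζ h =>
      hdisj _ _ (fun h' => h (hιinj (Subtype.ext h')))
    obtain ⟨ζ, hζ⟩ : ∃ ζ : W, Disjoint (D (ι ζ).1) A := by
      by_contra hno
      push Not at hno
      have h1 := card_meet_le hWdisj A
      have h2 : {ζ : W | ¬ Disjoint (D (ι ζ).1) A} = Set.univ :=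
        Set.eq_univ_of_forall hno
      rw [h2, mk_univ, hWc] at h1
      exact absurd (h1.trans hA) (not_le.2 (Order.lt_succ _))
    have hsub : D (ι ζ).1 ⊆ (U \ Z3) \ A := fun x hx =>
      ⟨hJZ _ (ι ζ).2 hx, fun h => Set.disjoint_left.1 hζ hx h⟩
    have h1 := hA' _ hsub E (hDTr _)
    have h2 := hab _ (ι ζ).2
    set Y : Set X := {x | x ∈ D (ι ζ).1 ∧ lf x ∉ V ζ} with hY
    have hYD : Y ⊆ D (ι ζ).1 := fun x hx => hx.1
    obtain ⟨x, hx, h3, h4⟩ := ae_exists (hnew ζ) ((ae_mono hYD h1).and (ae_mono hYD h2))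
    have h5 := hφ (τ x) ζ x hx.1 rfl hx.2 h4
    rw [h5] at h3
    by_cases h6 : φ (τ x) (lB (E x))
    · exact (h3.2 h6) h6
    · exact h6 (h3.1 h6))
  refine ⟨Z1 ∪ Z2, (mk_union_le _ _).trans (add_le_of_le hν0 hZ1c hZ2), ?_⟩
  intro Y hY e he
  apply hZ2' Y _ e he
  intro x hx
  exact ⟨fun h => Set.disjoint_left.1 hY hx (Or.inl h),
    fun h => Set.disjoint_left.1 hY hx (Or.inr h)⟩


end MP9708

namespace MP9708


universe u

/-- Consequence: the filter extension property for `c` many sets. -/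
theorem exists_uniform (c : Cardinal.{u}) (hc : c.IsInaccessible) (ht : TreeProperty c)
    (A : c.ord.ToType → Set c.ord.ToType) :
    ∃ s : Set c.ord.ToType, ∀ a : c.ord.ToType,
      c ≤ #{b : c.ord.ToType | ∀ i < a, (b ∈ A i ↔ i ∈ s)} := by
  classical
  have hWc : #c.ord.ToType = c := mk_ord_toType c
  have hseg : ∀ a : c.ord.ToType, #(Iio a) < c := by
    intro a
    have h1 := mk_Iio_lt a (by rw [hWc, Ordinal.type_toType])
    rwa [hWc] at h1
  have hreg := hc.isRegular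
  let T : c.ord.ToType → Type u := fun a =>
    {s : Set (Iio a) // c ≤ #{b : c.ord.ToType | ∀ i : Iio a, (b ∈ A i.1 ↔ i ∈ s)}}
  let p : ∀ a b : c.ord.ToType, a ≤ b → T b → T a := fun a b hab t =>
    ⟨{i : Iio a | (⟨i.1, lt_of_lt_of_le i.2 hab⟩ : Iio b) ∈ t.1}, by
      refine t.2.trans (mk_le_mk_of_subset ?_)
      intro d hd i
      exact hd ⟨i.1, lt_of_lt_of_le i.2 hab⟩⟩
  obtain ⟨s, hs⟩ := ht T p
    (by intro a t; apply Subtype.ext; rfl)
    (by intro a b d hab hbd t; apply Subtype.ext; rfl)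
    (by
      intro a
      let f : c.ord.ToType → Set (Iio a) := fun b => {i | b ∈ A i.1}
      obtain ⟨s, hs⟩ := infinite_pigeonhole_card f c hWc.ge hreg.1 (by
        rw [mk_set, hreg.cof_ord]
        exact hc.isStrongPrelimit (hseg a))
      refine ⟨⟨s, hs.trans (mk_le_mk_of_subset ?_)⟩⟩
      intro b hb i
      have : f b = s := hb
      rw [← this]
      rfl)
    (by
      intro a
      refine (mk_subtype_le _).trans_lt ?_
      rw [mk_set]
      exact hc.isStrongPrelimit (hseg a))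
  have hmax : ∀ i : c.ord.ToType, ∃ a : c.ord.ToType, i < a := by
    intro i
    by_contra hno
    push Not at hno
    have h1 : (Set.univ : Set c.ord.ToType) ⊆ insert i (Iio i) := by
      intro j _
      rcases (hno j).lt_or_eq with h | h
      · exact Or.inr h
      · exact Or.inl h
    have h2 := mk_le_mk_of_subset h1
    rw [mk_univ, hWc] at h2
    exact absurd h2 (not_le.2 (mk_insert_le.trans_lt (add_lt_of_lt hreg.1 (hseg i)
      (one_lt_aleph0.trans_le hreg.1))))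
  choose nx hnx using hmax
  refine ⟨{i | (⟨i, hnx i⟩ : Iio (nx i)) ∈ (s (nx i)).1}, ?_⟩
  intro a
  refine (s a).2.trans (mk_le_mk_of_subset ?_)
  intro b hb i hi
  rw [hb ⟨i, hi⟩]
  -- compare `s a` and `s (nx i)` at `i`
  have key : ∀ a b : c.ord.ToType, ∀ ha : i < a, ∀ hb : i < b, a ≤ b →
      ((⟨i, ha⟩ : Iio a) ∈ (s a).1 ↔ (⟨i, hb⟩ : Iio b) ∈ (s b).1) := by
    intro a b ha hb hab
    rw [← hs a b hab]
    exact Iff.rfl
  rcases le_total a (nx i) with h | h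
  · exact key a (nx i) hi (hnx i) h
  · exact (key (nx i) a (hnx i) hi h).symm

variable {X : Type u} {κ : Cardinal.{u}} [hκ : Fact (ℵ₀ ≤ κ)] {L : Lift κ X}

/-- The weakly compact step. -/
theorem tr_weaklyCompact (hL : TrivSucc L) (S : Set X) (hκS : κ < #S)
    (hc : (#S).IsInaccessible) (ht : TreeProperty #S)
    (ih : ∀ S' ⊆ S, #S' < #S → ∃ e, Tr L e S') : ∃ e, Tr L e S := by
  classical
  have hreg := hc.isRegular
  set c := #S with hcdef
  obtain ⟨f⟩ : Nonempty (c.ord.ToType ≃ S) := by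
    rw [← Cardinal.eq, mk_ord_toType]
  have hWc : #c.ord.ToType = c := mk_ord_toType c
  have hseg : ∀ a : c.ord.ToType, #(Iio a) < c := by
    intro a
    have h1 := mk_Iio_lt a (by rw [hWc, Ordinal.type_toType])
    rwa [hWc] at h1
  let Sa : c.ord.ToType → Set X := fun a => (fun i => (f i : X)) '' Iio a
  have hSaS : ∀ a, Sa a ⊆ S := by
    rintro a _ ⟨i, _, rfl⟩
    exact (f i).2
  have hSac : ∀ a, #(Sa a) < c := fun a => mk_image_le.trans_lt (hseg a)
  choose E hE using fun a => ih (Sa a) (hSaS a) (hSac a)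
  -- values
  let R : Set X := ⋃ a, E a '' Sa a
  have hRc : #R ≤ c := card_iUnion_le hreg.1 hWc.le fun a => mk_image_le.trans (hSac a).le
  -- bounded subsets of `c`
  have hbdd : ∀ B : Set c.ord.ToType, #B < c → ∃ a, ∀ i ∈ B, i < a := by
    intro B hB
    by_contra hno
    push Not at hno
    have h1 : IsCofinal B := by
      intro a
      obtain ⟨i, hi, hia⟩ := hno a
      exact ⟨i, hi, hia⟩
    have h2 := Order.cof_le h1
    rw [Ordinal.cof_toType, hreg.cof_ord] at h2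
    exact absurd h2 (not_le.2 hB)
  have hSne : S.Nonempty := by
    rw [nonempty_iff_ne_empty]
    intro h
    have : c = 0 := by rw [hcdef, h, mk_eq_zero]
    rw [this] at hκS
    exact absurd hκS (not_lt.2 zero_le)
  by_cases hRe : R = ∅
  · -- then `S` would be small: impossible
    exfalso
    obtain ⟨Y, hY, hYc⟩ := exists_succ_subset (κ := κ) (A := S) (not_le.2 hκS)
    have hYlt : #Y < c := by
      rw [hYc]
      exact (Order.succ_le_of_lt (cantor κ)).trans_lt (hc.isStrongPrelimit hκS)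
    obtain ⟨a, ha⟩ := hbdd (f ⁻¹' (Subtype.val ⁻¹' Y)) (by
      refine lt_of_le_of_lt ?_ hYlt
      refine ⟨⟨fun i => ⟨(f i.1 : X), i.2⟩, ?_⟩⟩
      intro i j hij
      apply Subtype.ext
      apply f.injective
      apply Subtype.ext
      exact congrArg (fun z : Y => (z : X)) hij)
    have hYa : Y ⊆ Sa a := by
      intro x hx
      refine ⟨f.symm ⟨x, hY hx⟩, ?_, by simp⟩
      apply ha
      simpa using hx
    obtain ⟨x, hx⟩ : Y.Nonempty := by
      rw [nonempty_iff_ne_empty]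
      rintro rfl
      exact not_sm_of_card hYc sm_empty
    have : E a x ∈ R := mem_iUnion.2 ⟨a, x, hYa hx, rfl⟩
    rw [hRe] at this
    exact this
  have hRne : R.Nonempty := nonempty_iff_ne_empty.2 hRe
  obtain ⟨s0, hs0⟩ := hSne
  obtain ⟨r0, hr0⟩ := hRne
  -- enumeration of `S × R`
  have hprod : #(S × R) ≤ c := by
    rw [mk_prod, lift_id, lift_id]
    exact (mul_le_mul' le_rfl hRc).trans (mul_eq_self hreg.1).le
  obtain ⟨g⟩ : Nonempty ((S × R) ↪ c.ord.ToType) := by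
    rw [← Cardinal.le_def, hWc]; exact hprod
  let A : c.ord.ToType → Set c.ord.ToType := fun i =>
    {b | ∀ q : S × R, g q = i → E b q.1 = q.2}
  obtain ⟨s, hs⟩ := exists_uniform c hc ht A
  have hA : ∀ q : S × R, ∀ b, (b ∈ A (g q) ↔ E b q.1 = q.2) := by
    intro q b
    constructor
    · intro h; exact h q rfl
    · intro h q' hq'
      rw [g.injective hq']; exact h
  -- unboundedly many members
  have hpos : ∀ a a' : c.ord.ToType, ∃ b, a' ≤ b ∧ ∀ i < a, (b ∈ A i ↔ i ∈ s) := by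
    intro a a'
    by_contra hno
    push Not at hno
    have h1 : {b : c.ord.ToType | ∀ i < a, (b ∈ A i ↔ i ∈ s)} ⊆ Iio a' := by
      intro b hb
      by_contra h
      rw [mem_Iio, not_lt] at h
      obtain ⟨i, hi, hi'⟩ := hno b h
      rcases hi' with ⟨h2, h3⟩ | ⟨h2, h3⟩
      · exact h3 ((hb i hi).1 h2)
      · exact h2 ((hb i hi).2 h3)
    exact absurd ((hs a).trans (mk_le_mk_of_subset h1)) (not_le.2 (hseg a'))
  have huniq : ∀ x : S, ∀ y y' : R, g (x, y) ∈ s → g (x, y') ∈ s → y = y' := by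
    intro x y y' hy hy'
    obtain ⟨a, ha⟩ := hbdd {g (x, y), g (x, y')} (by
      have : #({g (x, y), g (x, y')} : Set c.ord.ToType) < ℵ₀ := by
        rw [mk_lt_aleph0_iff]
        exact (Set.toFinite _)
      exact this.trans_le hreg.1)
    obtain ⟨b, _, hb⟩ := hpos a a
    have h1 := (hA (x, y) b).1 ((hb _ (ha _ (by simp))).2 hy)
    have h2 := (hA (x, y') b).1 ((hb _ (ha _ (by simp))).2 hy')
    apply Subtype.ext
    exact h1.symm.trans h2
  let e : X → X := fun x => if h : ∃ (hx : x ∈ S) (y : R), g (⟨x, hx⟩, y) ∈ s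
    then (h.choose_spec.choose : X) else x
  have he : ∀ x (hx : x ∈ S) (y : R), g (⟨x, hx⟩, y) ∈ s → e x = y := by
    intro x hx y hy
    have h : ∃ (hx : x ∈ S) (y : R), g (⟨x, hx⟩, y) ∈ s := ⟨hx, y, hy⟩
    have h2 : e x = h.choose_spec.choose := dif_pos h
    rw [h2]
    exact congrArg Subtype.val (huniq ⟨x, hx⟩ _ y h.choose_spec.choose_spec hy)
  refine ⟨e, tr_of_agree hL ?_⟩
  intro Y hY hYc g' hg'
  have hYlt : ∀ Y' ⊆ Y, #Y' < c := by
    intro Y' hY'
    refine (mk_le_mk_of_subset hY').trans_lt ?_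
    rw [hYc]
    exact (Order.succ_le_of_lt (cantor κ)).trans_lt (hc.isStrongPrelimit hκS)
  obtain ⟨a, ha⟩ := hbdd (f ⁻¹' (Subtype.val ⁻¹' Y)) (by
    refine lt_of_le_of_lt ?_ (hYlt Y subset_rfl)
    refine ⟨⟨fun i => ⟨(f i.1 : X), i.2⟩, ?_⟩⟩
    intro i j hij
    apply Subtype.ext
    apply f.injective
    apply Subtype.ext
    exact congrArg (fun z : Y => (z : X)) hij)
  have hSa_of : ∀ a, ∀ x (hx : x ∈ S), f.symm ⟨x, hx⟩ < a → x ∈ Sa a := by
    intro a x hx h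
    exact ⟨f.symm ⟨x, hx⟩, h, by simp⟩
  have hYa : Y ⊆ Sa a := by
    intro x hx
    apply hSa_of a x (hY hx)
    apply ha
    simpa using hx
  have h1 : ∀ᶠ x in ae κ Y, g' x = E a x := by
    have := hg'.coherent ((hE a).mono hYa)
    rwa [inter_self] at this
  suffices h2 : ∀ᶠ x in ae κ Y, E a x = e x by
    filter_upwards [h1, h2] with x h3 h4
    rw [h3, h4]
  apply ae_of_not_sm_false
  intro D hD hDc hne
  have hDS : D ⊆ S := hD.trans hY
  have hDa : D ⊆ Sa a := hD.trans hYa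
  let idx : D → c.ord.ToType := fun x => g (⟨x.1, hDS x.2⟩,
    ⟨E a x.1, mem_iUnion.2 ⟨a, x.1, hDa x.2, rfl⟩⟩)
  obtain ⟨a', ha'⟩ := hbdd (range idx) (mk_range_le.trans_lt (hYlt D hD))
  have hout : ∀ x : D, idx x ∉ s := by
    intro x hx
    apply hne x.1 x.2
    exact (he x.1 (hDS x.2) _ hx).symm
  obtain ⟨b, hab, hb⟩ := hpos a' a
  have hDb : D ⊆ Sa b := by
    intro x hx
    obtain ⟨i, hi, hix⟩ := hDa hx
    exact ⟨i, lt_of_lt_of_le hi hab, hix⟩
  have hco := ((hE a).mono hDa).coherent ((hE b).mono hDb)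
  rw [inter_self] at hco
  obtain ⟨x, hx, h5⟩ := ae_exists (not_sm_of_card hDc) hco
  apply hout ⟨x, hx⟩
  rw [← hb _ (ha' _ ⟨⟨x, hx⟩, rfl⟩)]
  rw [hA]
  exact h5.symm


end MP9708

namespace MP9708


universe u

variable {X : Type u} {κ : Cardinal.{u}} [hκ : Fact (ℵ₀ ≤ κ)] {L : Lift κ X}

/-- A separating, exactly respected family trivialises. -/
theorem tr_of_separating (hL : TrivSucc L) {Λ : Type u} (C : Λ → Set X) (Z S : Set X)
    (hex : ExactOff L C Z)
    (hsep : ∀ x ∈ S, ∀ x' ∈ S, (∀ l, (x ∈ C l ↔ x' ∈ C l)) → x = x') :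
    ∃ e, Tr L e (S \ Z) := by
  classical
  have hexS : ∀ Y ⊆ S \ Z, ∀ e, Tr L e Y → ∀ᶠ x in ae κ Y, ∀ l, (x ∈ C l ↔ e x ∈ L.Φ (C l)) := by
    intro Y hY e he
    apply hex Y _ e he
    rw [Set.disjoint_left]
    intro x hx
    exact (hY hx).2
  let E' : X → Set X := fun x => {y | y ∈ L.Φ (S \ Z) ∧ ∀ l, (x ∈ C l ↔ y ∈ L.Φ (C l))}
  let es : X → X := fun x => if h : (E' x).Nonempty then h.choose else x
  have hes : ∀ x y, y ∈ E' x → es x ∈ E' x := by
    intro x y hy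
    have h : (E' x).Nonempty := ⟨y, hy⟩
    simp only [es, dif_pos h]
    exact h.choose_spec
  have hdisj : ∀ x ∈ S, ∀ x' ∈ S, ∀ y, y ∈ E' x → y ∈ E' x' → x = x' := by
    intro x hx x' hx' y hy hy'
    apply hsep x hx x' hx'
    intro l
    rw [hy.2 l, hy'.2 l]
  refine ⟨es, tr_of_agree hL ?_⟩
  intro Y hY hYc e he
  apply ae_of_not_sm_false
  intro Y1 hY1 hY1c hne
  have hY1S : Y1 ⊆ S \ Z := hY1.trans hY
  have he1 : Tr L e Y1 := he.mono hY1
  have h1 : ∀ᶠ x in ae κ Y1, e x ∈ E' x := by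
    filter_upwards [hexS Y1 hY1S e he1, he1.iff_phi (S \ Z), ae_mem Y1] with x h2 h3 h4
    exact ⟨h3.1 (hY1S h4), h2⟩
  set Y2 : Set X := {x | x ∈ Y1 ∧ e x ∈ E' x} with hY2
  have hY2ns : ¬ Sm κ Y2 := not_sm_of_ae (not_sm_of_card hY1c) h1
  have hinj : InjOn es Y2 := by
    intro x hx x' hx' heq
    apply hdisj x (hY1S hx.1).1 x' (hY1S hx'.1).1 (es x) (hes x _ hx.2)
    rw [heq]
    exact hes x' _ hx'.2
  have hW : ¬ Sm κ (es '' Y2 ∩ L.Φ (S \ Z)) := by
    intro h2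
    apply hY2ns
    have h3 : es '' Y2 ⊆ es '' Y2 ∩ L.Φ (S \ Z) := by
      rintro _ ⟨x, hx, rfl⟩
      exact ⟨⟨x, hx, rfl⟩, (hes x _ hx.2).1⟩
    have h4 := h2.mono h3
    rw [Sm, mk_image_eq_of_injOn _ _ hinj] at h4
    exact h4
  obtain ⟨Y3, hY3, hY3c, e3, he3, h4⟩ := exists_transfer hL hW
  have hco : ∀ᶠ x in ae κ Y3, x ∈ Y1 → e3 x = e x := by
    have := he3.coherent he1
    rw [eventually_ae] at this ⊢
    refine this.mono ?_
    rintro x ⟨hx, hx'⟩
    push Not at hx'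
    exact ⟨⟨hx, hx'.1⟩, hx'.2⟩
  obtain ⟨x, hx, ⟨h5, h6⟩, h7, h8⟩ := ae_exists (not_sm_of_card hY3c)
    ((h4.and (hexS Y3 hY3 e3 he3)).and (hco.and (he3.iff_phi (S \ Z))))
  obtain ⟨x2, hx2, hx2e⟩ := h5
  have h9 : e3 x ∈ E' x := ⟨h8.1 (hY3 hx), h6⟩
  have h10 : e3 x ∈ E' x2 := by
    rw [← hx2e]; exact hes x2 _ hx2.2
  have h11 : x = x2 := hdisj x (hY3 hx).1 x2 (hY1S hx2.1).1 _ h9 h10
  subst h11
  apply hne x hx2.1
  rw [← h7 hx2.1, hx2e]

theorem exists_separating (S : Set X) {ν : Cardinal.{u}} (h : #S ≤ 2 ^ ν) :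
    ∃ (Λ : Type u) (C : Λ → Set X), #Λ = ν ∧
      ∀ x ∈ S, ∀ x' ∈ S, (∀ l, (x ∈ C l ↔ x' ∈ C l)) → x = x' := by
  obtain ⟨K, rfl⟩ : ∃ K : Type u, #K = ν := ⟨ν.out, mk_out ν⟩
  rw [← mk_set] at h
  obtain ⟨c⟩ := h
  refine ⟨K, fun n => {x | ∃ hx : x ∈ S, n ∈ c ⟨x, hx⟩}, rfl, ?_⟩
  intro x hx x' hx' hxx
  have h1 : c ⟨x, hx⟩ = c ⟨x', hx'⟩ := by
    ext n
    have := hxx n
    simp only [mem_setOf_eq, hx, hx', exists_true_left] at this
    exact this
  exact congrArg Subtype.val (c.injective h1)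

/-- A singular limit cover step. -/
theorem tr_singular (hL : TrivSucc L) (S : Set X) {I : Type u} (P : I → Set X)
    (hcov : S ⊆ ⋃ i, P i) (hI : #I < #S) (hlim : ∀ μ < #S, Order.succ μ < #S) (hκS : κ < #S)
    (hP : ∀ i, ∃ e, Tr L e (P i))
    (ih : ∀ S' ⊆ S, #S' < #S → ∃ e, Tr L e S') : ∃ e, Tr L e S := by
  classical
  have hκs : ℵ₀ ≤ Order.succ κ := hκ.out.trans (Order.le_succ κ)
  choose eP heP using hP
  have hsel : ∀ x : X, ∃ i : I, x ∈ S → x ∈ P i := by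
    intro x
    by_cases hx : x ∈ S
    · obtain ⟨i, hi⟩ := mem_iUnion.1 (hcov hx)
      exact ⟨i, fun _ => hi⟩
    · -- `I` is nonempty
      have hS : S.Nonempty := by
        rw [nonempty_iff_ne_empty]
        rintro rfl
        rw [mk_eq_zero] at hκS
        exact absurd hκS (not_lt.2 zero_le)
      obtain ⟨y, hy⟩ := hS
      obtain ⟨i, hi⟩ := mem_iUnion.1 (hcov hy)
      exact ⟨i, fun h => absurd h hx⟩
  choose i hi using hsel
  let e : X → X := fun x => eP (i x) x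
  have hPe : ∀ j, Tr L e {x | x ∈ S ∧ i x = j} := by
    intro j
    refine Tr.congr ((heP j).mono (Y := {x | x ∈ S ∧ i x = j}) ?_) ?_
    · rintro x ⟨hx, rfl⟩
      exact hi x hx
    · rintro x ⟨hx, rfl⟩
      rfl
  set μ : Cardinal.{u} := max #I (Order.succ κ) with hμ
  have hμS : μ < #S := max_lt hI (hlim κ hκS)
  have hμ0 : ℵ₀ ≤ μ := hκs.trans (le_max_right _ _)
  obtain ⟨Z, hZ, hZ'⟩ := packing (κ := κ) (L := L) (fun x y => y = e x) S (le_max_right #I _) (by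
    intro J D E hdisj hD
    by_contra hJ
    rw [not_le] at hJ
    have hJ' : Order.succ μ ≤ #J := Order.succ_le_of_lt hJ
    obtain ⟨J', hJ'c⟩ := le_mk_iff_exists_set.1 hJ'
    set U : Set X := ⋃ j : J', D j.1 with hU
    have hsμ : ℵ₀ ≤ Order.succ μ := hμ0.trans (Order.le_succ μ)
    have hUc : #U ≤ Order.succ μ := by
      apply card_iUnion_le hsμ hJ'c.le
      intro j
      rw [(hD j.1).2.1]
      exact (le_max_right _ _).trans (Order.le_succ μ)
    have hUS : U ⊆ S := iUnion_subset fun j => (hD j.1).1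
    obtain ⟨eU, heU⟩ := ih U hUS (hUc.trans_lt (hlim μ hμS))
    set B : Set X := {x | x ∈ U ∧ eU x ≠ e x} with hB
    have hBc : #B ≤ μ := by
      have h1 : ∀ k : I, Sm κ {x | x ∈ U ∩ {x | x ∈ S ∧ i x = k} ∧ ¬ (eU x = e x)} := by
        intro k
        exact heU.coherent (hPe k)
      refine (mk_le_mk_of_subset
        (t := ⋃ k : I, {x | x ∈ U ∩ {x | x ∈ S ∧ i x = k} ∧ ¬ (eU x = e x)}) ?_).trans
        (card_iUnion_le hμ0 (le_max_left _ _) fun k =>
          ((h1 k).trans (Order.le_succ κ)).trans (le_max_right _ _))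
      rintro x ⟨hx, hx'⟩
      exact mem_iUnion.2 ⟨i x, ⟨hx, hUS hx, rfl⟩, hx'⟩
    have hdisj' : ∀ j k : J', j ≠ k → Disjoint (D j.1) (D k.1) := fun j k hjk =>
      hdisj _ _ fun h => hjk (Subtype.ext h)
    obtain ⟨j, hj⟩ : ∃ j : J', Disjoint (D j.1) B := by
      by_contra hno
      push Not at hno
      have h1 := card_meet_le hdisj' B
      have h2 : {j : J' | ¬ Disjoint (D j.1) B} = Set.univ := Set.eq_univ_of_forall hno
      rw [h2, mk_univ, hJ'c] at h1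
      exact absurd (h1.trans hBc) (not_le.2 (Order.lt_succ _))
    have hDU : D j.1 ⊆ U := fun x hx => mem_iUnion.2 ⟨j, hx⟩
    have h1 := (hD j.1).2.2.1.coherent (heU.mono hDU)
    rw [inter_self] at h1
    obtain ⟨x, hx, h2⟩ := ae_exists (not_sm_of_card (hD j.1).2.1) h1
    apply (hD j.1).2.2.2 x hx
    rw [h2]
    by_contra h3
    exact Set.disjoint_left.1 hj hx ⟨hDU hx, h3⟩)
  have h1 : Tr L e (S \ Z) := tr_of_agree hL fun Y hY _ g hg => hZ' Y hY g hg
  obtain ⟨e2, he2⟩ := ih (S ∩ Z) inter_subset_left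
    ((mk_le_mk_of_subset inter_subset_right).trans_lt (hZ.trans_lt hμS))
  obtain ⟨f, hf⟩ := h1.union he2 hL
  refine ⟨f, hf.mono ?_⟩
  intro x hx
  by_cases h : x ∈ Z
  · exact Or.inr ⟨hx, h⟩
  · exact Or.inl ⟨hx, h⟩

/-- The main step: if everything smaller than `S` is trivialised, then so is `S`, unless `|S|` is
inaccessible without the tree property. -/
theorem main_step (hL : TrivSucc L) (S : Set X) (hS : (#S).IsInaccessible → TreeProperty #S)
    (ih : ∀ S' ⊆ S, #S' < #S → ∃ e, Tr L e S') : ∃ e, Tr L e S := by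
  have hs2 : Order.succ κ ≤ 2 ^ κ := Order.succ_le_of_lt (cantor κ)
  have hκs : ℵ₀ ≤ Order.succ κ := hκ.out.trans (Order.le_succ κ)
  by_cases h1 : #S ≤ 2 ^ κ
  · -- small case
    obtain ⟨Λ, C, hΛ, hsep⟩ := exists_separating S h1
    obtain ⟨e, he⟩ := tr_of_separating hL C ∅ S (fun Y _ e he =>
      ae_all hΛ.le fun l => he.iff_phi (C l)) hsep
    exact ⟨e, by simpa using he⟩
  rw [not_le] at h1
  by_cases h2 : ∃ μ < #S, #S ≤ 2 ^ μ
  · obtain ⟨μ, hμ, hμ'⟩ := h2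
    have h3 : #S ≤ 2 ^ (max μ (2 ^ κ)) :=
      hμ'.trans (power_le_power_left two_ne_zero (le_max_left _ _))
    obtain ⟨Λ, C, hΛ, hsep⟩ := exists_separating S h3
    obtain ⟨Z, hZ, hZ'⟩ := exact_family hL (max μ (2 ^ κ)) Λ hΛ.le C
    rw [max_eq_left (le_max_right μ _)] at hZ
    obtain ⟨e1, he1⟩ := tr_of_separating hL C Z S hZ' hsep
    obtain ⟨e2, he2⟩ := ih (S ∩ Z) inter_subset_left
      ((mk_le_mk_of_subset inter_subset_right).trans_lt (hZ.trans_lt (max_lt hμ h1)))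
    obtain ⟨f, hf⟩ := he1.union he2 hL
    refine ⟨f, hf.mono ?_⟩
    intro x hx
    by_cases h : x ∈ Z
    · exact Or.inr ⟨hx, h⟩
    · exact Or.inl ⟨hx, h⟩
  · push Not at h2
    have hκS : κ < #S := (cantor κ).trans h1
    have h0S : ℵ₀ < #S := hκ.out.trans_lt hκS
    by_cases hcof' : #S ≤ (#S).ord.cof
    · have hc : (#S).IsInaccessible := ⟨h0S, hcof', fun μ hμ => h2 μ hμ⟩
      exact tr_weaklyCompact hL S hκS hc (hS hc) ih
    have hcof : (#S).ord.cof < #S := not_le.1 hcof'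
    have hlim : ∀ μ < #S, Order.succ μ < #S := fun μ hμ =>
      (Order.succ_le_of_lt (cantor μ)).trans_lt (h2 μ hμ)
    obtain ⟨lo, wf, hord⟩ := exists_ord_eq_type_lt S
    obtain ⟨c, hc, hc'⟩ := Order.exists_cof_eq S
    have hcc : #c = (#S).ord.cof := by
      rw [hc', hord, Ordinal.cof_type]
    refine tr_singular hL S (I := c) (fun i => Subtype.val '' Iic i.1) ?_ ?_ hlim hκS ?_ ih
    · intro x hx
      obtain ⟨b, hb, hb'⟩ := hc ⟨x, hx⟩
      exact mem_iUnion.2 ⟨⟨b, hb⟩, ⟨x, hx⟩, hb', rfl⟩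
    · rw [hcc]; exact hcof
    · intro i
      apply ih
      · rintro _ ⟨y, _, rfl⟩
        exact y.2
      · refine mk_image_le.trans_lt ?_
        exact mk_Iic_lt i.1 hord h0S.le

/-- The main theorem at the level of liftings: a subset of `S` of minimal cardinality which is not
trivialised has inaccessible cardinality without the tree property. -/
theorem main (hL : TrivSucc L) (S : Set X) (hS : ¬ ∃ e, Tr L e S) :
    ∃ Z ⊆ S, κ < #Z ∧ (#Z).IsInaccessible ∧ ¬ TreeProperty #Z ∧ (¬ ∃ e, Tr L e Z) ∧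
      ∀ Y ⊆ S, #Y < #Z → ∃ e, Tr L e Y := by
  obtain ⟨c, ⟨Z, hZS, hZc, hZ⟩, hmin⟩ := WellFounded.has_min (wellFounded_lt (α := Cardinal.{u}))
    {c | ∃ Z ⊆ S, #Z = c ∧ ¬ ∃ e, Tr L e Z} ⟨#S, S, subset_rfl, rfl, hS⟩
  have hsmall : ∀ Y ⊆ S, #Y < #Z → ∃ e, Tr L e Y := by
    intro Y hY hlt
    by_contra hno
    exact hmin #Y ⟨Y, hY, rfl, hno⟩ (hlt.trans_eq hZc)
  have h1 : ¬ ((#Z).IsInaccessible → TreeProperty #Z) := fun h =>
    hZ (main_step hL Z h fun Y hY hlt => hsmall Y (hY.trans hZS) hlt)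
  push Not at h1
  refine ⟨Z, hZS, ?_, h1.1, h1.2, hZ, hsmall⟩
  by_contra h2
  rw [not_lt] at h2
  exact hZ ⟨id, tr_of_agree hL fun Y hY hYc => absurd (Sm.mono (κ := κ) h2 hY)
    (not_sm_of_card hYc)⟩

end MP9708
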